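import Pool.Agent.Lib.MP_52aaf2_al.EX.StmG

/-!
# MP_52aaf2_al, project EX: the linear algebra step of the one-variable Ax theorem
-/

namespace MP52exp

section

variable {C M : Type} [Field C] [Field M] [Algebra C M]

/-- the forms `δ ↦ δ e_i / e_i - δ u_i` -/
noncomputable def ax1om (N : ℕ) (u e : Fin N → M) : Derivation C M M →ₗ[M] (Fin N → M) where
  toFun δ := fun i => δ (e i) / e i - δ (u i)
  map_add' δ δ' := by
    ext i
    simp only [Derivation.add_apply, Pi.add_apply]
    ring
  map_smul' a δ := by
    ext i
    simp only [Derivation.smul_apply, smul_eq_mul, RingHom.id_apply, Pi.smul_apply]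
    ring

theorem ax1om_apply (N : ℕ) (u e : Fin N → M) (δ : Derivation C M M) (i : Fin N) :
    ax1om N u e δ i = δ (e i) / e i - δ (u i) := rfl

/-- restriction of derivations to a set -/
noncomputable def ax1res (B : Set M) : Derivation C M M →ₗ[M] (B → M) where
  toFun δ := fun b => δ b
  map_add' δ δ' := by
    ext i
    simp only [Derivation.add_apply, Pi.add_apply]
  map_smul' a δ := by
    ext i
    simp only [Derivation.smul_apply, smul_eq_mul, RingHom.id_apply, Pi.smul_apply]

theorem ax1res_apply (B : Set M) (δ : Derivation C M M) (b : B) :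
    ax1res B δ b = δ b := rfl

/-- if `ker R ≤ ker ω`, `R` has values in a space of dimension at most `N`, and `ω D = 0`,
`R D ≠ 0`, then `ω` is not onto `M^N` -/
theorem ax1_lin {V W : Type} [AddCommGroup V] [Module M V] [AddCommGroup W] [Module M W]
    [FiniteDimensional M W] (N : ℕ) (hW : Module.finrank M W ≤ N) (R : V →ₗ[M] W)
    (om : V →ₗ[M] (Fin N → M)) (hk : ∀ x, R x = 0 → om x = 0) (D : V) (h1 : om D = 0)
    (h2 : R D ≠ 0) : ∃ a : Fin N → M, a ≠ 0 ∧ ∀ x, ∑ i, a i * om x i = 0 := by
  classical
  have hlt : LinearMap.range om < ⊤ := by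
    rw [lt_top_iff_ne_top]
    intro htop
    obtain ⟨s, hs⟩ := LinearMap.exists_rightInverse_of_surjective R.rangeRestrict
      (LinearMap.range_rangeRestrict R)
    have hsR : ∀ y : LinearMap.range R, R.rangeRestrict (s y) = y := by
      intro y
      exact LinearMap.congr_fun hs y
    let g : LinearMap.range R →ₗ[M] (Fin N → M) := om ∘ₗ s
    have hg : ∀ x, g (R.rangeRestrict x) = om x := by
      intro x
      have e1 : R.rangeRestrict (s (R.rangeRestrict x) - x) = 0 := by
        rw [map_sub, hsR, sub_self]
      have e2 : R (s (R.rangeRestrict x) - x) = 0 := by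
        have := congrArg Subtype.val e1
        simpa using this
      have e3 := hk _ e2
      rw [map_sub, sub_eq_zero] at e3
      exact e3
    have hgs : Function.Surjective g := by
      intro v
      have : v ∈ LinearMap.range om := by rw [htop]; trivial
      obtain ⟨x, hx⟩ := this
      exact ⟨R.rangeRestrict x, by rw [hg, hx]⟩
    have hfr : Module.finrank M (LinearMap.range R) ≤ Module.finrank M (Fin N → M) := by
      rw [Module.finrank_fin_fun]
      exact (Submodule.finrank_le _).trans hW
    have hfr2 : Module.finrank M (Fin N → M) ≤ Module.finrank M (LinearMap.range R) :=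
      LinearMap.finrank_le_finrank_of_surjective hgs
    have hgi : Function.Injective g :=
      (LinearMap.injective_iff_surjective_of_finrank_eq_finrank (le_antisymm hfr hfr2)).2 hgs
    apply h2
    have e4 : g (R.rangeRestrict D) = g 0 := by rw [hg, h1, map_zero]
    have e5 := hgi e4
    have := congrArg Subtype.val e5
    simpa using this
  obtain ⟨f, hf0, hf⟩ := Submodule.exists_le_ker_of_lt_top _ hlt
  refine ⟨fun i => f (Pi.single i 1), ?_, ?_⟩
  · intro h0
    apply hf0
    apply LinearMap.pi_ext'
    intro i
    apply LinearMap.ext_ring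
    have := congrFun h0 i
    simpa using this
  · intro x
    have h3 : f (om x) = 0 := hf ⟨x, rfl⟩
    have h4 : om x = ∑ i, om x i • (Pi.single i (1 : M) : Fin N → M) := by
      ext j
      simp [Finset.sum_apply, Pi.single_apply]
    rw [h4, map_sum] at h3
    rw [← h3]
    refine Finset.sum_congr rfl fun i _ => ?_
    rw [map_smul, smul_eq_mul, mul_comm]

theorem ax1_comm (N : ℕ) (u e : Fin N → M) (he : ∀ i, e i ≠ 0) (D : Derivation C M M)
    (hD : ∀ i, D (e i) = e i * D (u i)) (δ : Derivation C M M) (i : Fin N) :
    D (ax1om N u e δ i) = ax1om N u e ⁅D, δ⁆ i := by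
  have h0 := he i
  have h1 : D (δ (e i)) = D (e i * (δ (e i) / e i)) := by
    rw [mul_div_cancel₀ _ h0]
  rw [D.leibniz, smul_eq_mul, smul_eq_mul, hD] at h1
  have h2 : δ (D (e i)) = e i * δ (D (u i)) + D (u i) * δ (e i) := by
    rw [hD, δ.leibniz, smul_eq_mul, smul_eq_mul]
  have h3 : D (δ (e i) / e i) = (D (δ (e i)) - δ (e i) * D (u i)) / e i := by
    rw [h1]
    field_simp
    ring
  rw [ax1om_apply, ax1om_apply, map_sub, h3, Derivation.commutator_apply,
    Derivation.commutator_apply, h2]
  field_simp
  ring

end

theorem P_ax1 (h : Dst) : Ax1 := by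
  classical
  intro C M _ _ _ _ D hconst N u e he hDe hne hrk
  -- a basis of the set of all `u_i, e_i`
  obtain ⟨B, hB⟩ := (AlgebraicIndependent.matroid C M).exists_isBasis
    (Set.range u ∪ Set.range e) (by simp)
  have hBcard : B.encard ≤ N := by
    rw [hB.encard_eq_eRk]
    exact hrk
  have hBfin : B.Finite := Set.finite_of_encard_le_coe hBcard
  have hS : ∀ x ∈ Set.range u ∪ Set.range e, x ∈ acl C B := by
    intro x hx
    rw [mem_acl_iff_closure, hB.closure_eq_closure, ← mem_acl_iff_closure]
    exact subset_acl _ hx
  have hkill : ∀ δ : Derivation C M M, (∀ b ∈ B, δ b = 0) →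
      ∀ x ∈ Set.range u ∪ Set.range e, δ x = 0 := by
    intro δ hδ x hx
    exact (h C M B δ).2 hδ x (hS x hx)
  have : Fintype B := hBfin.fintype
  have hfr : Module.finrank M (B → M) ≤ N := by
    rw [Module.finrank_fintype_fun_eq_card]
    have h1 : B.encard = Fintype.card B := by
      rw [Set.encard_eq_coe_toFinset_card, Set.toFinset_card]
    rw [h1] at hBcard
    exact_mod_cast hBcard
  obtain ⟨a, ha0, ha⟩ := ax1_lin N hfr (ax1res B) (ax1om (C := C) N u e)
    (by
      intro δ hδ
      have h1 : ∀ b ∈ B, δ b = 0 := fun b hb => congrFun hδ ⟨b, hb⟩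
      ext i
      rw [ax1om_apply, hkill δ h1 (u i) (Or.inl ⟨i, rfl⟩), hkill δ h1 (e i) (Or.inr ⟨i, rfl⟩)]
      simp) D
    (by
      ext i
      rw [ax1om_apply, hDe, mul_div_cancel_left₀ _ (he i)]
      simp)
    (by
      intro h0
      obtain ⟨i, hi⟩ := hne
      exact hi (hkill D (fun b hb => congrFun h0 ⟨b, hb⟩) (u i) (Or.inl ⟨i, rfl⟩)))
  -- descent on the support
  have key : ∀ n : ℕ, ∀ a : Fin N → M, a ≠ 0 →
      (∀ δ : Derivation C M M, ∑ i, a i * ax1om N u e δ i = 0) →
      (Finset.univ.filter fun i => a i ≠ 0).card = n →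
      ∃ c : Fin N → C, c ≠ 0 ∧ ∀ δ : Derivation C M M,
        ∑ i, algebraMap C M (c i) * (δ (e i) / e i - δ (u i)) = 0 := by
    intro n
    induction n using Nat.strong_induction_on with
    | _ n ih =>
      intro a ha0 ha hn
      obtain ⟨j, hj⟩ : ∃ j, a j ≠ 0 := by
        by_contra hcon
        push Not at hcon
        exact ha0 (funext hcon)
      -- scale
      set a' : Fin N → M := fun i => (a j)⁻¹ * a i with ha'
      have ha'j : a' j = 1 := by
        rw [ha']
        exact inv_mul_cancel₀ hj
      have ha'W : ∀ δ : Derivation C M M, ∑ i, a' i * ax1om N u e δ i = 0 := by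
        intro δ
        have h1 : ∑ i, a' i * ax1om N u e δ i = (a j)⁻¹ * ∑ i, a i * ax1om N u e δ i := by
          rw [Finset.mul_sum]
          refine Finset.sum_congr rfl fun i _ => ?_
          rw [ha']
          ring
        rw [h1, ha δ, mul_zero]
      by_cases hz : (fun i => D (a' i)) = 0
      · -- all constant
        have hc : ∀ i, ∃ c : C, algebraMap C M c = a' i := fun i => hconst _ (congrFun hz i)
        choose c hc using hc
        refine ⟨c, ?_, ?_⟩
        · intro hc0
          have h1 := hc j
          rw [hc0, ha'j, Pi.zero_apply, map_zero] at h1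
          exact one_ne_zero h1.symm
        · intro δ
          rw [← ha'W δ]
          refine Finset.sum_congr rfl fun i _ => ?_
          rw [hc, ax1om_apply]
      · refine ih _ ?_ (fun i => D (a' i)) hz ?_ rfl
        · rw [← hn]
          apply Finset.card_lt_card
          rw [Finset.ssubset_iff_of_subset]
          · refine ⟨j, by simp [hj], ?_⟩
            simp only [Finset.mem_filter, Finset.mem_univ, true_and, not_not]
            rw [ha'j]
            exact D.map_one_eq_zero
          · intro i hi
            simp only [Finset.mem_filter, Finset.mem_univ, true_and] at hi ⊢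
            intro h0
            apply hi
            rw [ha']
            simp only [h0, mul_zero, map_zero]
        · intro δ
          have h1 : D (∑ i, a' i * ax1om N u e δ i) = 0 := by rw [ha'W δ, map_zero]
          rw [map_sum] at h1
          have h2 : ∀ i, D (a' i * ax1om N u e δ i)
              = a' i * ax1om N u e ⁅D, δ⁆ i + D (a' i) * ax1om N u e δ i := by
            intro i
            rw [D.leibniz, ax1_comm N u e he D hDe δ i, smul_eq_mul, smul_eq_mul]
            ring
          simp only [h2] at h1
          rw [Finset.sum_add_distrib, ha'W ⁅D, δ⁆, zero_add] at h1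
          exact h1
  exact key _ a ha0 ha rfl

end MP52exp
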