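import Pool.Agent.Lib.MP_52aaf2_al.EX.StmG
import Pool.Agent.Lib.MP_52aaf2_al.Theta

/-!
# MP_52aaf2_al, project EX: `Ax2` from `Ax3`, and `Ax` from `Ax1` and `Ax2` (helper93)
-/

open Polynomial IntermediateField

namespace MP52exp

/-- a finite family in a field of characteristic zero has integer coordinates in a family which is
linearly independent over the integers -/
private theorem ax2_basis {C : Type} [Field C] [CharZero C] {N : ℕ} (c : Fin N → C) :
    ∃ (d : ℕ) (ε : Fin d → C) (n : Fin N → Fin d → ℤ),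
      (∀ a : Fin d → ℤ, ∑ j, (a j : C) * ε j = 0 → a = 0) ∧
        ∀ i, c i = ∑ j, (n i j : C) * ε j := by
  let G : Submodule ℤ C := Submodule.span ℤ (Set.range c)
  have hfin : Module.Finite ℤ G := Module.Finite.span_of_finite ℤ (Set.finite_range c)
  let b := Module.finBasis ℤ G
  have hmem : ∀ i, c i ∈ G := fun i => Submodule.subset_span ⟨i, rfl⟩
  refine ⟨Module.finrank ℤ G, fun j => (b j : C), fun i j => b.repr ⟨c i, hmem i⟩ j, ?_, ?_⟩
  · intro a ha
    have h1 : ∑ j, a j • b j = 0 := by
      apply Subtype.ext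
      rw [← G.subtype_apply, ← G.subtype_apply, map_sum, map_zero, ← ha]
      refine Finset.sum_congr rfl fun j _ => ?_
      rw [map_zsmul, zsmul_eq_mul]
      rfl
    have h2 := Fintype.linearIndependent_iff.1 b.linearIndependent a h1
    funext j
    exact h2 j
  · intro i
    have h1 := congrArg G.subtype (b.sum_repr ⟨c i, hmem i⟩)
    rw [map_sum] at h1
    change _ = c i at h1
    rw [← h1]
    refine Finset.sum_congr rfl fun j _ => ?_
    rw [map_zsmul, zsmul_eq_mul]
    rfl

/-- logarithmic derivative of a product of powers -/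
private theorem ax2_logder {C M ι : Type} [Field C] [Field M] [Algebra C M] (δ : Derivation C M M)
    (e : ι → M) (he : ∀ i, e i ≠ 0) (n : ι → ℤ) (s : Finset ι) :
    δ (∏ i ∈ s, e i ^ n i) = (∏ i ∈ s, e i ^ n i) * ∑ i ∈ s, (n i : M) * (δ (e i) / e i) := by
  classical
  induction s using Finset.induction_on with
  | empty => simp
  | insert i s hi ih =>
    rw [Finset.prod_insert hi, Finset.sum_insert hi, Derivation.leibniz, ih,
      Derivation.leibniz_zpow]
    simp only [smul_eq_mul, zsmul_eq_mul]
    rw [zpow_sub_one₀ (he i)]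
    have := he i
    field_simp
    ring

/-- **(Ax2)** from **(Ax3)** -/
theorem P_ax2 (h : Ax3) : Ax2 := by
  intro C M _ _ _ _ D hD N u e he hDe c hc hrel
  obtain ⟨d, ε, n, hε, hn⟩ := ax2_basis c
  -- some column is nonzero
  obtain ⟨i0, hi0⟩ : ∃ i, c i ≠ 0 := Function.ne_iff.1 hc
  obtain ⟨j0, hj0⟩ : ∃ j, n i0 j ≠ 0 := by
    by_contra hcon
    apply hi0
    rw [hn i0]
    refine Finset.sum_eq_zero fun j _ => ?_
    have : n i0 j = 0 := by
      by_contra h0
      exact hcon ⟨j, h0⟩
    rw [this]
    simp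
  have hf0 : ∀ j, ∏ i, e i ^ n i j ≠ 0 := fun j =>
    Finset.prod_ne_zero_iff.2 fun i _ => zpow_ne_zero _ (he i)
  have hlog : ∀ (δ : Derivation C M M) (j : Fin d),
      δ (∏ i, e i ^ n i j) / (∏ i, e i ^ n i j) = ∑ i, (n i j : M) * (δ (e i) / e i) := by
    intro δ j
    rw [ax2_logder δ e he (fun i => n i j) Finset.univ, mul_div_cancel_left₀ _ (hf0 j)]
  have halg := h C M d ε hε (fun j => ∏ i, e i ^ n i j) hf0
    (∑ i, algebraMap C M (c i) * u i) (by
      intro δ
      have h1 : ∑ i, algebraMap C M (c i) * (δ (e i) / e i) =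
          ∑ i, algebraMap C M (c i) * δ (u i) := by
        have h2 := hrel δ
        simp only [mul_sub, Finset.sum_sub_distrib] at h2
        exact sub_eq_zero.1 h2
      calc ∑ j, algebraMap C M (ε j) * (δ (∏ i, e i ^ n i j) / ∏ i, e i ^ n i j)
          = ∑ j, ∑ i, algebraMap C M (ε j) * ((n i j : M) * (δ (e i) / e i)) := by
            refine Finset.sum_congr rfl fun j _ => ?_
            rw [hlog, Finset.mul_sum]
        _ = ∑ i, ∑ j, algebraMap C M (ε j) * ((n i j : M) * (δ (e i) / e i)) :=
            Finset.sum_comm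
        _ = ∑ i, algebraMap C M (c i) * (δ (e i) / e i) := by
            refine Finset.sum_congr rfl fun i _ => ?_
            rw [hn i, map_sum, Finset.sum_mul]
            refine Finset.sum_congr rfl fun j _ => ?_
            rw [map_mul, map_intCast]
            ring
        _ = ∑ i, algebraMap C M (c i) * δ (u i) := h1
        _ = δ (∑ i, algebraMap C M (c i) * u i) := by
            rw [map_sum]
            refine Finset.sum_congr rfl fun i _ => ?_
            rw [← Algebra.smul_def, ← Algebra.smul_def, Derivation.map_smul]) j0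
  have hD0 : D (∏ i, e i ^ n i j0) = 0 := MP52aaf2.der_eq_zero_of_algebraic D halg
  refine ⟨fun i => n i j0, ?_, ?_⟩
  · intro h0
    exact hj0 (congrFun h0 i0)
  · have h3 := hlog D j0
    rw [hD0, zero_div] at h3
    obtain ⟨a, ha⟩ := hD (∑ i, (n i j0 : M) * u i) (by
      rw [map_sum, h3]
      refine Finset.sum_congr rfl fun i _ => ?_
      rw [Derivation.leibniz, hDe i, mul_div_cancel_left₀ _ (he i)]
      simp)
    exact ⟨a, ha.symm⟩

/-- **(Ax)** from **(Ax1)** and **(Ax2)** -/
theorem P_ax (h1 : Ax1) (h2 : Ax2) : Ax := by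
  intro C M _ _ _ _ D hD N hN u e he hDe hind
  by_contra hlt
  have hrk : rk C (Set.range u ∪ Set.range e) ≤ N := by
    have := not_le.1 hlt
    exact Order.le_of_lt_add_one this
  have hex : ∃ i, D (u i) ≠ 0 := by
    let i0 : Fin N := ⟨0, hN⟩
    refine ⟨i0, fun h0 => ?_⟩
    obtain ⟨a, ha⟩ := hD _ h0
    have h3 := hind (Pi.single i0 1) ⟨a, by
      rw [ha]
      rw [Finset.sum_eq_single i0]
      · simp
      · intro j _ hj
        simp [Pi.single_eq_of_ne hj]
      · intro hc
        exact absurd (Finset.mem_univ _) hc⟩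
    have h4 := congrFun h3 i0
    simp at h4
  obtain ⟨c, hc, hrel⟩ := h1 C M D hD N u e he hDe hex hrk
  obtain ⟨m, hm, a, ha⟩ := h2 C M D hD N u e he hDe c hc hrel
  exact hm (hind m ⟨a, ha⟩)

end MP52exp
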