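import Pool.Agent.Lib.MP_52aaf2_al.EX.StmG
import Pool.Agent.Lib.MP_52aaf2_al.Theta

/-!
# MP_52aaf2_al, project EX: residues force algebraicity
-/

set_option autoImplicit false

open Polynomial IntermediateField

namespace MP52exp

/-- Algebraic elements remain algebraic over a larger subfield (of another kind). -/
private theorem ax3_lift {k M : Type} [Field k] [Field M] [Algebra k M]
    (K₁ : IntermediateField k M) (L : IntermediateField k M) (T : IntermediateField L M)
    (h : ∀ x ∈ K₁, x ∈ T) {a : M} (ha : IsAlgebraic K₁ a) : IsAlgebraic T a := by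
  obtain ⟨p, hp0, hp⟩ := ha
  let φ : K₁ →+* T := (algebraMap K₁ M).codRestrict T (fun x => h x x.2)
  refine ⟨p.map φ, (Polynomial.map_ne_zero_iff φ.injective).2 hp0, ?_⟩
  rw [aeval_def, eval₂_map]
  exact hp

theorem P_ax3 (h : Ax4) : Ax3 := by
  intro C M _ _ _ _ d ε hε f hf w hδ j
  by_contra hj
  set z := f j with hz
  have hzE : z ∉ acl C (∅ : Set M) := fun h1 => hj (mem_acl_empty.1 h1)
  have hind : (AlgebraicIndependent.matroid C M).Indep (insert z (∅ : Set M)) := by
    have h1 := ((AlgebraicIndependent.matroid C M).empty_indep).notMem_closure_iff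
      (e := z) (by simp)
    rw [mem_acl_iff_closure] at hzE
    exact (h1.1 hzE).1
  obtain ⟨B, hB, hzB⟩ := hind.exists_isBase_superset
  have hzB' : z ∈ B := hzB (Set.mem_insert _ _)
  set L := acl C (B \ {z}) with hL
  have hzL : z ∉ L := by
    rw [hL, mem_acl_iff_closure]
    exact hB.indep.notMem_closure_sdiff_of_mem hzB'
  have htr : Transcendental L z := fun h1 => hzL (acl_closed h1)
  have halg : ∀ a : M, IsAlgebraic (IntermediateField.adjoin L {z}) a := by
    intro a
    have h1 : a ∈ acl C B := by
      rw [mem_acl_iff_closure, hB.closure_eq]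
      simp
    refine ax3_lift (IntermediateField.adjoin C B) L (IntermediateField.adjoin L {z}) ?_ h1
    intro x hx
    have h2 : IntermediateField.adjoin C B ≤
        (IntermediateField.adjoin L {z}).restrictScalars C := by
      rw [IntermediateField.adjoin_le_iff]
      intro b hb
      show b ∈ IntermediateField.adjoin L {z}
      by_cases hbz : b = z
      · rw [hbz]
        exact IntermediateField.subset_adjoin L {z} rfl
      · have h3 : b ∈ L := subset_acl _ ⟨hb, hbz⟩
        exact (IntermediateField.adjoin L {z}).algebraMap_mem ⟨b, h3⟩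
    exact h2 hx
  have : CharZero L := charZero_of_injective_algebraMap (algebraMap C L).injective
  obtain ⟨θ, hθ⟩ := MP52aaf2.exists_theta htr halg
  have hrel : ∑ i, algebraMap L M (algebraMap C L (ε i)) * (θ (f i) / f i) = θ w := by
    have h1 := hδ (θ.restrictScalars C)
    exact h1
  obtain ⟨N, hN, a, ha, haz⟩ := h L M θ z hθ htr d f hf (fun i => halg _) w (halg _)
    (fun i => algebraMap C L (ε i)) hrel
  have ha0 : a = 0 := by
    apply hε
    apply (algebraMap C L).injective
    rw [map_sum, map_zero, ← ha]
    refine Finset.sum_congr rfl fun i _ => ?_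
    rw [map_mul, map_intCast]
  have h4 := haz j hz.symm
  rw [ha0] at h4
  simp only [Pi.zero_apply] at h4
  omega

end MP52exp
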