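import Pool.Agent.Lib.MP_52aaf2_al.EX.StmG
import Pool.Agent.Lib.MP_52aaf2_al.NW

/-!
# MP_52aaf2_al, project EX: the statement `Ax4`
-/

open Polynomial IntermediateField Differential

namespace MP52exp

/-- Norms and the trace. -/
theorem ax4_norm {F₀ K : Type} [Field F₀] [Field K] [CharZero F₀] [Algebra F₀ K]
    [Differential F₀] [Differential K] [DifferentialAlgebra F₀ K] (d : ℕ) (f : Fin d → K)
    (w : K) (hf : ∀ j, IsAlgebraic F₀ (f j)) (hw : IsAlgebraic F₀ w) (hf0 : ∀ j, f j ≠ 0)
    (ε : Fin d → F₀) (h : ∑ j, algebraMap F₀ K (ε j) * logDeriv (f j) = w′) :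
    ∃ N : ℕ, 1 ≤ N ∧ ∃ (A : Fin d → F₀) (R : F₀), (∀ j, A j ≠ 0) ∧
      (∀ j (a : F₀), f j = algebraMap F₀ K a → A j = a ^ N) ∧
      ∑ j, ε j * logDeriv (A j) = R′ := by
  classical
  let K₁ : IntermediateField F₀ K := IntermediateField.adjoin F₀ (insert w (Set.range f))
  have hfin : FiniteDimensional F₀ K₁ := by
    apply IntermediateField.finiteDimensional_adjoin
    rintro a (rfl | ⟨j, rfl⟩)
    · exact hw.isIntegral
    · exact (hf j).isIntegral
  let f₁ : Fin d → K₁ := fun j => ⟨f j, IntermediateField.subset_adjoin F₀ _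
    (Set.mem_insert_of_mem _ ⟨j, rfl⟩)⟩
  let w₁ : K₁ := ⟨w, IntermediateField.subset_adjoin F₀ _ (Set.mem_insert _ _)⟩
  have hf₁ : ∀ j, f₁ j ≠ 0 := fun j h => hf0 j (congrArg Subtype.val h)
  have h1 : ∑ j, algebraMap F₀ K₁ (ε j) * logDeriv (f₁ j) = w₁′ := by
    apply FaithfulSMul.algebraMap_injective K₁ K
    rw [map_sum]
    have h2 : ∀ j, algebraMap K₁ K (algebraMap F₀ K₁ (ε j) * logDeriv (f₁ j)) =
        algebraMap F₀ K (ε j) * logDeriv (f j) := by
      intro j
      rw [map_mul, ← logDeriv_algebraMap]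
      rfl
    rw [Finset.sum_congr rfl fun j _ => h2 j, h, ← deriv_algebraMap]
    rfl
  let L := AlgebraicClosure F₀
  have : Algebra.FormallyEtale F₀ L := Algebra.FormallyEtale.of_isSeparable F₀ L
  obtain ⟨d', hd'⟩ := MP52aaf2.exists_derivation_extension ℤ F₀ L
    ((Algebra.linearMap F₀ L).compDer (Differential.deriv (R := F₀)))
  let : Differential L := ⟨d'⟩
  have : DifferentialAlgebra F₀ L := ⟨fun a => hd' a⟩
  have : Algebra.IsSeparable F₀ K₁ := inferInstance
  have key : ∀ g : K₁, g ≠ 0 → algebraMap F₀ L (logDeriv (Algebra.norm F₀ g)) =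
      ∑ σ : K₁ →ₐ[F₀] L, σ (logDeriv g) := by
    intro g hg
    rw [← logDeriv_algebraMap, Algebra.norm_eq_prod_embeddings F₀ L g, Differential.logDeriv_prod]
    · refine Finset.sum_congr rfl fun σ _ => ?_
      rw [Differential.logDeriv, Differential.logDeriv, map_div₀, algHom_deriv' σ σ.injective]
    · intro σ _
      exact (map_ne_zero_iff σ σ.injective).2 hg
  have key2 : ∀ g : K₁, algebraMap F₀ L ((Algebra.trace F₀ K₁ g)′) =
      ∑ σ : K₁ →ₐ[F₀] L, σ (g′) := by
    intro g
    rw [← deriv_algebraMap, trace_eq_sum_embeddings L, map_sum]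
    exact Finset.sum_congr rfl fun σ _ => (algHom_deriv' σ σ.injective g).symm
  refine ⟨Module.finrank F₀ K₁, Module.finrank_pos, fun j => Algebra.norm F₀ (f₁ j),
    Algebra.trace F₀ K₁ w₁, fun j => Algebra.norm_ne_zero_iff.2 (hf₁ j), ?_, ?_⟩
  · intro j a ha
    have h2 : f₁ j = algebraMap F₀ K₁ a := Subtype.ext ha
    change Algebra.norm F₀ (f₁ j) = a ^ Module.finrank F₀ K₁
    rw [h2, Algebra.norm_algebraMap]
  · apply FaithfulSMul.algebraMap_injective F₀ L
    rw [key2, ← h1, map_sum]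
    simp only [map_sum, map_mul, AlgHom.commutes]
    rw [Finset.sum_comm]
    refine Finset.sum_congr rfl fun j _ => ?_
    rw [key _ (hf₁ j), Finset.mul_sum]

section

variable {k F : Type} [Field k] [Field F] [Algebra k F]

/-- `x` is `c` plus `z` times a rational function of `z` regular at `0`. -/
def ax4Reg (z : F) (c : k) (x : F) : Prop :=
  ∃ U V : k[X], V.eval 0 ≠ 0 ∧ x = algebraMap k F c + z * (aeval z U / aeval z V)

theorem ax4_reg_const (z : F) (c : k) : ax4Reg z c (algebraMap k F c) :=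
  ⟨0, 1, by simp, by simp⟩

theorem ax4_reg_add {z : F} (hz : Transcendental k z) {c c' : k} {x x' : F}
    (h : ax4Reg z c x) (h' : ax4Reg z c' x') : ax4Reg z (c + c') (x + x') := by
  have hinj : Function.Injective (aeval z : k[X] →ₐ[k] F) := transcendental_iff_injective.1 hz
  obtain ⟨U, V, hV, rfl⟩ := h
  obtain ⟨U', V', hV', rfl⟩ := h'
  have hV0 : aeval z V ≠ 0 := (map_ne_zero_iff _ hinj).2 (by rintro rfl; simp at hV)
  have hV0' : aeval z V' ≠ 0 := (map_ne_zero_iff _ hinj).2 (by rintro rfl; simp at hV')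
  refine ⟨U * V' + V * U', V * V', by rw [eval_mul]; exact mul_ne_zero hV hV', ?_⟩
  rw [map_add, map_add, map_mul, map_mul, map_mul]
  field_simp
  ring

theorem ax4_reg_smul {z : F} {c : k} {x : F} (a : k)
    (h : ax4Reg z c x) : ax4Reg z (a * c) (algebraMap k F a * x) := by
  obtain ⟨U, V, hV, rfl⟩ := h
  refine ⟨C a * U, V, hV, ?_⟩
  rw [map_mul, map_mul, aeval_C]
  ring

theorem ax4_reg_sum {z : F} (hz : Transcendental k z) {ι : Type} (s : Finset ι) (c : ι → k)
    (x : ι → F) (h : ∀ i ∈ s, ax4Reg z (c i) (x i)) :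
    ax4Reg z (∑ i ∈ s, c i) (∑ i ∈ s, x i) := by
  classical
  induction s using Finset.induction_on with
  | empty =>
    rw [Finset.sum_empty, Finset.sum_empty]
    have := ax4_reg_const z (0 : k)
    rwa [map_zero] at this
  | insert i s hi ih =>
    rw [Finset.sum_insert hi, Finset.sum_insert hi]
    exact ax4_reg_add hz (h i (Finset.mem_insert_self i s))
      (ih fun j hj => h j (Finset.mem_insert_of_mem hj))

/-- Logarithmic derivatives of rational functions. -/
theorem ax4_reg_logder [CharZero k] (θ : Derivation k F F) {z : F} (hz : θ z = z)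
    (htr : Transcendental k z) {r s : k[X]} (hr : r ≠ 0) (hs : s ≠ 0) :
    ∃ a : ℤ, ax4Reg z (a : k)
      (θ (aeval z r / aeval z s) / (aeval z r / aeval z s)) := by
  have hinj : Function.Injective (aeval z : k[X] →ₐ[k] F) := transcendental_iff_injective.1 htr
  have hne : ∀ P : k[X], P ≠ 0 → aeval z P ≠ 0 := fun P hP => (map_ne_zero_iff _ hinj).2 hP
  have hz0 : z ≠ 0 := by
    have := hne X X_ne_zero
    simpa using this
  have hld : ∀ a b : F, a ≠ 0 → b ≠ 0 → θ (a / b) / (a / b) = θ a / a + -(θ b / b) := by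
    intro a b ha hb
    rw [Derivation.leibniz_div]
    simp only [smul_eq_mul]
    field_simp
    ring
  rw [hld _ _ (hne _ hr) (hne _ hs)]
  obtain ⟨m, R, rfl, hR⟩ := MP52aaf2.exists_X_pow_mul hr
  obtain ⟨n, S, rfl, hS⟩ := MP52aaf2.exists_X_pow_mul hs
  have hR' : R ≠ 0 := by rintro rfl; simp at hR
  have hS' : S ≠ 0 := by rintro rfl; simp at hS
  rw [MP52aaf2.logder_aeval θ hz _ _ (hne _ hR') hz0,
    MP52aaf2.logder_aeval θ hz _ _ (hne _ hS') hz0]
  refine ⟨(m : ℤ) - n, ?_⟩
  have h1 : ax4Reg z (m : k) ((m : F) + z * (aeval z (derivative R) / aeval z R)) :=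
    ⟨derivative R, R, hR, by rw [map_natCast]⟩
  have h2 : ax4Reg z (n : k) ((n : F) + z * (aeval z (derivative S) / aeval z S)) :=
    ⟨derivative S, S, hS, by rw [map_natCast]⟩
  have h3 := ax4_reg_add htr h1 (ax4_reg_smul (-1) h2)
  have e1 : ((m : k) + -1 * (n : k)) = (((m : ℤ) - n : ℤ) : k) := by
    push_cast
    ring
  rw [e1] at h3
  rw [map_neg, map_one, neg_one_mul] at h3
  exact h3

/-- The derivative of a rational function has no constant coefficient. -/
theorem ax4_const [CharZero k] (θ : Derivation k F F) {z : F} (hz : θ z = z)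
    (htr : Transcendental k z) (c : k) {p q : k[X]} (hq : q ≠ 0)
    (h : ax4Reg z c (θ (aeval z p / aeval z q))) : c = 0 := by
  have hinj : Function.Injective (aeval z : k[X] →ₐ[k] F) := transcendental_iff_injective.1 htr
  have hne : ∀ P : k[X], P ≠ 0 → aeval z P ≠ 0 := fun P hP => (map_ne_zero_iff _ hinj).2 hP
  have hz0 : z ≠ 0 := by
    have := hne X X_ne_zero
    simpa using this
  obtain ⟨U, V, hV, h⟩ := h
  have hV' : V ≠ 0 := by rintro rfl; simp at hV
  have hVz := hne V hV'
  by_cases hp : p = 0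
  · subst hp
    rw [map_zero, zero_div, map_zero] at h
    have h1 : aeval z (C c * V + X * U) = 0 := by
      rw [map_add, map_mul, map_mul, aeval_C, aeval_X]
      field_simp at h
      linear_combination -h
    have h2 := congrArg (eval 0) ((map_eq_zero_iff _ hinj).1 h1)
    simp only [eval_add, eval_mul, eval_C, eval_X, zero_mul, add_zero, eval_zero] at h2
    exact (mul_eq_zero.1 h2).resolve_right hV
  obtain ⟨b, P, rfl, hP⟩ := MP52aaf2.exists_X_pow_mul hp
  obtain ⟨a, Q, rfl, hQ⟩ := MP52aaf2.exists_X_pow_mul hq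
  have hP' : P ≠ 0 := by rintro rfl; simp at hP
  have hQ' : Q ≠ 0 := by rintro rfl; simp at hQ
  have hPz := hne P hP'
  have hQz := hne Q hQ'
  rcases le_or_gt a b with hab | hab
  · obtain ⟨e, rfl⟩ := Nat.exists_eq_add_of_le hab
    have e1 : aeval z (X ^ (a + e) * P) / aeval z (X ^ a * Q) =
        aeval z (X ^ e * P) / aeval z Q := by
      simp only [map_mul, map_pow, aeval_X, pow_add]
      field_simp
    rw [e1, Derivation.leibniz_div, MP52aaf2.der_aeval θ hz, MP52aaf2.der_aeval θ hz] at h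
    simp only [smul_eq_mul] at h
    set P₁ : k[X] := X ^ e * P with hP₁
    have h1 : aeval z ((C c * V + X * U) * Q ^ 2 -
        X * (Q * derivative P₁ - P₁ * derivative Q) * V) = 0 := by
      simp only [map_sub, map_add, map_mul, map_pow, aeval_C, aeval_X]
      field_simp at h
      linear_combination -h
    have h2 := congrArg (eval 0) ((map_eq_zero_iff _ hinj).1 h1)
    simp only [eval_sub, eval_add, eval_mul, eval_pow, eval_C, eval_X, zero_mul, add_zero,
      sub_zero, eval_zero] at h2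
    rcases mul_eq_zero.1 h2 with h3 | h3
    · exact (mul_eq_zero.1 h3).resolve_right hV
    · exact absurd (pow_eq_zero_iff (two_ne_zero) |>.1 h3) hQ
  · exfalso
    obtain ⟨e, rfl⟩ := Nat.exists_eq_add_of_lt hab
    have e1 : aeval z (X ^ b * P) / aeval z (X ^ (b + e + 1) * Q) =
        aeval z P / aeval z (X ^ (e + 1) * Q) := by
      simp only [map_mul, map_pow, aeval_X, pow_add]
      field_simp
    rw [e1, Derivation.leibniz_div, MP52aaf2.der_aeval θ hz, MP52aaf2.der_aeval θ hz] at h
    simp only [smul_eq_mul] at h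
    have hd : derivative (X ^ (e + 1) * Q : k[X]) =
        X ^ e * (C ((e : k) + 1) * Q + X * derivative Q) := by
      rw [derivative_mul, derivative_X_pow]
      simp only [Nat.add_sub_cancel, Nat.cast_add, Nat.cast_one]
      ring
    rw [hd] at h
    have h1 : aeval z ((C c * V + X * U) * X ^ (e + 1) * Q ^ 2 -
        (X * Q * derivative P - P * (C ((e : k) + 1) * Q + X * derivative Q)) * V) = 0 := by
      simp only [map_sub, map_add, map_mul, map_pow, aeval_C, aeval_X] at h ⊢
      have hze : z ^ e ≠ 0 := pow_ne_zero _ hz0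
      field_simp at h
      apply mul_left_cancel₀ (pow_ne_zero (e + 1) hz0)
      rw [mul_zero]
      linear_combination -h
    have h2 := congrArg (eval 0) ((map_eq_zero_iff _ hinj).1 h1)
    simp only [eval_sub, eval_add, eval_mul, eval_pow, eval_C, eval_X, zero_mul, add_zero,
      zero_sub, eval_zero, pow_succ, mul_zero] at h2
    have h3 : P.eval 0 * (((e : k) + 1) * Q.eval 0) * V.eval 0 = 0 := by
      linear_combination h2
    have h4 : ((e : k) + 1) ≠ 0 := Nat.cast_add_one_ne_zero e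
    exact (mul_ne_zero (mul_ne_zero hP (mul_ne_zero h4 hQ)) hV) h3

end

theorem P_ax4 : Ax4 := by
  intro k F _ _ _ _ θ z hz htr d f hf0 hf w hw ε hsum
  have hz0 : z ≠ 0 := by
    rintro rfl
    exact htr (isAlgebraic_zero)
  have hst := MP52aaf2.adjoin_stable θ hz
  let dd : Derivation ℤ F F := θ.restrictScalars ℤ
  let : Differential F := ⟨dd⟩
  let : Differential k⟮z⟯ := ⟨MP52aaf2.resDer k⟮z⟯ dd hst⟩
  have : DifferentialAlgebra k⟮z⟯ F := ⟨fun a => rfl⟩
  have : CharZero k⟮z⟯ := charZero_of_injective_algebraMap (algebraMap k k⟮z⟯).injective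
  obtain ⟨N, hN, A, R, hA, hAz, hAR⟩ := ax4_norm (F₀ := k⟮z⟯) d f w hf hw hf0
    (fun j => algebraMap k k⟮z⟯ (ε j)) hsum
  have h1 := congrArg (algebraMap k⟮z⟯ F) hAR
  rw [map_sum] at h1
  have h2 : ∑ j, algebraMap k F (ε j) * (θ (A j : F) / (A j : F)) = θ (R : F) := by
    refine Eq.trans (Finset.sum_congr rfl fun j _ => ?_) h1
    rw [map_mul]
    rfl
  have h3 : ∀ j, ∃ a : ℤ, ax4Reg z (a : k) (θ (A j : F) / (A j : F)) ∧ (f j = z → a = N) := by
    intro j
    by_cases hj : f j = z
    · refine ⟨N, ?_, fun _ => rfl⟩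
      have h4 : A j = (⟨z, IntermediateField.mem_adjoin_simple_self k z⟩ : k⟮z⟯) ^ N :=
        hAz j _ hj
      have h5 : (A j : F) = z ^ N := by rw [h4]; rfl
      have h6 : θ (A j : F) / (A j : F) = algebraMap k F (N : k) := by
        rw [h5, Derivation.leibniz_pow, hz, map_natCast]
        obtain ⟨M, rfl⟩ := Nat.exists_eq_add_of_le' hN
        simp only [smul_eq_mul, nsmul_eq_mul, Nat.add_sub_cancel]
        rw [pow_succ]
        have := pow_ne_zero M hz0
        field_simp
      rw [h6, Int.cast_natCast]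
      exact ax4_reg_const z (N : k)
    · obtain ⟨r, s, hrs⟩ := (IntermediateField.mem_adjoin_simple_iff k _).1 (A j).2
      have hAF : (A j : F) ≠ 0 := fun h => hA j (Subtype.ext h)
      have hr : r ≠ 0 := by rintro rfl; rw [map_zero, zero_div] at hrs; exact hAF hrs
      have hs : s ≠ 0 := by rintro rfl; rw [map_zero, div_zero] at hrs; exact hAF hrs
      obtain ⟨a, ha⟩ := ax4_reg_logder θ hz htr hr hs
      rw [← hrs] at ha
      exact ⟨a, ha, fun h => absurd h hj⟩
  choose a ha haN using h3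
  refine ⟨N, hN, a, ?_, haN⟩
  have h4 : ax4Reg z (∑ j, ε j * (a j : k)) (θ (R : F)) := by
    rw [← h2]
    exact ax4_reg_sum htr Finset.univ _ _ fun j _ => ax4_reg_smul (ε j) (ha j)
  obtain ⟨p, q, hpq⟩ := (IntermediateField.mem_adjoin_simple_iff k _).1 R.2
  have h5 : ∑ j, ε j * (a j : k) = 0 := by
    by_cases hq : q = 0
    · subst hq
      rw [map_zero, div_zero] at hpq
      have h6 : (R : F) = aeval z (0 : k[X]) / aeval z (1 : k[X]) := by rw [hpq]; simp
      rw [h6] at h4
      exact ax4_const θ hz htr _ one_ne_zero h4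
    · rw [hpq] at h4
      exact ax4_const θ hz htr _ hq h4
  rw [← h5]
  exact Finset.sum_congr rfl fun j _ => mul_comm _ _

end MP52exp
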