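import Pool.Agent.Lib.MP_52aaf2_al.EX.StmG
import Pool.Agent.Lib.MP_52aaf2_al.Theta

/-!
# MP_52aaf2_al, project EX: a derivation killing `acl k S` with value `1` at `y`
-/

set_option autoImplicit false

open Polynomial IntermediateField

namespace MP52exp

theorem P_der1 : Der1 := by
  intro k F _ _ _ _ S y hy
  have hE : (AlgebraicIndependent.matroid k F).E = Set.univ := by simp
  have hy' : y ∉ (AlgebraicIndependent.matroid k F).closure S := by
    rwa [mem_acl_iff_closure] at hy
  obtain ⟨B₀, hB₀⟩ := (AlgebraicIndependent.matroid k F).exists_isBasis S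
    (by rw [hE]; exact Set.subset_univ S)
  have hcl : (AlgebraicIndependent.matroid k F).closure B₀ =
      (AlgebraicIndependent.matroid k F).closure S := hB₀.closure_eq_closure
  have hi : (AlgebraicIndependent.matroid k F).Indep (insert y B₀) ∧ y ∉ B₀ := by
    rw [← hB₀.indep.notMem_closure_iff (by rw [hE]; exact Set.mem_univ y), hcl]
    exact hy'
  obtain ⟨B, hB, hsub⟩ := hi.1.exists_isBase_superset
  have hyB : y ∈ B := hsub (Set.mem_insert y B₀)
  have hB₀B : B₀ ⊆ B \ {y} := fun x hx =>
    ⟨hsub (Set.mem_insert_of_mem y hx), fun h => hi.2 (by rw [← (h : x = y)]; exact hx)⟩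
  -- `y` is not in `acl k (B \ {y})`
  have hyC : y ∉ acl k (B \ {y}) := by
    rw [mem_acl_iff_closure]
    exact hB.indep.notMem_closure_sdiff_of_mem hyB
  have htr : Transcendental (acl k (B \ {y})) y := fun h => hyC (acl_closed h)
  -- every element is algebraic over `k(B)`
  have hall : ∀ a : F, IsAlgebraic (IntermediateField.adjoin k B) a := by
    intro a
    rw [← mem_acl, mem_acl_iff_closure, hB.closure_eq, hE]
    exact Set.mem_univ a
  have halg : ∀ a : F, IsAlgebraic (acl k (B \ {y}))⟮y⟯ a := by
    intro a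
    have hle : IntermediateField.adjoin k B ≤
        IntermediateField.restrictScalars k ((acl k (B \ {y}))⟮y⟯) := by
      rw [IntermediateField.adjoin_le_iff]
      intro x hx
      by_cases hxy : x = y
      · rw [hxy]
        exact IntermediateField.mem_adjoin_simple_self (acl k (B \ {y})) y
      · have h1 : x ∈ acl k (B \ {y}) := subset_acl _ ⟨hx, hxy⟩
        have h2 := ((acl k (B \ {y}))⟮y⟯).algebraMap_mem ⟨x, h1⟩
        exact h2
    have h3 := (hall a).ringHom_of_comp_eq
      (S := (acl k (B \ {y}))⟮y⟯) (B := F)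
      ((IntermediateField.inclusion hle).toRingHom : IntermediateField.adjoin k B →+*
        ((acl k (B \ {y}))⟮y⟯)) (RingHom.id F)
      (RingHom.injective _) (by ext x; rfl)
    exact h3
  have : CharZero (acl k (B \ {y})) :=
    charZero_of_injective_algebraMap (algebraMap k (acl k (B \ {y}))).injective
  obtain ⟨θ, hθ⟩ := MP52aaf2.exists_theta htr halg
  have hy0 : y ≠ 0 := by
    rintro rfl
    exact hy (acl k S).zero_mem
  refine ⟨(y⁻¹ • θ).restrictScalars k, ?_, ?_⟩
  · intro a ha
    have h1 : a ∈ acl k (B \ {y}) := by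
      rw [mem_acl_iff_closure, ← hcl] at ha
      rw [mem_acl_iff_closure]
      exact (AlgebraicIndependent.matroid k F).closure_subset_closure hB₀B ha
    have h2 : θ a = 0 := θ.map_algebraMap ⟨a, h1⟩
    change y⁻¹ • θ a = 0
    rw [h2, smul_zero]
  · change y⁻¹ • θ y = 1
    rw [hθ, smul_eq_mul, inv_mul_cancel₀ hy0]

end MP52exp
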