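import Pool.Agent.Lib.MP_52aaf2_al.EX.StmG
import Pool.Agent.Lib.MP_52aaf2_al.Core

/-!
# MP_52aaf2_al, project EX: derivations and the relative algebraic closure
-/

open Polynomial IntermediateField

namespace MP52exp

theorem P_dst_aux1 {k F : Type} [Field k] [Field F] [Algebra k F] (S : Set F)
    (δ : Derivation k F F) (h : ∀ a ∈ S, δ a ∈ acl k S) :
    ∀ a ∈ IntermediateField.adjoin k S, δ a ∈ acl k S := by
  intro a ha
  induction ha using IntermediateField.adjoin_induction with
  | mem x hx => exact h x hx
  | algebraMap x =>
    rw [Derivation.map_algebraMap]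
    exact zero_mem _
  | add x y hx hy h1 h2 =>
    rw [map_add]
    exact add_mem h1 h2
  | inv x hx h1 =>
    rw [Derivation.leibniz_inv]
    have hx' : x ∈ acl k S := adjoin_le_acl S hx
    simp only [smul_eq_mul]
    exact mul_mem (neg_mem (pow_mem (inv_mem hx') 2)) h1
  | mul x y hx hy h1 h2 =>
    rw [Derivation.leibniz]
    have hx' : x ∈ acl k S := adjoin_le_acl S hx
    have hy' : y ∈ acl k S := adjoin_le_acl S hy
    simp only [smul_eq_mul]
    exact add_mem (mul_mem hx' h2) (mul_mem hy' h1)

theorem P_dst_aux2 {k F : Type} [Field k] [Field F] [Algebra k F] (S : Set F)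
    (δ : Derivation k F F) (h : ∀ a ∈ IntermediateField.adjoin k S, δ a ∈ acl k S) {x : F}
    (hx : x ∈ acl k S) (P : (IntermediateField.adjoin k S)[X]) :
    ∃ e ∈ acl k S, δ (aeval x P) = e + aeval x (derivative P) * δ x := by
  induction P using Polynomial.induction_on' with
  | add p q hp hq =>
    obtain ⟨e, he, h1⟩ := hp
    obtain ⟨e', he', h2⟩ := hq
    refine ⟨e + e', add_mem he he', ?_⟩
    rw [map_add, map_add, h1, h2, derivative_add, map_add]
    ring
  | monomial n c =>
    refine ⟨x ^ n * δ (c : F), mul_mem (pow_mem hx n) (h _ c.2), ?_⟩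
    rw [aeval_monomial, derivative_monomial, aeval_monomial, Derivation.leibniz,
      Derivation.leibniz_pow]
    simp only [smul_eq_mul, nsmul_eq_mul, map_mul, map_natCast]
    change (c : F) * ((n : F) * (x ^ (n - 1) * δ x)) + x ^ n * δ (c : F) =
      x ^ n * δ (c : F) + (c : F) * (n : F) * x ^ (n - 1) * δ x
    ring

theorem P_dst : Dst := by
  intro k F _ _ _ _ S δ
  constructor
  · intro h a ha
    have h1 := P_dst_aux1 S δ h
    have haK : IsAlgebraic (IntermediateField.adjoin k S) a := ha
    obtain ⟨e, he, h2⟩ := P_dst_aux2 S δ h1 ha (minpoly (IntermediateField.adjoin k S) a)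
    rw [minpoly.aeval, map_zero] at h2
    have hs : (minpoly (IntermediateField.adjoin k S) a).Separable :=
      (minpoly.irreducible haK.isIntegral).separable
    have h3 := hs.aeval_derivative_ne_zero (minpoly.aeval (IntermediateField.adjoin k S) a)
    have hm : aeval a (derivative (minpoly (IntermediateField.adjoin k S) a)) ∈ acl k S := by
      have hP : ∀ P : (IntermediateField.adjoin k S)[X], aeval a P ∈ acl k S := by
        intro P
        induction P using Polynomial.induction_on' with
        | add p q hp hq => rw [map_add]; exact add_mem hp hq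
        | monomial n c =>
          rw [aeval_monomial]
          exact mul_mem (adjoin_le_acl S c.2) (pow_mem ha n)
      exact hP _
    have h4 : δ a = - (e / aeval a (derivative (minpoly (IntermediateField.adjoin k S) a))) := by
      field_simp
      linear_combination -h2
    rw [h4]
    exact neg_mem (div_mem he hm)
  · intro h a ha
    have h1 : ∀ b ∈ IntermediateField.adjoin k S, δ b = 0 := by
      intro b hb
      induction hb using IntermediateField.adjoin_induction with
      | mem x hx => exact h x hx
      | algebraMap x => rw [Derivation.map_algebraMap]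
      | add x y hx hy h1 h2 => rw [map_add, h1, h2, add_zero]
      | inv x hx h1 => rw [Derivation.leibniz_inv, h1, smul_zero]
      | mul x y hx hy h1 h2 => rw [Derivation.leibniz, h1, h2, smul_zero, smul_zero, add_zero]
    have haK : IsAlgebraic (IntermediateField.adjoin k S) a := ha
    exact MP52aaf2.der_zero_alg (K := IntermediateField.adjoin k S) (δ.restrictScalars ℤ)
      (fun b => h1 b b.2) haK

end MP52exp
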