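import Mathlib

/-!
# MP_52aaf2_al, project EX: relative algebraic closure and its matroid

`acl k S` is the relative algebraic closure of `k(S)` in the field `F`.
-/

open Polynomial IntermediateField

namespace MP52exp

section Acl

variable (k : Type) {F : Type} [Field k] [Field F] [Algebra k F]

/-- The relative algebraic closure of `k(S)` in `F`. -/
noncomputable def acl (S : Set F) : IntermediateField k F where
  carrier := {a | IsAlgebraic (IntermediateField.adjoin k S) a}
  mul_mem' := fun ha hb => ha.mul hb
  add_mem' := fun ha hb => ha.add hb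
  algebraMap_mem' := fun r => isAlgebraic_algebraMap (A := F)
    (algebraMap k (IntermediateField.adjoin k S) r)
  inv_mem' := fun _ ha => ha.inv

/-- The rank of a set in the algebraic matroid of `F` over `k`. -/
noncomputable def rk (S : Set F) : ℕ∞ := (AlgebraicIndependent.matroid k F).eRk S

variable {k}

theorem mem_acl {S : Set F} {a : F} :
    a ∈ acl k S ↔ IsAlgebraic (IntermediateField.adjoin k S) a := Iff.rfl

open scoped IntermediateField.algebraAdjoinAdjoin in
theorem mem_acl' {S : Set F} {a : F} :
    a ∈ acl k S ↔ IsAlgebraic (Algebra.adjoin k S) a :=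
  (IsFractionRing.isAlgebraic_iff (Algebra.adjoin k S) (IntermediateField.adjoin k S) F).symm

theorem coe_acl (S : Set F) :
    (acl k S : Set F) = (AlgebraicIndependent.matroid k F).closure S := by
  rw [AlgebraicIndependent.matroid_closure_eq]
  ext a
  exact mem_acl'

theorem mem_acl_iff_closure {S : Set F} {a : F} :
    a ∈ acl k S ↔ a ∈ (AlgebraicIndependent.matroid k F).closure S := by
  rw [← coe_acl]
  rfl

theorem subset_acl (S : Set F) : S ⊆ acl k S := by
  rw [coe_acl]
  exact Matroid.subset_closure _ S (by simp)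

theorem acl_mono {S T : Set F} (h : S ⊆ T) : acl k S ≤ acl k T := by
  intro a ha
  rw [mem_acl_iff_closure] at ha ⊢
  exact Matroid.closure_subset_closure _ h ha

theorem acl_le_of_subset {S T : Set F} (h : S ⊆ acl k T) : acl k S ≤ acl k T := by
  intro a ha
  rw [mem_acl_iff_closure] at ha ⊢
  rw [coe_acl] at h
  exact (Matroid.closure_subset_closure_of_subset_closure h) ha

theorem acl_eq_of_subset {S T : Set F} (h : S ⊆ acl k T) (h' : T ⊆ acl k S) :
    acl k S = acl k T :=
  le_antisymm (acl_le_of_subset h) (acl_le_of_subset h')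

theorem acl_acl (S : Set F) : acl k (acl k S : Set F) = acl k S :=
  acl_eq_of_subset (fun _ h => h) (fun _ h => subset_acl _ (subset_acl _ h))

theorem adjoin_le_acl (S : Set F) : IntermediateField.adjoin k S ≤ acl k S := by
  rw [IntermediateField.adjoin_le_iff]
  exact subset_acl S

/-- exchange -/
theorem acl_exchange {S : Set F} {a b : F} (h : a ∈ acl k (insert b S)) (h' : a ∉ acl k S) :
    b ∈ acl k (insert a S) := by
  rw [mem_acl_iff_closure] at h h' ⊢
  exact Matroid.mem_closure_insert h' h

theorem mem_acl_empty {a : F} : a ∈ acl k (∅ : Set F) ↔ IsAlgebraic k a := by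
  rw [mem_acl']
  constructor
  · intro h
    rw [Algebra.adjoin_empty] at h
    exact Subalgebra.isAlgebraic_of_isAlgebraic_bot h
  · intro h
    exact h.extendScalars (R := k) (S := Algebra.adjoin k (∅ : Set F))
      (FaithfulSMul.algebraMap_injective k (Algebra.adjoin k (∅ : Set F)))

theorem mem_acl_singleton {z a : F} : a ∈ acl k {z} ↔ IsAlgebraic k⟮z⟯ a := Iff.rfl

/-- what is algebraic over `acl k S` is in `acl k S` -/
theorem acl_closed {S : Set F} {a : F} (h : IsAlgebraic (acl k S) a) : a ∈ acl k S := by
  have h1 : a ∈ acl k (acl k S : Set F) := by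
    rw [mem_acl]
    have e : IntermediateField.adjoin k (acl k S : Set F) = acl k S :=
      IntermediateField.adjoin_self k (acl k S)
    rw [e]
    exact h
  rwa [acl_acl] at h1

theorem rk_acl (S : Set F) : rk k (acl k S : Set F) = rk k S := by
  rw [rk, coe_acl, Matroid.eRk_closure_eq]
  rfl

theorem rk_mono {S T : Set F} (h : S ⊆ T) : rk k S ≤ rk k T :=
  Matroid.eRk_mono _ h

theorem rk_mono_acl {S T : Set F} (h : S ⊆ acl k T) : rk k S ≤ rk k T := by
  rw [← rk_acl T]
  exact rk_mono h

theorem rk_congr {S T : Set F} (h : acl k S = acl k T) : rk k S = rk k T := by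
  rw [← rk_acl S, h, rk_acl]

theorem rk_insert_le (a : F) (S : Set F) : rk k (insert a S) ≤ rk k S + 1 :=
  Matroid.eRk_insert_le_add_one _ a S

theorem rk_insert_of_notMem {a : F} {S : Set F} (h : a ∉ acl k S) :
    rk k (insert a S) = rk k S + 1 := by
  refine Matroid.eRk_insert_eq_add_one ⟨by simp, ?_⟩
  rwa [← mem_acl_iff_closure]

theorem rk_insert_of_mem {a : F} {S : Set F} (h : a ∈ acl k S) :
    rk k (insert a S) = rk k S := by
  apply rk_congr
  refine acl_eq_of_subset ?_ ?_
  · rintro x (rfl | hx)
    · exact h
    · exact subset_acl _ hx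
  · intro x hx
    exact subset_acl _ (Set.mem_insert_of_mem _ hx)

theorem rk_empty : rk k (∅ : Set F) = 0 := by
  rw [rk]
  simp

theorem rk_pair {a b : F} (ha : a ∉ acl k (∅ : Set F)) (hb : b ∉ acl k {a}) :
    rk k ({b, a} : Set F) = 2 := by
  rw [rk_insert_of_notMem hb]
  have : ({a} : Set F) = insert a ∅ := by simp
  rw [this, rk_insert_of_notMem ha, rk_empty]
  norm_num

end Acl

end MP52exp
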