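import Pool.Agent.Lib.MP_52aaf2_al.EX.Sys
import Pool.Agent.Lib.MP_52aaf2_al.Main

/-!
# MP_52aaf2_al, project EX: germs at `+∞` of real-analytic functions

`HG` is the ring of germs at `+∞` of functions that are real-analytic near `+∞` (a domain), `MG`
its field of fractions.
-/

open Filter Topology

namespace MP52exp

/-- `f` is real-analytic near `+∞` -/
def EvAn (f : ℝ → ℝ) : Prop := ∀ᶠ x in atTop, AnalyticAt ℝ f x

theorem EvAn.add {f g : ℝ → ℝ} (hf : EvAn f) (hg : EvAn g) : EvAn (fun x => f x + g x) := by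
  filter_upwards [hf, hg] with x h1 h2
  exact h1.add h2

theorem EvAn.mul {f g : ℝ → ℝ} (hf : EvAn f) (hg : EvAn g) : EvAn (fun x => f x * g x) := by
  filter_upwards [hf, hg] with x h1 h2
  exact h1.mul h2

theorem EvAn.neg {f : ℝ → ℝ} (hf : EvAn f) : EvAn (fun x => - f x) := by
  filter_upwards [hf] with x h1
  exact h1.neg

theorem evAn_const (c : ℝ) : EvAn (fun _ => c) := Eventually.of_forall fun _ => analyticAt_const

theorem evAn_id : EvAn (fun x => x) := Eventually.of_forall fun _ => analyticAt_id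

theorem evAn_exp (lam : ℝ) : EvAn (fun x => Real.exp (lam * x)) :=
  Eventually.of_forall fun _ => (analyticAt_const.mul analyticAt_id).rexp

theorem EvAn.deriv {f : ℝ → ℝ} (hf : EvAn f) : EvAn (deriv f) := by
  filter_upwards [hf] with x h1
  exact h1.deriv

theorem EvAn.comp {f : ℝ → ℝ} (hf : EvAn f) {g : ℝ ≃o ℝ} (hg : EvAn g) :
    EvAn (fun x => f (g x)) := by
  filter_upwards [g.tendsto_atTop.eventually hf, hg] with x h1 h2
  exact h1.comp h2

theorem EvAn.congr {f g : ℝ → ℝ} (hf : EvAn f) (h : f =ᶠ[atTop] g) : EvAn g := by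
  obtain ⟨a, ha⟩ := eventually_atTop.1 h
  filter_upwards [hf, eventually_gt_atTop a] with x h1 h2
  refine h1.congr ?_
  filter_upwards [lt_mem_nhds h2] with y hy
  exact ha y hy.le

/-- the ring of germs at `+∞` of real-analytic functions -/
def hSub : Subring (Filter.Germ (atTop : Filter ℝ) ℝ) where
  carrier := {g | ∃ f : ℝ → ℝ, EvAn f ∧ (f : Filter.Germ (atTop : Filter ℝ) ℝ) = g}
  mul_mem' := by
    rintro _ _ ⟨f, hf, rfl⟩ ⟨g, hg, rfl⟩
    exact ⟨f * g, hf.mul hg, rfl⟩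
  one_mem' := ⟨fun _ => 1, evAn_const 1, rfl⟩
  add_mem' := by
    rintro _ _ ⟨f, hf, rfl⟩ ⟨g, hg, rfl⟩
    exact ⟨f + g, hf.add hg, rfl⟩
  zero_mem' := ⟨fun _ => 0, evAn_const 0, rfl⟩
  neg_mem' := by
    rintro _ ⟨f, hf, rfl⟩
    exact ⟨-f, hf.neg, rfl⟩

/-- the ring of germs at `+∞` of real-analytic functions -/
def HG : Type := hSub

noncomputable instance : CommRing HG := inferInstanceAs (CommRing hSub)

/-- the germ of an analytic function -/
def hmk (f : ℝ → ℝ) (hf : EvAn f) : HG := ⟨f, f, hf, rfl⟩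

theorem hmk_eq {f g : ℝ → ℝ} {hf : EvAn f} {hg : EvAn g} :
    hmk f hf = hmk g hg ↔ f =ᶠ[atTop] g := by
  constructor
  · intro h
    exact Filter.Germ.coe_eq.1 (congrArg Subtype.val h)
  · intro h
    exact Subtype.ext (Filter.Germ.coe_eq.2 h)

theorem exists_hmk (a : HG) : ∃ f, ∃ hf : EvAn f, a = hmk f hf := by
  obtain ⟨_, f, hf, rfl⟩ := a
  exact ⟨f, hf, rfl⟩

theorem hmk_add {f g : ℝ → ℝ} (hf : EvAn f) (hg : EvAn g) :
    hmk f hf + hmk g hg = hmk (fun x => f x + g x) (hf.add hg) := rfl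

theorem hmk_mul {f g : ℝ → ℝ} (hf : EvAn f) (hg : EvAn g) :
    hmk f hf * hmk g hg = hmk (fun x => f x * g x) (hf.mul hg) := rfl

theorem hmk_zero : (0 : HG) = hmk (fun _ => 0) (evAn_const 0) := rfl

theorem hmk_one : (1 : HG) = hmk (fun _ => 1) (evAn_const 1) := rfl

noncomputable def constH : ℝ →+* HG where
  toFun c := hmk (fun _ => c) (evAn_const c)
  map_one' := rfl
  map_mul' _ _ := rfl
  map_zero' := rfl
  map_add' _ _ := rfl

noncomputable instance : Algebra ℝ HG := constH.toAlgebra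

theorem algebraMap_HG (c : ℝ) : algebraMap ℝ HG c = hmk (fun _ => c) (evAn_const c) := rfl

theorem smul_hmk (c : ℝ) {f : ℝ → ℝ} (hf : EvAn f) :
    c • hmk f hf = hmk (fun x => c * f x) ((evAn_const c).mul hf) := rfl

/-- identity theorem: an analytic germ at `+∞` is zero or not locally zero near `+∞` -/
theorem eventually_zero {f : ℝ → ℝ} {a : ℝ} (hf : ∀ x, a < x → AnalyticAt ℝ f x) {x₀ : ℝ}
    (hx₀ : a < x₀) (h : ∀ᶠ x in 𝓝 x₀, f x = 0) : ∀ x, a < x → f x = 0 := by
  have h1 : AnalyticOnNhd ℝ f (Set.Ioi a) := fun x hx => hf x hx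
  have h2 := h1.eqOn_zero_of_preconnected_of_eventuallyEq_zero isPreconnected_Ioi
    (Set.mem_Ioi.2 hx₀) h
  exact fun x hx => h2 hx

instance : Nontrivial HG := ⟨0, 1, by
  rw [hmk_zero, hmk_one, Ne, hmk_eq]
  intro h
  obtain ⟨x, hx⟩ := h.exists
  exact zero_ne_one hx⟩

instance : NoZeroDivisors HG where
  eq_zero_or_eq_zero_of_mul_eq_zero := by
    intro a b hab
    obtain ⟨f, hf, rfl⟩ := exists_hmk a
    obtain ⟨g, hg, rfl⟩ := exists_hmk b
    rw [hmk_mul, hmk_zero, hmk_eq] at hab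
    obtain ⟨c, hc⟩ := eventually_atTop.1 ((hf.and hg).and hab)
    by_cases h : ∃ x₀, c < x₀ ∧ f x₀ ≠ 0
    · right
      obtain ⟨x₀, hx₀, hfx⟩ := h
      rw [hmk_zero, hmk_eq]
      have h1 : ∀ᶠ x in 𝓝 x₀, g x = 0 := by
        have h2 : ∀ᶠ x in 𝓝 x₀, f x ≠ 0 :=
          (hc x₀ hx₀.le).1.1.continuousAt.eventually_ne hfx
        filter_upwards [h2, lt_mem_nhds hx₀] with x hx hx'
        exact (mul_eq_zero.1 (hc x hx'.le).2).resolve_left hx
      filter_upwards [eventually_gt_atTop c] with x hx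
      exact eventually_zero (fun y hy => (hc y hy.le).1.2) hx₀ h1 x hx
    · left
      push Not at h
      rw [hmk_zero, hmk_eq]
      filter_upwards [eventually_gt_atTop c] with x hx
      exact h x hx

instance : IsDomain HG := NoZeroDivisors.to_isDomain HG

/-- the field of fractions of `HG` -/
abbrev MG : Type := FractionRing HG

/-- the element of `MG` given by an analytic function -/
noncomputable def mmk (f : ℝ → ℝ) (hf : EvAn f) : MG := algebraMap HG MG (hmk f hf)

theorem mmk_eq {f g : ℝ → ℝ} {hf : EvAn f} {hg : EvAn g} :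
    mmk f hf = mmk g hg ↔ f =ᶠ[atTop] g := by
  rw [mmk, mmk, (IsFractionRing.injective HG MG).eq_iff, hmk_eq]

theorem mmk_add {f g : ℝ → ℝ} (hf : EvAn f) (hg : EvAn g) :
    mmk f hf + mmk g hg = mmk (fun x => f x + g x) (hf.add hg) := by
  rw [mmk, mmk, mmk, ← map_add, hmk_add]

theorem mmk_mul {f g : ℝ → ℝ} (hf : EvAn f) (hg : EvAn g) :
    mmk f hf * mmk g hg = mmk (fun x => f x * g x) (hf.mul hg) := by
  rw [mmk, mmk, mmk, ← map_mul, hmk_mul]

theorem algebraMap_MG (c : ℝ) : algebraMap ℝ MG c = mmk (fun _ => c) (evAn_const c) := by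
  rw [mmk, ← algebraMap_HG, ← IsScalarTower.algebraMap_apply]

theorem exists_mmk_div (a : MG) : ∃ f g, ∃ hf : EvAn f, ∃ hg : EvAn g,
    mmk g hg ≠ 0 ∧ a = mmk f hf / mmk g hg := by
  obtain ⟨x, y, hy, rfl⟩ := IsFractionRing.div_surjective (A := HG) a
  obtain ⟨f, hf, rfl⟩ := exists_hmk x
  obtain ⟨g, hg, rfl⟩ := exists_hmk y
  refine ⟨f, g, hf, hg, ?_, rfl⟩
  intro h
  rw [mmk, map_eq_zero_iff _ (IsFractionRing.injective HG MG)] at h
  exact (nonZeroDivisors.ne_zero hy) h

/-- `x` -/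
noncomputable def xx : MG := mmk (fun x => x) evAn_id

/-- `e^{λ x}` -/
noncomputable def ee (lam : ℝ) : MG := mmk (fun x => Real.exp (lam * x)) (evAn_exp lam)

/-- the field of all functions algebraic over `ℝ(x, e^{λ x})` -/
noncomputable abbrev KF (lam : ℝ) : IntermediateField ℝ MG := acl ℝ ({xx, ee lam} : Set MG)

/-- the group of all order isomorphisms of `ℝ` that are, together with their inverses,
real-analytic near `+∞` -/
def AnG : Subgroup (ℝ ≃o ℝ) where
  carrier := {f | EvAn f ∧ EvAn f.symm}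
  mul_mem' := by
    rintro f g ⟨hf, hf'⟩ ⟨hg, hg'⟩
    exact ⟨hf.comp hg, hg'.comp (g := f.symm) hf'⟩
  one_mem' := ⟨evAn_id, evAn_id⟩
  inv_mem' := by
    rintro f ⟨hf, hf'⟩
    exact ⟨hf', hf⟩

theorem shift_mem (s : ℝ) : OrderIso.addRight s ∈ AnG := by
  constructor
  · exact Eventually.of_forall fun x => analyticAt_id.add analyticAt_const
  · refine Eventually.of_forall fun x => ?_
    exact analyticAt_id.add analyticAt_const

end MP52exp
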