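import Pool.Agent.Lib.MP_52aaf2_al.EX.Sys

/-!
# MP_52aaf2_al, project EX: statements in the algebraic setting

Throughout `S : Sys K M`. For `h ∈ K` one should think of a function `h(X, E)` algebraic over
`ℝ(X, E)`; `y h = h(U, e^{λU})` for a point `y` with `y X = U`.
-/

open Polynomial IntermediateField

namespace MP52exp

/-- **(Cr)** The chain rule for a derivation `δ` and an embedding `y` of `K` in a field `N`.
Proof: both sides are derivations `K → N` along `y` (over `ℝ`) which agree at `X` and at `E`, so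
they agree on `ℝ(X, E)` and on everything algebraic over it, i.e. on `K` (`S.span`). Elementary
variant: the set of `h` for which the formula holds is a subfield of `K` containing `X, E` and
closed under passing to algebraic elements (differentiate the minimal polynomial). -/
def Cr : Prop := ∀ (K M : Type) [Field K] [Field M] [Algebra ℝ K] [Algebra ℝ M] (S : Sys K M)
  (N : Type) [Field N] [Algebra ℝ N] (y : K →ₐ[ℝ] N) (δ : Derivation ℝ N N) (h : K),
  δ (y h) = y (S.DX h) * δ (y S.X) + y (S.DE h) * (δ (y S.E) / y S.E)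

/-- **(Jac)** (0) if `DX h = DE h = 0` then `h` is algebraic over `ℝ`; (1) if `P` is not algebraic
over `ℝ`, then `h` is algebraic over `ℝ(P)` if and only if the Jacobian of `P, h` vanishes;
(2) `E` is not algebraic over `ℝ`, `X` is not algebraic over `ℝ(E)`, and `K` has rank `2`.
Proof: (2) `DX` kills `acl ℝ {E}` and `DX X = 1`; `DE E = E ≠ 0`; rank by `rk_pair` and `S.span`.
(1) `⇒`: the derivation `δ = DE P • DX - DX P • DE` kills `P`, hence everything algebraic over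
`ℝ(P)`, and `δ h = DE P * DX h - DX P * DE h`. `⇐`: if `h ∉ acl {P}` then `{P, h}` has rank `2`,
so `acl {P, h}` is all of `K`; the derivation `δ` kills `P` and `h`, hence kills `K`; from
`δ X = DE P`, `δ E = - DX P * E` we get `DX P = DE P = 0`, contradicting (0). (0): if `h` were not
algebraic over `ℝ`, extend `{h}` by `X` or by `E` to a set of rank `2` spanning `K` (one of them
is not in `acl {h}`); with `X`: the derivation `DE` kills `h` and `X`, hence `E`; with `E`: `DX`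
kills `h` and `E`, hence `X`; contradictions. -/
def Jac : Prop := ∀ (K M : Type) [Field K] [Field M] [Algebra ℝ K] [Algebra ℝ M] (S : Sys K M),
  (∀ h : K, S.DX h = 0 → S.DE h = 0 → h ∈ acl ℝ (∅ : Set K)) ∧
  (∀ P h : K, P ∉ acl ℝ (∅ : Set K) →
    (h ∈ acl ℝ ({P} : Set K) ↔ S.DX h * S.DE P = S.DE h * S.DX P)) ∧
  (S.E ∉ acl ℝ (∅ : Set K) ∧ S.X ∉ acl ℝ ({S.E} : Set K) ∧ S.E ∉ acl ℝ ({S.X} : Set K)) ∧
  (∀ T : Set K, rk ℝ T ≤ 2) ∧ rk ℝ (Set.univ : Set K) = 2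

/-- **(MuN)** If `P` depends on `X` and on `E`, then `μ = DX P / DE P` is not algebraic over
`ℝ(P)` and the Jacobian `jac S P` does not vanish.
Proof: suppose `μ ∈ acl {P}`. The derivation `δ = DX - μ • DE` kills `P`, hence `μ`; let `C₁` be
the kernel of `δ`, a subfield containing `P, μ`; `δ X = 1`, `δ E = - μ E`. As `X ∉ acl {P}`
(which is contained in the kernel of `δ`), `{P, X}` has rank `2`, so `E` is algebraic over
`ℝ(P, X) ⊆ C₁(X)`. By `E0` over `k = C₁` (with `c = - μ`) we get `μ = 0`, i.e. `DX P = 0`,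
contradiction. By `Jac` (1) (with `h = μ`; `P` is not algebraic over `ℝ` as `DX P ≠ 0`) the
Jacobian is not zero. -/
def MuN : Prop := ∀ (K M : Type) [Field K] [Field M] [Algebra ℝ K] [Algebra ℝ M] (S : Sys K M)
  (P : K), S.DX P ≠ 0 → S.DE P ≠ 0 → mu S P ∉ acl ℝ ({P} : Set K) ∧ jac S P ≠ 0

/-- **(LemL)** `DE (DE P) = 0` implies `DE P = 0`.
Proof: let `k = acl ℝ {X}` (killed by `DE`); `c = DE P ∈ k` by `Jac` (1) (with `P := X`:
`DE c = 0` means that the Jacobian of `X, c` vanishes); `P` is algebraic over `k(E)` (`S.span`),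
`DE E = E`, so `L0` over `k` (with `θ = DE` as a derivation over `k`) gives `c = 0`. -/
def LemL : Prop := ∀ (K M : Type) [Field K] [Field M] [Algebra ℝ K] [Algebra ℝ M] (S : Sys K M)
  (P : K), S.DE (S.DE P) = 0 → S.DE P = 0

/-- **(ShD)** The shifts commute with `DX` and `DE`.
Proof: `(sh s)⁻¹ ∘ DX ∘ sh s` is a derivation of `K` over `ℝ` which agrees with `DX` at `X` and at
`E`, so the difference kills `acl ℝ {X, E} = K` (`Dst`, `S.span`); the same for `DE`. -/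
def ShD : Prop := ∀ (K M : Type) [Field K] [Field M] [Algebra ℝ K] [Algebra ℝ M] (S : Sys K M)
  (s : ℤ) (h : K), S.DX (S.sh s h) = S.sh s (S.DX h) ∧ S.DE (S.sh s h) = S.sh s (S.DE h)

/-- **(Lem0)** `P(x + s)` is not algebraic over `ℝ(P)`.
Proof: suppose it is. The derivation `δ = DX - μ • DE` kills `P`, hence `sh s P`:
`DX (sh s P) = μ DE (sh s P)`, so by `ShD` `sh s μ = μ`. By `LemI` (with `y = id`, `z = sh s`,
`c = s`, `κ = e^{λ s}`; `K = M`) `μ` is algebraic over `ℝ`, so `μ ∈ acl {P}`, contradicting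
`MuN`. -/
def Lem0 : Prop := ∀ (K M : Type) [Field K] [Field M] [Algebra ℝ K] [Algebra ℝ M] (S : Sys K M)
  (P : K), S.DX P ≠ 0 → S.DE P ≠ 0 → ∀ s : ℤ, s ≠ 0 → S.sh s P ∉ acl ℝ ({P} : Set K)

/-- **(LemA)** Let `k` be a subfield of `ℝ` such that `e^λ` is transcendental over `k` and `P`
algebraic over `k(X, E)`. Then `P(x + s)` is not algebraic over `ℝ(P + κ X)` for rational
`κ ≠ 0`.
Proof: suppose it is. With `μ' = (DX P + κ) / DE P = μ + κ ν`, `ν = 1 / DE P`, the derivation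
`DX - μ' • DE` kills `P + κ X`, hence `sh s P`, so `sh s μ = μ + κ ν` (`ShD`). (If
`P + κ X ∈ acl ∅` then `DE P = 0`, contradiction.) Let `Δ` be a derivation of `K` over `k` with
`Δ X = Δ E = 0`, `Δ Λ = 1`, where `Λ = e^λ ∈ ℝ ⊆ K`: it exists by `Der1` (over the field `k`),
since `Λ ∉ acl k {X, E}` (otherwise, as `Λ ∉ acl k ∅`, by exchange `E ∈ acl k {Λ} ⊆ acl ℝ ∅` or
`X ∈ acl k {Λ, E} ⊆ acl ℝ {E}`, excluded by `Jac` (2)). Then `Δ' = (sh s)⁻¹ ∘ Δ ∘ sh s` kills `k` and `X`, and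
`Δ' E = (sh s)⁻¹ (s Λ^(s-1) E) = (s / Λ) E`, so `Δ' = (s / Λ) DE` on `acl k {X, E}` (the
difference is a derivation over `k` killing `X` and `E`). As `DX P, DE P, μ, ν ∈ acl k {X, E}`
(`Dst` over `k`: `DX`, `DE` are derivations over `k` preserving `k(X, E)`), we get
`0 = Δ (μ + κ ν) = Δ (sh s μ) = sh s (Δ' μ) = sh s ((s / Λ) DE μ)`, so `DE μ = 0`; applying `DE`
to `sh s μ = μ + κ ν` we get `DE ν = 0`, so `DE (DE P) = 0`, and `DE P = 0` by `LemL`. -/
def LemA : Prop := ∀ (K M : Type) [Field K] [Field M] [Algebra ℝ K] [Algebra ℝ M] (S : Sys K M)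
  (k : Subfield ℝ), Transcendental k (Real.exp S.lam) → ∀ P : K,
  P ∈ acl k ({S.X, S.E} : Set K) → S.DX P ≠ 0 → S.DE P ≠ 0 → ∀ s : ℤ, s ≠ 0 → ∀ κ : ℚ, κ ≠ 0 →
    S.sh s P ∉ acl ℝ ({P + (κ : K) * S.X} : Set K)

/-- **(GR)** The rank of a chain: if `y 0 X, …` are independent over `ℚ` modulo constants, every
interval `i ≤ l < j` of the chain has rank `(j - i) + 1`.
Proof: `≥`: `Ax` for `u_l = λ (y l X)`, `e_l = y l E`, `i ≤ l < j` (`S.pt_exp`, `S.const`; an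
integer relation between the `λ (y l X)` is one between the `y l X`). `≤`: `K` is contained in
`acl {a l, b l}` (rank `2`, `Jac`), so `gen S (y l) ⊆ acl {y l (a l), y l (b l)}` (`Trn`), and
`y (l+1) (a (l+1))` is in `acl {y l (b l)} ⊆ acl (gen S (y l))`; induction on `j`. -/
def GR : Prop := ∀ (K M : Type) [Field K] [Field M] [Algebra ℝ K] [Algebra ℝ M] (S : Sys K M)
  (r : ℕ) (y : ℕ → (K →ₐ[ℝ] M)) (a b : ℕ → K), PreChain S r y a b → QInd S r y →
  ∀ i j : ℕ, i < j → j ≤ r → rk ℝ (gens S y i j) = ((j - i : ℕ) : ℕ∞) + 1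

/-- **(R1)** `acl (gens 0 m) ∩ acl (gens m r) ⊆ acl {y (m-1) (b (m-1))}`, and the last outgoing
element does not depend on the preceding points.
Proof: the first claim is `Mat1` with the ranks from `GR`: `(m + 1) + (r - m + 1) = (r + 1) + 1`
and `gens 0 m ∪ gens m r = gens 0 r`; the common element is `y (m-1) (b (m-1))`, which is not
algebraic (`ab2`, `Trn`) and is in `acl (gens m r)` by the link. The second claim: otherwise
`gen S (y (r-1)) ⊆ acl {y (r-1) (a (r-1)), y (r-1) (b (r-1))} ⊆ acl (gens 0 (r-1))` and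
`rk (gens 0 r) = rk (gens 0 (r-1))`, contradicting `GR`. -/
def R1 : Prop := ∀ (K M : Type) [Field K] [Field M] [Algebra ℝ K] [Algebra ℝ M] (S : Sys K M)
  (r : ℕ) (y : ℕ → (K →ₐ[ℝ] M)) (a b : ℕ → K), PreChain S r y a b → QInd S r y →
  (∀ m : ℕ, 1 ≤ m → m < r → ∀ x : M, x ∈ acl ℝ (gens S y 0 m) → x ∈ acl ℝ (gens S y m r) →
    x ∈ acl ℝ ({y (m - 1) (b (m - 1))} : Set M)) ∧
  (2 ≤ r → y (r - 1) (b (r - 1)) ∉ acl ℝ (gens S y 0 (r - 1)))

/-- **(CA)** Initial sums and products: if `∑_{l<r} m_l y_l X` (resp. `∏_{l<r} (y_l E)^{m_l}`) is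
algebraic over the last outgoing element, then the same is true for all `j ≤ r`.
Proof: for `j < r` the initial sum is in `acl (gens 0 j)`, and it is the difference of the whole
sum (in `acl (gens j r)`, as the last outgoing element is there) and the rest (in
`acl (gens j r)`); use `R1`. -/
def CA : Prop := ∀ (K M : Type) [Field K] [Field M] [Algebra ℝ K] [Algebra ℝ M] (S : Sys K M)
  (r : ℕ) (y : ℕ → (K →ₐ[ℝ] M)) (a b : ℕ → K), PreChain S r y a b → QInd S r y → 1 ≤ r →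
  ∀ m : ℕ → ℤ,
  (∑ l ∈ Finset.range r, (m l : M) * y l S.X ∈ acl ℝ ({y (r - 1) (b (r - 1))} : Set M) →
    ∀ j, 1 ≤ j → j ≤ r →
      ∑ l ∈ Finset.range j, (m l : M) * y l S.X ∈ acl ℝ ({y (j - 1) (b (j - 1))} : Set M)) ∧
  (∏ l ∈ Finset.range r, (y l S.E) ^ (m l) ∈ acl ℝ ({y (r - 1) (b (r - 1))} : Set M) →
    ∀ j, 1 ≤ j → j ≤ r →
      ∏ l ∈ Finset.range j, (y l S.E) ^ (m l) ∈ acl ℝ ({y (j - 1) (b (j - 1))} : Set M))

/-- **(EndG)** The first incoming element does not depend on the last outgoing element.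
Proof: `r = 1`: `ab1, ab2`, `Trn` and exchange. `r ≥ 2`: `y 0 (a 0) ∈ acl (gens 0 1)`, and if it
were in `acl {y (r-1) (b (r-1))} ⊆ acl (gens 1 r)`, then by `R1` it would be in
`acl {y 0 (b 0)}`; as it is not algebraic, exchange gives `y 0 (b 0) ∈ acl {y 0 (a 0)}`,
contradicting `ab2` (`Trn`). -/
def EndG : Prop := ∀ (K M : Type) [Field K] [Field M] [Algebra ℝ K] [Algebra ℝ M] (S : Sys K M)
  (r : ℕ) (y : ℕ → (K →ₐ[ℝ] M)) (a b : ℕ → K), PreChain S r y a b → QInd S r y → 1 ≤ r →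
  y 0 (a 0) ∉ acl ℝ ({y (r - 1) (b (r - 1))} : Set M)

/-- **(ChP)** The chain of a word is a `PreChain`.
Proof: `inn` and `out` are not algebraic and independent: `X, P` by `Jac` and `hX, hE`; `P, sh s P`
by `hA` with `κ = 0`. The links: `u + n` and `u` generate the same field. -/
def ChP : Prop := ∀ (K M : Type) [Field K] [Field M] [Algebra ℝ K] [Algebra ℝ M] (S : Sys K M)
  (P : K), Good S P → ∀ (r : ℕ) (y : ℕ → (K →ₐ[ℝ] M)) (t : ℕ → Ty) (n : ℕ → ℤ),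
  IsChain S P r y t n → PreChain S r y (fun j => inn S P (t j)) (fun j => out S P (t j))

/-- **(CasA)** Case A: the new point is of type `p`.
Let `Σ_{l ≤ r} m_l y_l X` be a constant with `m_0 ≠ 0 ≠ m_r`, the first `r ≥ 1` points
independent, and `t r = p`: contradiction.
Proof: by the link `y_r X = y_{r-1}(out) + n`, so `∑_{l<r} m_l y_l X = c - m_r (y_{r-1}(out) + n)`
is in `acl {y_{r-1}(out)}`; by `CA` all initial sums are in `acl {y_{j-1} (out)}`. `j = 1`: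
`y_0 X ∈ acl {y_0 (out)}`, so `t 0 = m` (otherwise `X ∈ acl {P}` or `X ∈ acl {sh s P}`, excluded
by `Jac`, `hX`, `hE`, `ShD`). If `r = 1` then `t 1 = p` contradicts `v1`. So `r ≥ 2`, and
`t 1 ≠ p` by `v1`; with `w = y_1`: `m_0 (y_0 X) + m_1 (w X) ∈ acl {w (out)}`, and the link is
`w P = y_0 X + n_0`; so `w (m_0 P + m_1 X) ∈ acl {w (out)}`, `m_0 P + m_1 X ∈ acl {out}` (`Trn`).
If `t 1 = m` this gives `P ∈ acl {X}`, impossible (`Jac`, `hE`). If `t 1 = mp s` then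
`P + κ X ∈ acl {sh s P}`, `κ = m_1 / m_0`, and `P + κ X` is not algebraic (`DE P ≠ 0`), so
`sh s P ∈ acl {P + κ X}` by exchange, contradicting `hA`. -/
def CasA : Prop := ∀ (K M : Type) [Field K] [Field M] [Algebra ℝ K] [Algebra ℝ M] (S : Sys K M)
  (P : K), Good S P → ∀ (r : ℕ) (y : ℕ → (K →ₐ[ℝ] M)) (t : ℕ → Ty) (n : ℕ → ℤ),
  IsChain S P (r + 1) y t n → QInd S r y → 1 ≤ r → t r = .p → ∀ m : ℕ → ℤ, m 0 ≠ 0 → m r ≠ 0 →
  (∃ c : ℝ, ∑ j ∈ Finset.range (r + 1), (m j : M) * y j S.X = algebraMap ℝ M c) → False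

/-- **(LemB)** `N z X = m y X + c`, `N, m ≠ 0`, `z P = y P + n` with an integer `n ≠ 0`:
contradiction.
Proof: let `q = m / N`, `c' = c / N`: `z X = q y X + c'`; by `pt_exp` and `const`,
`(z E)^N = κ (y E)^m`, with a constant `κ`. For every derivation `δ` of `M`:
`δ (z X) = q δ (y X)`, `δ (z E) / z E = q δ (y E) / y E`. By `Der1` there are derivations `δ₁` with
`δ₁ (y X) = 1`, `δ₁ (y E) = 0` and `δ₂` with `δ₂ (y X) = 0`, `δ₂ (y E) = y E`; by `Cr`,
`y (DX h) = q z (DX h)` and `y (DE h) = q z (DE h)` whenever `z h - y h` is a constant. So this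
holds for `h = P`, and `z μ = y μ`. First case `q = 1`: `z X = y X + c'`. If `c' = 0` then `z = y`
(`pt_eq`) and `n = 0`, contradiction. If `c' ≠ 0`, then `h = DE P` satisfies `z h = y h`, and by
`pt_real`, `z E = e^{λ c'} y E`, so by `LemI` `DE P` is algebraic over `ℝ`, `DE (DE P) = 0`, and
`LemL` gives `DE P = 0`, contradiction. Second case `q ≠ 1`; also `q ≠ -1` by `pt_add`; so `q` is
not a root of unity. Put `X' = X - c' / (1 - q) ∈ K`: `z X' = q y X'`. By `MuN`, `μ ∉ acl {P}` and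
so `P` is transcendental over `K₀ = ℝ(μ)` and `X'` is algebraic over `K₀(P)` (rank `2`); `LemD`
over `k = K₀` (`M` is a `K₀`-algebra through `y`, or equivalently `z`) gives `X' ∈ acl {μ}`. By
`Jac` (1) (`μ` not algebraic) `DE μ = 0`, so `μ ∈ acl {X} = acl {X'}`, and `LemD2` (with `p = X'`,
`b = μ`) shows that `μ` is algebraic over `ℝ`, contradicting `MuN`. -/
def LemB : Prop := ∀ (K M : Type) [Field K] [Field M] [Algebra ℝ K] [Algebra ℝ M] (S : Sys K M)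
  (P : K), Good S P → ∀ y ∈ S.Pt, ∀ z ∈ S.Pt, ∀ N m : ℤ, N ≠ 0 → m ≠ 0 → ∀ c : ℝ,
  (N : M) * z S.X = (m : M) * y S.X + algebraMap ℝ M c → ∀ n : ℤ, n ≠ 0 →
  z P = y P + (n : M) → False

/-- **(AxO)** `D W = λ W D A`, `W ≠ 0`, both `A` and `W` algebraic over `ℝ(w)`: `A` is a constant.
Proof: if `D A ≠ 0` then `A` is transcendental over `ℝ`, so `W ∈ acl {w} ⊆ acl {A}` (exchange).
Apply `E0` to the derivation `δ = (λ D A)⁻¹ • D`, `x = λ A`, `e = W`: `δ x = 1`, `δ e = e`; so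
`1 = 0`. -/
def AxO : Prop := ∀ (K M : Type) [Field K] [Field M] [Algebra ℝ K] [Algebra ℝ M] (S : Sys K M)
  (A W w : M), W ≠ 0 → S.D W = algebraMap ℝ M S.lam * (W * S.D A) → A ∈ acl ℝ ({w} : Set M) →
  W ∈ acl ℝ ({w} : Set M) → S.D A = 0

/-- **(DerC)** Let `T ⊆ M`, `y` a point, `a, b ∈ K` with `a ∉ acl ∅`, `b ∉ acl {a}`,
`y a ∈ acl T`, `y b ∉ acl T`, and `g ∈ acl T`, `g ∉ acl {y a}`. Then there is a derivation `δ` of
`M` killing `y a, y b`, preserving `acl T`, with `δ g = 1`.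
Proof: `{y a, g}` is independent; extend it to a basis `B` of `acl T` and put
`B' = B \ {y a, g}`. As `y b ∉ acl T = acl B`, `insert (y b) B` is independent, so
`g ∉ acl (B' ∪ {y a, y b})`; `Der1` gives `δ` killing `B' ∪ {y a, y b}` with `δ g = 1`; it
preserves `acl T = acl B` by `Dst`. -/
def DerC : Prop := ∀ (F : Type) [Field F] [Algebra ℝ F] (T : Set F) (u v g : F),
  u ∉ acl ℝ (∅ : Set F) → u ∈ acl ℝ T → v ∉ acl ℝ T → g ∈ acl ℝ T → g ∉ acl ℝ ({u} : Set F) →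
  ∃ δ : Derivation ℝ F F, δ u = 0 ∧ δ v = 0 ∧ (∀ x ∈ acl ℝ T, δ x ∈ acl ℝ T) ∧ δ g = 1

/-- **(C3b)** The core of case B. Let `y, z` be points, `a, b ∈ K` independent, `T ⊆ M` with
`y a ∈ acl T`, `y b ∉ acl T`, `N z X = m y X + A`, `(z E)^N = W (y E)^m` with `N ≥ 1`,
`A, W ∈ acl T`, and `z P = y b + n`. If `A ∉ acl {y a}` or `W ∉ acl {y a}`, then
`∂X/∂P, (∂E/∂P)/E ∈ acl {P}` (derivatives at constant `μ`), and there is a derivation `δ` of `M`
with `δ (y a) = 0`, `δ (y b) = 1`, `N z(∂X/∂P) = m δ(y X)`, `N z((∂E/∂P)/E) = m δ(y E)/(y E)`.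
Proof: (i) by `DerC` there is `∂` killing `y a, y b` (hence everything in `y K ⊆ acl {y a, y b}`,
`Dst`, `Trn`, `Jac`), preserving `acl T`, with `∂ A ≠ 0` or `∂ W ≠ 0`. Then
`∂ (z P) = ∂ (y b + n) = 0`, and by `Cr`
`0 = z (DX P) ∂(z X) + z (DE P) ∂(z E)/(z E)`, `N ∂(z X) = ∂ A`,
`N ∂(z E)/(z E) = ∂ W / W`. If `∂ A = 0` then `∂ W = 0`; so `∂ A ≠ 0` and
`z μ = - (∂ W / W) / ∂ A ∈ acl T`. (ii) `∂ (z μ) ≠ 0`: otherwise `∂` kills `z P` and `z μ`, and as
`K = acl {P, μ}` (`MuN`, rank `2`), it kills `z X`, so `∂ A = 0`. (iii) By `Der1` there is a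
derivation `δ` killing `acl T` with `δ (y b) = 1`. So `δ (z P) = 1`, `δ (z μ) = 0`, and by `Cr` for
`P` and `μ` (two linear equations with determinant `z (jac S P) ≠ 0`) `δ (z X) = z (aa S P)`,
`δ (z E) / z E = z (bb S P)`; so `N z (aa) = N δ (z X) = m δ (y X)` and
`N z (bb) = m δ (y E) / y E`. (iv) `δ` preserves `acl {y a, y b} ⊇ y K` (`Dst`), so
`z (aa), z (bb) ∈ acl {y a, y b} ∩ z K`. And `acl {y a, y b} ∩ acl {z P, z μ} ⊆ acl {z P}` by
`Mat1`: otherwise `rk ({y a, y b} ∪ {z P, z μ}) ≤ 2` and `z μ ∈ acl {y a, y b}`, so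
`∂ (z μ) = 0`, contradicting (ii). (`z P = y b + n` is in both and not algebraic.) By `Trn`,
`aa, bb ∈ acl {P}`. -/
def C3b : Prop := ∀ (K M : Type) [Field K] [Field M] [Algebra ℝ K] [Algebra ℝ M] (S : Sys K M)
  (P : K), Good S P → ∀ (y z : K →ₐ[ℝ] M) (a b : K), a ∉ acl ℝ (∅ : Set K) →
  b ∉ acl ℝ ({a} : Set K) → ∀ T : Set M, y a ∈ acl ℝ T → y b ∉ acl ℝ T →
  ∀ (N : ℕ) (m n : ℤ) (A W : M), 1 ≤ N → A ∈ acl ℝ T → W ∈ acl ℝ T →
  (N : M) * z S.X = (m : M) * y S.X + A → (z S.E) ^ N = W * (y S.E) ^ m →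
  z P = y b + (n : M) → (A ∉ acl ℝ ({y a} : Set M) ∨ W ∉ acl ℝ ({y a} : Set M)) →
  aa S P ∈ acl ℝ ({P} : Set K) ∧ bb S P ∈ acl ℝ ({P} : Set K) ∧
  ∃ δ : Derivation ℝ M M, δ (y a) = 0 ∧ δ (y b) = 1 ∧
    (N : M) * z (aa S P) = (m : M) * δ (y S.X) ∧
    (N : M) * z (bb S P) = (m : M) * (δ (y S.E) / y S.E)

/-- **(End)** The conclusion of `C3b` is impossible, for `a = inn t`, `b = out t`.
Proof: put `q = m / N ≠ 0`.
Type `m` (`a = P`, `b = X`): `δ (y X) = 1`, so `z (aa) = q` is a constant; `0 = δ (y P)` gives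
`δ(y E)/(y E) = - y μ` (`Cr`), so `z (bb) = - q y μ`, and `bb ∈ acl {P}`, so
`y μ ∈ acl {z P} = acl {y X}`, `μ ∈ acl {X}`, `DE μ = 0` (`Jac`), `aa = DE μ / jac = 0`, so
`q = 0`, contradiction.
Type `p` (`a = X`, `b = P`, `n ≠ 0`): `δ (y X) = 0`, so `aa = 0`, `DE μ = 0`,
`jac = - DE P DX μ`, `bb = 1 / DE P`; `1 = δ (y P) = y (DE P) δ(y E)/(y E)`, so
`z (bb) = q y (bb)`, `z P = y P + n`, `bb ∈ acl {P}`: by `LemD` `bb` is algebraic over `ℝ`, so
`DE (DE P) = 0` and `LemL` gives `DE P = 0`, contradiction.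
Type `mp s` (`a = P`, `b = sh s P`, `s ≠ 0`): `δ (y P) = 0` gives `δ(y E)/(y E) = - y μ δ(y X)`,
and `δ (y X) ≠ 0` (otherwise `δ (y b) = 0`); so `z (aa) ≠ 0`, `z (bb / aa) = - y μ`, so
`y μ ∈ acl {z P} = acl {y (sh s P)}`, `μ ∈ acl {sh s P}`; as `μ` is not algebraic,
`acl {μ} = acl {sh s P}`. The derivation `δ' = aa • DX + bb • DE` of `K` satisfies `δ' μ = 0`
(definition of `aa, bb`), hence `δ' (sh s P) = 0`, i.e.
`aa sh s (DX P) + bb sh s (DE P) = 0` (`ShD`), so `sh s μ = - bb / aa ∈ acl {P}`. As `sh s μ` is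
not algebraic, `P ∈ acl {sh s μ}`, and applying `sh s` to `μ ∈ acl {sh s P}` we get
`P ∈ acl {sh s μ} ⊆ acl {sh s (sh s P)}`, so `sh s (sh s P) ∈ acl {P}` (exchange). The derivation `DX - μ • DE` then kills `sh s (sh s P)`, so
`sh s (sh s μ) = μ` and `LemI` (`y = id`, `z = sh s ∘ sh s`, `c = 2 s`) shows that `μ` is
algebraic, contradicting `MuN`. -/
def End : Prop := ∀ (K M : Type) [Field K] [Field M] [Algebra ℝ K] [Algebra ℝ M] (S : Sys K M)
  (P : K), Good S P → ∀ y ∈ S.Pt, ∀ z ∈ S.Pt, ∀ t : Ty, (∀ s, t = .mp s → s ≠ 0) →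
  ∀ (N : ℕ) (m n : ℤ), 1 ≤ N → m ≠ 0 → (t ≠ .m → n ≠ 0) → z P = y (out S P t) + (n : M) →
  aa S P ∈ acl ℝ ({P} : Set K) → bb S P ∈ acl ℝ ({P} : Set K) →
  ∀ δ : Derivation ℝ M M, δ (y (inn S P t)) = 0 → δ (y (out S P t)) = 1 →
  (N : M) * z (aa S P) = (m : M) * δ (y S.X) →
  (N : M) * z (bb S P) = (m : M) * (δ (y S.E) / y S.E) → False

/-- `End` for one type -/
def EndT (t : Ty) : Prop := ∀ (K M : Type) [Field K] [Field M] [Algebra ℝ K] [Algebra ℝ M]
  (S : Sys K M) (P : K), Good S P → ∀ y ∈ S.Pt, ∀ z ∈ S.Pt, (∀ s, t = .mp s → s ≠ 0) →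
  ∀ (N : ℕ) (m n : ℤ), 1 ≤ N → m ≠ 0 → (t ≠ .m → n ≠ 0) → z P = y (out S P t) + (n : M) →
  aa S P ∈ acl ℝ ({P} : Set K) → bb S P ∈ acl ℝ ({P} : Set K) →
  ∀ δ : Derivation ℝ M M, δ (y (inn S P t)) = 0 → δ (y (out S P t)) = 1 →
  (N : M) * z (aa S P) = (m : M) * δ (y S.X) →
  (N : M) * z (bb S P) = (m : M) * (δ (y S.E) / y S.E) → False

/-- **(CasB)** Case B: the new point is not of type `p` (assembly: for `r = 1` by `LemB`, for
`r ≥ 2` by `AxO`, `C3b` and `End` with `T = gens 0 (r-1)`). -/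
def CasB : Prop := ∀ (K M : Type) [Field K] [Field M] [Algebra ℝ K] [Algebra ℝ M] (S : Sys K M)
  (P : K), Good S P → ∀ (r : ℕ) (y : ℕ → (K →ₐ[ℝ] M)) (t : ℕ → Ty) (n : ℕ → ℤ),
  IsChain S P (r + 1) y t n → QInd S r y → 1 ≤ r → t r ≠ .p → ∀ m : ℕ → ℤ, m 0 ≠ 0 → m r ≠ 0 →
  (∃ c : ℝ, ∑ j ∈ Finset.range (r + 1), (m j : M) * y j S.X = algebraMap ℝ M c) → False

/-- **(Main)** all chains are independent, and the first incoming element does not depend on the
last outgoing one. -/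
def MainC : Prop := ∀ (K M : Type) [Field K] [Field M] [Algebra ℝ K] [Algebra ℝ M] (S : Sys K M)
  (P : K), Good S P → ∀ (r : ℕ) (y : ℕ → (K →ₐ[ℝ] M)) (t : ℕ → Ty) (n : ℕ → ℤ),
  IsChain S P r y t n → 1 ≤ r →
  y 0 (inn S P (t 0)) ∉ acl ℝ ({y (r - 1) (out S P (t (r - 1)))} : Set M)

/-- **(ExpC)** Chains of exponentials and logarithms. `ε j = true`: the incoming element is `X`, the
outgoing one `E`; `ε j = false`: the other way round. Neighbours are linked by algebraic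
dependence, and whenever `ε j ≠ ε (j+1)`, the functions `y_j X, y_{j+1} X` are linearly
independent over `ℚ` modulo constants. Then so are all the `y_j X`.
Proof: induction on `r`; suppose `∑_{l ≤ r} m_l y_l X = c`, with the first `r` points (and the last
`r` points) independent, so `m_0 ≠ 0 ≠ m_r`, `r ≥ 1`. If `ε r = true`: `y_r X` is algebraic over
`y_{r-1}(out)`, so by `CA` all initial sums are algebraic over `y_{j-1}(out)`. `j = 1`:
`y_0 X ∈ acl {y_0 (out)}`, so `ε 0 = false` (`Jac` (2)). If `r = 1` then `y_0 X, y_1 X` are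
dependent and `ε 0 ≠ ε 1`: contradiction. `r ≥ 2`, `j = 2`: `m_0 y_0 X + m_1 y_1 X` is algebraic
over `y_1 (out)`, and `acl {y_0 X} = acl {y_1 (inn)}`. If `ε 1 = false` (`inn = E`, `out = X`):
`y_0 X ∈ acl {y_1 X} ∩ acl {y_1 E}`, so it is algebraic over `ℝ`, i.e. `D (y_0 X) = 0`,
contradiction. If `ε 1 = true`: `m_0 y_0 X + m_1 y_1 X ∈ acl {y_1 X} ∩ acl {y_1 E}` is a constant,
contradicting the assumption on `y_0 X, y_1 X` (`m_0 ≠ 0`). If `ε r = false`: `y_r E` is algebraic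
over `y_{r-1}(out)`, and `(y_r E)^{m_r} = κ ∏_{l<r} (y_l E)^{-m_l}` (take `D`-logarithmic
derivatives), so by the multiplicative part of `CA` all initial products are algebraic over
`y_{j-1}(out)`; `j = 1`: `ε 0 = true`; `r = 1`: as before; `j = 2`: if `ε 1 = true`
(`inn = X`, `out = E`), `acl {y_0 E} = acl {y_1 X}`, `y_0 E ∈ acl {y_1 E} ∩ acl {y_1 X}`,
contradiction; if `ε 1 = false`: `(y_0 E)^{m_0} (y_1 E)^{m_1}` is in
`acl {y_1 E} ∩ acl {y_1 X}`, so it is a constant, so `m_0 y_0 X + m_1 y_1 X` is a constant,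
contradiction. -/
def ExpC : Prop := ∀ (K M : Type) [Field K] [Field M] [Algebra ℝ K] [Algebra ℝ M] (S : Sys K M)
  (r : ℕ) (y : ℕ → (K →ₐ[ℝ] M)) (ε : ℕ → Bool), (∀ j < r, y j ∈ S.Pt) →
  (∀ j, j + 1 < r → acl ℝ ({y (j + 1) (bif ε (j + 1) then S.X else S.E)} : Set M) =
    acl ℝ ({y j (bif ε j then S.E else S.X)} : Set M)) →
  (∀ j, j + 1 < r → ε j ≠ ε (j + 1) → ∀ (m₁ m₂ : ℤ) (c : ℝ),
    (m₁ : M) * y j S.X + (m₂ : M) * y (j + 1) S.X = algebraMap ℝ M c → m₁ = 0 ∧ m₂ = 0) →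
  QInd S r y

end MP52exp
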