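import Pool.Agent.Lib.MP_52aaf2_al.EX.StmG
import Pool.Agent.Lib.MP_52aaf2_al.EX.StmS

/-!
# MP_52aaf2_al, project EX: assembly of the main induction
-/

open Polynomial IntermediateField

namespace MP52exp

section

variable {K M : Type} [Field K] [Field M] [Algebra ℝ K] [Algebra ℝ M] {S : Sys K M}

theorem charM (M : Type) [Field M] [Algebra ℝ M] : CharZero M :=
  charZero_of_injective_algebraMap (algebraMap ℝ M).injective

theorem int_eq (n : ℤ) : (n : M) = algebraMap ℝ M (n : ℝ) := (map_intCast (algebraMap ℝ M) n).symm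

theorem int_mem_acl (n : ℤ) (T : Set M) : (n : M) ∈ acl ℝ T := by
  rw [int_eq]
  exact _root_.algebraMap_mem _ _

theorem real_mem_acl (c : ℝ) (T : Set M) : algebraMap ℝ M c ∈ acl ℝ T :=
  _root_.algebraMap_mem _ _

theorem mem_acl_gen (hT : Trn) (S : Sys K M) (y : K →ₐ[ℝ] M) (h : K) :
    y h ∈ acl ℝ (gen S y) := by
  have h1 := (hT ℝ K M y ({S.X, S.E} : Set K) h).1 (S.span h)
  rwa [Set.image_pair] at h1

theorem gen_subset_gens (S : Sys K M) (y : ℕ → (K →ₐ[ℝ] M)) {i j l : ℕ} (h1 : i ≤ l)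
    (h2 : l < j) : gen S (y l) ⊆ gens S y i j := by
  intro x hx
  exact Set.mem_biUnion (Set.mem_Ico.2 ⟨h1, h2⟩) hx

theorem mem_acl_gens (hT : Trn) (S : Sys K M) (y : ℕ → (K →ₐ[ℝ] M)) {i j l : ℕ} (h1 : i ≤ l)
    (h2 : l < j) (h : K) : y l h ∈ acl ℝ (gens S y i j) :=
  acl_mono (gen_subset_gens S y h1 h2) (mem_acl_gen hT S (y l) h)

theorem IsChain.mono {P : K} {r r' : ℕ} (hr : r' ≤ r) {y : ℕ → (K →ₐ[ℝ] M)} {t : ℕ → Ty}
    {n : ℕ → ℤ} (h : IsChain S P r y t n) : IsChain S P r' y t n where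
  pt j hj := h.pt j (by omega)
  link j hj := h.link j (by omega)
  v1 j hj := h.v1 j (by omega)
  v2 j hj := h.v2 j (by omega)
  tne j hj := h.tne j (by omega)

theorem IsChain.shift {P : K} {r : ℕ} {y : ℕ → (K →ₐ[ℝ] M)} {t : ℕ → Ty}
    {n : ℕ → ℤ} (h : IsChain S P (r + 1) y t n) :
    IsChain S P r (fun j => y (j + 1)) (fun j => t (j + 1)) (fun j => n (j + 1)) where
  pt j hj := h.pt (j + 1) (by omega)
  link j hj := h.link (j + 1) (by omega)
  v1 j hj := h.v1 (j + 1) (by omega)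
  v2 j hj := h.v2 (j + 1) (by omega)
  tne j hj := h.tne (j + 1) (by omega)

theorem D_int (D : Derivation ℝ M M) (n : ℤ) (a : M) : D ((n : M) * a) = (n : M) * D a := by
  rw [Derivation.leibniz, int_eq, Derivation.map_algebraMap]
  simp

theorem y_real (y : K →ₐ[ℝ] M) (c : ℝ) : y (algebraMap ℝ K c) = algebraMap ℝ M c :=
  AlgHom.commutes y c

theorem logD_zpow (D : Derivation ℝ M M) {a : M} (ha : a ≠ 0) (n : ℤ) :
    D (a ^ n) / a ^ n = n * (D a / a) := by
  rw [Derivation.leibniz_zpow]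
  have h2 : a ^ n ≠ 0 := zpow_ne_zero _ ha
  simp only [smul_eq_mul, zsmul_eq_mul]
  rw [zpow_sub_one₀ ha]
  field_simp

theorem logD_mul (D : Derivation ℝ M M) {a b : M} (ha : a ≠ 0) (hb : b ≠ 0) :
    D (a * b) / (a * b) = D a / a + D b / b := by
  rw [Derivation.leibniz]
  simp only [smul_eq_mul]
  field_simp
  ring

theorem logD_prod (D : Derivation ℝ M M) (a : ℕ → M) (m : ℕ → ℤ) (r : ℕ)
    (ha : ∀ l < r, a l ≠ 0) :
    (∏ l ∈ Finset.range r, a l ^ m l) ≠ 0 ∧
    D (∏ l ∈ Finset.range r, a l ^ m l) / (∏ l ∈ Finset.range r, a l ^ m l) =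
      ∑ l ∈ Finset.range r, (m l : M) * (D (a l) / a l) := by
  induction r with
  | zero => simp
  | succ r ih =>
    obtain ⟨h1, h2⟩ := ih fun l hl => ha l (by omega)
    rw [Finset.prod_range_succ, Finset.sum_range_succ]
    have h3 := ha r (by omega)
    refine ⟨mul_ne_zero h1 (zpow_ne_zero _ h3), ?_⟩
    rw [logD_mul D h1 (zpow_ne_zero _ h3), h2, logD_zpow D h3]

theorem pt_E_ne (y : K →ₐ[ℝ] M) : y S.E ≠ 0 := (map_ne_zero y).2 S.E_ne

theorem pt_log {y : K →ₐ[ℝ] M} (hy : y ∈ S.Pt) :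
    S.D (y S.E) / y S.E = algebraMap ℝ M S.lam * S.D (y S.X) := by
  rw [S.pt_exp y hy]
  have := pt_E_ne (S := S) y
  field_simp

/-- the end of case B for chains of length at least three -/
theorem casB_core (hO : AxO) (hC : C3b) (hE : End) (hT : Trn) {P : K} (hP : Good S P)
    {u z : K →ₐ[ℝ] M} (hu : u ∈ S.Pt) (hz : z ∈ S.Pt) {T : Set M} {t : Ty} {n m : ℤ} {N : ℕ}
    {A W : M} (hN1 : 1 ≤ N) (hrel : (N : M) * z S.X = (m : M) * u S.X + A)
    (hWrel : (z S.E) ^ N = W * (u S.E) ^ m)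
    (hDW : S.D W = algebraMap ℝ M S.lam * (W * S.D A)) (hW0 : W ≠ 0)
    (hAT : A ∈ acl ℝ T) (hWT : W ∈ acl ℝ T) (hAc : ∀ c : ℝ, algebraMap ℝ M c ≠ A)
    (hab1 : inn S P t ∉ acl ℝ (∅ : Set K)) (hab2 : out S P t ∉ acl ℝ ({inn S P t} : Set K))
    (ha : u (inn S P t) ∈ acl ℝ T) (hb : u (out S P t) ∉ acl ℝ T)
    (hn : t ≠ .m → n ≠ 0) (ht : ∀ s, t = .mp s → s ≠ 0)
    (hlink : z P = u (out S P t) + (n : M)) : False := by
  have := charM M
  have hNM0 : (N : M) ≠ 0 := Nat.cast_ne_zero.2 (by omega)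
  -- `m ≠ 0`
  have hm0 : m ≠ 0 := by
    intro h0
    apply hb
    have hzX : z S.X ∈ acl ℝ T := by
      have h1 : z S.X = A / (N : M) := by
        rw [h0] at hrel
        push_cast at hrel
        field_simp
        linear_combination hrel
      rw [h1]
      have hNm : (N : M) ∈ acl ℝ T := by
        have := int_mem_acl (M := M) (N : ℤ) T
        rwa [Int.cast_natCast] at this
      exact div_mem hAT hNm
    have hzET : z S.E ∈ acl ℝ T := by
      have h1 : (z S.E) ^ N ∈ acl ℝ T := by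
        rw [hWrel, h0, zpow_zero, mul_one]
        exact hWT
      apply acl_closed
      have h2 : IsAlgebraic (acl ℝ T) ((z S.E) ^ N) :=
        isAlgebraic_algebraMap (A := M) (⟨_, h1⟩ : acl ℝ T)
      exact h2.of_pow (by omega)
    have hsub : gen S z ⊆ acl ℝ T := by
      rintro x (rfl | hx)
      · exact hzX
      · rw [Set.mem_singleton_iff] at hx
        rw [hx]
        exact hzET
    have hzP : z P ∈ acl ℝ T := acl_le_of_subset hsub (mem_acl_gen hT S z P)
    have h3 : u (out S P t) = z P - (n : M) := by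
      rw [hlink]; ring
    rw [h3]
    exact sub_mem hzP (int_mem_acl _ _)
  by_cases hAW : A ∈ acl ℝ ({u (inn S P t)} : Set M) ∧ W ∈ acl ℝ ({u (inn S P t)} : Set M)
  · have hDA := hO K M S A W _ hW0 hDW hAW.1 hAW.2
    obtain ⟨c', hc'⟩ := S.const _ hDA
    exact hAc c' hc'
  · have hAW' : A ∉ acl ℝ ({u (inn S P t)} : Set M) ∨
        W ∉ acl ℝ ({u (inn S P t)} : Set M) := by tauto
    obtain ⟨h1, h2, δ, h3, h4, h5, h6⟩ := hC K M S P hP u z _ _ hab1 hab2 T ha hb N m
      n A W hN1 hAT hWT hrel hWrel hlink hAW'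
    exact hE K M S P hP u hu z hz t ht N m n hN1 hm0 hn hlink h1 h2 δ h3 h4 h5 h6

/-- chains of length two -/
theorem casB_two (hB : LemB) (hT : Trn) (hJ : Jac) {P : K} (hP : Good S P)
    {u z : K →ₐ[ℝ] M} (hu : u ∈ S.Pt) (hz : z ∈ S.Pt) {t : Ty} {n m₀ m₁ : ℤ} {c : ℝ}
    (hm0 : m₀ ≠ 0) (hm1 : m₁ ≠ 0) (hc : (m₀ : M) * u S.X + (m₁ : M) * z S.X = algebraMap ℝ M c)
    (hn : t ≠ .m → n ≠ 0) (hlink : z P = u (out S P t) + (n : M)) : False := by
  have := charM M
  have hrel : (m₁ : M) * z S.X = ((-m₀ : ℤ) : M) * u S.X + algebraMap ℝ M c := by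
    push_cast
    linear_combination hc
  have hm0' : -m₀ ≠ 0 := neg_ne_zero.2 hm0
  cases t with
  | p => exact hB K M S P hP u hu z hz m₁ (-m₀) hm1 hm0' c hrel n (hn (by simp)) hlink
  | m =>
    change z P = u S.X + (n : M) at hlink
    have hm0M : (m₀ : M) ≠ 0 := Int.cast_ne_zero.2 hm0
    have h1 : z P ∈ acl ℝ (z '' ({S.X} : Set K)) := by
      rw [Set.image_singleton, hlink]
      have h2 : u S.X = (algebraMap ℝ M c - (m₁ : M) * z S.X) / (m₀ : M) := by
        field_simp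
        linear_combination hc
      rw [h2]
      exact add_mem (div_mem (sub_mem (real_mem_acl _ _) (mul_mem (int_mem_acl _ _)
        (subset_acl _ (by simp)))) (int_mem_acl _ _)) (int_mem_acl _ _)
    have h3 : P ∈ acl ℝ ({S.X} : Set K) := (hT ℝ K M z {S.X} P).2 h1
    obtain ⟨-, hJ1, ⟨hJ2, hJ3, hJ4⟩, -⟩ := hJ K M S
    have hX : S.X ∉ acl ℝ (∅ : Set K) := fun h => hJ3 (acl_mono (by simp) h)
    have h4 := (hJ1 S.X P hX).1 h3
    rw [S.DE_X, S.DX_X, mul_zero, mul_one] at h4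
    exact hP.hE h4.symm
  | mp s =>
    have hy' := S.pt_sh u hu s
    have e1 : (u.comp (S.sh s).toAlgHom) S.X = u S.X + algebraMap ℝ M (s : ℝ) := by
      change u (S.sh s S.X) = _
      rw [S.sh_X, map_add, map_intCast, int_eq (M := M)]
    refine hB K M S P hP _ hy' z hz m₁ (-m₀) hm1 hm0' (c + (m₀ : ℝ) * s) ?_ n
      (hn (by simp)) hlink
    rw [e1, hrel, map_add, map_mul, ← int_eq (M := M), ← int_eq (M := M)]
    push_cast
    ring

/-- the element `W` is in `acl T` -/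
theorem W_mem (hT : Trn) {y : ℕ → (K →ₐ[ℝ] M)} {m : ℕ → ℤ} {r : ℕ} {σ : ℤ} {c : ℝ}
    {A W : M} (hpt : ∀ l < r, y l ∈ S.Pt)
    (hA : A = (σ : M) * (algebraMap ℝ M c - ∑ l ∈ Finset.range r, (m l : M) * y l S.X))
    (hW0 : W ≠ 0) (hDW : S.D W / W = algebraMap ℝ M S.lam * S.D A) :
    W ∈ acl ℝ (gens S y 0 r) := by
  obtain ⟨hQ0, hQD⟩ := logD_prod S.D (fun l => y l S.E) (fun l => σ * m l) r
    (fun l _ => pt_E_ne (S := S) (y l))
  have hQT : (∏ l ∈ Finset.range r, (y l S.E) ^ (σ * m l)) ∈ acl ℝ (gens S y 0 r) :=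
    prod_mem fun l hl =>
      zpow_mem (mem_acl_gens hT S y (Nat.zero_le _) (Finset.mem_range.1 hl) _) _
  generalize (∏ l ∈ Finset.range r, (y l S.E) ^ (σ * m l)) = Q at hQ0 hQD hQT
  have h3 : ∑ l ∈ Finset.range r, ((σ * m l : ℤ) : M) *
      (S.D (y l S.E) / y l S.E) = algebraMap ℝ M S.lam * ((σ : M) *
      ∑ l ∈ Finset.range r, (m l : M) * S.D (y l S.X)) := by
    rw [Finset.mul_sum, Finset.mul_sum]
    refine Finset.sum_congr rfl fun l hl => ?_
    rw [pt_log (hpt l (Finset.mem_range.1 hl))]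
    push_cast
    ring
  have h4 : S.D A = - ((σ : M) *
      ∑ l ∈ Finset.range r, (m l : M) * S.D (y l S.X)) := by
    rw [hA, D_int, map_sub, Derivation.map_algebraMap, map_sum]
    simp only [D_int]
    ring
  have h1 : S.D (W * Q) = 0 := by
    have h2 := logD_mul S.D hW0 hQ0
    rw [hDW, hQD, h3, h4] at h2
    have h5 : S.D (W * Q) / (W * Q) = 0 := by
      rw [h2]; ring
    rcases div_eq_zero_iff.1 h5 with h | h
    · exact h
    · exact absurd h (mul_ne_zero hW0 hQ0)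
  obtain ⟨κ, hκ⟩ := S.const _ h1
  have h6 : W = algebraMap ℝ M κ / Q := by
    rw [hκ]; field_simp
  rw [h6]
  exact div_mem (real_mem_acl _ _) hQT

theorem DW_eq {u z : K →ₐ[ℝ] M} (hu : u ∈ S.Pt) (hz : z ∈ S.Pt) {N : ℕ} {m : ℤ} {A : M}
    (hrel : (N : M) * z S.X = (m : M) * u S.X + A) :
    (z S.E) ^ N * (u S.E) ^ (-m) ≠ 0 ∧
    (z S.E) ^ N = ((z S.E) ^ N * (u S.E) ^ (-m)) * (u S.E) ^ m ∧
    S.D ((z S.E) ^ N * (u S.E) ^ (-m)) / ((z S.E) ^ N * (u S.E) ^ (-m)) =
      algebraMap ℝ M S.lam * S.D A := by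
  have hzE := pt_E_ne (S := S) z
  have huE := pt_E_ne (S := S) u
  refine ⟨mul_ne_zero (pow_ne_zero _ hzE) (zpow_ne_zero _ huE), ?_, ?_⟩
  · rw [mul_assoc, ← zpow_add₀ huE]
    simp
  have h1 : S.D ((z S.E) ^ N * (u S.E) ^ (-m)) / ((z S.E) ^ N * (u S.E) ^ (-m)) =
      (N : M) * (S.D (z S.E) / z S.E) + ((-m : ℤ) : M) * (S.D (u S.E) / u S.E) := by
    rw [logD_mul S.D (pow_ne_zero _ hzE) (zpow_ne_zero _ huE), logD_zpow S.D huE]
    have := logD_zpow S.D hzE (N : ℤ)
    rw [zpow_natCast] at this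
    rw [this]
    push_cast
    ring
  rw [h1, pt_log hz, pt_log hu]
  have h2 := congrArg S.D hrel
  rw [map_add, D_int] at h2
  have h3 : S.D ((N : M) * z S.X) = (N : M) * S.D (z S.X) := by
    have := D_int S.D (N : ℤ) (z S.X)
    push_cast at this
    exact this
  rw [h3] at h2
  push_cast
  linear_combination (algebraMap ℝ M S.lam) * h2

/-- **Case B.** -/
theorem casB (hB : LemB) (hO : AxO) (hC : C3b) (hE : End) (hR : R1) (hCh : ChP) (hT : Trn)
    (hJ : Jac) : CasB := by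
  intro K M _ _ _ _ S P hP r y t n hch hQ hr htr m hm0 hmr ⟨c, hc⟩
  have := charM M
  obtain ⟨r, rfl⟩ : ∃ r', r = r' + 1 := ⟨r - 1, by omega⟩
  have hinn : inn S P (t (r + 1)) = P := by
    cases h : t (r + 1)
    · exact absurd h htr
    · rfl
    · rfl
  have hlink := hch.link r (by omega)
  rw [hinn] at hlink
  have hz := hch.pt (r + 1) (by omega)
  have hy := hch.pt r (by omega)
  have hn : t r ≠ .m → n r ≠ 0 := fun h => hch.v2 r (by omega) h htr
  rcases Nat.eq_zero_or_pos r with hr0 | hr0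
  · -- chains of length two
    subst hr0
    rw [Finset.sum_range_succ, Finset.sum_range_one] at hc
    exact casB_two hB hT hJ hP hy hz hm0 hmr hc hn hlink
  -- longer chains
  have hchr := hch.mono (r' := r + 1) (by omega)
  have hpre := hCh K M S P hP (r + 1) y t n hchr
  obtain ⟨-, hR2⟩ := hR K M S (r + 1) y _ _ hpre hQ
  have hb : y r (out S P (t r)) ∉ acl ℝ (gens S y 0 r) := hR2 (by omega)
  obtain ⟨r', rfl⟩ : ∃ r', r = r' + 1 := ⟨r - 1, by omega⟩
  have ha : y (r' + 1) (inn S P (t (r' + 1))) ∈ acl ℝ (gens S y 0 (r' + 1)) := by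
    rw [hch.link r' (by omega)]
    exact add_mem (mem_acl_gens hT S y (Nat.zero_le _) (by omega) _) (int_mem_acl _ _)
  -- the relation
  obtain ⟨σ, hσ2, hNσ⟩ : ∃ σ : ℤ, σ * σ = 1 ∧
      ((m (r' + 1 + 1)).natAbs : ℤ) = σ * m (r' + 1 + 1) := by
    refine ⟨(m (r' + 1 + 1)).sign, ?_, (Int.sign_mul_self_eq_natAbs _).symm⟩
    rcases lt_or_gt_of_ne hmr with h | h
    · rw [Int.sign_eq_neg_one_of_neg h]; rfl
    · rw [Int.sign_eq_one_of_pos h]; rfl
  have hN1 : 1 ≤ (m (r' + 1 + 1)).natAbs := by omega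
  generalize (m (r' + 1 + 1)).natAbs = N at hNσ hN1
  have hNM : (N : M) = (σ : M) * (m (r' + 1 + 1) : M) := by
    have := congrArg (Int.cast : ℤ → M) hNσ
    push_cast at this
    exact this
  have hσM : (σ : M) * (σ : M) = 1 := by
    have := congrArg (Int.cast : ℤ → M) hσ2
    push_cast at this
    exact this
  obtain ⟨A, hA⟩ : ∃ A : M, A = (σ : M) * (algebraMap ℝ M c -
    ∑ l ∈ Finset.range (r' + 1), (m l : M) * y l S.X) := ⟨_, rfl⟩
  have hrel : (N : M) * y (r' + 1 + 1) S.X =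
      ((- σ * m (r' + 1) : ℤ) : M) * y (r' + 1) S.X + A := by
    rw [Finset.sum_range_succ, Finset.sum_range_succ] at hc
    rw [hNM, hA]
    push_cast
    linear_combination (σ : M) * hc
  obtain ⟨hW0, hWrel, hDW⟩ := DW_eq hy hz hrel
  have hptl : ∀ l < r' + 1, y l ∈ S.Pt := fun l hl => hch.pt l (by omega)
  have hWT := W_mem hT hptl hA hW0 hDW
  have hAT : A ∈ acl ℝ (gens S y 0 (r' + 1)) := by
    rw [hA]
    refine mul_mem (int_mem_acl _ _) (sub_mem (real_mem_acl _ _) (sum_mem fun l hl => ?_))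
    exact mul_mem (int_mem_acl _ _)
      (mem_acl_gens hT S y (Nat.zero_le _) (Finset.mem_range.1 hl) _)
  refine casB_core hO hC hE hT hP hy hz (T := gens S y 0 (r' + 1)) (t := t (r' + 1))
    (n := n (r' + 1)) hN1 hrel hWrel ?_ hW0 hAT hWT ?_ (hpre.ab1 (r' + 1) (by omega))
    (hpre.ab2 (r' + 1) (by omega)) ha hb hn (hch.tne _ (by omega)) hlink
  · rw [div_eq_iff hW0] at hDW
    rw [hDW]
    ring
  · intro c' hc'
    have hsum : ∑ l ∈ Finset.range (r' + 1), (m l : M) * y l S.X =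
        algebraMap ℝ M (c - σ * c') := by
      rw [map_sub, map_mul, ← int_eq (M := M), hc', hA]
      linear_combination (algebraMap ℝ M c - ∑ l ∈ Finset.range (r' + 1),
        (m l : M) * y l S.X) * hσM
    have h1 := hQ (fun l => if l < r' + 1 then m l else 0) ⟨c - σ * c', by
      rw [← hsum, Finset.sum_range_succ]
      simp only [lt_irrefl, if_false, Int.cast_zero, zero_mul, add_zero]
      refine Finset.sum_congr rfl fun l hl => ?_
      rw [if_pos (Finset.mem_range.1 hl)]⟩ 0 (by omega)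
    simp only [Nat.zero_lt_succ, if_true] at h1
    exact hm0 h1

theorem qInd_one {y : ℕ → (K →ₐ[ℝ] M)} (hy : y 0 ∈ S.Pt) : QInd S 1 y := by
  intro m hm j hj
  have := charM M
  obtain ⟨c, hc⟩ := hm
  obtain rfl : j = 0 := by omega
  rw [Finset.sum_range_one] at hc
  by_contra h
  apply S.pt_ne _ hy
  have h1 := congrArg S.D hc
  rw [D_int, Derivation.map_algebraMap] at h1
  exact (mul_eq_zero.1 h1).resolve_left (Int.cast_ne_zero.2 h)

/-- all chains are independent -/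
theorem chain_qInd (hA : CasA) (hB : CasB) {P : K} (hP : Good S P) :
    ∀ (r : ℕ) (y : ℕ → (K →ₐ[ℝ] M)) (t : ℕ → Ty) (n : ℕ → ℤ), IsChain S P r y t n →
      QInd S r y := by
  intro r
  induction r with
  | zero => intro y t n _ m _ j hj; omega
  | succ r ih =>
    intro y t n hch
    rcases Nat.eq_zero_or_pos r with h0 | h0
    · subst h0
      exact qInd_one (hch.pt 0 (by omega))
    · intro m hm j hj
      have hQ := ih y t n (hch.mono (by omega))
      by_cases hmr : m r = 0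
      · have h1 := hQ m (by
          obtain ⟨c, hc⟩ := hm
          refine ⟨c, ?_⟩
          rw [Finset.sum_range_succ, hmr] at hc
          simpa using hc)
        rcases Nat.lt_succ_iff_lt_or_eq.1 hj with h | h
        · exact h1 j h
        · rw [h]; exact hmr
      · exfalso
        by_cases hm0 : m 0 = 0
        · have h1 := ih _ _ _ hch.shift (fun j => m (j + 1)) (by
            obtain ⟨c, hc⟩ := hm
            refine ⟨c, ?_⟩
            rw [Finset.sum_range_succ', hm0] at hc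
            simpa using hc) (r - 1) (by omega)
          apply hmr
          have e : r - 1 + 1 = r := by omega
          simpa [e] using h1
        · by_cases ht : t r = .p
          · exact hA K M S P hP r y t n hch hQ h0 ht m hm0 hmr hm
          · exact hB K M S P hP r y t n hch hQ h0 ht m hm0 hmr hm

theorem mainC (hA : CasA) (hB : CasB) (hCh : ChP) (hEn : EndG) : MainC := by
  intro K M _ _ _ _ S P hP r y t n hch hr
  have h1 := hCh K M S P hP r y t n hch
  have h2 := chain_qInd hA hB hP r y t n hch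
  exact hEn K M S r y (fun j => inn S P (t j)) (fun j => out S P (t j)) h1 h2 hr

end

end MP52exp
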