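import Pool.Agent.Lib.MP_52aaf2_al.EX.StmA

/-!
# MP_52aaf2_al, project EX: analyticity of continuous solutions of polynomial equations
-/

set_option autoImplicit false

open Filter Topology Polynomial

open scoped ContDiff

namespace MP52exp

/-- evaluation of the coefficients at `x` -/
noncomputable def an1ev (lam x : ℝ) : MvPolynomial (Fin 2) ℝ →+* ℝ :=
  MvPolynomial.eval ![x, Real.exp (lam * x)]

theorem an1_ev_ne (hnz : Nz) {lam : ℝ} (hlam : 0 < lam) {r : MvPolynomial (Fin 2) ℝ}
    (hr : r ≠ 0) : ∀ᶠ x in atTop, an1ev lam x r ≠ 0 := by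
  filter_upwards [(hnz lam hlam).1 r hr] with x hx h
  exact hx h

/-- reduction to a separable polynomial -/
theorem an1_sep (hnz : Nz) {lam : ℝ} (hlam : 0 < lam) (f : ℝ → ℝ)
    (h : ∃ P : Polynomial (MvPolynomial (Fin 2) ℝ), P ≠ 0 ∧
      ∀ᶠ x in atTop, eval₂ (an1ev lam x) (f x) P = 0) :
    ∃ P : Polynomial (MvPolynomial (Fin 2) ℝ),
      (∀ᶠ x in atTop, eval₂ (an1ev lam x) (f x) P = 0) ∧
      ∀ᶠ x in atTop, eval₂ (an1ev lam x) (f x) (derivative P) ≠ 0 := by
  classical
  have hex : ∃ n : ℕ, ∃ P : Polynomial (MvPolynomial (Fin 2) ℝ), P.natDegree = n ∧ P ≠ 0 ∧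
      ∀ᶠ x in atTop, eval₂ (an1ev lam x) (f x) P = 0 := by
    obtain ⟨P, hP⟩ := h
    exact ⟨P.natDegree, P, rfl, hP⟩
  obtain ⟨P, hPn, hP0, hPv⟩ := Nat.find_spec hex
  have hmin : ∀ P' : Polynomial (MvPolynomial (Fin 2) ℝ), P' ≠ 0 →
      (∀ᶠ x in atTop, eval₂ (an1ev lam x) (f x) P' = 0) → P.natDegree ≤ P'.natDegree := by
    intro P' h1 h2
    rw [hPn]
    exact Nat.find_min' hex ⟨P', rfl, h1, h2⟩
  refine ⟨P, hPv, ?_⟩
  let R := MvPolynomial (Fin 2) ℝ
  let K := FractionRing R
  have hinj : Function.Injective (algebraMap R K) := IsFractionRing.injective R K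
  have hmapinj : Function.Injective (Polynomial.map (algebraMap R K)) :=
    Polynomial.map_injective _ hinj
  have hcK : CharZero K := charZero_of_injective_algebraMap (R := ℝ) (algebraMap ℝ K).injective
  let Pk : Polynomial K := P.map (algebraMap R K)
  have hPk0 : Pk ≠ 0 := fun h0 => hP0 (hmapinj (by rw [Polynomial.map_zero]; exact h0))
  have hsmul : ∀ (b : R) (p : Polynomial K), b • p = C (algebraMap R K b) * p := by
    intro b p
    rw [← smul_eq_C_mul, algebraMap_smul]
  have hmem : ∀ b ∈ nonZeroDivisors R, b ≠ 0 := fun b hb => nonZeroDivisors.ne_zero hb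
  -- separability
  have hsep : Pk.Separable := by
    rw [PerfectField.separable_iff_squarefree]
    by_contra hns
    unfold Squarefree at hns
    push Not at hns
    obtain ⟨G, ⟨H, hH⟩, hGu⟩ := hns
    have hG0 : G ≠ 0 := by
      rintro rfl
      apply hPk0
      rw [hH]
      ring
    have hH0 : H ≠ 0 := by
      rintro rfl
      apply hPk0
      rw [hH]
      ring
    have hGdeg : 0 < G.natDegree := by
      rw [Nat.pos_iff_ne_zero]
      intro h0
      apply hGu
      exact Polynomial.isUnit_iff_degree_eq_zero.2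
        (by rw [Polynomial.degree_eq_natDegree hG0, h0]; rfl)
    have hdeg : (G * H).natDegree < P.natDegree := by
      have e1 : P.natDegree = Pk.natDegree :=
        (Polynomial.natDegree_map_eq_of_injective hinj P).symm
      rw [e1, hH, mul_assoc, Polynomial.natDegree_mul hG0 (mul_ne_zero hG0 hH0)]
      omega
    obtain ⟨b, hb, hbe⟩ := IsLocalization.integerNormalization_spec (nonZeroDivisors R) (G * H)
    obtain ⟨c, hc, hce⟩ := IsLocalization.integerNormalization_spec (nonZeroDivisors R) H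
    set p2 := IsLocalization.integerNormalization (nonZeroDivisors R) (G * H) with hp2
    set h2 := IsLocalization.integerNormalization (nonZeroDivisors R) H with hh2
    have hrel : C c * p2 ^ 2 = C (b ^ 2) * P * h2 := by
      apply hmapinj
      simp only [Polynomial.map_mul, Polynomial.map_pow, Polynomial.map_C]
      rw [hbe, hce, hsmul, hsmul]
      change _ = C (algebraMap R K (b ^ 2)) * Pk * _
      rw [hH, map_pow, C_pow]
      ring
    have hp20 : p2 ≠ 0 := by
      intro h0
      rw [hp2, IsLocalization.integerNormalization_eq_zero_iff le_rfl] at h0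
      exact mul_ne_zero hG0 hH0 h0
    have hp2v : ∀ᶠ x in atTop, eval₂ (an1ev lam x) (f x) p2 = 0 := by
      filter_upwards [hPv, an1_ev_ne hnz hlam (hmem c hc)] with x h3 h4
      have h5 := congrArg (eval₂ (an1ev lam x) (f x)) hrel
      rw [eval₂_mul, eval₂_mul, eval₂_mul, eval₂_pow, eval₂_C, eval₂_C, h3, mul_zero,
        zero_mul] at h5
      exact pow_eq_zero_iff (two_ne_zero) |>.1 ((mul_eq_zero.1 h5).resolve_left h4)
    have hp2deg : p2.natDegree ≤ (G * H).natDegree := by
      rw [← Polynomial.natDegree_map_eq_of_injective hinj p2, hbe, hsmul]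
      exact Polynomial.natDegree_C_mul_le _ _
    have := hmin p2 hp20 hp2v
    omega
  obtain ⟨A, B, hAB⟩ := hsep
  obtain ⟨s, hs, hse⟩ := IsLocalization.integerNormalization_spec (nonZeroDivisors R) A
  obtain ⟨t, ht, hte⟩ := IsLocalization.integerNormalization_spec (nonZeroDivisors R) B
  set a' := IsLocalization.integerNormalization (nonZeroDivisors R) A
  set b' := IsLocalization.integerNormalization (nonZeroDivisors R) B
  have hrel : C t * a' * P + C s * b' * derivative P = C (s * t) := by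
    apply hmapinj
    simp only [Polynomial.map_mul, Polynomial.map_add, Polynomial.map_C]
    rw [hse, hte, hsmul, hsmul, map_mul, C_mul, ← Polynomial.derivative_map]
    change C (algebraMap R K t) * (C (algebraMap R K s) * A) * Pk +
      C (algebraMap R K s) * (C (algebraMap R K t) * B) * derivative Pk = _
    linear_combination (C (algebraMap R K s) * C (algebraMap R K t)) * hAB
  filter_upwards [hPv, an1_ev_ne hnz hlam (hmem s hs), an1_ev_ne hnz hlam (hmem t ht)] with
    x h1 h2 h3 h4
  have h5 := congrArg (eval₂ (an1ev lam x) (f x)) hrel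
  rw [eval₂_add, eval₂_mul, eval₂_mul, eval₂_mul, eval₂_mul, eval₂_C, eval₂_C, eval₂_C, h1, h4,
    mul_zero, mul_zero, add_zero, map_mul] at h5
  exact mul_ne_zero h2 h3 h5.symm

/-- the implicit function theorem -/
theorem an1_analytic (lam : ℝ) (f : ℝ → ℝ) (P : Polynomial (MvPolynomial (Fin 2) ℝ)) (x₀ : ℝ)
    (hf : ContinuousAt f x₀) (hv : ∀ᶠ x in 𝓝 x₀, eval₂ (an1ev lam x) (f x) P = 0)
    (hd : eval₂ (an1ev lam x₀) (f x₀) (derivative P) ≠ 0) : AnalyticAt ℝ f x₀ := by
  let F : ℝ × ℝ → ℝ := fun p => eval₂ (an1ev lam p.1) p.2 P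
  have hFan : AnalyticAt ℝ F (x₀, f x₀) := by
    have e1 : F = fun p => ∑ i ∈ Finset.range (P.natDegree + 1),
        MvPolynomial.aeval ![p.1, Real.exp (lam * p.1)] (P.coeff i) * p.2 ^ i := by
      funext p
      exact eval₂_eq_sum_range _ _
    rw [e1]
    apply Finset.analyticAt_fun_sum
    intro i _
    apply AnalyticAt.mul
    · apply AnalyticAt.aeval_mvPolynomial
      intro j
      fin_cases j
      · exact analyticAt_fst
      · exact (analyticAt_const.mul analyticAt_fst).rexp
    · exact analyticAt_snd.pow i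
  have hcd : ContDiffAt ℝ ω F (x₀, f x₀) := hFan.contDiffAt
  have hder : HasDerivAt (fun y => F (x₀, y)) ((fderiv ℝ F (x₀, f x₀) ∘L
      ContinuousLinearMap.inr ℝ ℝ ℝ) 1) (f x₀) := by
    have h1 : HasFDerivAt F (fderiv ℝ F (x₀, f x₀)) (x₀, f x₀) :=
      hFan.differentiableAt.hasFDerivAt
    have h2 : HasFDerivAt (fun y : ℝ => (x₀, y)) (ContinuousLinearMap.inr ℝ ℝ ℝ) (f x₀) :=
      hasFDerivAt_prodMk_right x₀ (f x₀)
    exact (h1.comp (f x₀) h2).hasDerivAt
  have hder2 : HasDerivAt (fun y => F (x₀, y))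
      (eval₂ (an1ev lam x₀) (f x₀) (derivative P)) (f x₀) := by
    have h1 := (P.map (an1ev lam x₀)).hasDerivAt (f x₀)
    rw [Polynomial.derivative_map, eval_map] at h1
    have h2 : (fun y => F (x₀, y)) = fun y => eval y (P.map (an1ev lam x₀)) := by
      funext y
      rw [eval_map]
    rw [h2]
    exact h1
  have hval := hder.unique hder2
  have hinv : (fderiv ℝ F (x₀, f x₀) ∘L ContinuousLinearMap.inr ℝ ℝ ℝ).IsInvertible := by
    refine ⟨ContinuousLinearEquiv.unitsEquivAut ℝ (Units.mk0 _ hd), ?_⟩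
    apply ContinuousLinearMap.ext_ring
    rw [hval]
    simp
  have hn : (ω : ℕ∞ω) ≠ 0 := by simp
  let ψ := hcd.implicitFunction hn hinv
  have hψ : AnalyticAt ℝ ψ x₀ := (hcd.contDiffAt_implicitFunction hn hinv).analyticAt
  have hev := hcd.eventually_apply_eq_iff_implicitFunction hn hinv
  have hcont : Tendsto (fun x => (x, f x)) (𝓝 x₀) (𝓝 (x₀, f x₀)) :=
    (continuousAt_id.prodMk hf)
  have h0 : F (x₀, f x₀) = 0 := hv.self_of_nhds
  refine hψ.congr ?_
  filter_upwards [hcont.eventually hev, hv] with x h1 h2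
  rw [h0] at h1
  exact h1.1 h2

theorem P_an1 (hnz : Nz) : An1 := by
  intro lam hlam f hcont hQ
  obtain ⟨Q, hQ0, hQv⟩ := hQ
  have hex : ∃ P : Polynomial (MvPolynomial (Fin 2) ℝ), P ≠ 0 ∧
      ∀ᶠ x in atTop, eval₂ (an1ev lam x) (f x) P = 0 := by
    let σ : Fin 3 → Fin 3 := ![1, 2, 0]
    have hσ : Function.Injective σ := by decide
    let Q' := MvPolynomial.rename σ Q
    have hQ'0 : Q' ≠ 0 := by
      intro h
      exact hQ0 (MvPolynomial.rename_injective σ hσ (by rw [map_zero]; exact h))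
    refine ⟨MvPolynomial.finSuccEquiv ℝ 2 Q', ?_, ?_⟩
    · intro h
      exact hQ'0 ((MvPolynomial.finSuccEquiv ℝ 2).injective (by rw [map_zero]; exact h))
    · filter_upwards [hQv] with x hx
      have h1 := MvPolynomial.eval_eq_eval_mv_eval' ![x, Real.exp (lam * x)] (f x) Q'
      rw [eval_map] at h1
      change eval₂ (MvPolynomial.eval ![x, Real.exp (lam * x)]) (f x) _ = 0
      rw [← h1, MvPolynomial.eval_rename]
      have h2 : (Fin.cons (f x) ![x, Real.exp (lam * x)] : Fin 3 → ℝ) ∘ σ =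
          ![x, Real.exp (lam * x), f x] := by
        funext i
        fin_cases i <;> rfl
      rw [h2]
      exact hx
  obtain ⟨P, hPv, hPd⟩ := an1_sep hnz hlam f hex
  obtain ⟨a, ha⟩ := eventually_atTop.1 hPv
  filter_upwards [hcont, hPd, eventually_gt_atTop a] with x h1 h2 h3
  refine an1_analytic lam f P x h1 ?_ h2
  filter_upwards [lt_mem_nhds h3] with y hy
  exact ha y hy.le

end MP52exp
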