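import Pool.Agent.Lib.MP_52aaf2_al.EX.StmA

/-!
# MP_52aaf2_al, project EX: analyticity of the inverse
-/

open Filter Topology

namespace MP52exp

/-- the relative algebraic closure over a subfield of `ℝ` is contained in the one over `ℝ` -/
theorem an2_acl_real (k : Subfield ℝ) (S : Set MG) {a : MG} (ha : a ∈ acl k S) :
    a ∈ acl ℝ S := by
  rw [mem_acl] at ha ⊢
  have h1 : ∀ x ∈ IntermediateField.adjoin k S, x ∈ IntermediateField.adjoin ℝ S := by
    intro x hx
    induction hx using IntermediateField.adjoin_induction with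
    | mem x hx => exact IntermediateField.subset_adjoin ℝ S hx
    | algebraMap x =>
      have : algebraMap k MG x = algebraMap ℝ MG (x : ℝ) := rfl
      rw [this]
      exact (IntermediateField.adjoin ℝ S).algebraMap_mem _
    | add x y _ _ hx hy => exact add_mem hx hy
    | inv x _ hx => exact inv_mem hx
    | mul x y _ _ hx hy => exact mul_mem hx hy
  let i : IntermediateField.adjoin k S →+* IntermediateField.adjoin ℝ S :=
    { toFun := fun x => ⟨x, h1 x x.2⟩
      map_one' := rfl
      map_mul' := fun _ _ => rfl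
      map_zero' := rfl
      map_add' := fun _ _ => rfl }
  obtain ⟨p, hp0, hp⟩ := ha
  refine ⟨p.map i, ?_, ?_⟩
  · rw [Ne, Polynomial.map_eq_zero]
    exact hp0
  · rw [← hp, Polynomial.aeval_def, Polynomial.aeval_def]
    exact (Polynomial.eval₂_map _ _ _)

/-- the point of `Dic` (1) for polynomials over `ℝ` -/
theorem an2_dic (h : Dic) (lam : ℝ) (hlam : 0 < lam) (f : ℝ → ℝ) (hf : EvAn f)
    (Q : MvPolynomial (Fin 3) ℝ) (hQ : Q ≠ 0)
    (hz : ∀ᶠ x in atTop, MvPolynomial.aeval ![x, Real.exp (lam * x), f x] Q = 0) :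
    mmk f hf ∈ KF lam := by
  let e : ℝ →+* (⊤ : Subfield ℝ) :=
    { toFun := fun x => ⟨x, Subfield.mem_top x⟩
      map_one' := rfl
      map_mul' := fun _ _ => rfl
      map_zero' := rfl
      map_add' := fun _ _ => rfl }
  have he : Function.Injective e := fun x y hxy => congrArg Subtype.val hxy
  refine an2_acl_real ⊤ _ (h.1 lam hlam ⊤ f hf (MvPolynomial.map e Q) ?_ ?_)
  · intro h0
    apply hQ
    apply MvPolynomial.map_injective e he
    rw [h0, map_zero]
  · filter_upwards [hz] with x hx
    rw [MvPolynomial.aeval_def, MvPolynomial.eval₂_map]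
    rw [MvPolynomial.aeval_def] at hx
    exact hx

theorem P_an2 (h1 : An1) (h2 : Nz) (h3 : Dic) (h4 : NDer) (h5 : Dst) : An2 := by
  rintro lam hlam β ⟨Q, hQ, hz⟩
  have hcont : Continuous β := β.continuous
  have hβ : EvAn β := h1 lam hlam β (Eventually.of_forall fun x => hcont.continuousAt)
    ⟨Q, hQ, hz⟩
  refine ⟨hβ, ?_⟩
  have hK : mmk β hβ ∈ KF lam := an2_dic h3 lam hlam β hβ Q hQ hz
  obtain ⟨D, hD, -⟩ := h4
  have hDx : D xx = 1 := by
    rw [xx, hD]
    have : (1 : MG) = mmk (fun _ => 1) (evAn_const 1) := by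
      rw [mmk, ← hmk_one, map_one]
    rw [this, mmk_eq]
    exact Eventually.of_forall fun x => by simp
  have hDe : D (ee lam) = algebraMap ℝ MG lam * ee lam := by
    rw [ee, hD, algebraMap_MG, mmk_mul, mmk_eq]
    refine Eventually.of_forall fun x => ?_
    have h := ((hasDerivAt_id x).const_mul lam).exp
    have h' := h.deriv
    simp only [id, mul_one] at h'
    rw [h']
    ring
  have hD' : mmk (deriv β) hβ.deriv ∈ KF lam := by
    rw [← hD β hβ]
    refine (h5 ℝ MG ({xx, ee lam} : Set MG) D).1 ?_ _ hK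
    rintro a (rfl | rfl)
    · rw [hDx]
      exact one_mem _
    · rw [hDe]
      exact mul_mem ((KF lam).algebraMap_mem lam) (subset_acl _ (by simp))
  have hne : mmk (deriv β) hβ.deriv ≠ 0 := by
    intro h0
    have h0' : mmk (deriv β) hβ.deriv = mmk (fun _ => 0) (evAn_const 0) := by
      rw [h0, mmk, ← hmk_zero, map_zero]
    rw [mmk_eq] at h0'
    obtain ⟨a, ha⟩ := eventually_atTop.1 (hβ.and h0')
    have hc : β (a + 1) = β (a + 2) := by
      have hconv : Convex ℝ (Set.Ici a) := convex_Ici a
      refine hconv.is_const_of_fderivWithin_eq_zero (𝕜 := ℝ) (f := β) ?_ ?_ ?_ ?_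
      · intro x hx
        exact ((ha x hx).1.differentiableAt).differentiableWithinAt
      · intro x hx
        have hd := (ha x hx).1.differentiableAt
        have hu : UniqueDiffWithinAt ℝ (Set.Ici a) x := uniqueDiffOn_Ici a x hx
        rw [hd.fderivWithin hu]
        ext
        rw [fderiv_apply_one_eq_deriv]
        simpa using (ha x hx).2
      · simp
      · simp
    have := β.injective hc
    linarith
  have hnz := (h2 lam hlam).2 (deriv β) hβ.deriv hD' hne
  have hev := (β.symm.tendsto_atTop).eventually (hβ.and hnz)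
  filter_upwards [hev] with y hy
  have hc : ContDiffAt ℝ ⊤ β.toHomeomorph.toOpenPartialHomeomorph.symm y := by
    refine β.toHomeomorph.toOpenPartialHomeomorph.contDiffAt_symm_deriv (f₀' := deriv β (β.symm y))
      hy.2 (Set.mem_univ y) ?_ ?_
    · exact hy.1.differentiableAt.hasDerivAt
    · exact hy.1.contDiffAt
  exact hc.analyticAt

end MP52exp
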