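import Pool.Agent.Lib.MP_52aaf2_al.EX.StmG
import Pool.Agent.Lib.MP_52aaf2_al.EX.StmS

/-!
# MP_52aaf2_al, project EX: the core of case B (two derivations)
-/

open Polynomial IntermediateField

namespace MP52exp

private theorem c3b_log {M : Type} [Field M] [Algebra ℝ M] (δ : Derivation ℝ M M) {u v W : M}
    {N : ℕ} {m : ℤ} (hu : u ≠ 0) (hv : v ≠ 0) (h : u ^ N = W * v ^ m) :
    (N : M) * (δ u / u) = δ W / W + (m : M) * (δ v / v) := by
  have hW : W ≠ 0 := by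
    rintro rfl
    rw [zero_mul] at h
    exact pow_ne_zero N hu h
  have h1 := congrArg δ h
  have hz : (v : M) ^ m ≠ 0 := zpow_ne_zero _ hv
  have e1 : δ (u ^ (N : ℤ)) = (N : ℤ) • u ^ ((N : ℤ) - 1) • δ u := δ.leibniz_zpow u N
  have e2 : δ (v ^ m) = m • v ^ (m - 1) • δ v := δ.leibniz_zpow v m
  rw [zpow_natCast] at e1
  rw [e1, δ.leibniz, e2] at h1
  simp only [smul_eq_mul, zsmul_eq_mul, Int.cast_natCast] at h1
  rw [zpow_sub_one₀ hu, zpow_sub_one₀ hv, zpow_natCast, h] at h1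
  have h2 : (W * v ^ m) * ((N : M) * (δ u / u)) =
      (W * v ^ m) * (δ W / W + (m : M) * (δ v / v)) := by
    have h3 : (W * v ^ m) * ((N : M) * (δ u / u)) = (N : M) * (W * v ^ m * u⁻¹ * δ u) := by
      rw [div_eq_mul_inv]; ring
    have h4 : (W * v ^ m) * (δ W / W + (m : M) * (δ v / v)) =
        W * ((m : M) * (v ^ m * v⁻¹ * δ v)) + v ^ m * δ W := by
      field_simp
      ring
    rw [h3, h4]
    exact h1
  exact mul_left_cancel₀ (mul_ne_zero hW hz) h2

private theorem c3b_cast {M : Type} [Field M] [Algebra ℝ M] {N : ℕ} (hN : 1 ≤ N) :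
    (N : M) ≠ 0 := by
  have h1 : (N : M) = algebraMap ℝ M (N : ℝ) := (map_natCast (algebraMap ℝ M) N).symm
  rw [h1, Ne, map_eq_zero]
  have : (0 : ℝ) < N := by exact_mod_cast hN
  exact this.ne'

private theorem c3b_dN {M : Type} [Field M] [Algebra ℝ M] (δ : Derivation ℝ M M) (N : ℕ) (x : M) :
    δ ((N : M) * x) = (N : M) * δ x := by
  have h1 : (N : M) = algebraMap ℝ M (N : ℝ) := (map_natCast (algebraMap ℝ M) N).symm
  rw [h1, δ.leibniz, δ.map_algebraMap]
  simp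

private theorem c3b_dZ {M : Type} [Field M] [Algebra ℝ M] (δ : Derivation ℝ M M) (N : ℤ) (x : M) :
    δ ((N : M) * x) = (N : M) * δ x := by
  have h1 : (N : M) = algebraMap ℝ M (N : ℝ) := (map_intCast (algebraMap ℝ M) N).symm
  rw [h1, δ.leibniz, δ.map_algebraMap]
  simp

private theorem c3b_d0 {M : Type} [Field M] [Algebra ℝ M] (δ : Derivation ℝ M M) (N : ℤ) :
    δ (N : M) = 0 := by
  have h1 : (N : M) = algebraMap ℝ M (N : ℝ) := (map_intCast (algebraMap ℝ M) N).symm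
  rw [h1, δ.map_algebraMap]

/-- [C3b] -/
theorem P_c3b (hDerC : DerC) (hDer1 : Der1) (hDst : Dst) (hCr : Cr) (hMuN : MuN)
    (hMat1 : Mat1) (hTrn : Trn) (hJac : Jac) : C3b := by
  intro K M _ _ _ _ S P hG y z a b ha hb T hya hyb N m n A W hN hA hW e1 e2 e3 h
  obtain ⟨-, -, -, hrk, -⟩ := hJac K M S
  obtain ⟨hmu, hjac⟩ := hMuN K M S P hG.hX hG.hE
  have hNM : (N : M) ≠ 0 := c3b_cast hN
  -- rank two: independent pairs span
  have span2 : ∀ u v : K, u ∉ acl ℝ (∅ : Set K) → v ∉ acl ℝ ({u} : Set K) →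
      ∀ c : K, c ∈ acl ℝ ({v, u} : Set K) := by
    intro u v hu hv c
    by_contra hc
    have h1 := rk_insert_of_notMem hc
    have h2 := hrk (insert c {v, u})
    rw [h1, rk_pair hu hv] at h2
    norm_num at h2
  have hP : P ∉ acl ℝ (∅ : Set K) := fun hP =>
    hG.hX ((hDst ℝ K ∅ S.DX).2 (fun a ha => absurd ha (Set.notMem_empty a)) P hP)
  have img : ∀ (w : K →ₐ[ℝ] M) (u v : K), u ∉ acl ℝ (∅ : Set K) → v ∉ acl ℝ ({u} : Set K) →
      ∀ c : K, w c ∈ acl ℝ ({w v, w u} : Set M) := by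
    intro w u v hu hv c
    have h1 := (hTrn ℝ K M w {v, u} c).1 (span2 u v hu hv c)
    rwa [Set.image_pair] at h1
  have emp : ∀ (w : K →ₐ[ℝ] M) (u : K), u ∉ acl ℝ (∅ : Set K) → w u ∉ acl ℝ (∅ : Set M) := by
    intro w u hu h1
    refine hu ((hTrn ℝ K M w ∅ u).2 ?_)
    rwa [Set.image_empty]
  have sing : ∀ (w : K →ₐ[ℝ] M) (u v : K), v ∈ acl ℝ ({u} : Set K) ↔
      w v ∈ acl ℝ ({w u} : Set M) := by
    intro w u v
    have h1 := hTrn ℝ K M w {u} v
    rwa [Set.image_singleton] at h1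
  have kill : ∀ (w : K →ₐ[ℝ] M) (u v : K), u ∉ acl ℝ (∅ : Set K) → v ∉ acl ℝ ({u} : Set K) →
      ∀ δ : Derivation ℝ M M, δ (w u) = 0 → δ (w v) = 0 → ∀ c : K, δ (w c) = 0 := by
    intro w u v hu hv δ h1 h2 c
    refine (hDst ℝ M {w v, w u} δ).2 ?_ _ (img w u v hu hv c)
    rintro x (rfl | hx)
    · exact h2
    · rw [Set.mem_singleton_iff] at hx
      rw [hx]
      exact h1
  have hzE : z S.E ≠ 0 := fun h0 => S.E_ne ((map_eq_zero z).1 h0)
  have hyE : y S.E ≠ 0 := fun h0 => S.E_ne ((map_eq_zero y).1 h0)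
  have hzDE : z (S.DE P) ≠ 0 := fun h0 => hG.hE ((map_eq_zero z).1 h0)
  -- (i)
  obtain ⟨d, hda, hdb, hdT, hd⟩ : ∃ d : Derivation ℝ M M, d (y a) = 0 ∧ d (y b) = 0 ∧
      (∀ x ∈ acl ℝ T, d x ∈ acl ℝ T) ∧ (d A ≠ 0 ∨ d W ≠ 0) := by
    rcases h with h | h
    · obtain ⟨d, h1, h2, h3, h4⟩ := hDerC M T (y a) (y b) A (emp y a ha) hya hyb hA h
      exact ⟨d, h1, h2, h3, Or.inl (by rw [h4]; exact one_ne_zero)⟩
    · obtain ⟨d, h1, h2, h3, h4⟩ := hDerC M T (y a) (y b) W (emp y a ha) hya hyb hW h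
      exact ⟨d, h1, h2, h3, Or.inr (by rw [h4]; exact one_ne_zero)⟩
  have hdy : ∀ c : K, d (y c) = 0 := kill y a b ha hb d hda hdb
  have hdP : d (z P) = 0 := by rw [e3, map_add, hdb, c3b_d0, add_zero]
  have hdX : (N : M) * d (z S.X) = d A := by
    have h1 := congrArg d e1
    rw [c3b_dN, map_add, c3b_dZ, hdy, mul_zero, zero_add] at h1
    exact h1
  have hdE : (N : M) * (d (z S.E) / z S.E) = d W / W := by
    have h1 := c3b_log d hzE hyE e2
    rw [hdy, zero_div, mul_zero, add_zero] at h1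
    exact h1
  have hcr := hCr K M S M z d P
  rw [hdP] at hcr
  have hdA : d A ≠ 0 := by
    intro hA0
    rw [hA0] at hdX
    have h1 : d (z S.X) = 0 := (mul_eq_zero.1 hdX).resolve_left hNM
    rw [h1, mul_zero, zero_add] at hcr
    have h2 : d (z S.E) / z S.E = 0 := (mul_eq_zero.1 hcr.symm).resolve_left hzDE
    rw [h2, mul_zero] at hdE
    rcases hd with hd | hd
    · exact hd hA0
    · rcases div_eq_zero_iff.1 hdE.symm with h3 | h3
      · exact hd h3
      · apply hd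
        rw [h3, map_zero]
  have hdX0 : d (z S.X) ≠ 0 := by
    intro h0
    rw [h0, mul_zero] at hdX
    exact hdA hdX.symm
  have hzmu : z (mu S P) = - (d W / W) / d A := by
    have h1 : z (mu S P) = z (S.DX P) / z (S.DE P) := by rw [mu, map_div₀]
    rw [h1, ← hdX, ← hdE]
    rw [div_eq_div_iff hzDE (mul_ne_zero hNM hdX0)]
    linear_combination (-(N : M)) * hcr
  have hzmuT : z (mu S P) ∈ acl ℝ T := by
    rw [hzmu]
    exact div_mem (neg_mem (div_mem (hdT _ hW) hW)) (hdT _ hA)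
  -- (ii)
  have hdmu : d (z (mu S P)) ≠ 0 := fun h0 =>
    hdX0 (kill z P (mu S P) hP hmu d hdP h0 S.X)
  -- (iii)
  obtain ⟨δ, hδT, hδb⟩ := hDer1 ℝ M T (y b) hyb
  have hδP : δ (z P) = 1 := by rw [e3, map_add, hδb, c3b_d0, add_zero]
  have hδmu : δ (z (mu S P)) = 0 := hδT _ hzmuT
  have c1 := hCr K M S M z δ P
  have c2 := hCr K M S M z δ (mu S P)
  rw [hδP] at c1
  rw [hδmu] at c2
  have hzj : z (jac S P) ≠ 0 := fun h0 => hjac ((map_eq_zero z).1 h0)
  have hzj' : z (jac S P) = z (S.DX P) * z (S.DE (mu S P)) - z (S.DE P) * z (S.DX (mu S P)) := by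
    rw [jac, map_sub, map_mul, map_mul]
  have hX : δ (z S.X) = z (aa S P) := by
    rw [aa, map_div₀, eq_div_iff hzj, hzj']
    linear_combination (-z (S.DE (mu S P))) * c1 + z (S.DE P) * c2
  have hE : δ (z S.E) / z S.E = z (bb S P) := by
    rw [bb, map_div₀, eq_div_iff hzj, hzj', map_neg]
    linear_combination (z (S.DX (mu S P))) * c1 - z (S.DX P) * c2
  have f1 : (N : M) * z (aa S P) = (m : M) * δ (y S.X) := by
    have h1 := congrArg δ e1
    rw [c3b_dN, map_add, c3b_dZ, hδT _ hA, add_zero, hX] at h1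
    exact h1
  have f2 : (N : M) * z (bb S P) = (m : M) * (δ (y S.E) / y S.E) := by
    have h1 := c3b_log δ hzE hyE e2
    rw [hδT _ hW, zero_div, zero_add, hE] at h1
    exact h1
  -- (iv)
  have hδst : ∀ x ∈ acl ℝ ({y b, y a} : Set M), δ x ∈ acl ℝ ({y b, y a} : Set M) := by
    refine (hDst ℝ M {y b, y a} δ).1 ?_
    rintro x (rfl | hx)
    · rw [hδb]
      exact one_mem _
    · rw [Set.mem_singleton_iff] at hx
      rw [hx, hδT _ hya]
      exact zero_mem _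
  have g1 : z (aa S P) ∈ acl ℝ ({y b, y a} : Set M) := by
    have h1 : z (aa S P) = ((m : M) * δ (y S.X)) / (N : M) := by
      rw [← f1, mul_div_cancel_left₀ _ hNM]
    rw [h1]
    exact div_mem (mul_mem (intCast_mem _ m) (hδst _ (img y a b ha hb S.X))) (_root_.natCast_mem _ N)
  have g2 : z (bb S P) ∈ acl ℝ ({y b, y a} : Set M) := by
    have h1 : z (bb S P) = ((m : M) * (δ (y S.E) / y S.E)) / (N : M) := by
      rw [← f2, mul_div_cancel_left₀ _ hNM]
    rw [h1]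
    exact div_mem (mul_mem (intCast_mem _ m) (div_mem (hδst _ (img y a b ha hb S.E))
      (img y a b ha hb S.E))) (_root_.natCast_mem _ N)
  have hyab : y b ∉ acl ℝ ({y a} : Set M) := fun h0 => hb ((sing y a b).2 h0)
  have hzPmu : z (mu S P) ∉ acl ℝ ({z P} : Set M) := fun h0 => hmu ((sing z P _).2 h0)
  have hmuab : z (mu S P) ∉ acl ℝ ({y b, y a} : Set M) := by
    intro h0
    refine hdmu ((hDst ℝ M {y b, y a} d).2 ?_ _ h0)
    rintro x (rfl | hx)
    · exact hdb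
    · rw [Set.mem_singleton_iff] at hx
      rw [hx]
      exact hda
  have r1 : rk ℝ ({y b, y a} : Set M) = 2 := rk_pair (emp y a ha) hyab
  have r2 : rk ℝ ({z (mu S P), z P} : Set M) = 2 := rk_pair (emp z P hP) hzPmu
  have r3 : ((2 + 2 : ℕ) : ℕ∞) ≤ rk ℝ (({y b, y a} : Set M) ∪ {z (mu S P), z P}) + 1 := by
    have h1 := rk_insert_of_notMem hmuab
    have h2 : rk ℝ (insert (z (mu S P)) ({y b, y a} : Set M)) ≤
        rk ℝ (({y b, y a} : Set M) ∪ {z (mu S P), z P}) := by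
      apply rk_mono
      rintro x (rfl | hx)
      · exact Or.inr (Or.inl rfl)
      · exact Or.inl hx
    rw [h1, r1] at h2
    calc ((2 + 2 : ℕ) : ℕ∞) = 2 + 1 + 1 := by norm_num
      _ ≤ _ := by gcongr
  have hzPab : z P ∈ acl ℝ ({y b, y a} : Set M) := by
    rw [e3]
    exact add_mem (subset_acl _ (Or.inl rfl)) (intCast_mem _ n)
  have key : ∀ c : K, z c ∈ acl ℝ ({y b, y a} : Set M) → c ∈ acl ℝ ({P} : Set K) := by
    intro c hc
    refine (sing z P c).2 ?_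
    exact hMat1 ℝ M {y b, y a} {z (mu S P), z P} 2 2 (by rw [r1]; rfl) (by rw [r2]; rfl) r3
      (z P) hzPab (subset_acl _ (Or.inr rfl)) (emp z P hP) (z c) hc
      (img z P (mu S P) hP hmu c)
  exact ⟨key _ g1, key _ g2, δ, hδT _ hya, hδb, f1, f2⟩

end MP52exp
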