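import Pool.Agent.Lib.MP_52aaf2_al.EX.StmG
import Pool.Agent.Lib.MP_52aaf2_al.EX.StmS

/-!
# MP_52aaf2_al, project EX: initial sums and products, the two ends of a chain
-/

open Polynomial IntermediateField

namespace MP52exp

theorem ca_map {k K F : Type} [Field k] [Field K] [Field F] [Algebra k K] [Algebra k F]
    (y : K →ₐ[k] F) {T : Set K} {h : K} (hh : h ∈ acl k T) : y h ∈ acl k (y '' T) := by
  rw [mem_acl'] at hh ⊢
  obtain ⟨p, hp0, hp⟩ := hh
  have hmem : ∀ x : Algebra.adjoin k T, y (x : K) ∈ Algebra.adjoin k (y '' T) := by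
    intro x
    rw [← AlgHom.map_adjoin]
    exact ⟨x, x.2, rfl⟩
  let φ : Algebra.adjoin k T →+* Algebra.adjoin k (y '' T) :=
    ((y.comp (Algebra.adjoin k T).val).codRestrict _ hmem : Algebra.adjoin k T →ₐ[k] _).toRingHom
  have hφ : Function.Injective φ := by
    intro u v huv
    have h1 : y (u : K) = y (v : K) := congrArg (Subtype.val) huv
    exact Subtype.ext (y.toRingHom.injective h1)
  refine ⟨p.map φ, ?_, ?_⟩
  · rw [Ne, Polynomial.map_eq_zero_iff hφ]
    exact hp0
  · rw [Polynomial.aeval_def, Polynomial.eval₂_map]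
    have h2 : (algebraMap (Algebra.adjoin k (y '' T)) F).comp φ =
        (y : K →+* F).comp (algebraMap (Algebra.adjoin k T) K) := by
      ext u
      rfl
    rw [h2]
    have h3 := Polynomial.hom_eval₂ p (algebraMap (Algebra.adjoin k T) K) (y : K →+* F) h
    rw [Polynomial.aeval_def] at hp
    rw [hp, map_zero] at h3
    exact h3.symm

section

variable {K M : Type} [Field K] [Field M] [Algebra ℝ K] [Algebra ℝ M] (S : Sys K M)

theorem ca_gen (y : K →ₐ[ℝ] M) (h : K) : y h ∈ acl ℝ (gen S y) := by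
  have h1 := ca_map y (S.span h)
  rwa [Set.image_pair] at h1

theorem ca_gen_subset (y : ℕ → (K →ₐ[ℝ] M)) {i l j : ℕ} (h1 : i ≤ l) (h2 : l < j) :
    gen S (y l) ⊆ gens S y i j :=
  Set.subset_biUnion_of_mem (u := fun l => gen S (y l)) (Set.mem_Ico.2 ⟨h1, h2⟩)

theorem ca_gens (y : ℕ → (K →ₐ[ℝ] M)) {i l j : ℕ} (h1 : i ≤ l) (h2 : l < j) (h : K) :
    y l h ∈ acl ℝ (gens S y i j) :=
  acl_mono (ca_gen_subset S y h1 h2) (ca_gen S (y l) h)

theorem ca_last (y : ℕ → (K →ₐ[ℝ] M)) {i r : ℕ} (h : i < r) (b : K) {x : M}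
    (hx : x ∈ acl ℝ ({y (r - 1) b} : Set M)) : x ∈ acl ℝ (gens S y i r) :=
  acl_le_of_subset (by
    rintro _ rfl
    exact ca_gens S y (by omega) (by omega) b) hx

end

theorem P_ca (hR : R1) : CA := by
  intro K M _ _ _ _ S r y a b hP hQ hr m
  obtain ⟨h1, -⟩ := hR K M S r y a b hP hQ
  constructor
  · intro hs j hj1 hj2
    rcases hj2.lt_or_eq with hj | rfl
    · refine h1 j hj1 hj _ ?_ ?_
      · refine sum_mem fun l hl => ?_
        exact mul_mem (intCast_mem _ _) (ca_gens S y (Nat.zero_le l) (Finset.mem_range.1 hl) S.X)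
      · have h2 := Finset.sum_range_add_sum_Ico (fun l => (m l : M) * y l S.X) hj2
        rw [eq_sub_of_add_eq h2]
        refine sub_mem (ca_last S y hj _ hs) (sum_mem fun l hl => ?_)
        have hl' := Finset.mem_Ico.1 hl
        exact mul_mem (intCast_mem _ _) (ca_gens S y hl'.1 hl'.2 S.X)
    · exact hs
  · intro hs j hj1 hj2
    rcases hj2.lt_or_eq with hj | rfl
    · refine h1 j hj1 hj _ ?_ ?_
      · refine prod_mem fun l hl => ?_
        exact zpow_mem (ca_gens S y (Nat.zero_le l) (Finset.mem_range.1 hl) S.E) _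
      · have h2 := Finset.prod_range_mul_prod_Ico (fun l => (y l S.E) ^ (m l)) hj2
        have h3 : ∏ l ∈ Finset.Ico j r, (y l S.E) ^ (m l) ≠ 0 := by
          refine Finset.prod_ne_zero_iff.2 fun l _ => zpow_ne_zero _ ?_
          rw [Ne, map_eq_zero]
          exact S.E_ne
        rw [eq_div_of_mul_eq h3 h2]
        refine div_mem (ca_last S y hj _ hs) (prod_mem fun l hl => ?_)
        have hl' := Finset.mem_Ico.1 hl
        exact zpow_mem (ca_gens S y hl'.1 hl'.2 S.E) _
    · exact hs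

theorem P_endg (hR : R1) (hT : Trn) : EndG := by
  intro K M _ _ _ _ S r y a b hP hQ hr hmem
  have key : y 0 (a 0) ∉ acl ℝ ({y 0 (b 0)} : Set M) := by
    intro h
    have h1 : a 0 ∈ acl ℝ ({b 0} : Set K) := by
      rw [hT ℝ K M (y 0) {b 0} (a 0), Set.image_singleton]
      exact h
    have h2 : ({b 0} : Set K) = insert (b 0) ∅ := by simp
    rw [h2] at h1
    have h3 := acl_exchange h1 (hP.ab1 0 hr)
    have h4 : insert (a 0) (∅ : Set K) = {a 0} := by simp
    rw [h4] at h3
    exact hP.ab2 0 hr h3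
  rcases Nat.lt_or_ge 1 r with h2 | h2
  · obtain ⟨h1, -⟩ := hR K M S r y a b hP hQ
    exact key (h1 1 le_rfl h2 _ (ca_gens S y le_rfl Nat.one_pos (a 0)) (ca_last S y h2 _ hmem))
  · obtain rfl : r = 1 := le_antisymm h2 hr
    exact key hmem

end MP52exp
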