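import Pool.Agent.Lib.MP_52aaf2_al.EX.StmS

/-!
# MP_52aaf2_al, project EX: the chain rule `Cr` (helper93)
-/

open Polynomial IntermediateField

namespace MP52exp

/-- a derivation with values in a vector space, linear over a subfield, vanishes at the elements
which are algebraic over this subfield -/
private theorem cr_alg {L K N : Type} [Field L] [Field K] [AddCommGroup N] [Algebra L K]
    [Module K N] [Module L N] [IsScalarTower L K N] [CharZero L] (d : Derivation L K N) {h : K}
    (hh : IsAlgebraic L h) : d h = 0 := by
  have h1 := d.map_aeval (minpoly L h) h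
  rw [minpoly.aeval, map_zero] at h1
  have hs : (minpoly L h).Separable := (minpoly.irreducible hh.isIntegral).separable
  have h2 := hs.aeval_derivative_ne_zero (minpoly.aeval L h)
  exact (smul_eq_zero.1 h1.symm).resolve_left h2

theorem P_cr : Cr := by
  intro K M _ _ _ _ S N _ _ y δ h
  let iA : Algebra K N := y.toRingHom.toAlgebra
  have hsm : ∀ (a : K) (n : N), a • n = y a * n := fun a n => rfl
  have hT : IsScalarTower ℝ K N := IsScalarTower.of_algebraMap_eq' (by
    ext r
    exact (y.commutes r).symm)
  have hyE : y S.E ≠ 0 := (map_ne_zero y).2 S.E_ne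
  let Δ : Derivation ℝ K N := Derivation.mk'
    { toFun := fun h => δ (y h) -
        (y (S.DX h) * δ (y S.X) + y (S.DE h) * (δ (y S.E) / y S.E))
      map_add' := fun a b => by
        simp only [map_add]
        ring
      map_smul' := fun c a => by
        have e1 : y (c • a) = c • y a := map_smul y c a
        have e2 : y (S.DX (c • a)) = c • y (S.DX a) := by
          rw [Derivation.map_smul]
          exact map_smul y c _
        have e3 : y (S.DE (c • a)) = c • y (S.DE a) := by
          rw [Derivation.map_smul]
          exact map_smul y c _
        rw [e1, e2, e3, Derivation.map_smul, RingHom.id_apply]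
        simp only [Algebra.smul_def]
        ring }
    (fun a b => by
      simp only [LinearMap.coe_mk, AddHom.coe_mk, map_mul, Derivation.leibniz, smul_eq_mul, hsm,
        map_add]
      ring)
  have hΔ : ∀ a, Δ a = δ (y a) -
      (y (S.DX a) * δ (y S.X) + y (S.DE a) * (δ (y S.E) / y S.E)) := fun a => rfl
  have hX : Δ S.X = 0 := by
    rw [hΔ, S.DX_X, S.DE_X, map_one, map_zero]
    ring
  have hE : Δ S.E = 0 := by
    rw [hΔ, S.DX_E, S.DE_E, map_zero]
    field_simp
    ring
  have hadj : ∀ a ∈ IntermediateField.adjoin ℝ ({S.X, S.E} : Set K), Δ a = 0 := by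
    intro a ha
    induction ha using IntermediateField.adjoin_induction with
    | mem x hx =>
      rcases hx with rfl | hx
      · exact hX
      · rw [Set.mem_singleton_iff.1 hx]
        exact hE
    | algebraMap r => exact Δ.map_algebraMap r
    | add x z _ _ hx hz => rw [map_add, hx, hz, add_zero]
    | inv x _ hx => rw [Derivation.leibniz_inv, hx, smul_zero]
    | mul x z _ _ hx hz => rw [Derivation.leibniz, hx, hz, smul_zero, smul_zero, add_zero]
  let L := IntermediateField.adjoin ℝ ({S.X, S.E} : Set K)
  let d : Derivation L K N := Derivation.mk'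
    { toFun := fun a => Δ a
      map_add' := fun a b => map_add Δ a b
      map_smul' := fun c a => by
        rw [Algebra.smul_def, Derivation.leibniz]
        have : Δ (algebraMap L K c) = 0 := hadj _ c.2
        rw [this, smul_zero, add_zero, algebraMap_smul]
        rfl }
    (fun a b => Δ.leibniz a b)
  have h0 : d h = 0 := cr_alg d (mem_acl.1 (S.span h))
  have h1 : Δ h = 0 := h0
  rw [hΔ] at h1
  exact sub_eq_zero.1 h1

end MP52exp
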