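import Pool.Agent.Lib.MP_52aaf2_al.EX.StmG
import Pool.Agent.Lib.MP_52aaf2_al.EX.StmS
import Pool.Agent.Lib.MP_52aaf2_al.NW

/-!
# MP_52aaf2_al, project EX: the pieces `DerC` and `AxO`
-/

open Polynomial IntermediateField

namespace MP52exp

theorem P_derC : Der1 → Dst → DerC := by
  intro h1 h2 F _ _ T u v g hu huT hv hg hgu
  have hEr : ∀ X : Set F, X ⊆ (AlgebraicIndependent.matroid ℝ F).E := fun X => by simp
  -- `{g, u}` is independent
  have iu : (AlgebraicIndependent.matroid ℝ F).Indep (insert u ∅) := by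
    have h3 : u ∉ (AlgebraicIndependent.matroid ℝ F).closure ∅ := by
      rwa [← mem_acl_iff_closure]
    exact (((AlgebraicIndependent.matroid ℝ F).empty_indep.notMem_closure_iff
      (hEr {u} rfl)).1 h3).1
  have igu : (AlgebraicIndependent.matroid ℝ F).Indep (insert g (insert u ∅)) := by
    have h3 : g ∉ (AlgebraicIndependent.matroid ℝ F).closure (insert u ∅) := by
      rw [← mem_acl_iff_closure]
      have : (insert u ∅ : Set F) = {u} := by simp
      rwa [this]
    exact ((iu.notMem_closure_iff (hEr {g} rfl)).1 h3).1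
  have hsub : (insert g (insert u ∅) : Set F) ⊆ (acl ℝ T : Set F) := by
    rintro x (rfl | rfl | hx)
    · exact hg
    · exact huT
    · exact absurd hx (Set.notMem_empty x)
  obtain ⟨B, hB, hBs⟩ := igu.subset_isBasis_of_subset hsub (hEr _)
  have hBT : acl ℝ B = acl ℝ T := by
    apply SetLike.coe_injective
    rw [coe_acl, hB.closure_eq_closure, ← coe_acl, acl_acl]
  have hgB : g ∈ B := hBs (Set.mem_insert _ _)
  have huB : u ∈ B := hBs (Set.mem_insert_of_mem _ (Set.mem_insert _ _))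
  have hvB : v ∉ acl ℝ B := by rwa [hBT]
  have iv : (AlgebraicIndependent.matroid ℝ F).Indep (insert v B) := by
    rw [mem_acl_iff_closure] at hvB
    exact ((hB.indep.notMem_closure_iff (hEr {v} rfl)).1 hvB).1
  have hgn : g ∉ acl ℝ (insert v B \ {g}) := by
    rw [mem_acl_iff_closure]
    exact iv.notMem_closure_sdiff_of_mem (Set.mem_insert_of_mem _ hgB)
  obtain ⟨δ, hδ, hδg⟩ := h1 ℝ F (insert v B \ {g}) g hgn
  have hug : u ≠ g := by
    rintro rfl
    exact hgu (subset_acl _ rfl)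
  have hvg : v ≠ g := by
    rintro rfl
    exact hv hg
  have hu0 : δ u = 0 := hδ u (subset_acl _ ⟨Set.mem_insert_of_mem _ huB, hug⟩)
  have hv0 : δ v = 0 := hδ v (subset_acl _ ⟨Set.mem_insert _ _, hvg⟩)
  refine ⟨δ, hu0, hv0, ?_, hδg⟩
  rw [← hBT]
  refine (h2 ℝ F B δ).1 ?_
  intro b hb
  by_cases hbg : b = g
  · rw [hbg, hδg]
    exact one_mem _
  · rw [hδ b (subset_acl _ ⟨Set.mem_insert_of_mem _ hb, hbg⟩)]
    exact zero_mem _

theorem P_axo : E0 → AxO := by
  intro h K M _ _ _ _ S A W w hW hDW hA hWw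
  by_contra hDA
  have hA0 : A ∉ acl ℝ (∅ : Set M) := by
    intro h0
    rw [mem_acl_empty] at h0
    exact hDA (MP52aaf2.der_eq_zero_of_algebraic S.D h0)
  -- `W` is algebraic over `ℝ(A)`
  have hw : w ∈ acl ℝ ({A} : Set M) := by
    have h1 : w ∈ acl ℝ (insert A (∅ : Set M)) := by
      refine acl_exchange ?_ hA0
      rwa [insert_empty_eq]
    rwa [insert_empty_eq] at h1
  have hlam : algebraMap ℝ M S.lam ≠ 0 := by
    rw [_root_.map_ne_zero]
    exact S.lam_pos.ne'
  have hA1 : A ∈ acl ℝ ({algebraMap ℝ M S.lam * A} : Set M) := by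
    have h1 : algebraMap ℝ M S.lam * A ∈ acl ℝ ({algebraMap ℝ M S.lam * A} : Set M) :=
      subset_acl _ rfl
    have h2 : algebraMap ℝ M S.lam ∈ acl ℝ ({algebraMap ℝ M S.lam * A} : Set M) :=
      IntermediateField.algebraMap_mem _ _
    have h3 := div_mem h1 h2
    rwa [mul_div_cancel_left₀ _ hlam] at h3
  have hW1 : W ∈ acl ℝ ({algebraMap ℝ M S.lam * A} : Set M) := by
    have h1 : acl ℝ ({w} : Set M) ≤ acl ℝ ({A} : Set M) :=
      acl_le_of_subset (Set.singleton_subset_iff.2 hw)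
    have h2 : acl ℝ ({A} : Set M) ≤ acl ℝ ({algebraMap ℝ M S.lam * A} : Set M) :=
      acl_le_of_subset (Set.singleton_subset_iff.2 hA1)
    exact h2 (h1 hWw)
  have hne : algebraMap ℝ M S.lam * S.D A ≠ 0 := mul_ne_zero hlam hDA
  have key := h ℝ M ((algebraMap ℝ M S.lam * S.D A)⁻¹ • S.D) (algebraMap ℝ M S.lam * A) W
    (by
      rw [Derivation.smul_apply, Derivation.leibniz, Derivation.map_algebraMap, smul_zero,
        add_zero, smul_eq_mul, smul_eq_mul, inv_mul_cancel₀ hne]) hW hW1 1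
    (by
      rw [Derivation.smul_apply, hDW, smul_eq_mul, map_one, one_mul]
      field_simp)
  exact one_ne_zero key

end MP52exp
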