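import Pool.Agent.Lib.MP_52aaf2_al.EX.StmA

/-!
# MP_52aaf2_al, project EX: polynomial relations and algebraic dependence in `MG`
-/

open Filter Topology

namespace MP52exp

section Ind

variable {k F : Type} [Field k] [Field F] [Algebra k F]

/-- one more independent element -/
theorem dic_snoc {n : ℕ} {x : Fin n → F} (hx : AlgebraicIndependent k x) (a : F) :
    AlgebraicIndependent k (Fin.snoc x a : Fin (n + 1) → F) ↔ a ∉ acl k (Set.range x) := by
  rw [mem_acl', ← Transcendental, ← hx.option_iff_transcendental]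
  refine algebraicIndependent_equiv' finSuccEquivLast ?_
  funext i
  refine Fin.lastCases ?_ (fun j => ?_) i
  · simp
  · simp

theorem dic_nil : AlgebraicIndependent k (![] : Fin 0 → F) := by
  rw [algebraicIndependent_empty_type_iff]
  exact FaithfulSMul.algebraMap_injective k F

theorem dic_one (a : F) : AlgebraicIndependent k ![a] ↔ a ∉ acl k (∅ : Set F) := by
  have h := dic_snoc (k := k) (F := F) dic_nil a
  have e : (Fin.snoc (![] : Fin 0 → F) a : Fin 1 → F) = ![a] := by
    funext i
    fin_cases i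
    rfl
  rw [e, Matrix.range_empty] at h
  exact h

theorem dic_two (a b : F) (ha : a ∉ acl k (∅ : Set F)) :
    AlgebraicIndependent k ![a, b] ↔ b ∉ acl k ({a} : Set F) := by
  have h := dic_snoc (k := k) (F := F) ((dic_one a).2 ha) b
  have e : (Fin.snoc (![a] : Fin 1 → F) b : Fin 2 → F) = ![a, b] := by
    funext i
    fin_cases i
    · rfl
    · rfl
  have e2 : Set.range (![a] : Fin 1 → F) = {a} := by
    rw [Matrix.range_cons, Matrix.range_empty, Set.union_empty]
  rw [e, e2] at h
  exact h

theorem dic_three (a b c : F) (hab : AlgebraicIndependent k ![a, b]) :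
    AlgebraicIndependent k ![a, b, c] ↔ c ∉ acl k ({a, b} : Set F) := by
  have h := dic_snoc (k := k) (F := F) hab c
  have e : (Fin.snoc (![a, b] : Fin 2 → F) c : Fin 3 → F) = ![a, b, c] := by
    funext i
    fin_cases i
    · rfl
    · rfl
    · rfl
  have e2 : Set.range (![a, b] : Fin 2 → F) = {a, b} := by
    rw [Matrix.range_cons, Matrix.range_cons, Matrix.range_empty, Set.union_empty]
    rfl
  rw [e, e2] at h
  exact h

end Ind

/-- values of polynomials in analytic germs -/
theorem dic_aeval {k : Type} [Field k] [Algebra k ℝ] [Algebra k MG] [IsScalarTower k ℝ MG]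
    {n : ℕ} (φ : Fin n → ℝ → ℝ) (hφ : ∀ i, EvAn (φ i)) (Q : MvPolynomial (Fin n) k) :
    ∃ h : EvAn (fun x => MvPolynomial.aeval (fun i => φ i x) Q),
      MvPolynomial.aeval (fun i => mmk (φ i) (hφ i)) Q =
        mmk (fun x => MvPolynomial.aeval (fun i => φ i x) Q) h := by
  induction Q using MvPolynomial.induction_on with
  | C a =>
    have e : (fun x => MvPolynomial.aeval (fun i => φ i x) (MvPolynomial.C a)) =
        fun _ : ℝ => algebraMap k ℝ a := by
      funext x
      rw [MvPolynomial.aeval_C]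
    rw [MvPolynomial.aeval_C]
    simp only [e]
    refine ⟨evAn_const _, ?_⟩
    rw [IsScalarTower.algebraMap_apply k ℝ MG, algebraMap_MG]
  | add p q hp hq =>
    obtain ⟨h1, e1⟩ := hp
    obtain ⟨h2, e2⟩ := hq
    have e : (fun x => MvPolynomial.aeval (fun i => φ i x) (p + q)) =
        fun x => MvPolynomial.aeval (fun i => φ i x) p + MvPolynomial.aeval (fun i => φ i x) q := by
      funext x
      rw [map_add]
    rw [map_add, e1, e2]
    simp only [e]
    exact ⟨h1.add h2, mmk_add h1 h2⟩
  | mul_X p i hp =>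
    obtain ⟨h1, e1⟩ := hp
    have e : (fun x => MvPolynomial.aeval (fun i => φ i x) (p * MvPolynomial.X i)) =
        fun x => MvPolynomial.aeval (fun i => φ i x) p * φ i x := by
      funext x
      rw [map_mul, MvPolynomial.aeval_X]
    rw [map_mul, e1, MvPolynomial.aeval_X]
    simp only [e]
    exact ⟨h1.mul (hφ i), mmk_mul h1 (hφ i)⟩

/-- relations between germs and relations near infinity -/
theorem dic_zero {k : Type} [Field k] [Algebra k ℝ] [Algebra k MG] [IsScalarTower k ℝ MG]
    {n : ℕ} (φ : Fin n → ℝ → ℝ) (hφ : ∀ i, EvAn (φ i)) (Q : MvPolynomial (Fin n) k) :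
    MvPolynomial.aeval (fun i => mmk (φ i) (hφ i)) Q = 0 ↔
      ∀ᶠ x in atTop, MvPolynomial.aeval (fun i => φ i x) Q = 0 := by
  obtain ⟨h, e⟩ := dic_aeval φ hφ Q
  have h0 : (0 : MG) = mmk (fun _ => 0) (evAn_const 0) := by
    rw [← algebraMap_MG, map_zero]
  rw [e, h0, mmk_eq]
  rfl

theorem dic_zero2 (f g : ℝ → ℝ) (hf : EvAn f) (hg : EvAn g) (Q : MvPolynomial (Fin 2) ℝ) :
    MvPolynomial.aeval ![mmk f hf, mmk g hg] Q = 0 ↔
      ∀ᶠ x in atTop, MvPolynomial.aeval ![f x, g x] Q = 0 := by
  have h := dic_zero ![f, g] (fun i => by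
    fin_cases i
    · exact hf
    · exact hg) Q
  have e1 : (fun i => mmk (![f, g] i) ((fun i => by
      fin_cases i
      · exact hf
      · exact hg : ∀ i : Fin 2, EvAn (![f, g] i)) i)) = ![mmk f hf, mmk g hg] := by
    funext i
    fin_cases i
    · rfl
    · rfl
  have e2 : ∀ x : ℝ, (fun i => ![f, g] i x) = ![f x, g x] := by
    intro x
    funext i
    fin_cases i
    · rfl
    · rfl
  rw [e1] at h
  simp only [e2] at h
  exact h

theorem dic_zero3 {k : Type} [Field k] [Algebra k ℝ] [Algebra k MG] [IsScalarTower k ℝ MG]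
    (f g l : ℝ → ℝ) (hf : EvAn f) (hg : EvAn g) (hl : EvAn l) (Q : MvPolynomial (Fin 3) k) :
    MvPolynomial.aeval ![mmk f hf, mmk g hg, mmk l hl] Q = 0 ↔
      ∀ᶠ x in atTop, MvPolynomial.aeval ![f x, g x, l x] Q = 0 := by
  have hφ : ∀ i : Fin 3, EvAn (![f, g, l] i) := fun i => by
    fin_cases i
    · exact hf
    · exact hg
    · exact hl
  have h := dic_zero ![f, g, l] hφ Q
  have e1 : (fun i => mmk (![f, g, l] i) (hφ i)) = ![mmk f hf, mmk g hg, mmk l hl] := by
    funext i
    fin_cases i
    · rfl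
    · rfl
    · rfl
  have e2 : ∀ x : ℝ, (fun i => ![f, g, l] i x) = ![f x, g x, l x] := by
    intro x
    funext i
    fin_cases i
    · rfl
    · rfl
    · rfl
  rw [e1] at h
  simp only [e2] at h
  exact h

/-- the dictionary -/
theorem P_dic (hNK : NK) : Dic := by
  refine ⟨?_, ?_, ?_⟩
  · intro lam hlam k f hf Q hQ hrel
    by_contra hcon
    obtain ⟨⟨h1, h2⟩, -, -⟩ := hNK lam hlam
    -- independence over the reals
    have h3 : AlgebraicIndependent ℝ ![ee lam, xx] := (dic_two _ _ h1).2 h2
    have h4 : AlgebraicIndependent ℝ ![xx, ee lam] := by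
      refine (algebraicIndependent_equiv' (Equiv.swap (0 : Fin 2) 1) ?_).1 h3
      funext i
      fin_cases i
      · rfl
      · rfl
    have h5 : AlgebraicIndependent k ![xx, ee lam] :=
      h4.restrictScalars (FaithfulSMul.algebraMap_injective k ℝ)
    have h6 : AlgebraicIndependent k ![xx, ee lam, mmk f hf] := (dic_three _ _ _ h5).2 hcon
    have h7 : MvPolynomial.aeval ![xx, ee lam, mmk f hf] Q = 0 :=
      (dic_zero3 _ _ _ evAn_id (evAn_exp lam) hf Q).2 hrel
    exact hQ (algebraicIndependent_iff.1 h6 Q h7)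
  · intro f g hf hg hmem
    by_contra hcon
    have hind : AlgebraicIndependent ℝ ![mmk f hf, mmk g hg] := by
      rw [algebraicIndependent_iff]
      intro Q hQ
      by_contra hne
      exact hcon ⟨Q, hne, (dic_zero2 f g hf hg Q).1 hQ⟩
    have hone : mmk f hf ∉ acl ℝ (∅ : Set MG) := by
      rw [← dic_one]
      have h8 := hind.comp (![0] : Fin 1 → Fin 2) (fun a b _ => Subsingleton.elim a b)
      have e : (![mmk f hf, mmk g hg] ∘ (![0] : Fin 1 → Fin 2)) = ![mmk f hf] := by
        funext i
        fin_cases i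
        rfl
      rw [e] at h8
      exact h8
    exact (dic_two _ _ hone).1 hind hmem
  · intro f g hf hg hone ⟨Q, hQ, hrel⟩
    by_contra hcon
    have hind : AlgebraicIndependent ℝ ![mmk f hf, mmk g hg] := (dic_two _ _ hone).2 hcon
    exact hQ (algebraicIndependent_iff.1 hind Q ((dic_zero2 f g hf hg Q).2 hrel))

end MP52exp
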