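import Pool.Agent.Lib.MP_52aaf2_al.EX.StmG
import Pool.Agent.Lib.MP_52aaf2_al.NW

/-!
# MP_52aaf2_al, project EX: (E0)
-/

open Polynomial IntermediateField

namespace MP52exp

theorem e0_der_aeval {k F : Type} [Field k] [Field F] [Algebra k F] (δ : Derivation k F F)
    {x : F} (hx : δ x = 1) (P : k[X]) : δ (aeval x P) = aeval x (derivative P) := by
  rw [Derivation.map_aeval, hx, smul_eq_mul, mul_one]

theorem e0_adjoin_stable {k F : Type} [Field k] [Field F] [Algebra k F] (δ : Derivation k F F)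
    {x : F} (hx : δ x = 1) : ∀ a ∈ k⟮x⟯, δ a ∈ k⟮x⟯ := by
  intro a ha
  obtain ⟨r, s, rfl⟩ := (IntermediateField.mem_adjoin_simple_iff k a).1 ha
  rw [Derivation.leibniz_div, e0_der_aeval δ hx, e0_der_aeval δ hx]
  have hP : ∀ P : k[X], aeval x P ∈ k⟮x⟯ := by
    intro P
    exact (IntermediateField.mem_adjoin_simple_iff k _).2 ⟨P, 1, by simp⟩
  simp only [smul_eq_mul]
  exact mul_mem (pow_mem (inv_mem (hP s)) 2) (sub_mem (mul_mem (hP s) (hP _))
    (mul_mem (hP r) (hP _)))

/-- `A' = N A` is impossible for a nonzero rational function `A` and a constant `N ≠ 0`. -/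
theorem e0_rat {k : Type} [Field k] (P Q : k[X]) (hP : P ≠ 0) (hQ : Q ≠ 0) (N : k)
    (h : derivative P * Q - P * derivative Q = C N * (P * Q)) : N = 0 := by
  by_contra hN
  have h1 : (C N * (P * Q)).degree = P.degree + Q.degree := by
    rw [degree_mul, degree_C hN, zero_add, degree_mul]
  have hPd : P.degree ≠ ⊥ := fun h => hP (degree_eq_bot.1 h)
  have hQd : Q.degree ≠ ⊥ := fun h => hQ (degree_eq_bot.1 h)
  have h2 : (derivative P * Q).degree < P.degree + Q.degree := by
    rw [degree_mul]
    exact WithBot.add_lt_add_right hQd (degree_derivative_lt hP)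
  have h3 : (P * derivative Q).degree < P.degree + Q.degree := by
    rw [degree_mul]
    exact WithBot.add_lt_add_left hPd (degree_derivative_lt hQ)
  have h4 : (derivative P * Q - P * derivative Q).degree < P.degree + Q.degree :=
    lt_of_le_of_lt (degree_sub_le _ _) (max_lt h2 h3)
  rw [h, h1] at h4
  exact lt_irrefl _ h4

open Differential in
theorem P_e0 : E0 := by
  intro k F _ _ _ _ δ x e hx he0 he c hc
  have htr : Transcendental k x := MP52aaf2.transcendental_of_der δ (by rw [hx]; exact one_ne_zero)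
  have hst := e0_adjoin_stable δ hx
  let d : Derivation ℤ F F := δ.restrictScalars ℤ
  let : Differential F := ⟨d⟩
  let : Differential k⟮x⟯ := ⟨MP52aaf2.resDer k⟮x⟯ d hst⟩
  have : DifferentialAlgebra k⟮x⟯ F := ⟨fun a => rfl⟩
  have : CharZero k⟮x⟯ := charZero_of_injective_algebraMap (algebraMap k k⟮x⟯).injective
  have hlog : logDeriv e = algebraMap k⟮x⟯ F (algebraMap k k⟮x⟯ c) +
      algebraMap k⟮x⟯ F 0 * logDeriv e := by
    rw [map_zero, zero_mul, add_zero]
    change δ e / e = algebraMap k F c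
    rw [hc]
    field_simp
  obtain ⟨n, hn, A, B, hA, hB, hAB⟩ := MP52aaf2.norm_step (F₀ := k⟮x⟯) e e he he he0 he0
    (algebraMap k k⟮x⟯ c) 0 hlog
  rw [zero_mul, add_zero] at hAB
  have h1 := congrArg (algebraMap k⟮x⟯ F) hAB
  rw [map_mul, map_natCast] at h1
  have h2 : δ (A : F) / (A : F) = n * algebraMap k F c := by
    rw [← Differential.logDeriv_algebraMap] at h1
    exact h1
  obtain ⟨P, Q, hPQ⟩ := (IntermediateField.mem_adjoin_simple_iff k _).1 A.2
  have hinj : Function.Injective (aeval x : k[X] →ₐ[k] F) := transcendental_iff_injective.1 htr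
  have hA' : (A : F) ≠ 0 := fun h => hA (Subtype.ext h)
  have hQ : Q ≠ 0 := by
    rintro rfl
    rw [hPQ, map_zero, div_zero] at hA'
    exact hA' rfl
  have hP : P ≠ 0 := by
    rintro rfl
    rw [hPQ, map_zero, zero_div] at hA'
    exact hA' rfl
  have hn0 : (n : k) ≠ 0 := Nat.cast_ne_zero.2 (by omega)
  have hN : (n : k) * c = 0 := by
    apply e0_rat P Q hP hQ
    apply hinj
    have hQz : aeval x Q ≠ 0 := (map_ne_zero_iff _ hinj).2 hQ
    have hPz : aeval x P ≠ 0 := (map_ne_zero_iff _ hinj).2 hP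
    rw [hPQ, Derivation.leibniz_div, e0_der_aeval δ hx, e0_der_aeval δ hx] at h2
    simp only [smul_eq_mul] at h2
    simp only [map_mul, map_sub, aeval_C, map_natCast]
    field_simp at h2
    linear_combination h2
  rcases mul_eq_zero.1 hN with h | h
  · exact absurd h hn0
  · exact h

end MP52exp
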