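import Pool.Agent.Lib.MP_52aaf2_al.EX.StmG
import Pool.Agent.Lib.MP_52aaf2_al.EX.StmS

/-!
# MP_52aaf2_al, project EX: pieces endm and endp
-/

open Polynomial IntermediateField

namespace MP52exp

private theorem endm_char {M : Type} [Field M] [Algebra ℝ M] : CharZero M :=
  charZero_of_injective_algebraMap (algebraMap ℝ M).injective

private theorem endm_mapAcl (Trn' : Trn) {K M : Type} [Field K] [Field M] [Algebra ℝ K]
    [Algebra ℝ M] (y : K →ₐ[ℝ] M) (p h : K) :
    h ∈ acl ℝ ({p} : Set K) ↔ y h ∈ acl ℝ ({y p} : Set M) := by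
  rw [Trn' ℝ K M y {p} h, Set.image_singleton]

section

variable {K M : Type} [Field K] [Field M] [Algebra ℝ K] [Algebra ℝ M] (S : Sys K M)

private theorem endm_X (jac' : Jac) : S.X ∉ acl ℝ (∅ : Set K) := fun h =>
  (jac' K M S).2.2.1.2.1 (acl_mono (Set.empty_subset _) h)

/-- what is algebraic over `X` is killed by `DE` -/
private theorem endm_DE (jac' : Jac) {h : K} (hh : h ∈ acl ℝ ({S.X} : Set K)) : S.DE h = 0 := by
  have h1 := ((jac' K M S).2.1 S.X h (endm_X S jac')).1 hh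
  rw [S.DE_X, S.DX_X, mul_zero, mul_one] at h1
  exact h1.symm

private theorem endm_P (jac' : Jac) {P : K} (hX : S.DX P ≠ 0) : P ∉ acl ℝ (∅ : Set K) := by
  intro h
  have h1 := ((jac' K M S).2.1 S.E P (jac' K M S).2.2.1.1).1 (acl_mono (Set.empty_subset _) h)
  rw [S.DE_E, S.DX_E, mul_zero] at h1
  rcases mul_eq_zero.1 h1 with h2 | h2
  · exact hX h2
  · exact S.E_ne h2

end

theorem P_endm (hCr : Cr) (hJac : Jac) (hTrn : Trn) : EndT .m := by
  intro K M _ _ _ _ S P hP y _ z _ _ N m n hN hm _ hz _ hbb δ hδ1 hδ2 haa' hbb'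
  have hc : CharZero M := endm_char
  change z P = y S.X + (n : M) at hz
  change δ (y P) = 0 at hδ1
  change δ (y S.X) = 1 at hδ2
  have hN0 : (N : M) ≠ 0 := by
    have : N ≠ 0 := by omega
    exact_mod_cast this
  have hm0 : (m : M) ≠ 0 := by exact_mod_cast hm
  have hyE : y (S.DE P) ≠ 0 := (map_ne_zero y).2 hP.hE
  have h1 := hCr K M S M y δ P
  rw [hδ1, hδ2, mul_one] at h1
  obtain ⟨w, hw⟩ : ∃ w, w = δ (y S.E) / y S.E := ⟨_, rfl⟩
  rw [← hw] at h1 hbb'
  have h2 : y (mu S P) = -w := by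
    unfold mu
    rw [map_div₀, div_eq_iff hyE]
    linear_combination -h1
  have h3 : y (mu S P) = -((N : M) / (m : M)) * z (bb S P) := by
    rw [h2]
    field_simp
    linear_combination hbb'
  have h4 : z (bb S P) ∈ acl ℝ ({y S.X} : Set M) := by
    have h5 := (endm_mapAcl hTrn z P (bb S P)).1 hbb
    have h6 : ({z P} : Set M) ⊆ acl ℝ ({y S.X} : Set M) := by
      rintro _ rfl
      rw [hz]
      exact add_mem (subset_acl _ (Set.mem_singleton _)) (_root_.intCast_mem _ n)
    exact acl_le_of_subset h6 h5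
  have h7 : y (mu S P) ∈ acl ℝ ({y S.X} : Set M) := by
    rw [h3]
    exact mul_mem (neg_mem (div_mem (_root_.natCast_mem _ N) (_root_.intCast_mem _ m))) h4
  have h8 : mu S P ∈ acl ℝ ({S.X} : Set K) := (endm_mapAcl hTrn y S.X (mu S P)).2 h7
  have h9 : S.DE (mu S P) = 0 := endm_DE S hJac h8
  have h10 : aa S P = 0 := by
    unfold aa
    rw [h9, zero_div]
  rw [h10, map_zero, mul_zero, hδ2, mul_one] at haa'
  exact hm0 haa'.symm

theorem P_endp (hCr : Cr) (hJac : Jac) (hMuN : MuN) (hLemD : LemD) (hLemL : LemL) : EndT .p := by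
  intro K M _ _ _ _ S P hP y _ z _ _ N m n hN hm hn hz _ hbb δ hδ1 hδ2 haa' hbb'
  have hc : CharZero M := endm_char
  change z P = y P + (n : M) at hz
  change δ (y S.X) = 0 at hδ1
  change δ (y P) = 1 at hδ2
  have hn' : n ≠ 0 := hn (by simp)
  have hN1 : N ≠ 0 := by omega
  have hN0 : (N : M) ≠ 0 := by exact_mod_cast hN1
  have hm0 : (m : M) ≠ 0 := by exact_mod_cast hm
  have hjac : jac S P ≠ 0 := (hMuN K M S P hP.hX hP.hE).2
  have hyE : y (S.DE P) ≠ 0 := (map_ne_zero y).2 hP.hE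
  rw [hδ1, mul_zero] at haa'
  have h1 : aa S P = 0 := by
    rcases mul_eq_zero.1 haa' with h | h
    · exact absurd h hN0
    · exact (map_eq_zero z).1 h
  have h2 : S.DE (mu S P) = 0 := by
    unfold aa at h1
    rcases div_eq_zero_iff.1 h1 with h | h
    · exact h
    · exact absurd h hjac
  have h3 : S.DE P * bb S P = 1 := by
    unfold bb
    rw [mul_div_assoc', div_eq_one_iff_eq hjac]
    unfold jac
    rw [h2]
    ring
  have hbb0 : bb S P ≠ 0 := fun h => by
    rw [h, mul_zero] at h3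
    exact zero_ne_one h3
  obtain ⟨w, hw⟩ : ∃ w, w = δ (y S.E) / y S.E := ⟨_, rfl⟩
  have h4 := hCr K M S M y δ P
  rw [hδ1, hδ2, mul_zero, zero_add, ← hw] at h4
  rw [← hw] at hbb'
  have h5 : y (S.DE P) * y (bb S P) = 1 := by rw [← map_mul, h3, map_one]
  have h6 : w = y (bb S P) := by
    apply mul_left_cancel₀ hyE
    rw [h5, h4]
  rw [h6] at hbb'
  have h7 : z (bb S P) = algebraMap ℝ M ((m : ℝ) / N) * y (bb S P) := by
    rw [map_div₀, map_intCast, map_natCast]
    field_simp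
    linear_combination hbb'
  have h8 : IsAlgebraic ℝ (bb S P) := by
    refine hLemD ℝ K M y z P (bb S P) n ((m : ℝ) / N) (by exact_mod_cast hn')
      (div_ne_zero (by exact_mod_cast hm) (by exact_mod_cast hN1)) ?_ hbb ?_ h7
    · intro h
      exact endm_P S hJac hP.hX (mem_acl_empty.2 h)
    · rw [hz, map_intCast]
  have h9 : S.DE (bb S P) = 0 :=
    endm_DE S hJac (acl_mono (Set.empty_subset _) (mem_acl_empty.2 h8))
  have h10 : S.DE (S.DE P * bb S P) = 0 := by
    rw [h3]
    exact Derivation.map_one_eq_zero S.DE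
  rw [Derivation.leibniz, h9, smul_zero, zero_add, smul_eq_mul] at h10
  rcases mul_eq_zero.1 h10 with h | h
  · exact hbb0 h
  · exact hP.hE (hLemL K M S P h)

end MP52exp
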