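import Pool.Agent.Lib.MP_52aaf2_al.EX.StmG
import Pool.Agent.Lib.MP_52aaf2_al.EX.StmS

/-!
# MP_52aaf2_al, project EX: piece endmp
-/

open Polynomial IntermediateField

namespace MP52exp

private theorem emp_mapAcl (Trn' : Trn) {K M : Type} [Field K] [Field M] [Algebra ℝ K]
    [Algebra ℝ M] (y : K →ₐ[ℝ] M) (p h : K) :
    h ∈ acl ℝ ({p} : Set K) ↔ y h ∈ acl ℝ ({y p} : Set M) := by
  rw [Trn' ℝ K M y {p} h, Set.image_singleton]

private theorem emp_mapAcl0 (Trn' : Trn) {K M : Type} [Field K] [Field M] [Algebra ℝ K]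
    [Algebra ℝ M] (y : K →ₐ[ℝ] M) (h : K) :
    h ∈ acl ℝ (∅ : Set K) ↔ y h ∈ acl ℝ (∅ : Set M) := by
  rw [Trn' ℝ K M y ∅ h, Set.image_empty]

private theorem emp_exch {F : Type} [Field F] [Algebra ℝ F] {a b : F}
    (h : a ∈ acl ℝ ({b} : Set F)) (h0 : a ∉ acl ℝ (∅ : Set F)) : b ∈ acl ℝ ({a} : Set F) := by
  have h1 := acl_exchange (k := ℝ) (S := (∅ : Set F)) (a := a) (b := b) (by simpa using h) h0
  simpa using h1

section

variable {K M : Type} [Field K] [Field M] [Algebra ℝ K] [Algebra ℝ M] (S : Sys K M)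

private theorem emp_P (jac' : Jac) {P : K} (hX : S.DX P ≠ 0) : P ∉ acl ℝ (∅ : Set K) := by
  intro h
  have h1 := ((jac' K M S).2.1 S.E P (jac' K M S).2.2.1.1).1 (acl_mono (Set.empty_subset _) h)
  rw [S.DE_E, S.DX_E, mul_zero] at h1
  rcases mul_eq_zero.1 h1 with h2 | h2
  · exact hX h2
  · exact S.E_ne h2

end

theorem P_endmp (hCr : Cr) (hJac : Jac) (hMuN : MuN) (hLemI : LemI) (hTrn : Trn) (hShD : ShD) :
    ∀ s : ℤ, EndT (.mp s) := by
  intro s K M _ _ _ _ S P hP y _ z _ hs' N m n hN hm _ hz _ hbb δ hδ1 hδ2 haa' hbb'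
  have hc : CharZero M := charZero_of_injective_algebraMap (algebraMap ℝ M).injective
  have hs : s ≠ 0 := hs' s rfl
  obtain ⟨Q, hQ⟩ : ∃ Q, Q = S.sh s P := ⟨_, rfl⟩
  change z P = y (S.sh s P) + (n : M) at hz
  change δ (y P) = 0 at hδ1
  change δ (y (S.sh s P)) = 1 at hδ2
  rw [← hQ] at hz hδ2
  have hN0 : (N : M) ≠ 0 := by
    have : N ≠ 0 := by omega
    exact_mod_cast this
  have hm0 : (m : M) ≠ 0 := by exact_mod_cast hm
  obtain ⟨hmuP, hjac⟩ := hMuN K M S P hP.hX hP.hE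
  have hP0 : P ∉ acl ℝ (∅ : Set K) := emp_P S hJac hP.hX
  have hmu0 : mu S P ∉ acl ℝ (∅ : Set K) := fun h => hmuP (acl_mono (Set.empty_subset _) h)
  have hyE : y (S.DE P) ≠ 0 := (map_ne_zero y).2 hP.hE
  obtain ⟨w, hw⟩ : ∃ w, w = δ (y S.E) / y S.E := ⟨_, rfl⟩
  obtain ⟨u, hu⟩ : ∃ u, u = δ (y S.X) := ⟨_, rfl⟩
  have h1 := hCr K M S M y δ P
  have h1' := hCr K M S M y δ Q
  rw [hδ1, ← hw, ← hu] at h1
  rw [hδ2, ← hw, ← hu] at h1'
  rw [← hu] at haa'
  rw [← hw] at hbb'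
  -- `w = - μ u`
  have h2 : w = -(y (mu S P) * u) := by
    unfold mu
    rw [map_div₀]
    field_simp
    linear_combination -h1
  have hu0 : u ≠ 0 := by
    intro h
    rw [h, mul_zero, neg_zero] at h2
    rw [h, h2, mul_zero, mul_zero, add_zero] at h1'
    exact one_ne_zero h1'
  have haa0 : aa S P ≠ 0 := by
    intro h
    rw [h, map_zero, mul_zero] at haa'
    exact mul_ne_zero hm0 hu0 haa'.symm
  have hza : z (aa S P) ≠ 0 := (map_ne_zero z).2 haa0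
  -- `z (bb / aa) = - y μ`
  have h3 : z (bb S P / aa S P) = -y (mu S P) := by
    rw [map_div₀, div_eq_iff hza]
    apply mul_left_cancel₀ hN0
    rw [hbb', h2]
    linear_combination y (mu S P) * haa'
  have h4 : y (mu S P) ∈ acl ℝ ({y Q} : Set M) := by
    have h5 : z (bb S P / aa S P) ∈ acl ℝ ({z P} : Set M) :=
      (emp_mapAcl hTrn z P _).1 (div_mem hbb ‹_›)
    have h6 : ({z P} : Set M) ⊆ acl ℝ ({y Q} : Set M) := by
      rintro _ rfl
      rw [hz]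
      exact add_mem (subset_acl _ (Set.mem_singleton _)) (_root_.intCast_mem _ n)
    have h7 := acl_le_of_subset h6 h5
    rw [h3] at h7
    have h8 := neg_mem h7
    rwa [neg_neg] at h8
  have h5 : mu S P ∈ acl ℝ ({Q} : Set K) := (emp_mapAcl hTrn y Q _).2 h4
  have h6 : Q ∈ acl ℝ ({mu S P} : Set K) := emp_exch h5 hmu0
  have h7 : S.DX Q * S.DE (mu S P) = S.DE Q * S.DX (mu S P) :=
    ((hJac K M S).2.1 (mu S P) Q hmu0).1 h6
  have hXQ : S.DX Q = S.sh s (S.DX P) := by rw [hQ]; exact (hShD K M S s P).1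
  have hEQ : S.DE Q = S.sh s (S.DE P) := by rw [hQ]; exact (hShD K M S s P).2
  have hEQ0 : S.DE Q ≠ 0 := by
    rw [hEQ]
    exact (map_ne_zero (S.sh s)).2 hP.hE
  -- `sh s μ = - bb / aa`
  have h8 : S.sh s (mu S P) = -(bb S P / aa S P) := by
    have h9 : S.sh s (mu S P) = S.DX Q / S.DE Q := by
      rw [hXQ, hEQ, ← map_div₀]
      rfl
    rw [h9]
    have hDEmu : S.DE (mu S P) ≠ 0 := by
      intro h
      apply haa0
      unfold aa
      rw [h, zero_div]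
    unfold bb aa
    rw [div_div_div_cancel_right₀ hjac, neg_div, neg_neg, div_eq_div_iff hEQ0 hDEmu]
    linear_combination h7
  have h9 : S.sh s (mu S P) ∈ acl ℝ ({P} : Set K) := by
    rw [h8]
    exact neg_mem (div_mem hbb ‹_›)
  obtain ⟨σ, hσ⟩ : ∃ σ : K →ₐ[ℝ] K, ∀ x, σ x = S.sh s x := ⟨(S.sh s).toAlgHom, fun x => rfl⟩
  have h10 : S.sh s (mu S P) ∉ acl ℝ (∅ : Set K) := by
    rw [← hσ, ← emp_mapAcl0 hTrn σ]
    exact hmu0
  have h11 : P ∈ acl ℝ ({S.sh s (mu S P)} : Set K) := emp_exch h9 h10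
  obtain ⟨R, hR⟩ : ∃ R, R = S.sh s Q := ⟨_, rfl⟩
  have h12 : S.sh s (mu S P) ∈ acl ℝ ({R} : Set K) := by
    have := (emp_mapAcl hTrn σ Q _).1 h5
    rw [hσ, hσ, ← hR] at this
    exact this
  have h13 : P ∈ acl ℝ ({R} : Set K) := by
    refine acl_le_of_subset ?_ h11
    rintro _ rfl
    exact h12
  have h14 : R ∈ acl ℝ ({P} : Set K) := emp_exch h13 hP0
  have h15 : S.DX R * S.DE P = S.DE R * S.DX P := ((hJac K M S).2.1 P R hP0).1 h14
  have hXR : S.DX R = S.sh s (S.DX Q) := by rw [hR]; exact (hShD K M S s Q).1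
  have hER : S.DE R = S.sh s (S.DE Q) := by rw [hR]; exact (hShD K M S s Q).2
  have hER0 : S.DE R ≠ 0 := by
    rw [hER]
    exact (map_ne_zero (S.sh s)).2 hEQ0
  have h16 : S.sh s (S.sh s (mu S P)) = mu S P := by
    have h17 : S.sh s (S.sh s (mu S P)) = S.DX R / S.DE R := by
      rw [hXR, hER, hXQ, hEQ, ← map_div₀, ← map_div₀]
      rfl
    rw [h17]
    unfold mu
    rw [div_eq_div_iff hER0 hP.hE]
    linear_combination h15
  -- contradiction
  refine hmu0 (mem_acl_empty.2 ?_)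
  have hexp : ∀ t : ℝ, Real.exp t ≠ 0 := Real.exp_ne_zero
  refine hLemI ℝ K K (AlgHom.id ℝ K) (σ.comp σ) S.X S.E (mu S P) (2 * s)
    (Real.exp (S.lam * s) * Real.exp (S.lam * s)) (hJac K M S).2.2.1.1 (hJac K M S).2.2.1.2.1
    (S.span _) ?_ (mul_ne_zero (hexp _) (hexp _)) ?_ ?_ ?_ ?_
  · have : (s : ℝ) ≠ 0 := by exact_mod_cast hs
    exact mul_ne_zero two_ne_zero this
  · intro k hk h
    rw [← Real.exp_add, ← Real.exp_nat_mul, Real.exp_eq_one_iff] at h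
    have h1 : (k : ℝ) ≠ 0 := by
      have : k ≠ 0 := by omega
      exact_mod_cast this
    have h2 : (s : ℝ) ≠ 0 := by exact_mod_cast hs
    have h3 : S.lam * s ≠ 0 := mul_ne_zero S.lam_pos.ne' h2
    rcases mul_eq_zero.1 h with h4 | h4
    · exact h1 h4
    · apply h3
      linarith
  · change σ (σ S.X) = S.X + algebraMap ℝ K (2 * s)
    rw [hσ, hσ, S.sh_X, map_add, S.sh_X, map_mul, map_intCast, map_intCast, map_ofNat]
    ring
  · change σ (σ S.E) = algebraMap ℝ K _ * S.E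
    rw [hσ, hσ, S.sh_E, map_mul, S.sh_E, AlgEquiv.commutes, map_mul]
    ring
  · change σ (σ (mu S P)) = mu S P
    rw [hσ, hσ]
    exact h16

end MP52exp
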