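import Pool.Agent.Lib.MP_52aaf2_al.EX.StmG
import Pool.Agent.Lib.MP_52aaf2_al.EX.StmS

/-!
# MP_52aaf2_al, project EX: chains of exponentials and logarithms
-/

open Polynomial IntermediateField

namespace MP52exp

namespace ExpcAux

theorem der_alg {M : Type} [Field M] [Algebra ℝ M] (D : Derivation ℝ M M) {a : M}
    (ha : IsAlgebraic ℝ a) : D a = 0 := by
  have hi : IsIntegral ℝ a := ha.isIntegral
  have h1 : D (aeval a (minpoly ℝ a)) = aeval a (derivative (minpoly ℝ a)) • D a :=
    Derivation.map_aeval _ _ _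
  rw [minpoly.aeval, map_zero] at h1
  have h2 : aeval a (derivative (minpoly ℝ a)) ≠ 0 :=
    (minpoly.irreducible hi).separable.aeval_derivative_ne_zero (minpoly.aeval ℝ a)
  rw [smul_eq_mul] at h1
  exact (mul_eq_zero.1 h1.symm).resolve_left h2

section

variable {k F : Type} [Field k] [Field F] [Algebra k F]

/-- exchange for singletons -/
theorem exch {a b : F} (h : a ∈ acl k ({b} : Set F)) (h' : a ∉ acl k (∅ : Set F)) :
    b ∈ acl k ({a} : Set F) := by
  have h1 := acl_exchange (k := k) (S := (∅ : Set F)) (a := a) (b := b)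
    (by rwa [insert_empty_eq]) h'
  rwa [insert_empty_eq] at h1

theorem acl_sing_le {a b : F} (h : a ∈ acl k ({b} : Set F)) :
    acl k ({a} : Set F) ≤ acl k ({b} : Set F) :=
  acl_le_of_subset (Set.singleton_subset_iff.2 h)

theorem self_mem (a : F) : a ∈ acl k ({a} : Set F) := subset_acl _ rfl

theorem zpow_mem_acl {S : Set F} {a : F} {m : ℤ} (hm : m ≠ 0) (h : a ^ m ∈ acl k S) :
    a ∈ acl k S := by
  have h1 : a ^ m.natAbs ∈ acl k S := by
    rcases Int.natAbs_eq m with hm' | hm'
    · rw [hm', zpow_natCast] at h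
      exact h
    · rw [hm', zpow_neg, zpow_natCast] at h
      have := inv_mem h
      rwa [inv_inv] at this
  apply acl_closed
  have h2 : IsAlgebraic (acl k S) (a ^ m.natAbs) :=
    isAlgebraic_algebraMap (⟨_, h1⟩ : acl k S)
  exact IsAlgebraic.of_pow (Int.natAbs_pos.2 hm) h2

theorem int_mem {S : Set F} (m : ℤ) : (m : F) ∈ acl k S := intCast_mem _ m

theorem alg_mem {S : Set F} (c : k) : algebraMap k F c ∈ acl k S :=
  (acl k S).algebraMap_mem c

theorem int_mul_mem [CharZero F] {S : Set F} {m : ℤ} {a : F} (hm : m ≠ 0)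
    (h : (m : F) * a ∈ acl k S) : a ∈ acl k S := by
  have h1 : (m : F)⁻¹ * ((m : F) * a) ∈ acl k S := mul_mem (inv_mem (int_mem m)) h
  rwa [inv_mul_cancel_left₀ (Int.cast_ne_zero.2 hm)] at h1

end

section

variable {K M : Type} [Field K] [Field M] [Algebra ℝ K] [Algebra ℝ M] (S : Sys K M)

theorem charZero_M (M : Type) [Field M] [Algebra ℝ M] : CharZero M :=
  charZero_of_injective_algebraMap (algebraMap ℝ M).injective

theorem X_notMem (hJac : Jac) : S.X ∉ acl ℝ (∅ : Set K) := fun h =>
  (hJac K M S).2.2.1.2.1 (acl_mono (Set.empty_subset _) h)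

theorem E_notMem (hJac : Jac) : S.E ∉ acl ℝ (∅ : Set K) := (hJac K M S).2.2.1.1

/-- what depends only on `y X` and only on `y E` is algebraic -/
theorem inter (hJac : Jac) (hTrn : Trn) (y : K →ₐ[ℝ] M) {u : M}
    (h1 : u ∈ acl ℝ ({y S.X} : Set M)) (h2 : u ∈ acl ℝ ({y S.E} : Set M)) :
    u ∈ acl ℝ (∅ : Set M) := by
  by_contra h
  have h3 := acl_sing_le h2 (exch h1 h)
  have h4 : S.X ∈ acl ℝ ({S.E} : Set K) := by
    rw [hTrn ℝ K M y, Set.image_singleton]
    exact h3
  exact (hJac K M S).2.2.1.2.1 h4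

theorem not_alg (hTrn : Trn) (y : K →ₐ[ℝ] M) {h : K} (hh : h ∉ acl ℝ (∅ : Set K)) :
    y h ∉ acl ℝ (∅ : Set M) := by
  intro h1
  apply hh
  rw [hTrn ℝ K M y, Set.image_empty]
  exact h1

theorem mem_of_image (hTrn : Trn) (y : K →ₐ[ℝ] M) {h g : K}
    (hh : y h ∈ acl ℝ ({y g} : Set M)) : h ∈ acl ℝ ({g} : Set K) := by
  rw [hTrn ℝ K M y, Set.image_singleton]
  exact hh

/-- constants from vanishing derivatives -/
theorem const_of_alg (S : Sys K M) {u : M} (h : u ∈ acl ℝ (∅ : Set M)) : ∃ c : ℝ, u = algebraMap ℝ M c := by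
  obtain ⟨c, hc⟩ := S.const u (der_alg S.D (mem_acl_empty.1 h))
  exact ⟨c, hc.symm⟩

theorem D_zpow (D : Derivation ℝ M M) {a : M} (ha : a ≠ 0) (m : ℤ) :
    D (a ^ m) = a ^ m * ((m : M) * (D a / a)) := by
  have h := Derivation.leibniz_zpow D a m
  rw [h, zpow_sub_one₀ ha]
  simp only [smul_eq_mul, zsmul_eq_mul]
  field_simp

theorem D_prod (D : Derivation ℝ M M) (e : ℕ → M) (he : ∀ l, e l ≠ 0) (m : ℕ → ℤ) (r : ℕ) :
    D (∏ l ∈ Finset.range r, e l ^ m l) = (∏ l ∈ Finset.range r, e l ^ m l) *
      ∑ l ∈ Finset.range r, (m l : M) * (D (e l) / e l) := by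
  induction r with
  | zero => simp
  | succ r ih =>
    rw [Finset.prod_range_succ, Derivation.leibniz, ih, D_zpow D (he r), Finset.sum_range_succ]
    simp only [smul_eq_mul]
    ring

theorem yE_ne (y : K →ₐ[ℝ] M) : y S.E ≠ 0 := by
  rw [Ne, map_eq_zero]
  exact S.E_ne

theorem D_sum_pt (y : ℕ → (K →ₐ[ℝ] M)) (m : ℕ → ℤ) (r : ℕ) :
    S.D (∑ l ∈ Finset.range r, (m l : M) * y l S.X) =
      ∑ l ∈ Finset.range r, (m l : M) * S.D (y l S.X) := by
  rw [map_sum]
  refine Finset.sum_congr rfl fun l _ => ?_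
  rw [Derivation.leibniz]
  simp

/-- the product of the exponentials is constant iff the sum of the exponents is -/
theorem D_prod_pt (y : ℕ → (K →ₐ[ℝ] M)) (m : ℕ → ℤ) (r : ℕ) (hy : ∀ j < r, y j ∈ S.Pt) :
    S.D (∏ l ∈ Finset.range r, (y l S.E) ^ m l) = (∏ l ∈ Finset.range r, (y l S.E) ^ m l) *
      (algebraMap ℝ M S.lam * S.D (∑ l ∈ Finset.range r, (m l : M) * y l S.X)) := by
  have key : ∑ l ∈ Finset.range r, (m l : M) * (S.D (y l S.E) / y l S.E) =
      ∑ l ∈ Finset.range r, algebraMap ℝ M S.lam * ((m l : M) * S.D (y l S.X)) := by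
    refine Finset.sum_congr rfl fun l hl => ?_
    rw [S.pt_exp (y l) (hy l (Finset.mem_range.1 hl))]
    have := yE_ne S (y l)
    field_simp
  rw [← Finset.mul_sum] at key
  rw [D_prod S.D (fun l => y l S.E) (fun l => yE_ne S (y l)) m r, D_sum_pt, key]

theorem lam_ne (S : Sys K M) : algebraMap ℝ M S.lam ≠ 0 := by
  rw [Ne, map_eq_zero]
  exact S.lam_pos.ne'

theorem prod_ne (y : ℕ → (K →ₐ[ℝ] M)) (m : ℕ → ℤ) (r : ℕ) :
    (∏ l ∈ Finset.range r, (y l S.E) ^ m l : M) ≠ 0 :=
  Finset.prod_ne_zero_iff.2 fun l _ => zpow_ne_zero _ (yE_ne S (y l))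

end

section

variable {K M : Type} [Field K] [Field M] [Algebra ℝ K] [Algebra ℝ M] (S : Sys K M)

/-- incoming and outgoing elements -/
def ai (ε : Bool) : K := bif ε then S.X else S.E
def bo (ε : Bool) : K := bif ε then S.E else S.X

theorem pre (hJac : Jac) (r : ℕ) (y : ℕ → (K →ₐ[ℝ] M)) (ε : ℕ → Bool)
    (hy : ∀ j < r, y j ∈ S.Pt)
    (hl : ∀ j, j + 1 < r → acl ℝ ({y (j + 1) (ai S (ε (j + 1)))} : Set M) =
      acl ℝ ({y j (bo S (ε j))} : Set M)) :
    PreChain S r y (fun j => ai S (ε j)) (fun j => bo S (ε j)) where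
  pt := hy
  ab1 := fun j _ => by
    rcases h : ε j with _ | _
    · simpa [ai] using E_notMem S hJac
    · simpa [ai] using X_notMem S hJac
  ab2 := fun j _ => by
    rcases h : ε j with _ | _
    · simpa [ai, bo] using (hJac K M S).2.2.1.2.1
    · simpa [ai, bo] using (hJac K M S).2.2.1.2.2
  link := hl

/-- the core: a relation with both end coefficients nonzero is impossible -/
theorem core (hCA : CA) (hJac : Jac) (hTrn : Trn) (r : ℕ) (y : ℕ → (K →ₐ[ℝ] M)) (ε : ℕ → Bool)
    (hy : ∀ j < r + 1, y j ∈ S.Pt)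
    (hl : ∀ j, j + 1 < r + 1 → acl ℝ ({y (j + 1) (ai S (ε (j + 1)))} : Set M) =
      acl ℝ ({y j (bo S (ε j))} : Set M))
    (hi : ∀ j, j + 1 < r + 1 → ε j ≠ ε (j + 1) → ∀ (m₁ m₂ : ℤ) (c : ℝ),
      (m₁ : M) * y j S.X + (m₂ : M) * y (j + 1) S.X = algebraMap ℝ M c → m₁ = 0 ∧ m₂ = 0)
    (hq : QInd S r y) (hr : 1 ≤ r) (m : ℕ → ℤ) (h0 : m 0 ≠ 0) (hmr : m r ≠ 0) (c : ℝ)
    (hc : ∑ j ∈ Finset.range (r + 1), (m j : M) * y j S.X = algebraMap ℝ M c) : False := by
  have := charZero_M M
  have hpre : PreChain S r y (fun j => ai S (ε j)) (fun j => bo S (ε j)) :=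
    pre S hJac r y ε (fun j hj => hy j (by omega)) (fun j hj => hl j (by omega))
  have hca := hCA K M S r y _ _ hpre hq hr m
  have hlast := hl (r - 1) (by omega)
  rw [Nat.sub_add_cancel hr] at hlast
  have hl0 := hl 0 (by omega)
  rw [zero_add] at hl0
  have hi0 := hi 0 (by omega)
  rw [zero_add] at hi0
  have hD : S.D (∑ j ∈ Finset.range (r + 1), (m j : M) * y j S.X) = 0 := by
    rw [hc, Derivation.map_algebraMap]
  rcases hεr : ε r with _ | _
  · -- the last incoming element is `E`
    rw [hεr] at hlast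
    have hs : ∏ l ∈ Finset.range r, (y l S.E) ^ m l ∈
        acl ℝ ({y (r - 1) (bo S (ε (r - 1)))} : Set M) := by
      rw [← hlast]
      have h1 := D_prod_pt S y m (r + 1) hy
      rw [hD, mul_zero, mul_zero] at h1
      obtain ⟨κ, hκ⟩ := S.const _ h1
      rw [Finset.prod_range_succ] at hκ
      have h2 : ∏ l ∈ Finset.range r, (y l S.E) ^ m l =
          algebraMap ℝ M κ * ((y r S.E) ^ m r)⁻¹ := by
        rw [hκ, mul_inv_cancel_right₀ (zpow_ne_zero _ (yE_ne S (y r)))]
      rw [h2]
      exact mul_mem (alg_mem κ) (inv_mem (zpow_mem (self_mem _) _))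
    have hall := hca.2 hs
    have h1 := hall 1 le_rfl hr
    simp only [Finset.prod_range_one, Nat.sub_self] at h1
    have h1' := mem_of_image hTrn (y 0) (zpow_mem_acl h0 h1)
    have hε0 : ε 0 = true := by
      by_contra h
      rw [Bool.not_eq_true] at h
      rw [h] at h1'
      exact (hJac K M S).2.2.1.2.2 (by simpa [bo] using h1')
    rcases Nat.lt_or_ge 1 r with hr2 | hr1
    · have h2 := hall 2 (by omega) hr2
      simp only [Finset.prod_range_succ, Finset.prod_range_zero, one_mul] at h2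
      have e21 : 2 - 1 = 1 := rfl
      rw [e21] at h2
      rw [hε0] at hl0
      have hb0 : bo S true = S.E := rfl
      rw [hb0] at hl0
      rcases hε1 : ε 1 with _ | _
      · -- `a 1 = E`, `b 1 = X`
        rw [hε1] at h2 hl0
        have ha1 : ai S false = S.E := rfl
        have hb1 : bo S false = S.X := rfl
        rw [ha1] at hl0
        rw [hb1] at h2
        have h3 : y 0 S.E ^ m 0 * y 1 S.E ^ m 1 ∈ acl ℝ ({y 1 S.E} : Set M) := by
          refine mul_mem (zpow_mem ?_ _) (zpow_mem (self_mem _) _)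
          rw [hl0]
          exact self_mem _
        have h4 := der_alg S.D (mem_acl_empty.1 (inter S hJac hTrn (y 1) h2 h3))
        have h5 := D_prod_pt S y m 2 (fun j hj => hy j (by omega))
        have h6 := prod_ne S y m 2
        have h7 : ∏ l ∈ Finset.range 2, (y l S.E) ^ m l = y 0 S.E ^ m 0 * y 1 S.E ^ m 1 := by
          simp [Finset.prod_range_succ]
        rw [h7] at h5 h6
        rw [h4] at h5
        have h8 := (mul_eq_zero.1 h5.symm).resolve_left h6
        have h9 := (mul_eq_zero.1 h8).resolve_left (lam_ne S)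
        obtain ⟨c', hc'⟩ := S.const _ h9
        have h10 := hi0 (by rw [hε0, hε1]; decide) (m 0) (m 1) c' (by
          rw [hc']
          simp [Finset.sum_range_succ])
        exact h0 h10.1
      · -- `a 1 = X`, `b 1 = E`
        rw [hε1] at h2 hl0
        have ha1 : ai S true = S.X := rfl
        rw [ha1] at hl0
        rw [hb0] at h2
        have h3 : y 0 S.E ^ m 0 ∈ acl ℝ ({y 1 S.E} : Set M) := by
          have h3 := mul_mem h2 (inv_mem (zpow_mem (self_mem (k := ℝ) (y 1 S.E)) (m 1)))
          rwa [mul_inv_cancel_right₀ (zpow_ne_zero _ (yE_ne S (y 1)))] at h3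
        have h4 := zpow_mem_acl h0 h3
        have h5 : y 0 S.E ∈ acl ℝ ({y 1 S.X} : Set M) := by
          rw [hl0]
          exact self_mem _
        exact not_alg hTrn (y 0) (E_notMem S hJac) (inter S hJac hTrn (y 1) h5 h4)
    · have hr' : r = 1 := by omega
      subst hr'
      have h2 := hi0 (by rw [hε0, hεr]; decide) (m 0) (m 1) c (by
        rw [← hc]
        simp [Finset.sum_range_succ])
      exact h0 h2.1
  · -- the last incoming element is `X`
    rw [hεr] at hlast
    have hs : ∑ l ∈ Finset.range r, (m l : M) * y l S.X ∈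
        acl ℝ ({y (r - 1) (bo S (ε (r - 1)))} : Set M) := by
      rw [← hlast]
      rw [Finset.sum_range_succ] at hc
      have h2 : ∑ l ∈ Finset.range r, (m l : M) * y l S.X =
          algebraMap ℝ M c - (m r : M) * y r S.X := by
        rw [← hc, add_sub_cancel_right]
      rw [h2]
      exact sub_mem (alg_mem c) (mul_mem (int_mem _) (self_mem _))
    have hall := hca.1 hs
    have h1 := hall 1 le_rfl hr
    simp only [Finset.sum_range_one, Nat.sub_self] at h1
    have h1' := mem_of_image hTrn (y 0) (int_mul_mem h0 h1)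
    have hε0 : ε 0 = false := by
      by_contra h
      rw [Bool.not_eq_false] at h
      rw [h] at h1'
      exact (hJac K M S).2.2.1.2.1 (by simpa [bo] using h1')
    rcases Nat.lt_or_ge 1 r with hr2 | hr1
    · have h2 := hall 2 (by omega) hr2
      simp only [Finset.sum_range_succ, Finset.sum_range_zero, zero_add] at h2
      have e21 : 2 - 1 = 1 := rfl
      rw [e21] at h2
      rw [hε0] at hl0
      have hb0 : bo S false = S.X := rfl
      rw [hb0] at hl0
      rcases hε1 : ε 1 with _ | _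
      · -- `a 1 = E`, `b 1 = X`
        rw [hε1] at h2 hl0
        have ha1 : ai S false = S.E := rfl
        rw [ha1] at hl0
        rw [hb0] at h2
        have h3 : (m 0 : M) * y 0 S.X ∈ acl ℝ ({y 1 S.X} : Set M) := by
          have h3 := sub_mem h2 (mul_mem (int_mem (m 1)) (self_mem (k := ℝ) (y 1 S.X)))
          rwa [add_sub_cancel_right] at h3
        have h4 := int_mul_mem h0 h3
        have h5 : y 0 S.X ∈ acl ℝ ({y 1 S.E} : Set M) := by
          rw [hl0]
          exact self_mem _
        exact not_alg hTrn (y 0) (X_notMem S hJac) (inter S hJac hTrn (y 1) h4 h5)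
      · -- `a 1 = X`, `b 1 = E`
        rw [hε1] at h2 hl0
        have ha1 : ai S true = S.X := rfl
        have hb1 : bo S true = S.E := rfl
        rw [ha1] at hl0
        rw [hb1] at h2
        have h3 : (m 0 : M) * y 0 S.X + (m 1 : M) * y 1 S.X ∈ acl ℝ ({y 1 S.X} : Set M) := by
          refine add_mem (mul_mem (int_mem _) ?_) (mul_mem (int_mem _) (self_mem _))
          rw [hl0]
          exact self_mem _
        obtain ⟨c', hc'⟩ := const_of_alg S (inter S hJac hTrn (y 1) h3 h2)
        exact h0 (hi0 (by rw [hε0, hε1]; decide) (m 0) (m 1) c' hc').1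
    · have hr' : r = 1 := by omega
      subst hr'
      have h2 := hi0 (by rw [hε0, hεr]; decide) (m 0) (m 1) c (by
        rw [← hc]
        simp [Finset.sum_range_succ])
      exact h0 h2.1

end

end ExpcAux

open ExpcAux in
/-- **(ExpC)** -/
theorem P_expc (hCA : CA) (hJac : Jac) (hTrn : Trn) : ExpC := by
  intro K M _ _ _ _ S r
  induction r with
  | zero =>
    intro y ε _ _ _ m _ j hj
    omega
  | succ r ih =>
    intro y ε hy hl hi m hm j hj
    have := charZero_M M
    have hq : QInd S r y := ih y ε (fun j hj => hy j (by omega)) (fun j hj => hl j (by omega))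
      (fun j hj => hi j (by omega))
    have hq' : QInd S r (fun j => y (j + 1)) := ih (fun j => y (j + 1)) (fun j => ε (j + 1))
      (fun j hj => hy (j + 1) (by omega)) (fun j hj => hl (j + 1) (by omega))
      (fun j hj => hi (j + 1) (by omega))
    obtain ⟨c, hc⟩ := hm
    by_cases hmr : m r = 0
    · rcases Nat.lt_or_ge j r with hjr | hjr
      · refine hq m ⟨c, ?_⟩ j hjr
        rw [Finset.sum_range_succ, hmr] at hc
        simpa using hc
      · have : j = r := by omega
        rw [this]
        exact hmr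
    · by_cases h0 : m 0 = 0
      · rcases Nat.eq_zero_or_pos j with hj0 | hj0
        · rw [hj0]
          exact h0
        · have h1 := hq' (fun j => m (j + 1)) ⟨c, by
            rw [Finset.sum_range_succ', h0] at hc
            simpa using hc⟩ (j - 1) (by omega)
          have e : j - 1 + 1 = j := by omega
          simpa [e] using h1
      · exfalso
        rcases Nat.eq_zero_or_pos r with hr | hr
        · subst hr
          rw [Finset.sum_range_one] at hc
          have h1 : S.D ((m 0 : M) * y 0 S.X) = 0 := by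
            rw [hc, Derivation.map_algebraMap]
          rw [Derivation.leibniz, Derivation.map_intCast, smul_zero, add_zero, smul_eq_mul,
            mul_eq_zero, Int.cast_eq_zero] at h1
          rcases h1 with h1 | h1
          · exact h0 h1
          · exact S.pt_ne (y 0) (hy 0 (by omega)) h1
        · exact core S hCA hJac hTrn r y ε hy hl hi hq hr m h0 hmr c hc

end MP52exp
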