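import Pool.Agent.Lib.MP_52aaf2_al.EX.StmG

/-!
# MP_52aaf2_al, project EX: minimal polynomials and twisted embeddings
-/

set_option autoImplicit false

open Polynomial IntermediateField

namespace MP52exp

theorem P_gp : GP := by
  intro K₀ K M _ _ _ _ y z τ hyz h halg q hq hzh i hi
  set m : K₀[X] := minpoly K₀ h with hm
  have hint : IsIntegral K₀ h := halg.isIntegral
  have hmon : m.Monic := minpoly.monic hint
  have hirr : Irreducible m := minpoly.irreducible hint
  let g : K₀ →+* M := y.comp (algebraMap K₀ K)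
  let m1 : K₀[X] := m.map (τ : K₀ →+* K₀)
  let m2 : K₀[X] := m.scaleRoots q
  have h1mon : m1.Monic := hmon.map _
  have h2mon : m2.Monic := (Polynomial.monic_scaleRoots_iff q).2 hmon
  have h1irr : Irreducible m1 := by
    have := (MulEquiv.irreducible_iff (Polynomial.mapEquiv τ) (x := m)).2 hirr
    exact this
  have h1root : eval₂ g (z h) m1 = 0 := by
    change eval₂ g (z h) (m.map (τ : K₀ →+* K₀)) = 0
    rw [eval₂_map]
    have e1 : g.comp (τ : K₀ →+* K₀) = z.comp (algebraMap K₀ K) := by
      ext a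
      exact (hyz a).symm
    rw [e1, ← hom_eval₂]
    have e2 : eval₂ (algebraMap K₀ K) h m = 0 := minpoly.aeval K₀ h
    rw [e2, map_zero]
  have h2root : eval₂ g (z h) m2 = 0 := by
    rw [hzh]
    change eval₂ (y.comp (algebraMap K₀ K)) (y (algebraMap K₀ K q * h)) m2 = 0
    rw [← hom_eval₂]
    have e2 : eval₂ (algebraMap K₀ K) h m = 0 := minpoly.aeval K₀ h
    have e3 : eval₂ (algebraMap K₀ K) (algebraMap K₀ K q * h) m2 = 0 :=
      scaleRoots_eval₂_eq_zero (algebraMap K₀ K) e2
    rw [e3, map_zero]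
  have hdeg1 : m1.natDegree = m.natDegree := natDegree_map _
  have hdeg2 : m2.natDegree = m.natDegree := natDegree_scaleRoots m q
  have heq : m1 = m2 := by
    letI := g.toAlgebra
    have e1 : m1 = minpoly K₀ (z h) := minpoly.eq_of_irreducible_of_monic h1irr h1root h1mon
    have e2 : minpoly K₀ (z h) ∣ m2 := minpoly.dvd K₀ (z h) h2root
    rw [← e1] at e2
    exact (Polynomial.eq_of_monic_of_dvd_of_natDegree_le h1mon h2mon e2
      (by rw [hdeg1, hdeg2])).symm
  have hc : m1.coeff i = m2.coeff i := by rw [heq]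
  change (m.map (τ : K₀ →+* K₀)).coeff i = (m.scaleRoots q).coeff i at hc
  rw [coeff_map, coeff_scaleRoots] at hc
  rw [mul_comm]
  exact hc

end MP52exp
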