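import Pool.Agent.Lib.MP_52aaf2_al.EX.StmA

/-!
# MP_52aaf2_al, project EX: the criterion for free generators in the HNN case
-/

namespace MP52exp

section HaAux

variable {F : Type} [Group F]

/-- The reduced products, beginning with `b` (`true`) or with `b⁻¹` (`false`). -/
inductive HaRed (a b : F) : Bool → F → Prop
  | pos (h : F) (hh : h ∈ Subgroup.closure {a, b * a * b⁻¹}) : HaRed a b true (b * h)
  | neg (h : F) (hh : h ∈ Subgroup.closure {a, b * a * b⁻¹}) : HaRed a b false (b⁻¹ * h)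
  | pp (g h : F) (hg : HaRed a b true g) (hh : h ∈ Subgroup.closure {a, b * a * b⁻¹}) :
      HaRed a b true (b * h * g)
  | nn (g h : F) (hg : HaRed a b false g) (hh : h ∈ Subgroup.closure {a, b * a * b⁻¹}) :
      HaRed a b false (b⁻¹ * h * g)
  | pn (g h : F) (hg : HaRed a b true g) (hh : h ∈ Subgroup.closure {a, b * a * b⁻¹})
      (hn : h ∉ Subgroup.zpowers (b * a * b⁻¹)) : HaRed a b false (b⁻¹ * h * g)
  | np (g h : F) (hg : HaRed a b false g) (hh : h ∈ Subgroup.closure {a, b * a * b⁻¹})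
      (hn : h ∉ Subgroup.zpowers a) : HaRed a b true (b * h * g)

/-- The elements with a reduced form. -/
def HaX (a b : F) (w : F) : Prop :=
  w ∈ Subgroup.closure {a, b * a * b⁻¹} ∨
    ∃ h ∈ Subgroup.closure {a, b * a * b⁻¹}, ∃ ε g, HaRed a b ε g ∧ w = h * g

theorem Ha_mem_a (a b : F) : a ∈ Subgroup.closure {a, b * a * b⁻¹} :=
  Subgroup.subset_closure (by simp)

theorem Ha_mem_c (a b : F) : b * a * b⁻¹ ∈ Subgroup.closure {a, b * a * b⁻¹} :=
  Subgroup.subset_closure (by simp)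

theorem Ha_conj (a b : F) (m : ℤ) : b * a ^ m * b⁻¹ = (b * a * b⁻¹) ^ m :=
  (conj_zpow (a := b) (b := a) (i := m)).symm

theorem HaX_mul {a b : F} {k w : F} (hk : k ∈ Subgroup.closure {a, b * a * b⁻¹})
    (hw : HaX a b w) : HaX a b (k * w) := by
  rcases hw with hw | ⟨h, hh, ε, g, hg, rfl⟩
  · exact Or.inl (mul_mem hk hw)
  · exact Or.inr ⟨k * h, mul_mem hk hh, ε, g, hg, by rw [mul_assoc]⟩

/-- what follows the first letter -/
theorem HaRed_tail {a b : F} {ε : Bool} {g : F} (hg : HaRed a b ε g) :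
    ∃ w, HaX a b w ∧ g = (if ε then b else b⁻¹) * w := by
  cases hg with
  | pos h hh => exact ⟨h, Or.inl hh, rfl⟩
  | neg h hh => exact ⟨h, Or.inl hh, rfl⟩
  | pp g h hg hh => exact ⟨h * g, Or.inr ⟨h, hh, _, g, hg, rfl⟩, mul_assoc _ _ _⟩
  | nn g h hg hh => exact ⟨h * g, Or.inr ⟨h, hh, _, g, hg, rfl⟩, mul_assoc _ _ _⟩
  | pn g h hg hh hn => exact ⟨h * g, Or.inr ⟨h, hh, _, g, hg, rfl⟩, mul_assoc _ _ _⟩
  | np g h hg hh hn => exact ⟨h * g, Or.inr ⟨h, hh, _, g, hg, rfl⟩, mul_assoc _ _ _⟩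

theorem HaX_b {a b : F} {w : F} (hw : HaX a b w) : HaX a b (b * w) := by
  rcases hw with hw | ⟨h, hh, ε, g, hg, rfl⟩
  · exact Or.inr ⟨1, one_mem _, true, b * w, HaRed.pos w hw, (one_mul _).symm⟩
  · cases ε with
    | true =>
      exact Or.inr ⟨1, one_mem _, true, b * h * g, HaRed.pp g h hg hh,
        by rw [one_mul, mul_assoc]⟩
    | false =>
      by_cases hn : h ∈ Subgroup.zpowers a
      · obtain ⟨m, rfl⟩ := Subgroup.mem_zpowers_iff.1 hn
        obtain ⟨w, hw, rfl⟩ := HaRed_tail hg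
        have h1 : b * (a ^ m * ((if false = true then b else b⁻¹) * w)) =
            (b * a * b⁻¹) ^ m * w := by
          rw [← Ha_conj]
          simp [mul_assoc]
        rw [h1]
        exact HaX_mul (Subgroup.zpow_mem _ (Ha_mem_c a b) m) hw
      · exact Or.inr ⟨1, one_mem _, true, b * h * g, HaRed.np g h hg hh hn,
          by rw [one_mul, mul_assoc]⟩

theorem HaX_b_inv {a b : F} {w : F} (hw : HaX a b w) : HaX a b (b⁻¹ * w) := by
  rcases hw with hw | ⟨h, hh, ε, g, hg, rfl⟩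
  · exact Or.inr ⟨1, one_mem _, false, b⁻¹ * w, HaRed.neg w hw, (one_mul _).symm⟩
  · cases ε with
    | false =>
      exact Or.inr ⟨1, one_mem _, false, b⁻¹ * h * g, HaRed.nn g h hg hh,
        by rw [one_mul, mul_assoc]⟩
    | true =>
      by_cases hn : h ∈ Subgroup.zpowers (b * a * b⁻¹)
      · obtain ⟨m, rfl⟩ := Subgroup.mem_zpowers_iff.1 hn
        obtain ⟨w, hw, rfl⟩ := HaRed_tail hg
        have h1 : b⁻¹ * ((b * a * b⁻¹) ^ m * ((if true = true then b else b⁻¹) * w)) =
            a ^ m * w := by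
          rw [← Ha_conj]
          simp [mul_assoc]
        rw [h1]
        exact HaX_mul (Subgroup.zpow_mem _ (Ha_mem_a a b) m) hw
      · exact Or.inr ⟨1, one_mem _, false, b⁻¹ * h * g, HaRed.pn g h hg hh hn,
          by rw [one_mul, mul_assoc]⟩

/-- The criterion for a homomorphism from a group generated by two elements. -/
theorem Ha_gen {G : Type} [Group G] (φ : F →* G) (a' b' : F)
    (hgen : ∀ w, w ∈ Subgroup.closure {a', b'}) (a b : G) (hφa : φ a' = a) (hφb : φ b' = b)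
    (hinj : ∀ h ∈ Subgroup.closure {a', b' * a' * b'⁻¹}, φ h = 1 → h = 1)
    (sp sm : G → Prop)
    (H1 : ∀ h ∈ Subgroup.closure {a, b * a * b⁻¹}, sp (b * h) ∧ sm (b⁻¹ * h))
    (H2 : ∀ g, sp g → ∀ h ∈ Subgroup.closure {a, b * a * b⁻¹}, sp (b * h * g))
    (H3 : ∀ g, sp g → ∀ h ∈ Subgroup.closure {a, b * a * b⁻¹},
      h ∉ Subgroup.zpowers (b * a * b⁻¹) → sm (b⁻¹ * h * g))
    (H4 : ∀ g, sm g → ∀ h ∈ Subgroup.closure {a, b * a * b⁻¹}, sm (b⁻¹ * h * g))
    (H5 : ∀ g, sm g → ∀ h ∈ Subgroup.closure {a, b * a * b⁻¹}, h ∉ Subgroup.zpowers a →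
      sp (b * h * g))
    (H6 : ∀ g, (sp g ∨ sm g) → ∀ h ∈ Subgroup.closure {a, b * a * b⁻¹}, h * g ≠ 1) (w : F)
    (hw : φ w = 1) : w = 1 := by
  have hφc : φ (b' * a' * b'⁻¹) = b * a * b⁻¹ := by rw [map_mul, map_mul, map_inv, hφa, hφb]
  have hmap : ∀ h ∈ Subgroup.closure {a', b' * a' * b'⁻¹},
      φ h ∈ Subgroup.closure {a, b * a * b⁻¹} := by
    intro h hh
    have h1 : Subgroup.closure {a', b' * a' * b'⁻¹} ≤
        (Subgroup.closure {a, b * a * b⁻¹}).comap φ := by
      rw [Subgroup.closure_le]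
      intro x hx
      rw [SetLike.mem_coe, Subgroup.mem_comap]
      rcases hx with rfl | hx
      · rw [hφa]
        exact Ha_mem_a a b
      · rw [Set.mem_singleton_iff] at hx
        rw [hx, hφc]
        exact Ha_mem_c a b
    exact h1 hh
  have hinj' : ∀ h ∈ Subgroup.closure {a', b' * a' * b'⁻¹}, ∀ k ∈
      Subgroup.closure {a', b' * a' * b'⁻¹}, φ h = φ k → h = k := by
    intro h hh k hk e
    have h1 : h * k⁻¹ = 1 := hinj _ (mul_mem hh (inv_mem hk)) (by
      rw [map_mul, map_inv, e, mul_inv_cancel])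
    rwa [mul_inv_eq_one] at h1
  have hna : ∀ h ∈ Subgroup.closure {a', b' * a' * b'⁻¹}, h ∉ Subgroup.zpowers a' →
      φ h ∉ Subgroup.zpowers a := by
    intro h hh hn h1
    obtain ⟨m, hm⟩ := Subgroup.mem_zpowers_iff.1 h1
    apply hn
    rw [hinj' h hh (a' ^ m) (Subgroup.zpow_mem _ (Ha_mem_a a' b') m)
      (by rw [map_zpow, hφa, hm])]
    exact Subgroup.zpow_mem_zpowers _ _
  have hnc : ∀ h ∈ Subgroup.closure {a', b' * a' * b'⁻¹},
      h ∉ Subgroup.zpowers (b' * a' * b'⁻¹) → φ h ∉ Subgroup.zpowers (b * a * b⁻¹) := by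
    intro h hh hn h1
    obtain ⟨m, hm⟩ := Subgroup.mem_zpowers_iff.1 h1
    apply hn
    rw [hinj' h hh ((b' * a' * b'⁻¹) ^ m) (Subgroup.zpow_mem _ (Ha_mem_c a' b') m)
      (by rw [map_zpow, hφc, hm])]
    exact Subgroup.zpow_mem_zpowers _ _
  have hred : ∀ ε g, HaRed a' b' ε g → if ε then sp (φ g) else sm (φ g) := by
    intro ε g hg
    induction hg with
    | pos h hh =>
      simp only [if_true, map_mul, hφb]
      exact (H1 _ (hmap h hh)).1
    | neg h hh =>
      simp only [Bool.false_eq_true, if_false, map_mul, map_inv, hφb]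
      exact (H1 _ (hmap h hh)).2
    | pp g h _ hh ih =>
      simp only [if_true, map_mul, hφb] at ih ⊢
      exact H2 _ ih _ (hmap h hh)
    | nn g h _ hh ih =>
      simp only [Bool.false_eq_true, if_false, map_mul, map_inv, hφb] at ih ⊢
      exact H4 _ ih _ (hmap h hh)
    | pn g h _ hh hn ih =>
      simp only [Bool.false_eq_true, if_false, if_true, map_mul, map_inv, hφb] at ih ⊢
      exact H3 _ ih _ (hmap h hh) (hnc h hh hn)
    | np g h _ hh hn ih =>
      simp only [Bool.false_eq_true, if_false, if_true, map_mul, hφb] at ih ⊢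
      exact H5 _ ih _ (hmap h hh) (hna h hh hn)
  have hall : ∀ w : F, HaX a' b' w := by
    intro w
    have h1 : ∀ v : F, (∀ w : F, HaX a' b' w → HaX a' b' (v * w)) ∧
        ∀ w : F, HaX a' b' w → HaX a' b' (v⁻¹ * w) := by
      intro v
      induction hgen v using Subgroup.closure_induction with
      | mem x hx =>
        rcases hx with rfl | hx
        · exact ⟨fun w hw => HaX_mul (Ha_mem_a x b') hw,
            fun w hw => HaX_mul (inv_mem (Ha_mem_a x b')) hw⟩
        · rw [Set.mem_singleton_iff] at hx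
          subst hx
          exact ⟨fun w hw => HaX_b hw, fun w hw => HaX_b_inv hw⟩
      | one => exact ⟨fun w hw => by rwa [one_mul], fun w hw => by rwa [inv_one, one_mul]⟩
      | mul x y _ _ hx hy =>
        refine ⟨fun w hw => ?_, fun w hw => ?_⟩
        · rw [mul_assoc]
          exact hx.1 _ (hy.1 _ hw)
        · rw [mul_inv_rev, mul_assoc]
          exact hy.2 _ (hx.2 _ hw)
      | inv x hx ih => exact ⟨ih.2, fun w hw => by rw [inv_inv]; exact ih.1 w hw⟩
    have h2 := (h1 w).1 1 (Or.inl (one_mem _))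
    rwa [mul_one] at h2
  rcases hall w with h | ⟨h, hh, ε, g, hg, rfl⟩
  · exact hinj w h hw
  · exfalso
    have h1 : φ h * φ g = 1 := by
      rw [← map_mul]
      exact hw
    refine H6 (φ g) ?_ (φ h) (hmap h hh) h1
    have h2 := hred ε g hg
    cases ε with
    | true => exact Or.inl (by simpa using h2)
    | false => exact Or.inr (by simpa using h2)

end HaAux

theorem P_ha : Ha := by
  intro G _ a b sp sm h0 H1 H2 H3 H4 H5 H6
  rw [injective_iff_map_eq_one]
  refine Ha_gen (FreeGroup.lift ![a, b]) (FreeGroup.of 0) (FreeGroup.of 1) ?_ a b (by simp)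
    (by simp) ?_ sp sm H1 H2 H3 H4 H5 H6
  · intro w
    have h1 := FreeGroup.closure_range_of (Fin 2)
    have h2 : Set.range (FreeGroup.of : Fin 2 → FreeGroup (Fin 2)) =
        {FreeGroup.of 0, FreeGroup.of 1} := by
      ext x
      simp only [Set.mem_range, Set.mem_insert_iff, Set.mem_singleton_iff, Fin.exists_fin_two]
      tauto
    rw [← h2, h1]
    trivial
  · intro h hh h1
    have h2 : Subgroup.closure {FreeGroup.of 0, FreeGroup.of 1 * FreeGroup.of 0 *
        (FreeGroup.of 1)⁻¹} ≤ (FreeGroup.lift ![(FreeGroup.of 0 : FreeGroup (Fin 2)),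
          FreeGroup.of 1 * FreeGroup.of 0 * (FreeGroup.of 1)⁻¹]).range := by
      rw [Subgroup.closure_le]
      rintro x (rfl | hx)
      · exact ⟨FreeGroup.of 0, by simp⟩
      · rw [Set.mem_singleton_iff] at hx
        subst hx
        exact ⟨FreeGroup.of 1, by simp⟩
    obtain ⟨v, rfl⟩ := h2 hh
    have h3 : (FreeGroup.lift ![a, b]).comp (FreeGroup.lift ![(FreeGroup.of 0 :
        FreeGroup (Fin 2)), FreeGroup.of 1 * FreeGroup.of 0 * (FreeGroup.of 1)⁻¹]) =
        FreeGroup.lift ![a, b * a * b⁻¹] := by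
      ext i
      fin_cases i
      · simp
      · simp
    have h4 : FreeGroup.lift ![a, b * a * b⁻¹] v = 1 := by
      rw [← h3]
      exact h1
    have h5 : v = 1 := h0 (h4.trans (map_one _).symm)
    rw [h5, map_one]

end MP52exp
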