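import Pool.Agent.Lib.MP_52aaf2_al.EX.StmA

/-!
# MP_52aaf2_al, project EX: the HNN case
-/

open Filter Topology

open MP52aaf2 (GermGroup germ alpha FreePair IsAlgGerm IsAlgFun AlgG alpha_alg germ_mul germ_inv
  germ_eq_iff tendsto_oi)

namespace MP52exp

section hb

/-- two notations for polynomials in two variables -/
private noncomputable def hbPsi : Polynomial (Polynomial ℝ) →+* MvPolynomial (Fin 2) ℝ :=
  Polynomial.eval₂RingHom (Polynomial.aeval (MvPolynomial.X 0 : MvPolynomial (Fin 2) ℝ)).toRingHom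
    (MvPolynomial.X 1)

private theorem hbPsi_eval (Q : Polynomial (Polynomial ℝ)) (a b : ℝ) :
    MvPolynomial.aeval ![a, b] (hbPsi Q) = Q.evalEval a b := by
  have h : ((MvPolynomial.aeval ![a, b] : MvPolynomial (Fin 2) ℝ →ₐ[ℝ] ℝ).toRingHom.comp hbPsi) =
      Polynomial.evalEvalRingHom a b := by
    apply Polynomial.ringHom_ext'
    · apply Polynomial.ringHom_ext'
      · ext r
        simp [hbPsi]
      · simp [hbPsi]
    · simp [hbPsi]
  exact congrArg (fun f => f Q) h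

private theorem hbPsi_ne {Q : Polynomial (Polynomial ℝ)} (hQ : Q ≠ 0) : hbPsi Q ≠ 0 := by
  intro h
  apply hQ
  ext n : 1
  rw [Polynomial.coeff_zero]
  apply Polynomial.funext
  intro a
  rw [Polynomial.eval_zero]
  have h1 : Q.map (Polynomial.evalRingHom a) = 0 := by
    apply Polynomial.funext
    intro b
    rw [Polynomial.eval_zero]
    have h2 := hbPsi_eval Q a b
    rw [h, map_zero] at h2
    rw [Polynomial.map_evalRingHom_eval]
    exact h2.symm
  have h3 := congrArg (fun q => Polynomial.coeff q n) h1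
  simpa using h3

variable {lam : ℝ}

/-- `y` is the point of `u` -/
private def HbPt (S : Sys (KF lam) MG) (y : KF lam →ₐ[ℝ] MG) (u : ℝ ≃o ℝ) : Prop :=
  y ∈ S.Pt ∧ ∀ (h : KF lam) (f : ℝ → ℝ) (hf : EvAn f) (hf' : EvAn fun x => f (u x)),
    (h : MG) = mmk f hf → y h = mmk (fun x => f (u x)) hf'

/-- chain data -/
private def HbCD (S : Sys (KF lam) MG) (r : ℕ) (y : ℕ → (KF lam →ₐ[ℝ] MG)) (ε : ℕ → Bool) :
    Prop :=
  (∀ j < r, y j ∈ S.Pt) ∧
  (∀ j, j + 1 < r → acl ℝ ({y (j + 1) (bif ε (j + 1) then S.X else S.E)} : Set MG) =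
    acl ℝ ({y j (bif ε j then S.E else S.X)} : Set MG)) ∧
  (∀ j, j + 1 < r → ε j ≠ ε (j + 1) → ∀ (m₁ m₂ : ℤ) (c : ℝ),
    (m₁ : MG) * y j S.X + (m₂ : MG) * y (j + 1) S.X = algebraMap ℝ MG c → m₁ = 0 ∧ m₂ = 0) ∧
  acl ℝ ({y 0 (bif ε 0 then S.X else S.E)} : Set MG) = acl ℝ ({xx} : Set MG)

private theorem hbCD_one {S : Sys (KF lam) MG} {z : KF lam →ₐ[ℝ] MG} (hz : z ∈ S.Pt) (e : Bool)
    (h : acl ℝ ({z (bif e then S.X else S.E)} : Set MG) = acl ℝ ({xx} : Set MG)) :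
    HbCD S (0 + 1) (fun _ => z) (fun _ => e) := by
  refine ⟨fun j _ => hz, fun j hj => absurd hj (by omega), fun j hj => absurd hj (by omega), h⟩

private theorem hbCD_ext {S : Sys (KF lam) MG} {r : ℕ} {y : ℕ → (KF lam →ₐ[ℝ] MG)}
    {ε : ℕ → Bool} (h : HbCD S (r + 1) y ε) {z : KF lam →ₐ[ℝ] MG} (hz : z ∈ S.Pt) (e : Bool)
    (hl : acl ℝ ({z (bif e then S.X else S.E)} : Set MG) =
      acl ℝ ({y r (bif ε r then S.E else S.X)} : Set MG))
    (hi : ε r ≠ e → ∀ (m₁ m₂ : ℤ) (c : ℝ),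
      (m₁ : MG) * y r S.X + (m₂ : MG) * z S.X = algebraMap ℝ MG c → m₁ = 0 ∧ m₂ = 0) :
    ∃ (y' : ℕ → (KF lam →ₐ[ℝ] MG)) (ε' : ℕ → Bool), HbCD S (r + 1 + 1) y' ε' ∧
      y' (r + 1) = z ∧ ε' (r + 1) = e := by
  obtain ⟨h1, h2, h3, h4⟩ := h
  refine ⟨fun j => if j < r + 1 then y j else z, fun j => if j < r + 1 then ε j else e,
    ⟨?_, ?_, ?_, ?_⟩, ?_, ?_⟩
  · intro j hj
    by_cases hj' : j < r + 1
    · simp only [hj', if_true]
      exact h1 j hj'
    · simp only [hj', if_false]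
      exact hz
  · intro j hj
    have hj0 : j < r + 1 := by omega
    by_cases hj' : j + 1 < r + 1
    · simp only [hj0, hj', if_true]
      exact h2 j hj'
    · have hjr : j = r := by omega
      subst hjr
      simp only [hj0, hj', if_true, if_false]
      exact hl
  · intro j hj
    have hj0 : j < r + 1 := by omega
    by_cases hj' : j + 1 < r + 1
    · simp only [hj0, hj', if_true]
      exact h3 j hj'
    · have hjr : j = r := by omega
      subst hjr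
      simp only [hj0, hj', if_true, if_false]
      exact hi
  · simp only [Nat.zero_lt_succ, if_true]
    exact h4
  · simp
  · simp

/-- an affine relation between `u` and `k ∘ u` forces `k` to commute with shifts up to a shift -/
private theorem hb_affine {u k : ℝ ≃o ℝ} (hu : EvAn u) (hku : EvAn fun x => k (u x))
    {m₁ m₂ : ℤ} {c : ℝ}
    (h : (m₁ : MG) * mmk u hu + (m₂ : MG) * mmk (fun x => k (u x)) hku = algebraMap ℝ MG c) :
    (m₂ ≠ 0 → germ k * alpha ^ m₂ = alpha ^ (-m₁) * germ k) ∧ (m₂ = 0 → m₁ = 0) := by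
  have h1 : ∀ n : ℤ, (n : MG) = mmk (fun _ => (n : ℝ)) (evAn_const _) := by
    intro n
    rw [← algebraMap_MG, map_intCast]
  rw [h1, h1, mmk_mul, mmk_mul, mmk_add, algebraMap_MG, mmk_eq] at h
  -- transport to the variable `v = u x`
  have h2 : ∀ᶠ v in atTop, (m₁ : ℝ) * v + (m₂ : ℝ) * k v = c := by
    have h3 := (tendsto_oi u.symm).eventually h
    filter_upwards [h3] with v hv
    simpa using hv
  have hal : ∀ n : ℤ, alpha ^ n = germ (OrderIso.addRight (n : ℝ)) := by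
    have h4 : ∀ n : ℕ, alpha ^ n = germ (OrderIso.addRight (n : ℝ)) := by
      intro n
      induction n with
      | zero =>
        rw [pow_zero, ← MP52aaf2.germ_one, germ_eq_iff]
        exact Eventually.of_forall fun x => by simp
      | succ n ih =>
        rw [pow_succ, ih, alpha, germ_mul, germ_eq_iff]
        refine Eventually.of_forall fun x => ?_
        rw [MP52aaf2.oi_mul_apply]
        simp only [OrderIso.addRight_apply]
        push_cast
        ring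
    intro n
    obtain ⟨m, rfl | rfl⟩ := n.eq_nat_or_neg
    · rw [zpow_natCast, h4]
      simp
    · rw [zpow_neg, zpow_natCast, h4, germ_inv, germ_eq_iff]
      refine Eventually.of_forall fun x => ?_
      rw [MP52aaf2.oi_inv_apply, OrderIso.symm_apply_eq]
      simp
  constructor
  · intro hm
    have hm' : (m₂ : ℝ) ≠ 0 := by exact_mod_cast hm
    rw [hal, hal, germ_mul, germ_mul, germ_eq_iff]
    have h5 := (tendsto_oi (OrderIso.addRight (m₂ : ℝ))).eventually h2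
    filter_upwards [h2, h5] with v hv hv'
    rw [MP52aaf2.oi_mul_apply, MP52aaf2.oi_mul_apply]
    simp only [OrderIso.addRight_apply] at hv' ⊢
    apply mul_left_cancel₀ hm'
    push_cast
    linarith
  · rintro rfl
    by_contra hm
    have hm' : (m₁ : ℝ) ≠ 0 := by exact_mod_cast hm
    obtain ⟨v, hv, hv'⟩ := (h2.and (eventually_gt_atTop (c / m₁))).exists
    have : v = c / m₁ := by
      rw [eq_div_iff hm']
      push_cast at hv
      linarith
    exact absurd hv' (by rw [this]; exact lt_irrefl _)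

end hb

theorem P_hb (h_ha : Ha) (h_hc : Hc) (h_hd : Hd) (h_an2 : An2) (h_dic : Dic) (h_nsys : NSys)
    (h_nk : NK) (h_expc : ExpC) (h_endg : EndG) (h_jac : Jac) (h_trn : Trn) : Hb := by
  rintro lam hlam β ⟨Q, hQ, hQβ⟩ hfree
  have hβ : β ∈ AnG := by
    refine h_an2 lam hlam β ⟨MvPolynomial.rename Fin.succ Q, ?_, ?_⟩
    · intro h
      exact hQ (MvPolynomial.rename_injective _ (Fin.succ_injective 2) (by rw [h, map_zero]))
    · filter_upwards [hQβ] with x hx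
      rw [MvPolynomial.aeval_rename]
      have : (![x, Real.exp (lam * x), β x] ∘ Fin.succ) = ![Real.exp (lam * x), β x] := by
        ext i
        fin_cases i <;> rfl
      rw [this]
      exact hx
  obtain ⟨S, hS⟩ := h_nsys lam hlam
  obtain ⟨⟨hee, hxe⟩, -, -⟩ := h_nk lam hlam
  obtain ⟨-, -, ⟨hE0, hXE, hEX⟩, -, -⟩ := h_jac (KF lam) MG S
  have hX0 : S.X ∉ acl ℝ (∅ : Set (KF lam)) := fun h => hXE (acl_mono (Set.empty_subset _) h)
  have hβe : mmk β hβ.1 ∈ acl ℝ ({ee lam} : Set MG) :=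
    h_dic.2.2 (fun x => Real.exp (lam * x)) β (evAn_exp lam) hβ.1 hee ⟨Q, hQ, hQβ⟩
  have hβK : mmk β hβ.1 ∈ KF lam := acl_mono (by simp) hβe
  let P : KF lam := ⟨mmk β hβ.1, hβK⟩
  have hptex : ∀ u ∈ AnG, ∃ y, HbPt S y u := by
    intro u hu
    obtain ⟨y, hy, hy'⟩ := hS.pt u hu
    exact ⟨y, hy, hy'⟩
  have hyX : ∀ (y : KF lam →ₐ[ℝ] MG) (u : ℝ ≃o ℝ) (hu : u ∈ AnG), HbPt S y u →
      y S.X = mmk u hu.1 := by
    intro y u hu hy
    rw [hS.X_eq]
    exact hy.2 (kx lam) (fun x => x) evAn_id hu.1 rfl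
  have hyP : ∀ (y : KF lam →ₐ[ℝ] MG) (u : ℝ ≃o ℝ) (hu : β * u ∈ AnG), HbPt S y u →
      y P = mmk (β * u : ℝ ≃o ℝ) hu.1 := by
    intro y u hu hy
    exact hy.2 P β hβ.1 hu.1 rfl
  have htr1 : ∀ (y : KF lam →ₐ[ℝ] MG) (a b : KF lam), a ∈ acl ℝ ({b} : Set (KF lam)) ↔
      y a ∈ acl ℝ ({y b} : Set MG) := by
    intro y a b
    rw [h_trn ℝ (KF lam) MG y {b} a, Set.image_singleton]
  have htr0 : ∀ (y : KF lam →ₐ[ℝ] MG) (a : KF lam), a ∈ acl ℝ (∅ : Set (KF lam)) ↔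
      y a ∈ acl ℝ (∅ : Set MG) := by
    intro y a
    rw [h_trn ℝ (KF lam) MG y ∅ a, Set.image_empty]
  have hnc : ∀ (u : ℝ ≃o ℝ) (hu : u ∈ AnG), mmk u hu.1 ∉ acl ℝ (∅ : Set MG) := by
    intro u hu h
    obtain ⟨y, hy⟩ := hptex u hu
    rw [← hyX y u hu hy, ← htr0] at h
    exact hX0 h
  have hPE : P ∈ acl ℝ ({S.E} : Set (KF lam)) := by
    rw [htr1 (KF lam).val P S.E, hS.E_eq]
    exact hβe
  have hP0 : P ∉ acl ℝ (∅ : Set (KF lam)) := by
    rw [htr0 (KF lam).val P]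
    exact hnc β hβ
  have hEP : S.E ∈ acl ℝ ({P} : Set (KF lam)) := by
    have := acl_exchange (k := ℝ) (S := (∅ : Set (KF lam))) (a := P) (b := S.E)
      (by rw [insert_empty_eq]; exact hPE) hP0
    rwa [insert_empty_eq] at this
  have hyPE : ∀ y : KF lam →ₐ[ℝ] MG, acl ℝ ({y P} : Set MG) = acl ℝ ({y S.E} : Set MG) := by
    intro y
    exact acl_eq_of_subset (Set.singleton_subset_iff.2 ((htr1 y P S.E).1 hPE))
      (Set.singleton_subset_iff.2 ((htr1 y S.E P).1 hEP))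
  have halg1 : ∀ (k w : ℝ ≃o ℝ) (hw : w ∈ AnG) (hkw : k * w ∈ AnG), germ k ∈ AlgG →
      mmk (k * w : ℝ ≃o ℝ) hkw.1 ∈ acl ℝ ({mmk w hw.1} : Set MG) := by
    intro k w hw hkw hk
    obtain ⟨-, Q', hQ', hQk⟩ := MP52aaf2.isAlgFun_of_germ hk
    refine h_dic.2.2 w (k * w : ℝ ≃o ℝ) hw.1 hkw.1 (hnc w hw) ⟨hbPsi Q', hbPsi_ne hQ', ?_⟩
    filter_upwards [(tendsto_oi w).eventually hQk] with x hx
    rw [hbPsi_eval]
    exact hx
  have halg : ∀ (k w : ℝ ≃o ℝ) (hw : w ∈ AnG) (hkw : k * w ∈ AnG), germ k ∈ AlgG →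
      acl ℝ ({mmk (k * w : ℝ ≃o ℝ) hkw.1} : Set MG) = acl ℝ ({mmk w hw.1} : Set MG) := by
    intro k w hw hkw hk
    apply acl_eq_of_subset
    · exact Set.singleton_subset_iff.2 (halg1 k w hw hkw hk)
    · rw [Set.singleton_subset_iff]
      have h1 : k⁻¹ * (k * w) = w := by group
      have h2 : k⁻¹ * (k * w) ∈ AnG := by rw [h1]; exact hw
      have h3 := halg1 k⁻¹ (k * w) hkw h2 (by
        rw [← germ_inv]
        exact AlgG.inv_mem hk)
      have h4 : mmk (k⁻¹ * (k * w) : ℝ ≃o ℝ) h2.1 = mmk w hw.1 := by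
        rw [mmk_eq, h1]
      rw [h4] at h3
      exact h3
  have hxx : ∀ (k : ℝ ≃o ℝ) (hk : k ∈ AnG), germ k ∈ AlgG →
      acl ℝ ({mmk k hk.1} : Set MG) = acl ℝ ({xx} : Set MG) := by
    intro k hk hkg
    have h1 : k * 1 = k := mul_one k
    have h2 : k * 1 ∈ AnG := by rw [h1]; exact hk
    have h3 := halg k 1 AnG.one_mem h2 hkg
    have h4 : mmk (k * 1 : ℝ ≃o ℝ) h2.1 = mmk k hk.1 := by
      rw [mmk_eq, h1]
    rw [h4] at h3
    exact h3
  -- the subgroup of algebraic germs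
  have hA0 : Subgroup.closure {alpha, germ β * alpha * (germ β)⁻¹} ≤ AlgG := by
    rw [Subgroup.closure_le]
    rintro x (rfl | hx)
    · exact alpha_alg
    · rw [Set.mem_singleton_iff.1 hx]
      exact h_hd lam hlam β ⟨Q, hQ, hQβ⟩
  have hrep : ∀ h ∈ Subgroup.closure {alpha, germ β * alpha * (germ β)⁻¹},
      ∃ k ∈ AnG, germ k = h ∧ germ k ∈ AlgG := by
    intro h hh
    obtain ⟨k, hk, hk1, hk2⟩ := hA0 hh
    exact ⟨k, ⟨hk1.1, hk2.1⟩, hk, hk ▸ hA0 hh⟩
  have hHc := h_hc GermGroup alpha (germ β * alpha * (germ β)⁻¹) hfree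
  -- incoming element `E`
  have hin : ∀ (y : KF lam →ₐ[ℝ] MG) (u w : ℝ ≃o ℝ) (hu : u ∈ AnG) (hw : w ∈ AnG),
      β * u = w → HbPt S y u → acl ℝ ({y S.E} : Set MG) = acl ℝ ({mmk w hw.1} : Set MG) := by
    intro y u w hu hw hwu hy
    have h1 : β * u ∈ AnG := AnG.mul_mem hβ hu
    rw [← hyPE y, hyP y u h1 hy]
    have h4 : mmk (β * u : ℝ ≃o ℝ) h1.1 = mmk w hw.1 := by
      rw [mmk_eq, hwu]
    rw [h4]
  let sp : GermGroup → Prop := fun g => ∃ (r : ℕ) (y : ℕ → (KF lam →ₐ[ℝ] MG)) (ε : ℕ → Bool)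
    (u : ℝ ≃o ℝ), HbCD S (r + 1) y ε ∧ ε r = true ∧ u ∈ AnG ∧ HbPt S (y r) u ∧
    g = germ (β * u)
  let sm : GermGroup → Prop := fun g => ∃ (r : ℕ) (y : ℕ → (KF lam →ₐ[ℝ] MG)) (ε : ℕ → Bool)
    (u : ℝ ≃o ℝ), HbCD S (r + 1) y ε ∧ ε r = false ∧ u ∈ AnG ∧ HbPt S (y r) u ∧ g = germ u
  -- outgoing element
  have hout : ∀ (y : KF lam →ₐ[ℝ] MG) (u w : ℝ ≃o ℝ) (hu : u ∈ AnG) (hw : w ∈ AnG)
      (e : Bool), HbPt S y u → (if e then β * u else u) = w →
      acl ℝ ({y (bif e then S.E else S.X)} : Set MG) = acl ℝ ({mmk w hw.1} : Set MG) := by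
    intro y u w hu hw e hy hwu
    cases e
    · rw [cond_false, hyX y u hu hy]
      have h4 : mmk u hu.1 = mmk w hw.1 := by
        rw [mmk_eq, ← hwu]
        simp
      rw [h4]
    · rw [cond_true]
      exact hin y u w hu hw (by simpa using hwu) hy
  refine h_ha GermGroup alpha (germ β) sp sm hfree ?_ ?_ ?_ ?_ ?_ ?_
  · -- first letters
    intro h hh
    obtain ⟨k, hk, rfl, hkg⟩ := hrep h hh
    constructor
    · obtain ⟨y, hy⟩ := hptex k hk
      refine ⟨0, fun _ => y, fun _ => true, k, hbCD_one hy.1 true ?_, rfl, hk, hy, rfl⟩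
      rw [cond_true, hyX y k hk hy]
      exact hxx k hk hkg
    · have hu : β⁻¹ * k ∈ AnG := AnG.mul_mem (AnG.inv_mem hβ) hk
      obtain ⟨y, hy⟩ := hptex (β⁻¹ * k) hu
      refine ⟨0, fun _ => y, fun _ => false, β⁻¹ * k, hbCD_one hy.1 false ?_, rfl, hu, hy, rfl⟩
      rw [cond_false, hin y (β⁻¹ * k) k hu hk (by group) hy]
      exact hxx k hk hkg
  · -- `b` after `sp`
    rintro g ⟨r, y, ε, u, hcd, hε, hu, hy, rfl⟩ h hh
    obtain ⟨k, hk, rfl, hkg⟩ := hrep h hh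
    have hw : β * u ∈ AnG := AnG.mul_mem hβ hu
    have hv : k * (β * u) ∈ AnG := AnG.mul_mem hk hw
    obtain ⟨z, hz⟩ := hptex (k * (β * u)) hv
    obtain ⟨y', ε', h1, h2, h3⟩ := hbCD_ext hcd hz.1 true (by
      rw [cond_true, hyX z _ hv hz, halg k (β * u) hw hv hkg]
      exact (hout (y r) u (β * u) hu hw (ε r) hy (by rw [hε]; simp)).symm)
      (fun hne => absurd hε hne)
    refine ⟨r + 1, y', ε', k * (β * u), h1, h3, hv, h2 ▸ hz, ?_⟩
    rw [germ_mul, germ_mul, mul_assoc]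
  · -- `b⁻¹` after `sp`
    rintro g ⟨r, y, ε, u, hcd, hε, hu, hy, rfl⟩ h hh hhc
    obtain ⟨k, hk, rfl, hkg⟩ := hrep h hh
    have hw : β * u ∈ AnG := AnG.mul_mem hβ hu
    have hkw : k * (β * u) ∈ AnG := AnG.mul_mem hk hw
    have hv : β⁻¹ * (k * (β * u)) ∈ AnG := AnG.mul_mem (AnG.inv_mem hβ) hkw
    obtain ⟨z, hz⟩ := hptex (β⁻¹ * (k * (β * u))) hv
    obtain ⟨y', ε', h1, h2, h3⟩ := hbCD_ext hcd hz.1 false (by
      rw [cond_false, hin z _ (k * (β * u)) hv hkw (by group) hz, halg k (β * u) hw hkw hkg]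
      exact (hout (y r) u (β * u) hu hw (ε r) hy (by rw [hε]; simp)).symm) (by
      intro _ m₁ m₂ c hc
      rw [hyX z _ hv hz, hyX (y r) u hu hy] at hc
      have hv' : EvAn fun x => (β⁻¹ * k * β : ℝ ≃o ℝ) (u x) := hv.1
      obtain ⟨e1, e2⟩ := hb_affine (u := u) (k := β⁻¹ * k * β) hu.1 hv' hc
      by_cases hm : m₂ = 0
      · exact ⟨e2 hm, hm⟩
      · exfalso
        apply hhc
        refine ((hHc.1 (germ k) hh (-m₁) m₂ hm).2 ?_)
        have e3 := e1 hm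
        have e4 : germ (β⁻¹ * k * β) = (germ β)⁻¹ * germ k * germ β := rfl
        rw [e4] at e3
        rw [conj_zpow, conj_zpow]
        calc germ k * (germ β * alpha ^ m₂ * (germ β)⁻¹) * (germ k)⁻¹
            = germ β * ((germ β)⁻¹ * germ k * germ β * alpha ^ m₂) * (germ β)⁻¹ * (germ k)⁻¹ := by
              group
          _ = germ β * alpha ^ (-m₁) * (germ β)⁻¹ := by
              rw [e3]
              group)
    refine ⟨r + 1, y', ε', β⁻¹ * (k * (β * u)), h1, h3, hv, h2 ▸ hz, ?_⟩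
    rw [germ_inv, germ_mul, germ_mul]
    congr 1
  · -- `b⁻¹` after `sm`
    rintro g ⟨r, y, ε, u, hcd, hε, hu, hy, rfl⟩ h hh
    obtain ⟨k, hk, rfl, hkg⟩ := hrep h hh
    have hkw : k * u ∈ AnG := AnG.mul_mem hk hu
    have hv : β⁻¹ * (k * u) ∈ AnG := AnG.mul_mem (AnG.inv_mem hβ) hkw
    obtain ⟨z, hz⟩ := hptex (β⁻¹ * (k * u)) hv
    obtain ⟨y', ε', h1, h2, h3⟩ := hbCD_ext hcd hz.1 false (by
      rw [cond_false, hin z _ (k * u) hv hkw (by group) hz, halg k u hu hkw hkg]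
      exact (hout (y r) u u hu hu (ε r) hy (by rw [hε]; simp)).symm)
      (fun hne => absurd hε hne)
    refine ⟨r + 1, y', ε', β⁻¹ * (k * u), h1, h3, hv, h2 ▸ hz, ?_⟩
    rw [germ_inv, germ_mul, germ_mul]
    congr 1
  · -- `b` after `sm`
    rintro g ⟨r, y, ε, u, hcd, hε, hu, hy, rfl⟩ h hh hha
    obtain ⟨k, hk, rfl, hkg⟩ := hrep h hh
    have hv : k * u ∈ AnG := AnG.mul_mem hk hu
    obtain ⟨z, hz⟩ := hptex (k * u) hv
    obtain ⟨y', ε', h1, h2, h3⟩ := hbCD_ext hcd hz.1 true (by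
      rw [cond_true, hyX z _ hv hz, halg k u hu hv hkg]
      exact (hout (y r) u u hu hu (ε r) hy (by rw [hε]; simp)).symm) (by
      intro _ m₁ m₂ c hc
      rw [hyX z _ hv hz, hyX (y r) u hu hy] at hc
      have hv' : EvAn fun x => k (u x) := hv.1
      obtain ⟨e1, e2⟩ := hb_affine (u := u) (k := k) hu.1 hv' hc
      by_cases hm : m₂ = 0
      · exact ⟨e2 hm, hm⟩
      · exfalso
        apply hha
        refine ((hHc.1 (germ k) hh (-m₁) m₂ hm).1 ?_)
        rw [e1 hm]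
        group)
    refine ⟨r + 1, y', ε', k * u, h1, h3, hv, h2 ▸ hz, ?_⟩
    rw [germ_mul, germ_mul, mul_assoc]
  · -- the end
    intro g hg h hh hhg
    have hgh : g = h⁻¹ := eq_inv_of_mul_eq_one_right hhg
    have hgA : g ∈ AlgG := by
      rw [hgh]
      exact AlgG.inv_mem (hA0 hh)
    obtain ⟨r, y, ε, hcd, hlast⟩ : ∃ (r : ℕ) (y : ℕ → (KF lam →ₐ[ℝ] MG)) (ε : ℕ → Bool),
        HbCD S (r + 1) y ε ∧
        acl ℝ ({y r (bif ε r then S.E else S.X)} : Set MG) = acl ℝ ({xx} : Set MG) := by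
      rcases hg with ⟨r, y, ε, u, hcd, hε, hu, hy, rfl⟩ | ⟨r, y, ε, u, hcd, hε, hu, hy, rfl⟩
      · have hw : β * u ∈ AnG := AnG.mul_mem hβ hu
        refine ⟨r, y, ε, hcd, ?_⟩
        rw [hout (y r) u (β * u) hu hw (ε r) hy (by rw [hε]; simp)]
        exact hxx _ hw hgA
      · refine ⟨r, y, ε, hcd, ?_⟩
        rw [hout (y r) u u hu hu (ε r) hy (by rw [hε]; simp)]
        exact hxx _ hu hgA
    obtain ⟨c1, c2, c3, c4⟩ := hcd
    have hQ' := h_expc (KF lam) MG S (r + 1) y ε c1 c2 c3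
    have hpre : PreChain S (r + 1) y (fun j => bif ε j then S.X else S.E)
        (fun j => bif ε j then S.E else S.X) := by
      refine ⟨c1, ?_, ?_, c2⟩
      · intro j _
        show (bif ε j then S.X else S.E) ∉ _
        cases ε j
        · exact hE0
        · exact hX0
      · intro j _
        show (bif ε j then S.E else S.X) ∉ acl ℝ ({bif ε j then S.X else S.E} : Set (KF lam))
        cases ε j
        · exact hXE
        · exact hEX
    have hend := h_endg (KF lam) MG S (r + 1) y _ _ hpre hQ' (by omega)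
    apply hend
    show y 0 (bif ε 0 then S.X else S.E) ∈
      acl ℝ ({y (r + 1 - 1) (bif ε (r + 1 - 1) then S.E else S.X)} : Set MG)
    rw [Nat.add_sub_cancel, hlast, ← c4]
    exact subset_acl _ rfl

end MP52exp
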