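import Pool.Agent.Lib.MP_52aaf2_al.EX.StmA
import Pool.Agent.Lib.MP_52aaf2_al.PingPong
import Pool.Agent.Lib.MP_52aaf2_al.FreeNF

/-!
# MP_52aaf2_al, project EX: conjugates of powers of a free generator
-/

set_option autoImplicit false

namespace MP52exp

open MP52aaf2 (Red NF T pair ZZ)

theorem hc_pair {G : Type} [Group G] (a b : G) :
    Function.Injective (FreeGroup.lift ![a, b]) ↔
      Function.Injective (FreeGroup.lift (pair a b)) := by
  let e : FreeGroup Bool ≃* FreeGroup (Fin 2) := FreeGroup.freeGroupCongr finTwoEquiv.symm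
  have h1 : (FreeGroup.lift ![a, b]).comp e.toMonoidHom = FreeGroup.lift (pair a b) := by
    ext i
    cases i <;> simp [e, pair, finTwoEquiv]
  constructor
  · intro h
    rw [← h1]
    exact h.comp e.injective
  · intro h
    rw [← h1] at h
    exact (Function.Injective.of_comp_iff' _ e.bijective).1 h

theorem hc_core {G : Type} [Group G] {H : Bool → Subgroup G} (hNF : NF H) (i : Bool) {a h : G}
    (hab : ∀ p ∈ H i, ∀ q ∈ H i, p * q = q * p) (hh : h ∈ H false ⊔ H true) {u v : ℤ}
    (ha : a ∈ H i) (hav : a ^ v ∉ H (!i)) (he : h * a ^ v * h⁻¹ = a ^ u) : h ∈ H i := by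
  rcases MP52aaf2.T_cases i hh with h' | ⟨p, hp, q, hq, n, hT⟩
  · exact h'
  exfalso
  have e1 : p⁻¹ * h * q * a ^ v * (p⁻¹ * h * q)⁻¹ = a ^ u := by
    have h1 : q * a ^ v * q⁻¹ = a ^ v := by
      rw [hab q hq _ ((H i).zpow_mem ha v)]
      group
    have h2 : p⁻¹ * a ^ u * p = a ^ u := by
      rw [mul_assoc, hab _ ((H i).zpow_mem ha u) p hp]
      group
    calc p⁻¹ * h * q * a ^ v * (p⁻¹ * h * q)⁻¹ = p⁻¹ * (h * (q * a ^ v * q⁻¹) * h⁻¹) * p := by
          group
      _ = a ^ u := by rw [h1, he, h2]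
  have h3 : Red H (!!i) i 1 (a ^ v) := by
    have := Red.one (H := H) i (a ^ v) ((H i).zpow_mem ha v) hav
    rwa [Bool.not_not]
  have h4 := (hT.append h3).append hT.inv
  rw [e1] at h4
  have h5 : a ^ u ∈ H i := (H i).zpow_mem ha u
  by_cases h6 : a ^ u ∈ H (!i)
  · exact hNF.not_mem h4 (MP52aaf2.mem_all h5 h6)
  · have h7 := hNF.left_eq h4 (Red.one i _ h5 h6)
    revert h7
    cases i <;> simp

theorem P_hc : Hc := by
  intro G _ a c hinj
  rw [hc_pair] at hinj
  rw [hc_pair]
  have hNF := MP52aaf2.nf_of_free hinj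
  have hz : ∀ i, ∀ m : ℤ, m ≠ 0 → (pair a c i) ^ m ∉ ZZ (pair a c) (!i) := by
    rintro i m hm ⟨k, hk⟩
    apply MP52aaf2.zpow_of_not_mem (i := i) hm
    refine ⟨k, hinj ?_⟩
    simpa using hk
  have hcomm : ∀ i, ∀ p ∈ ZZ (pair a c) i, ∀ q ∈ ZZ (pair a c) i, p * q = q * p := by
    rintro i _ ⟨k, rfl⟩ _ ⟨l, rfl⟩
    exact ((Commute.refl (pair a c i)).zpow_zpow k l).eq
  have hsup : Subgroup.closure {a, c} ≤ ZZ (pair a c) false ⊔ ZZ (pair a c) true := by
    rw [Subgroup.closure_le]
    rintro x (rfl | rfl)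
    · exact Subgroup.mem_sup_left (Subgroup.mem_zpowers _)
    · exact Subgroup.mem_sup_right (Subgroup.mem_zpowers _)
  refine ⟨fun h hh u v hv => ⟨fun he => ?_, fun he => ?_⟩, ?_⟩
  · exact hc_core hNF false (hcomm false) (hsup hh) (Subgroup.mem_zpowers _) (hz false v hv) he
  · exact hc_core hNF true (hcomm true) (hsup hh) (Subgroup.mem_zpowers _) (hz true v hv) he
  · have ha : a ∈ ZZ (pair a c) false := Subgroup.mem_zpowers _
    have hc : c ∈ ZZ (pair a c) true := Subgroup.mem_zpowers _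
    have hc' : c ∉ ZZ (pair a c) false := by
      have := hz true 1 one_ne_zero
      rwa [zpow_one] at this
    refine MP52aaf2.free_of_directions hNF false ha {1} ?_ ?_ ?_
    · rintro e rfl
      exact Subgroup.one_mem _
    · rintro e rfl e' rfl n hn
      have := hz false n hn
      rw [inv_one, one_mul, mul_one]
      exact this
    · intro n hn
      refine ⟨1, rfl, 1, rfl, 3, ?_⟩
      have e1 : (1 : G)⁻¹ * (c * a * c⁻¹) ^ n * 1 = c * (a ^ n * c⁻¹) := by
        rw [conj_zpow]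
        group
      rw [e1]
      refine Red.cons true true 2 c _ hc hc' ?_
      refine Red.cons false true 1 (a ^ n) _ ((ZZ (pair a c) false).zpow_mem ha n)
        (hz false n hn) ?_
      exact Red.one true _ ((ZZ (pair a c) true).inv_mem hc) fun h =>
        hc' (by simpa using (ZZ (pair a c) false).inv_mem h)

end MP52exp
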