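import Pool.Agent.Lib.MP_52aaf2_al.EX.StmA

/-!
# MP_52aaf2_al, project EX: `β α β⁻¹` is an algebraic germ
-/

open Filter Topology

open MP52aaf2 (GermGroup germ alpha FreePair IsAlgGerm IsAlgFun)

namespace MP52exp

theorem hd_evAn {f : ℝ → ℝ} (hf : EvAn f) (p : Polynomial ℝ) : EvAn (fun x => p.eval (f x)) := by
  filter_upwards [hf] with x h
  exact MP52aaf2.analyticAt_eval h p

theorem hd_pow_an {f : ℝ → ℝ} (hf : EvAn f) (n : ℕ) : EvAn (fun x => f x ^ n) := by
  filter_upwards [hf] with x h
  exact h.pow n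

theorem hd_pow {f : ℝ → ℝ} (hf : EvAn f) (n : ℕ) :
    mmk f hf ^ n = mmk (fun x => f x ^ n) (hd_pow_an hf n) := by
  induction n with
  | zero =>
    rw [pow_zero]
    have h1 : (1 : MG) = mmk (fun _ => 1) (evAn_const 1) := by
      rw [← algebraMap_MG, map_one]
    rw [h1, mmk_eq]
    exact Eventually.of_forall fun x => (pow_zero _).symm
  | succ n ih =>
    rw [pow_succ, ih, mmk_mul, mmk_eq]
    exact Eventually.of_forall fun x => (pow_succ _ _).symm

theorem hd_aeval {f : ℝ → ℝ} (hf : EvAn f) (p : Polynomial ℝ) :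
    Polynomial.aeval (mmk f hf) p = mmk (fun x => p.eval (f x)) (hd_evAn hf p) := by
  induction p using Polynomial.induction_on' with
  | add p q hp hq =>
    rw [map_add, hp, hq, mmk_add, mmk_eq]
    exact Eventually.of_forall fun x => (Polynomial.eval_add).symm
  | monomial n c =>
    rw [Polynomial.aeval_monomial, hd_pow, algebraMap_MG, mmk_mul, mmk_eq]
    exact Eventually.of_forall fun x => (Polynomial.eval_monomial).symm

/-- an order isomorphism is not algebraic over the constants -/
theorem hd_notMem (β : ℝ ≃o ℝ) (hβ : EvAn β) : mmk β hβ ∉ acl ℝ (∅ : Set MG) := by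
  intro h
  rw [mem_acl_empty] at h
  obtain ⟨p, hp, h0⟩ := h
  have hz : (0 : MG) = mmk (fun _ => 0) (evAn_const 0) := by
    rw [← algebraMap_MG, map_zero]
  rw [hd_aeval, hz, mmk_eq] at h0
  have h1 := β.tendsto_atTop.eventually (Polynomial.eventually_atTop_not_isRoot p hp)
  obtain ⟨x, hx1, hx2⟩ := (h0.and h1).exists
  exact hx2 hx1

/-- a two-variable polynomial as an iterated polynomial -/
theorem hd_conv (Q : MvPolynomial (Fin 2) ℝ) (hQ : Q ≠ 0) :
    (∃ R : Polynomial (Polynomial ℝ), R ≠ 0 ∧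
      ∀ x y : ℝ, R.evalEval x y = MvPolynomial.aeval ![x, y] Q) ∧
    ∃ R : Polynomial (Polynomial ℝ), R ≠ 0 ∧
      ∀ x y : ℝ, R.evalEval x y = MvPolynomial.aeval ![y, x] Q := by
  have key : ∀ (v : Fin 2 → Polynomial (Polynomial ℝ)) (w : ℝ → ℝ → Fin 2 → ℝ),
      (∀ x y i, (v i).evalEval x y = w x y i) →
      (∀ u : Fin 2 → ℝ, ∃ x y, w x y = u) →
      MvPolynomial.aeval v Q ≠ 0 ∧
        ∀ x y : ℝ, (MvPolynomial.aeval v Q).evalEval x y = MvPolynomial.aeval (w x y) Q := by
    intro v w hvw hsurj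
    have h2 : ∀ x y : ℝ, (MvPolynomial.aeval v Q).evalEval x y =
        MvPolynomial.aeval (w x y) Q := by
      intro x y
      induction Q using MvPolynomial.induction_on with
      | C a =>
        rw [MvPolynomial.aeval_C, MvPolynomial.aeval_C]
        simp [Polynomial.evalEval]
      | add p q hp hq =>
        by_cases hp0 : p = 0
        · subst hp0
          by_cases hq0 : q = 0
          · subst hq0
            simp [Polynomial.evalEval]
          · rw [zero_add]
            exact hq hq0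
        · by_cases hq0 : q = 0
          · subst hq0
            rw [add_zero]
            exact hp hp0
          · rw [map_add, map_add, Polynomial.evalEval_add, hp hp0, hq hq0]
      | mul_X p i hp =>
        by_cases hp0 : p = 0
        · subst hp0
          simp [Polynomial.evalEval]
        · rw [map_mul, map_mul, Polynomial.evalEval_mul, hp hp0, MvPolynomial.aeval_X,
            MvPolynomial.aeval_X, hvw x y i]
    refine ⟨?_, h2⟩
    intro h0
    apply hQ
    apply MvPolynomial.funext
    intro u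
    obtain ⟨x, y, hxy⟩ := hsurj u
    have h3 := h2 x y
    rw [h0, hxy] at h3
    rw [map_zero, ← MvPolynomial.coe_aeval_eq_eval]
    change MvPolynomial.aeval u Q = 0
    rw [← h3]
    simp [Polynomial.evalEval]
  constructor
  · obtain ⟨h1, h2⟩ := key ![Polynomial.C Polynomial.X, Polynomial.X] (fun x y => ![x, y])
      (by
        intro x y i
        fin_cases i
        · simp [Polynomial.evalEval]
        · simp [Polynomial.evalEval])
      (by
        intro u
        refine ⟨u 0, u 1, ?_⟩
        ext i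
        fin_cases i
        · rfl
        · rfl)
    exact ⟨_, h1, h2⟩
  · obtain ⟨h1, h2⟩ := key ![Polynomial.X, Polynomial.C Polynomial.X] (fun x y => ![y, x])
      (by
        intro x y i
        fin_cases i
        · simp [Polynomial.evalEval]
        · simp [Polynomial.evalEval])
      (by
        intro u
        refine ⟨u 1, u 0, ?_⟩
        ext i
        fin_cases i
        · rfl
        · rfl)
    exact ⟨_, h1, h2⟩

theorem P_hd (hAn2 : An2) (hDic : Dic) (hNK : NK) : Hd := by
  intro lam hlam β hQex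
  obtain ⟨Q, hQ, hQ0⟩ := hQex
  -- `β` is analytic near `+∞`
  have hβ : β ∈ AnG := by
    refine hAn2 lam hlam β ⟨MvPolynomial.rename ![1, 2] Q, ?_, ?_⟩
    · intro h
      apply hQ
      apply MvPolynomial.rename_injective (![1, 2] : Fin 2 → Fin 3) (by decide)
      rw [h, map_zero]
    · filter_upwards [hQ0] with x hx
      rw [MvPolynomial.aeval_rename]
      have e : (![x, Real.exp (lam * x), β x] ∘ (![1, 2] : Fin 2 → Fin 3)) =
          ![Real.exp (lam * x), β x] := by
        ext i
        fin_cases i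
        · rfl
        · rfl
      rw [e]
      exact hx
  have hβ1 : EvAn β := hβ.1
  have hE0 : ee lam ∉ acl ℝ (∅ : Set MG) := ((hNK lam hlam).1).1
  -- `β(x)` is algebraic over `ℝ(E)`
  have h1 : mmk β hβ1 ∈ acl ℝ ({ee lam} : Set MG) :=
    hDic.2.2 (fun x => Real.exp (lam * x)) β (evAn_exp lam) hβ1 hE0 ⟨Q, hQ, hQ0⟩
  -- `β(x+1)` is algebraic over `ℝ(E)`
  have hadd : EvAn (fun x : ℝ => x + 1) := evAn_id.add (evAn_const 1)
  have hEs : EvAn (fun x => Real.exp (lam * (x + 1))) :=
    (evAn_exp lam).comp (g := OrderIso.addRight (1 : ℝ)) hadd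
  have hβs : EvAn (fun x => β (x + 1)) :=
    hβ1.comp (g := OrderIso.addRight (1 : ℝ)) hadd
  have hEs1 : mmk (fun x => Real.exp (lam * (x + 1))) hEs =
      algebraMap ℝ MG (Real.exp lam) * ee lam := by
    rw [algebraMap_MG, ee, mmk_mul, mmk_eq]
    refine Eventually.of_forall fun x => ?_
    change Real.exp (lam * (x + 1)) = Real.exp lam * Real.exp (lam * x)
    rw [← Real.exp_add]
    congr 1
    ring
  have hEs2 : mmk (fun x => Real.exp (lam * (x + 1))) hEs ∈ acl ℝ ({ee lam} : Set MG) := by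
    rw [hEs1]
    exact mul_mem ((acl ℝ ({ee lam} : Set MG)).algebraMap_mem _)
      (subset_acl _ (Set.mem_singleton _))
  have hEs3 : mmk (fun x => Real.exp (lam * (x + 1))) hEs ∉ acl ℝ (∅ : Set MG) := by
    intro h
    apply hE0
    have h2 : ee lam = algebraMap ℝ MG (Real.exp (-lam)) *
        mmk (fun x => Real.exp (lam * (x + 1))) hEs := by
      rw [hEs1, ← mul_assoc, ← map_mul, ← Real.exp_add, neg_add_cancel, Real.exp_zero, map_one,
        one_mul]
    rw [h2]
    exact mul_mem ((acl ℝ (∅ : Set MG)).algebraMap_mem _) h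
  have h2 : mmk (fun x => β (x + 1)) hβs ∈ acl ℝ ({ee lam} : Set MG) := by
    have h3 : mmk (fun x => β (x + 1)) hβs ∈
        acl ℝ ({mmk (fun x => Real.exp (lam * (x + 1))) hEs} : Set MG) := by
      refine hDic.2.2 _ _ hEs hβs hEs3 ⟨Q, hQ, ?_⟩
      have h4 : Tendsto (fun x : ℝ => x + 1) atTop atTop := tendsto_atTop_add_const_right _ _ tendsto_id
      exact h4.eventually hQ0
    refine acl_le_of_subset ?_ h3
    intro z hz
    rw [Set.mem_singleton_iff] at hz
    rw [hz]
    exact hEs2
  -- exchange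
  have h3 : ee lam ∈ acl ℝ ({mmk β hβ1} : Set MG) := by
    have h4 : mmk β hβ1 ∈ acl ℝ (insert (ee lam) (∅ : Set MG)) := by
      rw [insert_empty_eq]
      exact h1
    have h5 := acl_exchange h4 (hd_notMem β hβ1)
    rwa [insert_empty_eq] at h5
  have h4 : mmk (fun x => β (x + 1)) hβs ∈ acl ℝ ({mmk β hβ1} : Set MG) := by
    refine acl_le_of_subset ?_ h2
    intro z hz
    rw [Set.mem_singleton_iff] at hz
    rw [hz]
    exact h3
  obtain ⟨R, hR, hR0⟩ := hDic.2.1 β (fun x => β (x + 1)) hβ1 hβs h4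
  obtain ⟨⟨R1, hR1, hR1'⟩, R2, hR2, hR2'⟩ := hd_conv R hR
  set γ : ℝ ≃o ℝ := β * OrderIso.addRight (1 : ℝ) * β⁻¹ with hγ
  have hγA : γ ∈ AnG := mul_mem (mul_mem hβ (shift_mem 1)) (inv_mem hβ)
  have hγ1 : ∀ u, γ u = β (β.symm u + 1) := fun u => rfl
  have hγ2 : ∀ u, γ.symm u = β (β.symm u - 1) := by
    intro u
    rw [OrderIso.symm_apply_eq, hγ1, OrderIso.symm_apply_apply, sub_add_cancel,
      OrderIso.apply_symm_apply]
  refine ⟨γ, rfl, ⟨hγA.1, R1, hR1, ?_⟩, ⟨hγA.2, R2, hR2, ?_⟩⟩
  · filter_upwards [β.symm.tendsto_atTop.eventually hR0] with u hu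
    rw [hR1', hγ1]
    rw [OrderIso.apply_symm_apply] at hu
    exact hu
  · have h5 : Tendsto (fun u : ℝ => β.symm u - 1) atTop atTop :=
      tendsto_atTop_add_const_right _ _ β.symm.tendsto_atTop
    filter_upwards [h5.eventually hR0] with u hu
    rw [hR2', hγ2]
    rw [sub_add_cancel, OrderIso.apply_symm_apply] at hu
    exact hu

end MP52exp
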