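import Pool.Agent.Lib.MP_52aaf2_al.EX.StmG
import Pool.Agent.Lib.MP_52aaf2_al.EX.StmS

/-!
# Piece Jac: the Jacobian criterion (helper29)
-/

open Polynomial IntermediateField

namespace MP52exp

theorem P_jac (h1 : Dst) : Jac := by
  intro K M _ _ _ _ S
  have : CharZero ℝ := inferInstance
  -- derivations killing a set
  have kill : ∀ (T : Set K) (δ : Derivation ℝ K K), (∀ a ∈ T, δ a = 0) →
      ∀ a ∈ acl ℝ T, δ a = 0 := fun T δ h => (h1 ℝ K T δ).2 h
  have hE : S.E ∉ acl ℝ (∅ : Set K) := by
    intro h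
    have h2 := kill ∅ S.DE (by simp) _ h
    rw [S.DE_E] at h2
    exact S.E_ne h2
  have hX : S.X ∉ acl ℝ ({S.E} : Set K) := by
    intro h
    have h2 := kill {S.E} S.DX (by
      intro a ha
      rw [Set.mem_singleton_iff] at ha
      rw [ha, S.DX_E]) _ h
    rw [S.DX_X] at h2
    exact one_ne_zero h2
  have hEX : S.E ∉ acl ℝ ({S.X} : Set K) := by
    intro h
    have h2 := kill {S.X} S.DE (by
      intro a ha
      rw [Set.mem_singleton_iff] at ha
      rw [ha, S.DE_X]) _ h
    rw [S.DE_E] at h2
    exact S.E_ne h2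
  have hr : rk ℝ (Set.univ : Set K) = 2 := by
    rw [← rk_pair hE hX]
    refine le_antisymm (rk_mono_acl fun h _ => S.span h) (rk_mono (Set.subset_univ _))
  have hr2 : ∀ T : Set K, rk ℝ T ≤ 2 := by
    intro T
    rw [← hr]
    exact rk_mono (Set.subset_univ _)
  -- a pair of rank two spans
  have hsp : ∀ a b : K, a ∉ acl ℝ (∅ : Set K) → b ∉ acl ℝ ({a} : Set K) →
      ∀ z : K, z ∈ acl ℝ ({b, a} : Set K) := by
    intro a b ha hb z
    by_contra hz
    have h2 := rk_insert_of_notMem hz
    rw [rk_pair ha hb] at h2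
    have h3 := hr2 (insert z {b, a})
    rw [h2] at h3
    exact absurd h3 (by decide)
  have part0 : ∀ h : K, S.DX h = 0 → S.DE h = 0 → h ∈ acl ℝ (∅ : Set K) := by
    intro h hx he
    by_contra hn
    have hXh : S.X ∉ acl ℝ ({h} : Set K) := by
      intro h2
      have h3 := kill {h} S.DX (by
        intro a ha
        rw [Set.mem_singleton_iff] at ha
        rw [ha, hx]) _ h2
      rw [S.DX_X] at h3
      exact one_ne_zero h3
    have h3 := kill {S.X, h} S.DE (by
      intro a ha
      rcases ha with rfl | ha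
      · exact S.DE_X
      · rw [Set.mem_singleton_iff] at ha
        rw [ha, he]) _ (hsp h S.X hn hXh S.E)
    rw [S.DE_E] at h3
    exact S.E_ne h3
  refine ⟨part0, ?_, ⟨hE, hX, hEX⟩, hr2, hr⟩
  intro P h hP
  have hδ : ∀ a : K, (S.DE P • S.DX - S.DX P • S.DE) a = S.DE P * S.DX a - S.DX P * S.DE a := by
    intro a
    rw [Derivation.sub_apply, Derivation.smul_apply, Derivation.smul_apply, smul_eq_mul,
      smul_eq_mul]
  constructor
  · intro hh
    have h2 := kill {P} (S.DE P • S.DX - S.DX P • S.DE) (by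
      intro a ha
      rw [Set.mem_singleton_iff] at ha
      rw [ha, hδ]
      ring) _ hh
    rw [hδ] at h2
    linear_combination h2
  · intro hh
    by_contra hn
    have h2 := kill {h, P} (S.DE P • S.DX - S.DX P • S.DE) (by
      intro a ha
      rw [hδ]
      rcases ha with rfl | ha
      · linear_combination hh
      · rw [Set.mem_singleton_iff] at ha
        rw [ha]
        ring)
    have h3 := h2 _ (hsp P h hP hn S.X)
    have h4 := h2 _ (hsp P h hP hn S.E)
    rw [hδ, S.DX_X, S.DE_X] at h3
    rw [hδ, S.DX_E, S.DE_E] at h4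
    have h5 : S.DE P = 0 := by linear_combination h3
    have h6 : S.DX P = 0 := by
      have h7 : S.DX P * S.E = 0 := by linear_combination -h4
      exact (mul_eq_zero.1 h7).resolve_right S.E_ne
    exact hP (part0 P h6 h5)

end MP52exp
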