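import Pool.Agent.Lib.MP_52aaf2_al.EX.StmG
import Pool.Agent.Lib.MP_52aaf2_al.NW

/-!
# MP_52aaf2_al, project EX: (L0)
-/

open Polynomial IntermediateField

namespace MP52exp

open Differential in
/-- **Traces.** -/
theorem l0_trace {F₀ K : Type} [Field F₀] [Field K] [CharZero F₀] [Algebra F₀ K]
    [Differential F₀] [Differential K] [DifferentialAlgebra F₀ K] (p : K)
    (hp : IsAlgebraic F₀ p) (c : F₀) (h : deriv p = algebraMap F₀ K c) :
    ∃ n : ℕ, 1 ≤ n ∧ ∃ A : F₀, deriv A = n * c := by
  classical
  let K₁ : IntermediateField F₀ K := IntermediateField.adjoin F₀ {p}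
  have hfin : FiniteDimensional F₀ K₁ := by
    apply IntermediateField.finiteDimensional_adjoin
    rintro a rfl
    exact hp.isIntegral
  let p₁ : K₁ := ⟨p, IntermediateField.subset_adjoin F₀ _ (by simp)⟩
  have h1 : deriv p₁ = algebraMap F₀ K₁ c := by
    apply FaithfulSMul.algebraMap_injective K₁ K
    rw [← deriv_algebraMap]
    exact h
  let L := AlgebraicClosure F₀
  have : Algebra.FormallyEtale F₀ L := Algebra.FormallyEtale.of_isSeparable F₀ L
  obtain ⟨d', hd'⟩ := MP52aaf2.exists_derivation_extension ℤ F₀ L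
    ((Algebra.linearMap F₀ L).compDer (Differential.deriv (R := F₀)))
  let : Differential L := ⟨d'⟩
  have : DifferentialAlgebra F₀ L := ⟨fun a => hd' a⟩
  have : Algebra.IsSeparable F₀ K₁ := inferInstance
  refine ⟨Fintype.card (K₁ →ₐ[F₀] L), ?_, Algebra.trace F₀ K₁ p₁, ?_⟩
  · have : Nonempty (K₁ →ₐ[F₀] L) := ⟨IsAlgClosed.lift⟩
    exact Fintype.card_pos
  · apply FaithfulSMul.algebraMap_injective F₀ L
    rw [← deriv_algebraMap, trace_eq_sum_embeddings L, map_sum, map_mul, map_natCast]
    have : ∀ σ : K₁ →ₐ[F₀] L, deriv (σ p₁) = algebraMap F₀ L c := by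
      intro σ
      rw [← algHom_deriv' σ σ.injective, h1, AlgHom.commutes]
    rw [Finset.sum_congr rfl fun σ _ => this σ, Finset.sum_const, Finset.card_univ, nsmul_eq_mul]

/-- `X` times the derivative of `X ^ m * R`. -/
theorem l0_der {k : Type} [Field k] (m : ℕ) (R : k[X]) :
    X * derivative (X ^ m * R) = X ^ m * (C (m : k) * R + X * derivative R) := by
  rw [derivative_mul, derivative_X_pow]
  rcases m with _ | m
  · simp
  · rw [Nat.add_sub_cancel]
    ring

/-- `z A'` is not a nonzero constant, for a rational function `A`. -/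
theorem l0_rat {k : Type} [Field k] [CharZero k] (P Q : k[X]) (hQ : Q ≠ 0) (N : k)
    (h : X * (derivative P * Q - P * derivative Q) = C N * Q ^ 2) : N = 0 := by
  by_cases hP : P = 0
  · rw [hP] at h
    simp only [derivative_zero, zero_mul, sub_zero, mul_zero] at h
    rcases mul_eq_zero.1 h.symm with h1 | h1
    · exact C_eq_zero.1 h1
    · exact absurd (pow_eq_zero_iff (two_ne_zero)|>.1 h1) hQ
  obtain ⟨m, R, rfl, hR⟩ := MP52aaf2.exists_X_pow_mul hP
  obtain ⟨l, S, rfl, hS⟩ := MP52aaf2.exists_X_pow_mul hQ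
  have h1 : X ^ (m + l) * ((C (m : k) - C (l : k)) * R * S +
      X * (derivative R * S - R * derivative S)) = C N * X ^ (2 * l) * S ^ 2 := by
    have e1 := l0_der m R
    have e2 := l0_der l S
    calc X ^ (m + l) * ((C (m : k) - C (l : k)) * R * S +
          X * (derivative R * S - R * derivative S))
        = (X ^ m * (C (m : k) * R + X * derivative R)) * (X ^ l * S) -
          (X ^ m * R) * (X ^ l * (C (l : k) * S + X * derivative S)) := by ring
      _ = (X * derivative (X ^ m * R)) * (X ^ l * S) -
          (X ^ m * R) * (X * derivative (X ^ l * S)) := by rw [e1, e2]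
      _ = X * (derivative (X ^ m * R) * (X ^ l * S) - X ^ m * R * derivative (X ^ l * S)) := by
          ring
      _ = C N * (X ^ l * S) ^ 2 := h
      _ = _ := by ring
  rcases le_or_gt l m with hml | hml
  · obtain ⟨t, rfl⟩ := Nat.exists_eq_add_of_le hml
    have h2 : X ^ t * ((C ((l + t : ℕ) : k) - C (l : k)) * R * S +
        X * (derivative R * S - R * derivative S)) = C N * S ^ 2 := by
      apply mul_left_cancel₀ (pow_ne_zero (2 * l) (X_ne_zero (R := k)))
      calc X ^ (2 * l) * (X ^ t * ((C ((l + t : ℕ) : k) - C (l : k)) * R * S +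
            X * (derivative R * S - R * derivative S)))
          = X ^ (l + t + l) * ((C ((l + t : ℕ) : k) - C (l : k)) * R * S +
            X * (derivative R * S - R * derivative S)) := by ring
        _ = _ := by rw [h1]; ring
    have h3 := congrArg (eval 0) h2
    simp only [eval_mul, eval_add, eval_sub, eval_pow, eval_X, eval_C, zero_mul, add_zero] at h3
    have h4 : N * eval 0 S ^ 2 = 0 := by
      rw [← h3]
      rcases t with _ | t
      · simp
      · simp
    rcases mul_eq_zero.1 h4 with h5 | h5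
    · exact h5
    · exact absurd (pow_eq_zero_iff (two_ne_zero)|>.1 h5) hS
  · exfalso
    obtain ⟨t, rfl⟩ := Nat.exists_eq_add_of_lt hml
    have h2 : ((C (m : k) - C ((m + t + 1 : ℕ) : k)) * R * S +
        X * (derivative R * S - R * derivative S)) = C N * X ^ (t + 1) * S ^ 2 := by
      apply mul_left_cancel₀ (pow_ne_zero (m + (m + t + 1)) (X_ne_zero (R := k)))
      rw [h1]
      ring
    have h3 := congrArg (eval 0) h2
    simp only [eval_mul, eval_add, eval_sub, eval_pow, eval_X, eval_C, zero_mul, add_zero,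
      pow_succ, mul_zero] at h3
    rcases mul_eq_zero.1 h3 with h4 | h4
    · rcases mul_eq_zero.1 h4 with h5 | h5
      · have h6 : ((m : k) - ((m + t + 1 : ℕ) : k)) = -((t + 1 : ℕ) : k) := by
          push_cast
          ring
        rw [h6, neg_eq_zero] at h5
        exact Nat.cast_ne_zero.2 (Nat.succ_ne_zero t) h5
      · exact hR h5
    · exact hS h4

theorem P_l0 : L0 := by
  intro k F _ _ _ _ θ z p hz hz0 hp c hc
  have htr : Transcendental k z := MP52aaf2.transcendental_of_der θ (by rwa [hz])
  have hst := MP52aaf2.adjoin_stable θ hz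
  let d : Derivation ℤ F F := θ.restrictScalars ℤ
  let : Differential F := ⟨d⟩
  let : Differential k⟮z⟯ := ⟨MP52aaf2.resDer k⟮z⟯ d hst⟩
  have : DifferentialAlgebra k⟮z⟯ F := ⟨fun a => rfl⟩
  have : CharZero k⟮z⟯ := charZero_of_injective_algebraMap (algebraMap k k⟮z⟯).injective
  obtain ⟨n, hn, A, hA⟩ := l0_trace (F₀ := k⟮z⟯) p hp (algebraMap k k⟮z⟯ c) hc
  have h1 := congrArg (algebraMap k⟮z⟯ F) hA
  rw [map_mul, map_natCast] at h1
  change θ (A : F) = n * algebraMap k F c at h1
  obtain ⟨P, Q, hPQ⟩ := (IntermediateField.mem_adjoin_simple_iff k _).1 A.2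
  have hinj : Function.Injective (aeval z : k[X] →ₐ[k] F) := transcendental_iff_injective.1 htr
  have hn0 : (n : k) ≠ 0 := Nat.cast_ne_zero.2 (by omega)
  have hN : (n : k) * c = 0 := by
    by_cases hQ : Q = 0
    · rw [hPQ, hQ, map_zero, div_zero, map_zero] at h1
      apply (algebraMap k F).injective
      rw [map_mul, map_natCast, map_zero]
      exact h1.symm
    · apply l0_rat P Q hQ
      apply hinj
      have hQz : aeval z Q ≠ 0 := (map_ne_zero_iff _ hinj).2 hQ
      rw [hPQ, Derivation.leibniz_div, MP52aaf2.der_aeval θ hz, MP52aaf2.der_aeval θ hz] at h1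
      simp only [smul_eq_mul] at h1
      simp only [map_mul, map_sub, map_pow, aeval_X, aeval_C, map_natCast]
      field_simp at h1
      linear_combination h1
  rcases mul_eq_zero.1 hN with h | h
  · exact absurd h hn0
  · exact h

end MP52exp
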