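import Pool.Agent.Lib.MP_52aaf2_al.EX.Acl

/-!
# MP_52aaf2_al, project EX: general algebraic statements
-/

open Polynomial IntermediateField

namespace MP52exp

/-- **(Der1)** If `y` is not algebraic over `k(S)` then some derivation of `F` over `k` kills
`acl k S` and has value `1` at `y`.
Proof: in the algebraic matroid choose a basis `B₀` of `S` and a base `B ⊇ insert y B₀` of the
whole matroid (`insert y B₀` is independent); put `C₁ = acl k (B \ {y})`. Then `y` is
transcendental over `C₁` (otherwise `y ∈ acl k (B \ {y})`) and all of `F` is algebraic over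
`C₁(y)`, so `MP52aaf2.exists_theta` (Lib/MP_52aaf2_al/Theta.lean, with `k := C₁`) gives
`θ : Derivation C₁ F F`, `θ y = y`; take `δ = y⁻¹ • θ`, restricted to scalars `k`. -/
def Der1 : Prop := ∀ (k F : Type) [Field k] [Field F] [Algebra k F] [CharZero k] (S : Set F)
  (y : F), y ∉ acl k S → ∃ δ : Derivation k F F, (∀ a ∈ acl k S, δ a = 0) ∧ δ y = 1

/-- **(Dst)** A derivation mapping `S` into `acl k S` maps `acl k S` into itself; a derivation
killing `S` kills `acl k S`.
Proof: it maps `k(S)` into `acl k S` (adjoin induction), and for `a` algebraic over `k(S)` with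
minimal polynomial `m` one has `0 = m^δ(a) + m'(a) δ a` with `m'(a) ≠ 0` (characteristic zero);
compare `MP52aaf2.der_alg_stable` and `MP52aaf2.der_zero_alg` (Tower.lean, Core.lean). -/
def Dst : Prop := ∀ (k F : Type) [Field k] [Field F] [Algebra k F] [CharZero k] (S : Set F)
  (δ : Derivation k F F),
  ((∀ a ∈ S, δ a ∈ acl k S) → ∀ a ∈ acl k S, δ a ∈ acl k S) ∧
  ((∀ a ∈ S, δ a = 0) → ∀ a ∈ acl k S, δ a = 0)

/-- **(Mat1)** If `rk (A ∪ B) ≥ rk A + rk B - 1` and `y ∈ acl A ∩ acl B` is not algebraic, then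
`acl A ∩ acl B ⊆ acl {y}`.
Proof: submodularity `Matroid.eRk_inter_add_eRk_union_le` for the closures of `A` and `B` shows
that `acl A ∩ acl B` has rank `≤ 1`; if `x` were not in `acl {y}`, then `rk {x, y} = 2`. -/
def Mat1 : Prop := ∀ (k F : Type) [Field k] [Field F] [Algebra k F] (A B : Set F) (a b : ℕ),
  rk k A = a → rk k B = b → ((a + b : ℕ) : ℕ∞) ≤ rk k (A ∪ B) + 1 →
  ∀ y : F, y ∈ acl k A → y ∈ acl k B → y ∉ acl k (∅ : Set F) →
    ∀ x : F, x ∈ acl k A → x ∈ acl k B → x ∈ acl k ({y} : Set F)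

/-- **(Trn)** Algebraic dependence is preserved and reflected by embeddings. -/
def Trn : Prop := ∀ (k K F : Type) [Field k] [Field K] [Field F] [Algebra k K] [Algebra k F]
  (y : K →ₐ[k] F) (T : Set K) (h : K), h ∈ acl k T ↔ y h ∈ acl k (y '' T)

/-- **(E0)** `δ x = 1`, `e ≠ 0` algebraic over `k(x)`, `δ e = c e` with `c ∈ k`: then `c = 0`.
Proof: let `m = T^d + a_{d-1} T^{d-1} + … + a_0` be the minimal polynomial of `e` over `k(x)`
(which is stable under `δ`). Applying `δ` to `m(e) = 0` and subtracting `d c m(e) = 0` gives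
`∑_{i<d} (δ a_i + i c a_i - d c a_i) e^i = 0`, so all the coefficients vanish; for `i = 0`:
`δ a_0 = d c a_0`, `a_0 ≠ 0`. Write `a_0 = f/g` with nonzero polynomials `f, g` in `x`
(`x` is transcendental over `k` as `δ x = 1`): `f' g - f g' = d c f g`, and the left side has
smaller degree than `f g` unless it is zero. So `d c = 0`. -/
def E0 : Prop := ∀ (k F : Type) [Field k] [Field F] [Algebra k F] [CharZero k]
  (δ : Derivation k F F) (x e : F), δ x = 1 → e ≠ 0 → IsAlgebraic k⟮x⟯ e → ∀ c : k,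
  δ e = algebraMap k F c * e → c = 0

/-- **(L0)** `θ z = z ≠ 0`, `p` algebraic over `k(z)`, `θ p = c ∈ k`: then `c = 0`.
Proof: let `m = T^d + a_{d-1} T^{d-1} + …` be the minimal polynomial of `p` over `k(z)`;
applying `θ` to `m(p) = 0` gives a relation of degree `< d` with leading coefficient
`d c + θ a_{d-1}`, so `θ R = - d c` for `R = a_{d-1} ∈ k(z)`. Write `R = f/g` with polynomials in
`z` (transcendental over `k`): `z (f' g - f g') = - d c g²`; dividing `f, g` by a common power of
`z`, either `g(0) ≠ 0` and evaluating at `z = 0` gives `d c = 0`, or `g = z^a g₁`, `a ≥ 1`,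
`f(0) ≠ 0 ≠ g₁(0)` and comparing orders at `0` (left side: `z^a (z f' g₁ - f (a g₁ + z g₁'))`,
of order exactly `a`; right side: of order `≥ 2 a`) gives a contradiction. Compare
`MP52aaf2.ord_lemma` and `MP52aaf2.nw` (Lib/MP_52aaf2_al/Ord.lean, NW.lean). -/
def L0 : Prop := ∀ (k F : Type) [Field k] [Field F] [Algebra k F] [CharZero k]
  (θ : Derivation k F F) (z p : F), θ z = z → z ≠ 0 → IsAlgebraic k⟮z⟯ p → ∀ c : k,
  θ p = algebraMap k F c → c = 0

/-- **(GP)** Minimal polynomials and twisted embeddings: `y, z : K → M` embeddings, `τ` an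
automorphism of the subfield `K₀` with `z = y ∘ τ` on `K₀`, `h ∈ K` algebraic over `K₀` with
`z h = y (q h)`, `q ∈ K₀` nonzero. Then `τ (m_i) = q^(d - i) m_i` for the coefficients of the
minimal polynomial `m` (of degree `d`) of `h` over `K₀`.
Proof: `z h` is a root of the polynomials with coefficients `z (m_i) = y (τ m_i)` and
`y (q^(d-i) m_i)`; both are images under `y` of monic irreducible polynomials over `K₀` (the
first of `m` mapped by `τ`, the second of `m` scaled by `q`), so they are both the minimal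
polynomial of `z h` over `K₀` (with `M` a `K₀`-algebra through `y`). -/
def GP : Prop := ∀ (K₀ K M : Type) [Field K₀] [Field K] [Field M] [Algebra K₀ K]
  (y z : K →+* M) (τ : K₀ ≃+* K₀) (_ : ∀ a, z (algebraMap K₀ K a) = y (algebraMap K₀ K (τ a)))
  (h : K) (_ : IsAlgebraic K₀ h) (q : K₀) (_ : q ≠ 0) (_ : z h = y (algebraMap K₀ K q * h)),
  ∀ i ≤ (minpoly K₀ h).natDegree,
    τ ((minpoly K₀ h).coeff i) = q ^ ((minpoly K₀ h).natDegree - i) * (minpoly K₀ h).coeff i

/-- **(RF)** Rational functions `a(p)`: (1) `a(p + n) = u a(p)` with constants `n ≠ 0`, `u` implies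
that `a` is constant; (2) `a(q p) = a(p)` with `q` not a root of unity implies that `a` is
constant.
Proof: write `a = f / g` with coprime polynomials, `g` monic. (1) `f(p + n) g = u f g(p + n)`; so
`g` divides `g(p + n)` and they are monic of the same degree: `g(p + n) = g(p)`, and
`f(p + n) = u f(p)`; leading coefficients: `u = 1` (if `f ≠ 0`), and a polynomial of degree
`d ≥ 1` is not `n`-periodic in characteristic zero (the coefficient of degree `d - 1`).
(2) `g(q p) = q^d g(p)` with `d = deg g`: `q^i g_i = q^d g_i`, so `g = p^d`, and similarly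
`f(q p) = q^d f(p)`, `f = f_d p^d`. -/
def RF : Prop := ∀ (k K₀ : Type) [Field k] [Field K₀] [Algebra k K₀] [CharZero k] (p : K₀)
  (_ : Transcendental k p) (_ : ∀ a : K₀, ∃ f g : k[X], g ≠ 0 ∧ a = aeval p f / aeval p g)
  (τ : K₀ →ₐ[k] K₀),
  (∀ n u : k, n ≠ 0 → τ p = p + algebraMap k K₀ n → ∀ a : K₀, τ a = algebraMap k K₀ u * a →
    ∃ c : k, a = algebraMap k K₀ c) ∧
  (∀ q : k, q ≠ 0 → (∀ m : ℕ, 1 ≤ m → q ^ m ≠ 1) → τ p = algebraMap k K₀ q * p →
    ∀ a : K₀, τ a = a → ∃ c : k, a = algebraMap k K₀ c)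

/-- **(LemD)** `z p = y p + n`, `z b = q y b`, `b` algebraic over `k(p)`: then `b` is algebraic
over `k`. Proof: `GP` with `K₀ = k(p)`, `τ : p ↦ p + n`, then `RF` (1): all the coefficients of
the minimal polynomial of `b` over `k(p)` are constants. -/
def LemD : Prop := ∀ (k K M : Type) [Field k] [Field K] [Field M] [Algebra k K] [Algebra k M]
  [CharZero k] (y z : K →ₐ[k] M) (p b : K) (n q : k), n ≠ 0 → q ≠ 0 → Transcendental k p →
  IsAlgebraic k⟮p⟯ b → z p = y p + algebraMap k M n → z b = algebraMap k M q * y b →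
  IsAlgebraic k b

/-- **(LemD2)** `z p = q y p`, `q` not a root of unity, `z b = y b`, `b` algebraic over `k(p)`: then
`b` is algebraic over `k`. Proof: `GP` with `τ : p ↦ q p`, then `RF` (2). -/
def LemD2 : Prop := ∀ (k K M : Type) [Field k] [Field K] [Field M] [Algebra k K] [Algebra k M]
  [CharZero k] (y z : K →ₐ[k] M) (p b : K) (q : k), q ≠ 0 → (∀ m : ℕ, 1 ≤ m → q ^ m ≠ 1) →
  Transcendental k p → IsAlgebraic k⟮p⟯ b → z p = algebraMap k M q * y p → z b = y b →
  IsAlgebraic k b

/-- **(LemI)** `z X = y X + c`, `c ≠ 0`, `z E = κ y E`, `κ` not a root of unity, `X, E`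
algebraically independent, `h` algebraic over `k(X, E)` and `z h = y h`: then `h` is algebraic
over `k`.
Proof: `GP` with `K₀ = k(X, E)`, `τ : X ↦ X + c, E ↦ κ E`, `q = 1`: the coefficients `a` of the
minimal polynomial of `h` over `k(X, E)` satisfy `τ a = a`. Claim: such an `a` is in `k`. Write
`a = f / g` with coprime polynomials `f, g` in `E` over `k(X)`, `g` monic; then
`τ g = κ^d g`, `τ f = κ^d f`, `d = deg g`, so the coefficients satisfy
`g_i(X + c) = κ^(d - i) g_i(X)`, and by `RF` (1) `g_i` is a constant, which is zero unless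
`κ^(d - i) = 1`, i.e. `i = d`. So `g = E^d` and `f = f_d E^d`, `f_d` a constant. -/
def LemI : Prop := ∀ (k K M : Type) [Field k] [Field K] [Field M] [Algebra k K] [Algebra k M]
  [CharZero k] (y z : K →ₐ[k] M) (X E h : K) (c κ : k), E ∉ acl k (∅ : Set K) →
  X ∉ acl k ({E} : Set K) → h ∈ acl k ({X, E} : Set K) → c ≠ 0 → κ ≠ 0 →
  (∀ m : ℕ, 1 ≤ m → κ ^ m ≠ 1) → z X = y X + algebraMap k M c → z E = algebraMap k M κ * y E →
  z h = y h → IsAlgebraic k h

/-- **(Ax1)** Let the field of constants of the derivation `D` of `M` be `C`, `D e_i = e_i D u_i`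
for `i = 1, …, N`, some `u_i` not constant and `rk {u_i, e_i} ≤ N`. Then there are constants
`c_i`, not all zero, with `∑ c_i (δ e_i / e_i - δ u_i) = 0` for all derivations `δ` of `M` over
`C`.
Proof: put `ω_i(δ) = δ e_i / e_i - δ u_i`. (a) Let `t_1, …, t_n` (`n ≤ N`) be a maximal
algebraically independent subset of `{u_i, e_i}`. The linear map `I : δ ↦ (ω_i(δ))_i` from the
`M`-vector space of derivations to `M^N` vanishes on the kernel of `R : δ ↦ (δ t_j)_j` (a
derivation killing all `t_j` kills everything algebraic over them, see `Dst`), and `I D = 0`,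
`R D ≠ 0`; so the range of `I` has dimension at most (dimension of the range of `R`) `- 1 < N`.
So the space `W` of all `a ∈ M^N` with `∑ a_i ω_i(δ) = 0` for all `δ` is not zero. (b) `W` is
stable under `D` (coordinatewise), because `D(ω_i(δ)) = ω_i([D, δ])` (a computation using
`D e_i = e_i D u_i`). (c) Take `a ∈ W` nonzero with support of minimal size, scaled such that
some coordinate is `1`; then `D a ∈ W` has smaller support, so `D a = 0` and all `a_i` are
constants. -/
def Ax1 : Prop := ∀ (C M : Type) [Field C] [Field M] [Algebra C M] [CharZero C]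
  (D : Derivation C M M) (_ : ∀ a, D a = 0 → ∃ c : C, algebraMap C M c = a) (N : ℕ)
  (u e : Fin N → M) (_ : ∀ i, e i ≠ 0) (_ : ∀ i, D (e i) = e i * D (u i))
  (_ : ∃ i, D (u i) ≠ 0) (_ : rk C (Set.range u ∪ Set.range e) ≤ N),
  ∃ c : Fin N → C, c ≠ 0 ∧ ∀ δ : Derivation C M M,
    ∑ i, algebraMap C M (c i) * (δ (e i) / e i - δ (u i)) = 0

/-- **(Ax4)** residues and norms: `θ z = z` transcendental over `k`, `f_j, w` algebraic over
`k(z)`, `∑ ε_j θ f_j / f_j = θ w` with `ε_j ∈ k`. Then `∑ a_j ε_j = 0` with integers `a_j`, where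
`a_j = N ≥ 1` for those `j` with `f_j = z`.
Proof: let `K₁` be the extension of `F₀ = k(z)` generated by all `f_j, w`, of degree `N`. Norms
and trace: `∑ ε_j θ(Norm f_j) / Norm f_j = θ(Tr w)` (see `MP52aaf2.norm_step`,
Lib/MP_52aaf2_al/NormStep.lean, for the technique; there `logDeriv (norm g) = ∑ σ (logDeriv g)`
over the embeddings `σ`; similarly for the trace), and `Norm z = z^N`. All is now in `k(z)`;
`θ g / g = ord(g) + z (…)` with a function regular at `0` in the brackets for `g ∈ k(z)` nonzero,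
`ord` the order at `z = 0` (see `MP52aaf2.logder_aeval`, `MP52aaf2.ord_lemma`, Ord.lean), and
`θ R = z R'` has no constant coefficient in its Laurent expansion at `z = 0`. Compare the
constant coefficients: `∑ ε_j ord(Norm f_j) = 0`. (If `w` gives trouble: first treat
`R = Tr w = f/g`; or use the argument of `L0` to see the constant coefficient.) -/
def Ax4 : Prop := ∀ (k F : Type) [Field k] [Field F] [Algebra k F] [CharZero k]
  (θ : Derivation k F F) (z : F) (_ : θ z = z) (_ : Transcendental k z) (d : ℕ) (f : Fin d → F)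
  (_ : ∀ j, f j ≠ 0) (_ : ∀ j, IsAlgebraic k⟮z⟯ (f j)) (w : F) (_ : IsAlgebraic k⟮z⟯ w)
  (ε : Fin d → k) (_ : ∑ j, algebraMap k F (ε j) * (θ (f j) / f j) = θ w),
  ∃ N : ℕ, 1 ≤ N ∧ ∃ a : Fin d → ℤ, ∑ j, (a j : k) * ε j = 0 ∧ ∀ j, f j = z → a j = N

/-- **(Ax3)** If `ε_j ∈ C` are linearly independent over `ℚ` and `∑ ε_j δ f_j / f_j = δ w` for all
derivations `δ` of `M` over `C`, then all `f_j` are algebraic over `C`.
Proof: suppose that `z = f_j` is transcendental over `C`. Take a transcendence basis of `M` over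
`C` containing `z`, and `C₁ = acl C (basis \ {z})`; `M` is algebraic over `C₁(z)`,
`MP52aaf2.exists_theta` (Theta.lean) gives a derivation `θ` over `C₁` with `θ z = z`, and
`Ax4` over `k = C₁` gives a relation `∑ a_i ε_i = 0` with `a_j ≥ 1`. -/
def Ax3 : Prop := ∀ (C M : Type) [Field C] [Field M] [Algebra C M] [CharZero C] (d : ℕ)
  (ε : Fin d → C) (_ : ∀ a : Fin d → ℤ, ∑ j, (a j : C) * ε j = 0 → a = 0) (f : Fin d → M)
  (_ : ∀ j, f j ≠ 0) (w : M)
  (_ : ∀ δ : Derivation C M M, ∑ j, algebraMap C M (ε j) * (δ (f j) / f j) = δ w),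
  ∀ j, IsAlgebraic C (f j)

/-- **(Ax2)** If `∑ c_i (δ e_i / e_i - δ u_i) = 0` for all derivations `δ` of `M` over the field
`C` of constants of `D`, `c_i ∈ C` not all zero, `D e_i = e_i D u_i`, then a nontrivial integer
combination of the `u_i` is constant.
Proof: let `ε_1, …, ε_d` be a basis of the `ℚ`-vector space spanned by the `c_i`, divided by a
common denominator, so that `c_i = ∑_j n_{ij} ε_j` with integers `n_{ij}`, not all zero. With
`f_j = ∏_i e_i^{n_{ij}}` and `w = ∑ c_i u_i`, `∑_j ε_j δ f_j / f_j = δ w` for all `δ`, so the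
`f_j` are algebraic over `C` by `Ax3`, `D f_j = 0`, `∑_i n_{ij} D u_i = D f_j / f_j = 0`. -/
def Ax2 : Prop := ∀ (C M : Type) [Field C] [Field M] [Algebra C M] [CharZero C]
  (D : Derivation C M M) (_ : ∀ a, D a = 0 → ∃ c : C, algebraMap C M c = a) (N : ℕ)
  (u e : Fin N → M) (_ : ∀ i, e i ≠ 0) (_ : ∀ i, D (e i) = e i * D (u i)) (c : Fin N → C)
  (_ : c ≠ 0) (_ : ∀ δ : Derivation C M M,
    ∑ i, algebraMap C M (c i) * (δ (e i) / e i - δ (u i)) = 0),
  ∃ m : Fin N → ℤ, m ≠ 0 ∧ ∃ a : C, ∑ i, (m i : M) * u i = algebraMap C M a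

/-- **(Ax)** If no nontrivial integer combination of `u_1, …, u_N` (`N ≥ 1`) is constant and
`D e_i = e_i D u_i`, `e_i ≠ 0`, then the `u_i, e_i` have transcendence degree at least `N + 1`.
Proof: `Ax1` and `Ax2`. -/
def Ax : Prop := ∀ (C M : Type) [Field C] [Field M] [Algebra C M] [CharZero C]
  (D : Derivation C M M) (_ : ∀ a, D a = 0 → ∃ c : C, algebraMap C M c = a) (N : ℕ) (_ : 1 ≤ N)
  (u e : Fin N → M) (_ : ∀ i, e i ≠ 0) (_ : ∀ i, D (e i) = e i * D (u i))
  (_ : ∀ m : Fin N → ℤ, (∃ a : C, ∑ i, (m i : M) * u i = algebraMap C M a) → m = 0),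
  (N : ℕ∞) + 1 ≤ rk C (Set.range u ∪ Set.range e)

end MP52exp
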