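import Pool.Agent.Lib.MP_52aaf2_al.EX.StmS
import Pool.Agent.Lib.MP_52aaf2_al.EX.StmG

/-!
# MP_52aaf2_al, project EX: pieces ShD and Lem0 (helper57)
-/

open Polynomial IntermediateField

namespace MP52exp

section conj

variable {K : Type} [Field K] [Algebra ℝ K]

/-- the conjugate of a derivation by an automorphism -/
noncomputable def lem0_conj (σ : K ≃ₐ[ℝ] K) (δ : Derivation ℝ K K) : Derivation ℝ K K where
  toLinearMap := σ.symm.toLinearMap ∘ₗ (δ : K →ₗ[ℝ] K) ∘ₗ σ.toLinearMap
  map_one_eq_zero' := by simp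
  leibniz' := fun a b => by
    simp [Derivation.leibniz, smul_eq_mul, map_add, map_mul]

theorem lem0_conj_apply (σ : K ≃ₐ[ℝ] K) (δ : Derivation ℝ K K) (h : K) :
    lem0_conj σ δ h = σ.symm (δ (σ h)) := rfl

end conj

theorem P_shd (hD : Dst) : ShD := by
  intro K M _ _ _ _ S s h
  have hcast : ∀ δ : Derivation ℝ K K, δ (s : K) = 0 := by
    intro δ
    have : (s : K) = algebraMap ℝ K (s : ℝ) := by simp
    rw [this, δ.map_algebraMap]
  have hmulE : ∀ δ : Derivation ℝ K K, δ (S.sh s S.E) =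
      algebraMap ℝ K (Real.exp (S.lam * s)) * δ S.E := by
    intro δ
    rw [S.sh_E, ← Algebra.smul_def, δ.map_smul, Algebra.smul_def]
  constructor
  · have hk := (hD ℝ K ({S.X, S.E} : Set K) (lem0_conj (S.sh s) S.DX - S.DX)).2 (by
      rintro a (rfl | rfl)
      · rw [Derivation.sub_apply, lem0_conj_apply, S.sh_X, map_add, hcast, S.DX_X, add_zero,
          map_one, sub_self]
      · rw [Derivation.sub_apply, lem0_conj_apply, hmulE, S.DX_E, mul_zero, map_zero,
          sub_self]) h (S.span h)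
    rw [Derivation.sub_apply, lem0_conj_apply, sub_eq_zero] at hk
    rw [← hk]
    simp
  · have hk := (hD ℝ K ({S.X, S.E} : Set K) (lem0_conj (S.sh s) S.DE - S.DE)).2 (by
      rintro a (rfl | rfl)
      · rw [Derivation.sub_apply, lem0_conj_apply, S.sh_X, map_add, hcast, S.DE_X, add_zero,
          map_zero, sub_self]
      · rw [Derivation.sub_apply, lem0_conj_apply, hmulE, S.DE_E, ← S.sh_E,
          AlgEquiv.symm_apply_apply, sub_self]) h (S.span h)
    rw [Derivation.sub_apply, lem0_conj_apply, sub_eq_zero] at hk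
    rw [← hk]
    simp

theorem P_lem0 (hI : LemI) (hM : MuN) (hJ : Jac) (hD : Dst) (hS : ShD) : Lem0 := by
  intro K M _ _ _ _ S P hX hE s hs hmem
  obtain ⟨hmu, -⟩ := hM K M S P hX hE
  obtain ⟨-, -, ⟨hE0, hXE, -⟩, -, -⟩ := hJ K M S
  set μ : K := mu S P with hμ
  have hμ' : μ = S.DX P / S.DE P := rfl
  have hk := (hD ℝ K ({P} : Set K) (S.DX - μ • S.DE)).2 (by
    rintro a rfl
    rw [Derivation.sub_apply, Derivation.smul_apply, smul_eq_mul, hμ', div_mul_cancel₀ _ hE,
      sub_self]) _ hmem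
  rw [Derivation.sub_apply, Derivation.smul_apply, smul_eq_mul, (hS K M S s P).1,
    (hS K M S s P).2, sub_eq_zero] at hk
  have hne : S.sh s (S.DE P) ≠ 0 := by
    rw [Ne, EmbeddingLike.map_eq_zero_iff]
    exact hE
  have hfix : S.sh s μ = μ := by
    rw [hμ', map_div₀, hk, ← hμ', mul_div_assoc, div_self hne, mul_one]
  have halg : IsAlgebraic ℝ μ := by
    refine hI ℝ K K (AlgHom.id ℝ K) (S.sh s).toAlgHom S.X S.E μ (s : ℝ)
      (Real.exp (S.lam * s)) hE0 hXE (S.span μ) (by exact_mod_cast hs) (Real.exp_pos _).ne' ?_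
      ?_ ?_ ?_
    · intro m hm h1
      rw [← Real.exp_nat_mul, Real.exp_eq_one_iff] at h1
      have h2 : (m : ℝ) ≠ 0 := by
        have : (0 : ℝ) < m := by exact_mod_cast hm
        exact this.ne'
      have h3 : (s : ℝ) ≠ 0 := by exact_mod_cast hs
      exact mul_ne_zero h2 (mul_ne_zero S.lam_pos.ne' h3) h1
    · simp [S.sh_X]
    · simp [S.sh_E]
    · simpa using hfix
  apply hmu
  exact acl_mono (Set.empty_subset _) (mem_acl_empty.mpr halg)

end MP52exp
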