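import Pool.Agent.Lib.MP_52aaf2_al.EX.StmG
import Pool.Agent.Lib.MP_52aaf2_al.EX.StmS

/-!
# MP_52aaf2_al, project EX: the lemma on `P + κ X`
-/

set_option autoImplicit false

open Polynomial IntermediateField

namespace MP52exp

/-- change of the ground field in `acl` -/
theorem acl_sub_acl {K : Type} [Field K] [Algebra ℝ K] (k : Subfield ℝ) (T T' : Set K)
    (h : ∀ x ∈ T', x ∈ acl ℝ T) : ∀ a ∈ acl k T', a ∈ acl ℝ T := by
  intro a ha
  apply acl_closed
  have hle : IntermediateField.adjoin k T' ≤ (acl ℝ T).restrictScalars k := by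
    rw [IntermediateField.adjoin_le_iff]
    exact h
  have ha' : IsAlgebraic (IntermediateField.adjoin k T') a := ha
  let _ : Algebra (IntermediateField.adjoin k T') ((acl ℝ T).restrictScalars k) :=
    (IntermediateField.inclusion hle).toRingHom.toAlgebra
  have _ : IsScalarTower (IntermediateField.adjoin k T') ((acl ℝ T).restrictScalars k) K :=
    IsScalarTower.of_algebraMap_eq (fun _ => rfl)
  have h2 : IsAlgebraic ((acl ℝ T).restrictScalars k) a := ha'.tower_top _
  exact h2

section

variable {K M : Type} [Field K] [Field M] [Algebra ℝ K] [Algebra ℝ M] (S : Sys K M)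

/-- `e ^ λ` is not algebraic over `k(X, E)` -/
theorem lemA_notMem (h3 : Jac) (k : Subfield ℝ) (hk : Transcendental k (Real.exp S.lam)) :
    algebraMap ℝ K (Real.exp S.lam) ∉ acl k ({S.X, S.E} : Set K) := by
  obtain ⟨-, -, ⟨hE0, hXE, -⟩, -, -⟩ := h3 K M S
  set L : K := algebraMap ℝ K (Real.exp S.lam) with hL
  have h0 : L ∉ acl k (∅ : Set K) := by
    rw [mem_acl_empty]
    intro h
    exact hk ((isAlgebraic_algebraMap_iff (algebraMap ℝ K).injective).1 h)
  intro h
  by_cases h1 : L ∈ acl k ({S.E} : Set K)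
  · have h2 : S.E ∈ acl k (insert L (∅ : Set K)) := by
      apply acl_exchange _ h0
      simpa using h1
    apply hE0
    apply acl_sub_acl k (∅ : Set K) (insert L ∅) _ _ h2
    intro x hx
    rcases hx with rfl | hx
    · exact (acl ℝ (∅ : Set K)).algebraMap_mem _
    · exact absurd hx (by simp)
  · have h2 : S.X ∈ acl k (insert L ({S.E} : Set K)) := acl_exchange h h1
    apply hXE
    apply acl_sub_acl k ({S.E} : Set K) (insert L {S.E}) _ _ h2
    intro x hx
    rcases hx with rfl | hx
    · exact (acl ℝ ({S.E} : Set K)).algebraMap_mem _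
    · exact subset_acl _ hx

/-- the derivation `(sh s)⁻¹ ∘ Δ ∘ sh s - c • DE` -/
noncomputable def lemADer (k : Subfield ℝ) (Δ : Derivation k K K) (s : ℤ) (c : K) :
    Derivation k K K :=
  Derivation.mk' ((S.sh s).symm.toLinearMap.restrictScalars k ∘ₗ Δ.toLinearMap ∘ₗ
      (S.sh s).toLinearMap.restrictScalars k - c • (S.DE.restrictScalars k).toLinearMap) (by
    intro a b
    simp only [LinearMap.sub_apply, LinearMap.comp_apply, LinearMap.smul_apply]
    simp
    ring)

theorem lemADer_apply (k : Subfield ℝ) (Δ : Derivation k K K) (s : ℤ) (c : K) (h : K) :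
    lemADer S k Δ s c h = (S.sh s).symm (Δ (S.sh s h)) - c * S.DE h := by
  rfl

end

theorem P_lemA (h1 : Der1) (h2 : Dst) (h3 : Jac) (h4 : ShD) (h5 : LemL) : LemA := by
  intro K M _ _ _ _ S k hk P hP hX hE s hs κ hκ hmem
  set Q : K := P + (κ : K) * S.X with hQ
  have hκ0 : (κ : K) ≠ 0 := by
    have : CharZero K := charZero_of_injective_algebraMap (algebraMap ℝ K).injective
    exact_mod_cast hκ
  have hκr : (κ : K) = algebraMap ℝ K (κ : ℝ) := by
    rw [map_ratCast]
  have hDXκ : S.DX (κ : K) = 0 := by rw [hκr]; exact S.DX.map_algebraMap _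
  have hDEκ : S.DE (κ : K) = 0 := by rw [hκr]; exact S.DE.map_algebraMap _
  set ν : K := (S.DE P)⁻¹ with hν
  set μ : K := S.DX P / S.DE P with hμ
  -- the derivation killing `Q`
  have hcz : CharZero (k : Type) := inferInstance
  have key0 : S.DX (S.sh s P) = (μ + (κ : K) * ν) * S.DE (S.sh s P) := by
    have hk2 := (h2 ℝ K ({Q} : Set K) (S.DX - (μ + (κ : K) * ν) • S.DE)).2 (by
      intro a ha
      rw [Set.mem_singleton_iff] at ha
      rw [ha, Derivation.sub_apply, Derivation.smul_apply, hQ, map_add, map_add, S.DX.leibniz,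
        S.DE.leibniz, S.DX_X, S.DE_X, hDXκ, hDEκ]
      simp only [smul_eq_mul]
      rw [hμ, hν]
      field_simp
      ring) _ hmem
    rw [Derivation.sub_apply, Derivation.smul_apply, smul_eq_mul] at hk2
    linear_combination hk2
  have key : S.sh s μ = μ + (κ : K) * ν := by
    have hne : S.sh s (S.DE P) ≠ 0 := by
      rw [Ne, EmbeddingLike.map_eq_zero_iff]
      exact hE
    have e1 : S.sh s μ = S.sh s (S.DX P) / S.sh s (S.DE P) := map_div₀ _ _ _
    rw [e1, div_eq_iff hne, ← (h4 K M S s P).1, ← (h4 K M S s P).2]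
    exact key0
  -- the derivation `Δ`
  set L : K := algebraMap ℝ K (Real.exp S.lam) with hL
  have hL0 : L ≠ 0 := by
    rw [hL]
    intro h
    have := (algebraMap ℝ K).injective (h.trans (map_zero _).symm)
    exact (Real.exp_pos _).ne' this
  obtain ⟨Δ, hΔ, hΔ1⟩ := h1 k K ({S.X, S.E} : Set K) L (lemA_notMem S h3 k hk)
  have hXa : S.X ∈ acl k ({S.X, S.E} : Set K) := subset_acl _ (by simp)
  have hEa : S.E ∈ acl k ({S.X, S.E} : Set K) := subset_acl _ (by simp)
  have hshE : S.sh s S.E = L ^ s * S.E := by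
    rw [S.sh_E, hL, ← map_zpow₀, Real.exp_mul, Real.rpow_intCast]
  have hshL : (S.sh s).symm L = L := (S.sh s).symm.commutes _
  -- `Δ'` kills `acl k {X, E}`
  have hkill : ∀ h ∈ acl k ({S.X, S.E} : Set K),
      Δ (S.sh s h) = S.sh s (((s : K) * L⁻¹) * S.DE h) := by
    intro h hh
    have hz := (h2 k K ({S.X, S.E} : Set K) (lemADer S k Δ s ((s : K) * L⁻¹))).2 (by
      intro a ha
      rw [lemADer_apply]
      rcases ha with rfl | ha
      · rw [S.sh_X, S.DE_X, map_add, hΔ _ hXa, Derivation.map_intCast]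
        simp
      · rw [Set.mem_singleton_iff] at ha
        rw [ha, hshE, S.DE_E, Δ.leibniz, hΔ _ hEa, Δ.leibniz_zpow, hΔ1]
        have hsE : (S.sh s).symm S.E = (L ^ s)⁻¹ * S.E := by
          rw [AlgEquiv.symm_apply_eq, map_mul, hshE]
          have : S.sh s (L ^ s)⁻¹ = (L ^ s)⁻¹ := by
            rw [hL, ← map_zpow₀, ← map_inv₀]
            exact (S.sh s).commutes _
          rw [this]
          have hLs : L ^ s ≠ 0 := zpow_ne_zero _ hL0
          field_simp
        simp only [smul_eq_mul, mul_zero, zero_add, mul_one, zsmul_eq_mul]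
        rw [map_mul, map_mul, hsE, map_zpow₀, hshL, map_intCast, zpow_sub_one₀ hL0]
        have hLs : L ^ s ≠ 0 := zpow_ne_zero _ hL0
        field_simp
        ring) h hh
    rw [lemADer_apply, sub_eq_zero] at hz
    rw [← hz, AlgEquiv.apply_symm_apply]
  -- memberships
  have hDXs : ∀ h ∈ acl k ({S.X, S.E} : Set K), S.DX h ∈ acl k ({S.X, S.E} : Set K) := by
    refine (h2 k K ({S.X, S.E} : Set K) (S.DX.restrictScalars k)).1 ?_
    rintro a (rfl | ha)
    · change S.DX S.X ∈ _
      rw [S.DX_X]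
      exact one_mem _
    · rw [Set.mem_singleton_iff] at ha
      rw [ha]
      change S.DX S.E ∈ _
      rw [S.DX_E]
      exact zero_mem _
  have hDEs : ∀ h ∈ acl k ({S.X, S.E} : Set K), S.DE h ∈ acl k ({S.X, S.E} : Set K) := by
    refine (h2 k K ({S.X, S.E} : Set K) (S.DE.restrictScalars k)).1 ?_
    rintro a (rfl | ha)
    · change S.DE S.X ∈ _
      rw [S.DE_X]
      exact zero_mem _
    · rw [Set.mem_singleton_iff] at ha
      rw [ha]
      change S.DE S.E ∈ _
      rw [S.DE_E]
      exact hEa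
  have hμa : μ ∈ acl k ({S.X, S.E} : Set K) := div_mem (hDXs _ hP) (hDEs _ hP)
  have hνa : ν ∈ acl k ({S.X, S.E} : Set K) := inv_mem (hDEs _ hP)
  have hκa : (κ : K) ∈ acl k ({S.X, S.E} : Set K) := by
    have h : (κ : K) = algebraMap k K (κ : k) := by rw [map_ratCast]
    rw [h]
    exact (acl k ({S.X, S.E} : Set K)).algebraMap_mem _
  have hsum : Δ (μ + (κ : K) * ν) = 0 := hΔ _ (add_mem hμa (mul_mem hκa hνa))
  have hDEμ : S.DE μ = 0 := by
    rw [← key, hkill _ hμa, EmbeddingLike.map_eq_zero_iff] at hsum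
    have hs0 : ((s : K) * L⁻¹) ≠ 0 := by
      have : CharZero K := charZero_of_injective_algebraMap (algebraMap ℝ K).injective
      exact mul_ne_zero (by exact_mod_cast hs) (inv_ne_zero hL0)
    exact (mul_eq_zero.1 hsum).resolve_left hs0
  have hDEν : S.DE ν = 0 := by
    have h := congrArg S.DE key
    rw [(h4 K M S s μ).2, hDEμ, map_zero, map_add, hDEμ, zero_add, S.DE.leibniz, hDEκ] at h
    simp only [smul_eq_mul, mul_zero, add_zero] at h
    exact (mul_eq_zero.1 h.symm).resolve_left hκ0
  have hDE2 : S.DE (S.DE P) = 0 := by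
    have h := hDEν
    rw [hν, S.DE.leibniz_inv, smul_eq_mul] at h
    rcases mul_eq_zero.1 h with h | h
    · exact absurd h (by simpa using hE)
    · exact h
  exact hE (h5 K M S P hDE2)

end MP52exp
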