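import Pool.Agent.Lib.MP_52aaf2_al.EX.StmS
import Pool.Agent.Lib.MP_52aaf2_al.EX.StmG

/-!
# MP_52aaf2_al, project EX: the piece `LemB`
-/

open Polynomial IntermediateField

namespace MP52exp

private lemma lemB_agree {K M : Type} [Field K] [Field M] [Algebra ℝ K] [Algebra ℝ M]
    (y z : K →ₐ[ℝ] M) (μ : K) (h : z μ = y μ) (a : K) (ha : a ∈ ℝ⟮μ⟯) : z a = y a := by
  induction ha using IntermediateField.adjoin_induction with
  | mem x hx => rw [Set.mem_singleton_iff.mp hx]; exact h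
  | algebraMap r => rw [AlgHom.commutes, AlgHom.commutes]
  | add x x' _ _ h1 h2 => rw [map_add, map_add, h1, h2]
  | inv x _ h1 => rw [map_inv₀, map_inv₀, h1]
  | mul x x' _ _ h1 h2 => rw [map_mul, map_mul, h1, h2]

private lemma lemB_tower {K : Type} [Field K] [Algebra ℝ K] (μ P x : K)
    (h : x ∈ acl ℝ ({μ, P} : Set K)) : IsAlgebraic (ℝ⟮μ⟯)⟮P⟯ x := by
  rw [mem_acl] at h
  have e : (ℝ⟮μ⟯⟮P⟯).restrictScalars ℝ = IntermediateField.adjoin ℝ ({μ, P} : Set K) :=
    adjoin_simple_adjoin_simple ℝ μ P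
  rw [← e] at h
  exact h

/-- `LemD` for `y, z` which agree on `ℝ(μ)` -/
private lemma lemB_D (hD : LemD) {K M : Type} [Field K] [Field M] [Algebra ℝ K] [Algebra ℝ M]
    (y z : K →ₐ[ℝ] M) (μ P x : K) (n : ℤ) (q : ℝ) (hn : n ≠ 0) (hq : q ≠ 0)
    (hzy : z μ = y μ) (hP : P ∉ acl ℝ ({μ} : Set K)) (hx : x ∈ acl ℝ ({μ, P} : Set K))
    (hzP : z P = y P + (n : M)) (hzx : z x = algebraMap ℝ M q * y x) :
    x ∈ acl ℝ ({μ} : Set K) := by
  let _ : Algebra ℝ⟮μ⟯ M := (y.toRingHom.comp (algebraMap ℝ⟮μ⟯ K)).toAlgebra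
  let y' : K →ₐ[ℝ⟮μ⟯] M := { y.toRingHom with commutes' := fun a => rfl }
  let z' : K →ₐ[ℝ⟮μ⟯] M :=
    { z.toRingHom with commutes' := fun a => lemB_agree y z μ hzy (a : K) a.2 }
  have h1 := hD ℝ⟮μ⟯ K M y' z' P x (n : ℝ⟮μ⟯) (algebraMap ℝ ℝ⟮μ⟯ q) (by exact_mod_cast hn)
    (by
      rw [Ne, map_eq_zero]
      exact hq)
    hP (lemB_tower μ P x hx)
    (by
      have e : algebraMap ℝ⟮μ⟯ M (n : ℝ⟮μ⟯) = (n : M) := map_intCast _ n
      rw [e]
      exact hzP)
    (by
      have e : algebraMap ℝ⟮μ⟯ M (algebraMap ℝ ℝ⟮μ⟯ q) = algebraMap ℝ M q := by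
        change y (algebraMap ℝ⟮μ⟯ K (algebraMap ℝ ℝ⟮μ⟯ q)) = _
        rw [← IsScalarTower.algebraMap_apply ℝ ℝ⟮μ⟯ K]
        exact y.commutes q
      rw [e]
      exact hzx)
  exact h1

theorem P_lemB (hDer : Der1) (hDst : Dst) (hTrn : Trn) (hCr : Cr) (hI : LemI) (hD : LemD)
    (hD2 : LemD2) (hMuN : MuN) (hL : LemL) (hJac : Jac) : LemB := by
  intro K M _ _ _ _ S P hP y hy z hz N m hN hm c hlin n hn hzP
  obtain ⟨J0, J1, ⟨JE, JX, JEX⟩, J2, J3⟩ := hJac K M S
  have : CharZero M := charZero_of_injective_algebraMap (algebraMap ℝ M).injective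
  have : CharZero K := charZero_of_injective_algebraMap (algebraMap ℝ K).injective
  have hNM : (N : M) ≠ 0 := by exact_mod_cast hN
  have hNR : (N : ℝ) ≠ 0 := by exact_mod_cast hN
  have hmR : (m : ℝ) ≠ 0 := by exact_mod_cast hm
  set q : ℝ := (m : ℝ) / N with hq
  set c' : ℝ := c / N with hc'
  have hq0 : q ≠ 0 := div_ne_zero hmR hNR
  have hNq : (N : ℝ) * q = m := by rw [hq]; field_simp
  have hNc : (N : ℝ) * c' = c := by rw [hc']; field_simp
  have eN : algebraMap ℝ M (N : ℝ) = (N : M) := map_intCast _ N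
  have em : algebraMap ℝ M (m : ℝ) = (m : M) := map_intCast _ m
  have en : algebraMap ℝ M (n : ℝ) = (n : M) := map_intCast _ n
  have hNqM : (N : M) * algebraMap ℝ M q = (m : M) := by
    rw [← eN, ← em, ← map_mul, hNq]
  have hNcM : (N : M) * algebraMap ℝ M c' = algebraMap ℝ M c := by
    rw [← eN, ← map_mul, hNc]
  have hzX : z S.X = algebraMap ℝ M q * y S.X + algebraMap ℝ M c' := by
    apply mul_left_cancel₀ hNM
    rw [hlin, mul_add, ← mul_assoc, hNqM, hNcM]
  have hqM : algebraMap ℝ M q ≠ 0 := by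
    rw [Ne, map_eq_zero]; exact hq0
  have hyE : y S.E ≠ 0 := by rw [Ne, map_eq_zero]; exact S.E_ne
  have hzE : z S.E ≠ 0 := by rw [Ne, map_eq_zero]; exact S.E_ne
  -- derivations of constants
  have hconst : ∀ (δ : Derivation ℝ M M) (r : ℝ), δ (algebraMap ℝ M r) = 0 :=
    fun δ r => δ.map_algebraMap r
  have hconst' : ∀ (δ : Derivation ℝ M M) (r : ℝ) (a : M),
      δ (algebraMap ℝ M r * a) = algebraMap ℝ M r * δ a := by
    intro δ r a
    rw [← Algebra.smul_def, ← Algebra.smul_def, Derivation.map_smul]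
  have dX : ∀ δ : Derivation ℝ M M, δ (z S.X) = algebraMap ℝ M q * δ (y S.X) := by
    intro δ
    rw [hzX, map_add, hconst, hconst', add_zero]
  -- the constant `κ`
  have dE : ∀ δ : Derivation ℝ M M,
      δ (z S.E) / z S.E = algebraMap ℝ M q * (δ (y S.E) / y S.E) := by
    set W : M := z S.E ^ N * (y S.E ^ m)⁻¹ with hW
    have hW0 : W ≠ 0 := mul_ne_zero (zpow_ne_zero _ hzE) (inv_ne_zero (zpow_ne_zero _ hyE))
    have hWd : ∀ δ : Derivation ℝ M M, δ W / W =
        (N : M) * (δ (z S.E) / z S.E) - (m : M) * (δ (y S.E) / y S.E) := by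
      intro δ
      have e1 : ∀ (a : M) (k : ℤ), a ≠ 0 → δ (a ^ k) = (k : M) * (a ^ k * (δ a / a)) := by
        intro a k ha
        rw [Derivation.leibniz_zpow, zsmul_eq_mul, smul_eq_mul, zpow_sub_one₀ ha]
        field_simp
      have e2 : W = z S.E ^ N * y S.E ^ (-m) := by rw [hW, zpow_neg]
      rw [e2, Derivation.leibniz, smul_eq_mul, smul_eq_mul, e1 _ _ hzE, e1 _ _ hyE]
      have h3 : z S.E ^ N ≠ 0 := zpow_ne_zero _ hzE
      have h4 : y S.E ^ (-m) ≠ 0 := zpow_ne_zero _ hyE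
      push_cast
      field_simp
      ring
    have hDW : S.D W = 0 := by
      have h1 := hWd S.D
      rw [S.pt_exp z hz, S.pt_exp y hy, dX] at h1
      have h2 : S.D W / W = 0 := by
        rw [h1]
        have e1 : algebraMap ℝ M S.lam * (z S.E * (algebraMap ℝ M q * S.D (y S.X))) / z S.E =
            algebraMap ℝ M S.lam * (algebraMap ℝ M q * S.D (y S.X)) := by field_simp
        have e2 : algebraMap ℝ M S.lam * (y S.E * S.D (y S.X)) / y S.E =
            algebraMap ℝ M S.lam * S.D (y S.X) := by field_simp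
        rw [e1, e2, ← hNqM]
        ring
      rcases div_eq_zero_iff.mp h2 with h | h
      · exact h
      · exact absurd h hW0
    obtain ⟨κ, hκ⟩ := S.const W hDW
    intro δ
    have h1 := hWd δ
    rw [← hκ, hconst, zero_div] at h1
    apply mul_left_cancel₀ hNM
    rw [← mul_assoc, hNqM]
    exact (sub_eq_zero.mp h1.symm)
  -- the two derivations
  have tX : y S.X ∉ acl ℝ ({y S.E} : Set M) := by
    intro h
    apply JX
    rw [hTrn ℝ K M y, Set.image_singleton]
    exact h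
  have tE : y S.E ∉ acl ℝ ({y S.X} : Set M) := by
    intro h
    apply JEX
    rw [hTrn ℝ K M y, Set.image_singleton]
    exact h
  obtain ⟨δ₁, hδ₁, hδ₁'⟩ := hDer ℝ M {y S.E} (y S.X) tX
  obtain ⟨δ₂, hδ₂, hδ₂'⟩ := hDer ℝ M {y S.X} (y S.E) tE
  have h1E : δ₁ (y S.E) = 0 := hδ₁ _ (subset_acl _ (Set.mem_singleton _))
  have h2X : δ₂ (y S.X) = 0 := hδ₂ _ (subset_acl _ (Set.mem_singleton _))
  have key : ∀ h : K, (∃ r : ℝ, z h = y h + algebraMap ℝ M r) →
      y (S.DX h) = algebraMap ℝ M q * z (S.DX h) ∧ y (S.DE h) = algebraMap ℝ M q * z (S.DE h) := by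
    rintro h ⟨r, hr⟩
    have e : ∀ δ : Derivation ℝ M M, δ (z h) = δ (y h) := by
      intro δ
      rw [hr, map_add, hconst, add_zero]
    have c1 := e δ₁
    rw [hCr K M S M z δ₁ h, hCr K M S M y δ₁ h, dX, dE, h1E, hδ₁'] at c1
    have c2 := e δ₂
    rw [hCr K M S M z δ₂ h, hCr K M S M y δ₂ h, dX, dE, h2X, hδ₂'] at c2
    constructor
    · have : z (S.DX h) * (algebraMap ℝ M q * 1) + z (S.DE h) * (algebraMap ℝ M q * (0 / y S.E)) =
          algebraMap ℝ M q * z (S.DX h) := by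
        rw [zero_div]; ring
      rw [this] at c1
      rw [c1, zero_div]; ring
    · have h3 : z (S.DX h) * (algebraMap ℝ M q * 0) +
          z (S.DE h) * (algebraMap ℝ M q * (1 / y S.E)) =
          algebraMap ℝ M q * z (S.DE h) * (1 / y S.E) := by ring
      rw [h3] at c2
      have h4 : y (S.DX h) * 0 + y (S.DE h) * (1 / y S.E) = y (S.DE h) * (1 / y S.E) := by ring
      rw [h4] at c2
      have h5 : (1 : M) / y S.E ≠ 0 := by
        rw [one_div]; exact inv_ne_zero hyE
      exact (mul_right_cancel₀ h5 c2).symm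
  obtain ⟨kX, kE⟩ := key P ⟨(n : ℝ), by rw [en]; exact hzP⟩
  have hDEP : S.DE P ≠ 0 := hP.hE
  have hμ : z (mu S P) = y (mu S P) := by
    rw [mu, map_div₀, map_div₀, kX, kE]
    have h6 : z (S.DE P) ≠ 0 := by rw [Ne, map_eq_zero]; exact hDEP
    field_simp
  obtain ⟨hμP, hjac⟩ := hMuN K M S P hP.hX hP.hE
  have hP0 : P ∉ acl ℝ (∅ : Set K) := by
    intro h
    exact hDEP ((hDst ℝ K ∅ S.DE).2 (by simp) P h)
  have hμ0 : mu S P ∉ acl ℝ (∅ : Set K) := fun h => hμP (acl_mono (Set.empty_subset _) h)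
  by_cases hq1 : q = 1
  · -- first case
    rw [hq1, map_one, one_mul] at hzX
    by_cases hc0 : c' = 0
    · rw [hc0, map_zero, add_zero] at hzX
      have e := S.pt_eq y hy z hz hzX.symm
      rw [← e] at hzP
      have h7 : (n : M) = 0 := by
        have := hzP
        rwa [left_eq_add] at this
      exact hn (by exact_mod_cast h7)
    · have hzE' := S.pt_real y hy z hz c' hzX
      rw [hq1, map_one, one_mul] at kE
      have hlc : S.lam * c' ≠ 0 := mul_ne_zero S.lam_pos.ne' hc0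
      have h8 := hI ℝ K M y z S.X S.E (S.DE P) c' (Real.exp (S.lam * c')) JE JX (S.span _) hc0
        (Real.exp_pos _).ne' (by
          intro k hk hk1
          rw [← Real.exp_nat_mul, Real.exp_eq_one_iff] at hk1
          rcases mul_eq_zero.mp hk1 with h | h
          · have : k = 0 := by exact_mod_cast h
            omega
          · exact hlc h) hzX hzE' kE.symm
      have h9 : S.DE (S.DE P) = 0 :=
        (hDst ℝ K ∅ S.DE).2 (by simp) _ (mem_acl_empty.mpr h8)
      exact hDEP (hL K M S P h9)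
  · -- second case
    have hqm1 : q ≠ -1 := by
      intro h
      rw [h] at hzX
      apply S.pt_add y hy z hz c'
      rw [hzX, map_neg, map_one]
      ring
    have hqroot : ∀ k : ℕ, 1 ≤ k → q ^ k ≠ 1 := by
      intro k hk h
      have h10 : |q| ^ k = 1 := by rw [← abs_pow, h, abs_one]
      have h11 : |q| = 1 := by
        rcases (pow_eq_one_iff_of_nonneg (abs_nonneg q) (by omega)).mp h10 with h
        exact h
      rcases (abs_eq (zero_le_one)).mp h11 with h12 | h12
      · exact hq1 h12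
      · exact hqm1 h12
    have h1q : (1 : ℝ) - q ≠ 0 := fun h => hq1 (by linarith)
    set X' : K := S.X - algebraMap ℝ K (c' / (1 - q)) with hX'
    have hzX' : z X' = algebraMap ℝ M q * y X' := by
      rw [hX', map_sub, map_sub, AlgHom.commutes, AlgHom.commutes, hzX]
      have e : c' - c' / (1 - q) = - (q * (c' / (1 - q))) := by field_simp; ring
      have e' : algebraMap ℝ M c' - algebraMap ℝ M (c' / (1 - q)) =
          - (algebraMap ℝ M q * algebraMap ℝ M (c' / (1 - q))) := by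
        rw [← map_sub, e, map_neg, map_mul]
      rw [mul_sub, add_sub_assoc, e']
      ring
    have hPμ : P ∉ acl ℝ ({mu S P} : Set K) := by
      intro h
      have h13 : P ∈ acl ℝ (insert (mu S P) (∅ : Set K)) := by
        rwa [insert_empty_eq]
      have h14 := acl_exchange h13 hP0
      rw [insert_empty_eq] at h14
      exact hμP h14
    have hX'mem : X' ∈ acl ℝ ({mu S P, P} : Set K) := by
      by_contra h
      have r1 := rk_pair (k := ℝ) hP0 hμP
      have r2 := rk_insert_of_notMem h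
      rw [r1] at r2
      have r3 := J2 (insert X' ({mu S P, P} : Set K))
      rw [r2] at r3
      exact absurd r3 (by norm_num)
    have hX'μ := lemB_D hD y z (mu S P) P X' n q hn hq0 hμ hPμ hX'mem hzP hzX'
    have hDXX' : S.DX X' = 1 := by
      rw [hX', map_sub, S.DX_X, Derivation.map_algebraMap, sub_zero]
    have hDEX' : S.DE X' = 0 := by
      rw [hX', map_sub, S.DE_X, Derivation.map_algebraMap, sub_zero]
    have h15 := (J1 (mu S P) X' hμ0).mp hX'μ
    rw [hDXX', hDEX', one_mul, zero_mul] at h15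
    have hX'0 : X' ∉ acl ℝ (∅ : Set K) := by
      intro h
      have h16 := (hDst ℝ K ∅ S.DX).2 (by simp) X' h
      rw [hDXX'] at h16
      exact one_ne_zero h16
    have h17 : mu S P ∈ acl ℝ ({X'} : Set K) := by
      rw [J1 X' (mu S P) hX'0, hDEX', h15, mul_zero, zero_mul]
    have h18 := hD2 ℝ K M y z X' (mu S P) q hq0 hqroot (fun h => hX'0 (mem_acl_empty.mpr h)) h17
      hzX' hμ
    exact hμ0 (mem_acl_empty.mpr h18)

end MP52exp
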