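import Pool.Agent.Lib.MP_52aaf2_al.EX.StmG

/-!
# MP_52aaf2_al, project EX: LemD and LemD2
-/

open Polynomial IntermediateField

namespace MP52exp

namespace PlemD

/-- the automorphism of `k(p)` induced by an automorphism of `k[X]` -/
noncomputable def tau {k K : Type} [Field k] [Field K] [Algebra k K] {p : K}
    (hp : Transcendental k p) (s : k[X] ≃ₐ[k] k[X]) : k⟮p⟯ ≃ₐ[k] k⟮p⟯ :=
  (RatFunc.algEquivOfTranscendental p hp).symm.trans
    ((IsFractionRing.algEquivOfAlgEquiv s : RatFunc k ≃ₐ[k] RatFunc k).trans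
      (RatFunc.algEquivOfTranscendental p hp))

theorem tau_gen {k K : Type} [Field k] [Field K] [Algebra k K] {p : K}
    (hp : Transcendental k p) (s : k[X] ≃ₐ[k] k[X]) :
    tau hp s (AdjoinSimple.gen k p) = aeval (AdjoinSimple.gen k p) (s X) := by
  unfold tau
  rw [AlgEquiv.trans_apply, AlgEquiv.trans_apply, RatFunc.algEquivOfTranscendental_symm_gen,
    ← RatFunc.algebraMap_X, IsFractionRing.algEquivOfAlgEquiv_algebraMap,
    RatFunc.algEquivOfTranscendental_algebraMap]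

theorem ratfun {k K : Type} [Field k] [Field K] [Algebra k K] {p : K}
    (hp : Transcendental k p) (a : k⟮p⟯) :
    ∃ f g : k[X], g ≠ 0 ∧ a = aeval (AdjoinSimple.gen k p) f / aeval (AdjoinSimple.gen k p) g := by
  obtain ⟨u, rfl⟩ := (RatFunc.algEquivOfTranscendental p hp).surjective a
  refine ⟨u.num, u.denom, u.denom_ne_zero, ?_⟩
  conv_lhs => rw [← RatFunc.num_div_denom u]
  rw [map_div₀, RatFunc.algEquivOfTranscendental_algebraMap,
    RatFunc.algEquivOfTranscendental_algebraMap]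

theorem trgen {k K : Type} [Field k] [Field K] [Algebra k K] {p : K}
    (hp : Transcendental k p) : Transcendental k (AdjoinSimple.gen k p) := by
  intro h
  apply hp
  have := h.algebraMap (A := K)
  rwa [AdjoinSimple.algebraMap_gen] at this

theorem core (h1 : GP) (k K M : Type) [Field k] [Field K] [Field M] [Algebra k K] [Algebra k M]
    (y z : K →ₐ[k] M) (p b : K) (q : k) (hq : q ≠ 0)
    (hb : IsAlgebraic k⟮p⟯ b) (τ : k⟮p⟯ ≃ₐ[k] k⟮p⟯)
    (hτ : z p = y (τ (AdjoinSimple.gen k p) : K)) (hz : z b = algebraMap k M q * y b)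
    (hc : ∀ (a : k⟮p⟯) (i : ℕ), τ a = algebraMap k k⟮p⟯ (q ^ i) * a →
      ∃ c : k, a = algebraMap k k⟮p⟯ c) : IsAlgebraic k b := by
  have hhom : (z.comp (IsScalarTower.toAlgHom k k⟮p⟯ K)) =
      (y.comp (IsScalarTower.toAlgHom k k⟮p⟯ K)).comp τ.toAlgHom := by
    apply IntermediateField.algHom_ext_of_eq_adjoin (hS := rfl)
    intro x hx
    obtain rfl : x = p := hx
    exact hτ
  have hcomp : ∀ a : k⟮p⟯, z (algebraMap k⟮p⟯ K a) = y (algebraMap k⟮p⟯ K (τ a)) := fun a =>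
    DFunLike.congr_fun hhom a
  have hcoef := h1 k⟮p⟯ K M y.toRingHom z.toRingHom τ.toRingEquiv hcomp b hb
    (algebraMap k k⟮p⟯ q) (by simpa using hq) (by
      change z b = y (algebraMap k⟮p⟯ K (algebraMap k k⟮p⟯ q) * b)
      rw [← IsScalarTower.algebraMap_apply, map_mul, AlgHom.commutes, hz])
  have hc' : ∀ i, ∃ c : k, (minpoly k⟮p⟯ b).coeff i = algebraMap k k⟮p⟯ c := by
    intro i
    by_cases hi : i ≤ (minpoly k⟮p⟯ b).natDegree
    · refine hc _ ((minpoly k⟮p⟯ b).natDegree - i) ?_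
      rw [map_pow]
      exact hcoef i hi
    · exact ⟨0, by rw [coeff_eq_zero_of_natDegree_lt (not_le.1 hi), map_zero]⟩
  have hlift : minpoly k⟮p⟯ b ∈ Polynomial.lifts (algebraMap k k⟮p⟯) := by
    rw [Polynomial.lifts_iff_coeff_lifts]
    intro i
    obtain ⟨c, hc⟩ := hc' i
    exact ⟨c, hc.symm⟩
  obtain ⟨P, hP⟩ := (Polynomial.mem_lifts _).1 hlift
  refine ⟨P, ?_, ?_⟩
  · rintro rfl
    rw [Polynomial.map_zero] at hP
    exact minpoly.ne_zero hb.isIntegral hP.symm
  · have := minpoly.aeval k⟮p⟯ b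
    rw [← hP, aeval_map_algebraMap] at this
    exact this

end PlemD

theorem P_lemD (h1 : GP) (h2 : RF) : LemD := by
  intro k K M _ _ _ _ _ _ y z p b n q hn hq hp hb hzp hzb
  have hg : PlemD.tau hp (Polynomial.algEquivAevalXAddC n) (AdjoinSimple.gen k p) =
      AdjoinSimple.gen k p + algebraMap k k⟮p⟯ n := by
    rw [PlemD.tau_gen]
    simp
  refine PlemD.core h1 k K M y z p b q hq hb (PlemD.tau hp (Polynomial.algEquivAevalXAddC n)) ?_
    hzb ?_
  · rw [hg]
    push_cast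
    rw [hzp, map_add]
    congr 1
    exact (AlgHom.commutes y n).symm
  · intro a i ha
    exact (h2 k k⟮p⟯ (AdjoinSimple.gen k p) (PlemD.trgen hp) (PlemD.ratfun hp)
      (PlemD.tau hp (Polynomial.algEquivAevalXAddC n)).toAlgHom).1 n (q ^ i) hn hg a ha

theorem P_lemD2 (h1 : GP) (h2 : RF) : LemD2 := by
  intro k K M _ _ _ _ _ _ y z p b q hq hq1 hp hb hzp hzb
  let _ := invertibleOfNonzero hq
  have hg : PlemD.tau hp (Polynomial.algEquivCMulXAddC q 0) (AdjoinSimple.gen k p) =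
      algebraMap k k⟮p⟯ q * AdjoinSimple.gen k p := by
    rw [PlemD.tau_gen]
    simp
  refine PlemD.core h1 k K M y z p b 1 one_ne_zero hb
    (PlemD.tau hp (Polynomial.algEquivCMulXAddC q 0)) ?_ (by rw [map_one, one_mul, hzb]) ?_
  · rw [hg]
    push_cast
    rw [hzp, map_mul]
    congr 1
    exact (AlgHom.commutes y q).symm
  · intro a i ha
    rw [one_pow, map_one, one_mul] at ha
    exact (h2 k k⟮p⟯ (AdjoinSimple.gen k p) (PlemD.trgen hp) (PlemD.ratfun hp)
      (PlemD.tau hp (Polynomial.algEquivCMulXAddC q 0)).toAlgHom).2 q hq hq1 hg a ha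

end MP52exp
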