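import Pool.Agent.Lib.MP_52aaf2_al.EX.StmG

/-!
# MP_52aaf2_al, project EX: (Mat1) and (Trn)
-/

open Polynomial IntermediateField

namespace MP52exp

theorem P_mat1 : Mat1 := by
  intro k F _ _ _ A B a b hA hB hab y hyA hyB hy x hxA hxB
  by_contra hx
  have h2 : rk k ({x, y} : Set F) = 2 := rk_pair hy hx
  have h3 : rk k ({x, y} : Set F) ≤ rk k ((acl k A : Set F) ∩ acl k B) := by
    apply rk_mono
    rintro z (rfl | rfl)
    · exact ⟨hxA, hxB⟩
    · exact ⟨hyA, hyB⟩
  have h4 : rk k ((acl k A : Set F) ∩ acl k B) + rk k ((acl k A : Set F) ∪ acl k B) ≤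
      rk k (acl k A : Set F) + rk k (acl k B : Set F) :=
    Matroid.eRk_inter_add_eRk_union_le _ _ _
  rw [rk_acl, rk_acl, hA, hB] at h4
  have h5 : rk k (A ∪ B) ≤ rk k ((acl k A : Set F) ∪ acl k B) :=
    rk_mono (Set.union_subset_union (subset_acl A) (subset_acl B))
  have h6 : rk k ((acl k A : Set F) ∪ acl k B) ≠ ⊤ := by
    intro h
    rw [h, add_top, top_le_iff] at h4
    exact ENat.natCast_ne_top (a + b) (by rw [← h4]; push_cast; rfl)
  obtain ⟨r, hr⟩ := ENat.ne_top_iff_exists.1 h6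
  rw [← hr] at h4 h5
  have h7 : (2 : ℕ∞) + r ≤ a + b := by
    rw [← h2]
    exact le_trans (add_le_add_left h3 _) h4
  have h8 : (((a + b : ℕ)) : ℕ∞) ≤ r + 1 := le_trans hab (add_le_add_left h5 _)
  have h9 : (2 + r : ℕ) ≤ a + b := by exact_mod_cast h7
  have h10 : a + b ≤ r + 1 := by exact_mod_cast h8
  omega

theorem P_trn : Trn := by
  intro k K F _ _ _ _ _ y T h
  rw [mem_acl', mem_acl']
  have hmap : (Algebra.adjoin k T).map y = Algebra.adjoin k (y '' T) := AlgHom.map_adjoin y T
  let f : Algebra.adjoin k T →ₐ[k] Algebra.adjoin k (y '' T) :=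
    (Subalgebra.inclusion hmap.le).comp (y.subalgebraMap (Algebra.adjoin k T))
  have hf : Function.Injective f := by
    intro a b hab
    have := congrArg Subtype.val hab
    exact Subtype.ext (y.toRingHom.injective this)
  have hs : Function.Surjective f := by
    rintro ⟨c, hc⟩
    rw [← hmap] at hc
    obtain ⟨a, ha, rfl⟩ := hc
    exact ⟨⟨a, ha⟩, rfl⟩
  have hc : RingHom.comp (algebraMap (Algebra.adjoin k (y '' T)) F) f.toRingHom =
      RingHom.comp y.toRingHom (algebraMap (Algebra.adjoin k T) K) := by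
    ext a
    rfl
  constructor
  · intro h1
    exact h1.ringHom_of_comp_eq f.toRingHom y.toRingHom hf hc
  · intro h1
    exact IsAlgebraic.of_ringHom_of_comp_eq f.toRingHom y.toRingHom h1 hs y.toRingHom.injective hc

end MP52exp
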