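import Pool.Agent.Lib.MP_52aaf2_al.EX.StmG
import Pool.Agent.Lib.MP_52aaf2_al.EX.StmS

/-!
# MP_52aaf2_al, project EX: pieces `MuN` and `LemL`
-/

open Polynomial IntermediateField

namespace MP52exp

section MunHelpers

variable {F : Type} [Field F] [Algebra ℝ F]

/-- the kernel of a derivation, as an intermediate field -/
noncomputable def kerF (δ : Derivation ℝ F F) : IntermediateField ℝ F where
  carrier := {a | δ a = 0}
  mul_mem' := fun {a b} (ha : δ a = 0) (hb : δ b = 0) => by
    change δ (a * b) = 0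
    rw [Derivation.leibniz, ha, hb]
    simp
  add_mem' := fun {a b} (ha : δ a = 0) (hb : δ b = 0) => by
    change δ (a + b) = 0
    rw [map_add, ha, hb, add_zero]
  algebraMap_mem' := fun r => δ.map_algebraMap r
  inv_mem' := fun a (ha : δ a = 0) => by
    change δ a⁻¹ = 0
    rw [Derivation.leibniz_inv, ha, smul_zero]

theorem mem_kerF {δ : Derivation ℝ F F} {a : F} : a ∈ kerF δ ↔ δ a = 0 := Iff.rfl

/-- a derivation killing `k` as a derivation over `k` -/
noncomputable def liftDer (δ : Derivation ℝ F F) (k : IntermediateField ℝ F) (h : ∀ a ∈ k, δ a = 0) :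
    Derivation k F F :=
  Derivation.mk'
    { toFun := fun a => δ a
      map_add' := fun a b => map_add δ a b
      map_smul' := fun c a => by
        change δ ((c : F) * a) = (c : F) * δ a
        rw [Derivation.leibniz, h c c.2]
        simp }
    (fun a b => by
      change δ (a * b) = a • δ b + b • δ a
      exact Derivation.leibniz δ a b)

theorem liftDer_apply (δ : Derivation ℝ F F) (k : IntermediateField ℝ F)
    (h : ∀ a ∈ k, δ a = 0) (a : F) : liftDer δ k h a = δ a := rfl

theorem alg_adjoin_of_acl {k : IntermediateField ℝ F} {T : Set F} {z a : F}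
    (hT : ∀ t ∈ T, t ∈ k ∨ t = z) (ha : a ∈ acl ℝ T) : IsAlgebraic k⟮z⟯ a := by
  have h1 : IntermediateField.adjoin ℝ T ≤ (k⟮z⟯).restrictScalars ℝ := by
    rw [IntermediateField.adjoin_le_iff]
    intro t ht
    change t ∈ k⟮z⟯
    rcases hT t ht with h | rfl
    · exact (k⟮z⟯).algebraMap_mem ⟨t, h⟩
    · exact IntermediateField.mem_adjoin_simple_self k t
  rw [mem_acl] at ha
  obtain ⟨p, hp0, hp⟩ := ha
  refine ⟨p.map (IntermediateField.inclusion h1).toRingHom, ?_, ?_⟩
  · rw [Ne, Polynomial.map_eq_zero]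
    exact hp0
  · rw [← hp, Polynomial.aeval_def, Polynomial.aeval_def]
    exact (Polynomial.eval₂_map _ _ _)

end MunHelpers

theorem P_mun (h1 : E0) (h2 : Dst) (h3 : Jac) : MuN := by
  intro K M _ _ _ _ S P hX hE
  obtain ⟨-, j1, -, j3, -⟩ := h3 K M S
  have hP0 : P ∉ acl ℝ (∅ : Set K) := fun h =>
    hX ((h2 ℝ K ∅ S.DX).2 (fun a ha => absurd ha (Set.notMem_empty a)) P h)
  have hmu : mu S P ∉ acl ℝ ({P} : Set K) := by
    intro hmu
    set μ := mu S P with hμ
    let δ : Derivation ℝ K K := S.DX - μ • S.DE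
    have hδ : ∀ a, δ a = S.DX a - μ * S.DE a := fun a => rfl
    have hδP : δ P = 0 := by
      rw [hδ, hμ, mu, div_mul_cancel₀ _ hE, sub_self]
    have hk : ∀ a ∈ acl ℝ ({P} : Set K), δ a = 0 :=
      (h2 ℝ K {P} δ).2 (fun a ha => by rw [Set.mem_singleton_iff.1 ha]; exact hδP)
    have hδX : δ S.X = 1 := by rw [hδ, S.DX_X, S.DE_X, mul_zero, sub_zero]
    have hδE : δ S.E = - μ * S.E := by rw [hδ, S.DX_E, S.DE_E]; ring
    have hXP : S.X ∉ acl ℝ ({P} : Set K) := by
      intro h
      have := hk _ h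
      rw [hδX] at this
      exact one_ne_zero this
    have hEP : S.E ∈ acl ℝ ({S.X, P} : Set K) := by
      by_contra h
      have e1 := rk_insert_of_notMem h
      rw [rk_pair hP0 hXP] at e1
      have e2 := j3 (insert S.E {S.X, P})
      rw [e1] at e2
      exact absurd e2 (by norm_num)
    have : CharZero (kerF δ) :=
      charZero_of_injective_algebraMap (algebraMap ℝ (kerF δ)).injective
    have e := h1 (kerF δ) K (liftDer δ (kerF δ) (fun a ha => ha)) S.X S.E hδX S.E_ne
      (alg_adjoin_of_acl (T := {S.X, P}) (by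
        rintro t (rfl | ht)
        · exact Or.inr rfl
        · rw [Set.mem_singleton_iff.1 ht]
          exact Or.inl hδP) hEP) ⟨- μ, by
        change δ (-μ) = 0
        rw [map_neg, hk μ hmu, neg_zero]⟩ hδE
    have e' : - μ = 0 := congrArg Subtype.val e
    have e'' : μ = 0 := neg_eq_zero.1 e'
    rw [hμ, mu, div_eq_zero_iff] at e''
    rcases e'' with h | h
    · exact hX h
    · exact hE h
  refine ⟨hmu, fun h => hmu ?_⟩
  rw [j1 P (mu S P) hP0]
  rw [jac] at h
  linear_combination -h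

theorem P_lemL (h1 : L0) (h2 : Dst) (h3 : Jac) : LemL := by
  intro K M _ _ _ _ S P hP
  obtain ⟨-, j1, -, -, -⟩ := h3 K M S
  have hX0 : S.X ∉ acl ℝ (∅ : Set K) := by
    intro h
    have := (h2 ℝ K ∅ S.DX).2 (fun a ha => absurd ha (Set.notMem_empty a)) S.X h
    rw [S.DX_X] at this
    exact one_ne_zero this
  have hc : S.DE P ∈ acl ℝ ({S.X} : Set K) := by
    rw [j1 S.X (S.DE P) hX0, hP, S.DE_X]
    ring
  have hk : ∀ a ∈ acl ℝ ({S.X} : Set K), S.DE a = 0 :=
    (h2 ℝ K {S.X} S.DE).2 (fun a ha => by rw [Set.mem_singleton_iff.1 ha]; exact S.DE_X)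
  have : CharZero (acl ℝ ({S.X} : Set K)) :=
    charZero_of_injective_algebraMap (algebraMap ℝ (acl ℝ ({S.X} : Set K))).injective
  have e := h1 (acl ℝ ({S.X} : Set K)) K (liftDer S.DE (acl ℝ ({S.X} : Set K)) hk) S.E P
    S.DE_E S.E_ne (alg_adjoin_of_acl (T := {S.X, S.E}) (by
        rintro t (rfl | ht)
        · exact Or.inl (subset_acl _ rfl)
        · exact Or.inr (Set.mem_singleton_iff.1 ht)) (S.span P)) ⟨S.DE P, hc⟩ rfl
  exact congrArg Subtype.val e

end MP52exp
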