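import Pool.Agent.Lib.MP_52aaf2_al.EX.StmA

/-!
# MP_52aaf2_al, project EX: (NCmp) composition as an embedding of `MG`
-/

open Filter Topology

namespace MP52exp

/-- composition with `g` on `HG` -/
noncomputable def ncmpH (g : ℝ ≃o ℝ) (hg : EvAn g) : HG →ₐ[ℝ] HG where
  toFun a := ⟨a.1.compTendsto g g.tendsto_atTop, by
    obtain ⟨_, f, hf, rfl⟩ := a
    exact ⟨fun x => f (g x), hf.comp hg, rfl⟩⟩
  map_one' := rfl
  map_mul' a b := by
    obtain ⟨f, hf, rfl⟩ := exists_hmk a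
    obtain ⟨k, hk, rfl⟩ := exists_hmk b
    rfl
  map_zero' := rfl
  map_add' a b := by
    obtain ⟨f, hf, rfl⟩ := exists_hmk a
    obtain ⟨k, hk, rfl⟩ := exists_hmk b
    rfl
  commutes' c := rfl

theorem ncmpH_hmk (g : ℝ ≃o ℝ) (hg : EvAn g) (f : ℝ → ℝ) (hf : EvAn f) :
    ncmpH g hg (hmk f hf) = hmk (fun x => f (g x)) (hf.comp hg) := rfl

theorem ncmpH_inj (g : ℝ ≃o ℝ) (hg : EvAn g) : Function.Injective (ncmpH g hg) := by
  intro a b hab
  obtain ⟨f, hf, rfl⟩ := exists_hmk a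
  obtain ⟨k, hk, rfl⟩ := exists_hmk b
  rw [ncmpH_hmk, ncmpH_hmk, hmk_eq] at hab
  rw [hmk_eq]
  have h1 : Tendsto g.symm atTop atTop := g.symm.tendsto_atTop
  have h2 := h1.eventually hab
  filter_upwards [h2] with x hx
  simpa using hx

theorem P_ncmp : NCmp := by
  intro g hg
  have hinj : Function.Injective ((IsScalarTower.toAlgHom ℝ HG MG).comp (ncmpH g hg)) := by
    have h1 : Function.Injective (IsScalarTower.toAlgHom ℝ HG MG) :=
      IsFractionRing.injective HG MG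
    exact h1.comp (ncmpH_inj g hg)
  refine ⟨IsFractionRing.liftAlgHom hinj, fun f hf => ?_⟩
  rw [mmk, IsFractionRing.liftAlgHom_apply, IsFractionRing.lift_algebraMap]
  rfl

end MP52exp
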