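import Pool.Agent.Lib.MP_52aaf2_al.EX.StmA
import Pool.Agent.Lib.MP_52aaf2_al.NormStep

/-!
# MP_52aaf2_al, project EX: the derivation `d/dx` of `MG` and its constants
-/

open Filter Topology

open MP52aaf2 (GermGroup germ alpha FreePair IsAlgGerm IsAlgFun)

namespace MP52exp

private theorem nder_congr {f g : ℝ → ℝ} (h : f =ᶠ[atTop] g) : deriv f =ᶠ[atTop] deriv g := by
  obtain ⟨a, ha⟩ := eventually_atTop.1 h
  filter_upwards [eventually_gt_atTop a] with x hx
  refine Filter.EventuallyEq.deriv_eq ?_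
  filter_upwards [lt_mem_nhds hx] with y hy
  exact ha y hy.le

private noncomputable def nder_fun (a : HG) : HG :=
  hmk (deriv (exists_hmk a).choose) (exists_hmk a).choose_spec.choose.deriv

private theorem nder_fun_hmk (f : ℝ → ℝ) (hf : EvAn f) :
    nder_fun (hmk f hf) = hmk (deriv f) hf.deriv := by
  unfold nder_fun
  rw [hmk_eq]
  apply nder_congr
  have h := (exists_hmk (hmk f hf)).choose_spec.choose_spec
  exact (hmk_eq.1 h).symm

private noncomputable def nder_der : Derivation ℝ HG HG :=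
  Derivation.mk'
    { toFun := nder_fun
      map_add' := by
        intro a b
        obtain ⟨f, hf, rfl⟩ := exists_hmk a
        obtain ⟨g, hg, rfl⟩ := exists_hmk b
        rw [hmk_add, nder_fun_hmk, nder_fun_hmk, nder_fun_hmk, hmk_add, hmk_eq]
        filter_upwards [hf, hg] with x h1 h2
        exact deriv_fun_add h1.differentiableAt h2.differentiableAt
      map_smul' := by
        intro c a
        obtain ⟨f, hf, rfl⟩ := exists_hmk a
        rw [smul_hmk, nder_fun_hmk, nder_fun_hmk, RingHom.id_apply, smul_hmk, hmk_eq]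
        filter_upwards [hf] with x h1
        exact deriv_const_mul c h1.differentiableAt }
    (by
      intro a b
      obtain ⟨f, hf, rfl⟩ := exists_hmk a
      obtain ⟨g, hg, rfl⟩ := exists_hmk b
      show nder_fun (hmk f hf * hmk g hg) = hmk f hf * nder_fun (hmk g hg) +
        hmk g hg * nder_fun (hmk f hf)
      rw [hmk_mul, nder_fun_hmk, nder_fun_hmk, nder_fun_hmk, hmk_mul, hmk_mul, hmk_add, hmk_eq]
      filter_upwards [hf, hg] with x h1 h2
      rw [deriv_fun_mul h1.differentiableAt h2.differentiableAt]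
      ring)

private theorem nder_const {f g : ℝ → ℝ} (hf : EvAn f) (hg : EvAn g) (hg0 : mmk g hg ≠ 0)
    (h : (fun x => deriv f x * g x) =ᶠ[atTop] fun x => f x * deriv g x) :
    ∃ c : ℝ, f =ᶠ[atTop] fun x => c * g x := by
  obtain ⟨c₀, hc⟩ := eventually_atTop.1 ((hf.and hg).and h)
  obtain ⟨x₀, hx₀, hgx⟩ : ∃ x₀, c₀ < x₀ ∧ g x₀ ≠ 0 := by
    by_contra hcon
    push Not at hcon
    apply hg0
    have h1 : mmk g hg = mmk (fun _ => 0) (evAn_const 0) := by
      rw [mmk_eq]
      filter_upwards [eventually_gt_atTop c₀] with x hx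
      exact hcon x hx
    rw [h1, ← algebraMap_MG, map_zero]
  have hne : ∀ᶠ x in 𝓝 x₀, g x ≠ 0 :=
    (hc x₀ hx₀.le).1.2.continuousAt.eventually_ne hgx
  obtain ⟨r, hr, hball⟩ := Metric.eventually_nhds_iff_ball.1 (hne.and (lt_mem_nhds hx₀))
  have hd : DifferentiableOn ℝ (fun x => f x / g x) (Metric.ball x₀ r) := by
    intro x hx
    obtain ⟨h1, h2⟩ := hball x hx
    have h3 := (hc x (le_of_lt h2)).1
    exact (h3.1.differentiableAt.fun_div h3.2.differentiableAt h1).differentiableWithinAt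
  have hz : (Metric.ball x₀ r).EqOn (deriv fun x => f x / g x) 0 := by
    intro x hx
    obtain ⟨h1, h2⟩ := hball x hx
    have h3 := hc x (le_of_lt h2)
    have h4 : deriv f x * g x = f x * deriv g x := h3.2
    rw [deriv_fun_div h3.1.1.differentiableAt h3.1.2.differentiableAt h1, h4]
    simp
  refine ⟨f x₀ / g x₀, ?_⟩
  have hA : ∀ x, c₀ < x → AnalyticAt ℝ (fun x => f x - f x₀ / g x₀ * g x) x := fun x hx =>
    (hc x hx.le).1.1.sub (analyticAt_const.mul (hc x hx.le).1.2)
  have hB : ∀ᶠ x in 𝓝 x₀, f x - f x₀ / g x₀ * g x = 0 := by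
    filter_upwards [Metric.ball_mem_nhds x₀ hr] with x hx
    have h5 := Metric.isOpen_ball.is_const_of_deriv_eq_zero
      (convex_ball x₀ r).isPreconnected hd hz hx (Metric.mem_ball_self hr)
    have h6 : f x / g x = f x₀ / g x₀ := h5
    rw [← h6, div_mul_cancel₀ _ (hball x hx).1, sub_self]
  filter_upwards [eventually_gt_atTop c₀] with x hx
  exact sub_eq_zero.1 (eventually_zero hA hx₀ hB x hx)

theorem P_nder : NDer := by
  have hE : Algebra.FormallyEtale HG MG :=
    Algebra.FormallyEtale.of_isLocalization (nonZeroDivisors HG)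
  obtain ⟨D, hD⟩ := MP52aaf2.exists_derivation_extension ℝ HG MG
    ((Algebra.linearMap HG MG).compDer nder_der)
  have hD1 : ∀ (f : ℝ → ℝ) (hf : EvAn f), D (mmk f hf) = mmk (deriv f) hf.deriv := by
    intro f hf
    have h1 := hD (hmk f hf)
    rw [mmk, h1]
    show algebraMap HG MG (nder_fun (hmk f hf)) = _
    rw [nder_fun_hmk, mmk]
  refine ⟨D, hD1, fun a ha => ?_⟩
  obtain ⟨f, g, hf, hg, hg0, rfl⟩ := exists_mmk_div a
  have h1 : mmk f hf = mmk f hf / mmk g hg * mmk g hg := (div_mul_cancel₀ _ hg0).symm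
  have h2 : D (mmk f hf) = mmk f hf / mmk g hg * D (mmk g hg) := by
    conv_lhs => rw [h1]
    rw [Derivation.leibniz, ha, smul_zero, add_zero, smul_eq_mul]
  have h3 : D (mmk f hf) * mmk g hg = mmk f hf * D (mmk g hg) := by
    rw [h2]
    field_simp
  rw [hD1, hD1, mmk_mul, mmk_mul, mmk_eq] at h3
  obtain ⟨c, hc⟩ := nder_const hf hg hg0 h3
  refine ⟨c, ?_⟩
  rw [eq_div_iff hg0, algebraMap_MG, mmk_mul]
  exact mmk_eq.2 hc.symm

end MP52exp
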