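import Pool.Agent.Lib.MP_52aaf2_al.EX.StmA

/-!
# MP_52aaf2_al, project EX: independence of `x` and `e^{λ x}`, derivations of `KF lam`
-/

open Filter Topology IntermediateField

namespace MP52exp

theorem nk_Dxx (D : Derivation ℝ MG MG)
    (hD : ∀ (f : ℝ → ℝ) (hf : EvAn f), D (mmk f hf) = mmk (deriv f) hf.deriv) : D xx = 1 := by
  have h1 : (1 : MG) = mmk (fun _ => 1) (evAn_const 1) := by
    rw [← algebraMap_MG, map_one]
  rw [xx, hD, h1, mmk_eq]
  exact Eventually.of_forall fun x => deriv_id x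

theorem nk_Dee (D : Derivation ℝ MG MG)
    (hD : ∀ (f : ℝ → ℝ) (hf : EvAn f), D (mmk f hf) = mmk (deriv f) hf.deriv) (lam : ℝ) :
    D (ee lam) = algebraMap ℝ MG lam * ee lam := by
  rw [ee, hD, algebraMap_MG, mmk_mul, mmk_eq]
  refine Eventually.of_forall fun x => ?_
  have h1 : HasDerivAt (fun x : ℝ => lam * x) lam x := by
    simpa using (hasDerivAt_id x).const_mul lam
  have h2 := h1.exp
  rw [h2.deriv]
  ring

theorem nk_ee_ne (lam : ℝ) : ee lam ≠ 0 := by
  intro h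
  have h0 : (0 : MG) = mmk (fun _ => 0) (evAn_const 0) := by
    rw [← algebraMap_MG, map_zero]
  rw [ee, h0, mmk_eq] at h
  obtain ⟨x, hx⟩ := h.exists
  exact (Real.exp_pos _).ne' hx

theorem P_nk (hN : NDer) (hE : E0) (hT : Trn) (hD1 : Der1) (hDs : Dst) : NK := by
  intro lam hlam
  obtain ⟨D, hD, _⟩ := hN
  have hx : D xx = 1 := nk_Dxx D hD
  have he : D (ee lam) = algebraMap ℝ MG lam * ee lam := nk_Dee D hD lam
  have hne : ee lam ≠ 0 := nk_ee_ne lam
  have h1 : ee lam ∉ acl ℝ ({xx} : Set MG) := fun h =>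
    hlam.ne' (hE ℝ MG D xx (ee lam) hx hne h lam he)
  have h2 : ee lam ∉ acl ℝ (∅ : Set MG) := fun h => h1 (acl_mono (Set.empty_subset _) h)
  have h2' : xx ∉ acl ℝ (∅ : Set MG) := by
    intro h
    have h3 := (hDs ℝ MG ∅ D).2 (by simp) _ h
    rw [hx] at h3
    exact one_ne_zero h3
  have h3 : xx ∉ acl ℝ ({ee lam} : Set MG) := by
    intro h
    have e1 : ({ee lam} : Set MG) = insert (ee lam) ∅ := by simp
    have e2 : ({xx} : Set MG) = insert xx ∅ := by simp
    rw [e1] at h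
    apply h1
    rw [e2]
    exact acl_exchange h h2'
  have vx : (KF lam).val (kx lam) = xx := rfl
  have ve : (KF lam).val (ke lam) = ee lam := rfl
  have k1 : kx lam ∉ acl ℝ ({ke lam} : Set (KF lam)) := by
    rw [hT ℝ (KF lam) MG (KF lam).val {ke lam} (kx lam), Set.image_singleton, vx, ve]
    exact h3
  have k2 : ke lam ∉ acl ℝ ({kx lam} : Set (KF lam)) := by
    rw [hT ℝ (KF lam) MG (KF lam).val {kx lam} (ke lam), Set.image_singleton, vx, ve]
    exact h1
  refine ⟨⟨h2, h3⟩, ?_, ?_⟩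
  · intro h
    rw [hT ℝ (KF lam) MG (KF lam).val {kx lam, ke lam} h, Set.image_pair, vx, ve]
    exact h.2
  · obtain ⟨δ, hδ, hδ1⟩ := hD1 ℝ (KF lam) {ke lam} (kx lam) k1
    obtain ⟨ε, hε, hε1⟩ := hD1 ℝ (KF lam) {kx lam} (ke lam) k2
    refine ⟨δ, ke lam • ε, hδ1, hδ _ (subset_acl _ (by simp)), ?_, ?_⟩
    · rw [Derivation.smul_apply, hε _ (subset_acl _ (by simp)), smul_zero]
    · rw [Derivation.smul_apply, hε1, smul_eq_mul, mul_one]

end MP52exp
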