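import Pool.Agent.Lib.MP_52aaf2_al.EX.StmA

/-!
# MP_52aaf2_al, project EX: the system of the analytic germs
-/

open Filter Topology IntermediateField

namespace MP52exp

theorem ns_ext {φ ψ : MG →ₐ[ℝ] MG}
    (h : ∀ (f : ℝ → ℝ) (hf : EvAn f), φ (mmk f hf) = ψ (mmk f hf)) : φ = ψ := by
  refine AlgHom.ext fun a => ?_
  obtain ⟨f, g, hf, hg, _, rfl⟩ := exists_mmk_div a
  rw [map_div₀, map_div₀, h, h]

/-- the embedding given by composition -/
noncomputable def cc (hC : NCmp) (g : ℝ ≃o ℝ) (hg : EvAn g) : MG →ₐ[ℝ] MG := (hC g hg).choose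

theorem cc_mmk (hC : NCmp) (g : ℝ ≃o ℝ) (hg : EvAn g) (f : ℝ → ℝ) (hf : EvAn f) :
    cc hC g hg (mmk f hf) = mmk (fun x => f (g x)) (hf.comp hg) := (hC g hg).choose_spec f hf

/-- composition with a shift -/
noncomputable def cs (hC : NCmp) (s : ℝ) : MG →ₐ[ℝ] MG :=
  cc hC (OrderIso.addRight s) (shift_mem s).1

theorem EvAn.shift {f : ℝ → ℝ} (hf : EvAn f) (s : ℝ) : EvAn (fun x => f (x + s)) :=
  hf.comp (g := OrderIso.addRight s) (shift_mem s).1

theorem cs_mmk (hC : NCmp) (s : ℝ) (f : ℝ → ℝ) (hf : EvAn f) :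
    cs hC s (mmk f hf) = mmk (fun x => f (x + s)) (hf.shift s) := cc_mmk hC _ _ f hf

theorem cs_xx (hC : NCmp) (s : ℝ) : cs hC s xx = xx + algebraMap ℝ MG s := by
  rw [xx, cs_mmk, algebraMap_MG, mmk_add]

theorem cs_ee (hC : NCmp) (s lam : ℝ) :
    cs hC s (ee lam) = algebraMap ℝ MG (Real.exp (lam * s)) * ee lam := by
  rw [ee, cs_mmk, algebraMap_MG, mmk_mul, mmk_eq]
  refine Eventually.of_forall fun x => ?_
  change Real.exp (lam * (x + s)) = Real.exp (lam * s) * Real.exp (lam * x)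
  rw [← Real.exp_add]
  congr 1
  ring

theorem cs_cs (hC : NCmp) (s t : ℝ) : (cs hC s).comp (cs hC t) = cs hC (s + t) := by
  refine ns_ext fun f hf => ?_
  rw [AlgHom.comp_apply, cs_mmk, cs_mmk, cs_mmk, mmk_eq]
  refine Eventually.of_forall fun x => ?_
  change f (x + s + t) = f (x + (s + t))
  rw [add_assoc]

theorem cs_zero (hC : NCmp) : cs hC 0 = AlgHom.id ℝ MG := by
  refine ns_ext fun f hf => ?_
  rw [cs_mmk, AlgHom.id_apply, mmk_eq]
  refine Eventually.of_forall fun x => ?_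
  change f (x + 0) = f x
  rw [add_zero]

theorem cs_mem (hT : Trn) (hC : NCmp) (lam s : ℝ) (h : KF lam) : cs hC s (h : MG) ∈ KF lam := by
  have h1 := (hT ℝ MG MG (cs hC s) {xx, ee lam} h).1 h.2
  refine acl_le_of_subset ?_ h1
  rintro _ ⟨a, ha, rfl⟩
  rcases ha with rfl | rfl
  · rw [cs_xx]
    exact (KF lam).add_mem (subset_acl _ (by simp)) ((KF lam).algebraMap_mem s)
  · rw [cs_ee]
    exact (KF lam).mul_mem ((KF lam).algebraMap_mem _) (subset_acl _ (by simp))

/-- the shift on `KF lam` -/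
noncomputable def kshf (hT : Trn) (hC : NCmp) (lam s : ℝ) : KF lam →ₐ[ℝ] KF lam :=
  ((cs hC s).comp (KF lam).val).codRestrict (KF lam).toSubalgebra (fun h => cs_mem hT hC lam s h)

theorem coe_kshf (hT : Trn) (hC : NCmp) (lam s : ℝ) (h : KF lam) :
    ((kshf hT hC lam s h : KF lam) : MG) = cs hC s (h : MG) := rfl

theorem kshf_comp (hT : Trn) (hC : NCmp) (lam s t : ℝ) (h0 : s + t = 0) :
    (kshf hT hC lam s).comp (kshf hT hC lam t) = AlgHom.id ℝ (KF lam) := by
  refine AlgHom.ext fun h => ?_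
  apply Subtype.ext
  rw [AlgHom.comp_apply, coe_kshf, coe_kshf, ← AlgHom.comp_apply, cs_cs, h0, cs_zero]
  rfl

/-- the shift on `KF lam` -/
noncomputable def ksh (hT : Trn) (hC : NCmp) (lam s : ℝ) : KF lam ≃ₐ[ℝ] KF lam :=
  AlgEquiv.ofAlgHom (kshf hT hC lam s) (kshf hT hC lam (-s))
    (kshf_comp hT hC lam s (-s) (by ring)) (kshf_comp hT hC lam (-s) s (by ring))

theorem coe_ksh (hT : Trn) (hC : NCmp) (lam s : ℝ) (h : KF lam) :
    ((ksh hT hC lam s h : KF lam) : MG) = cs hC s (h : MG) := rfl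

/-- the point given by `g` -/
noncomputable def kpt (hC : NCmp) (lam : ℝ) (g : ℝ ≃o ℝ) (hg : EvAn g) : KF lam →ₐ[ℝ] MG :=
  (cc hC g hg).comp (KF lam).val

theorem kpt_apply (hC : NCmp) (lam : ℝ) (g : ℝ ≃o ℝ) (hg : EvAn g) (h : KF lam) :
    kpt hC lam g hg h = cc hC g hg (h : MG) := rfl

theorem kpt_kx (hC : NCmp) (lam : ℝ) (g : ℝ ≃o ℝ) (hg : EvAn g) :
    kpt hC lam g hg (kx lam) = mmk g hg := by
  rw [kpt_apply]
  change cc hC g hg (mmk (fun x => x) evAn_id) = _
  rw [cc_mmk]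

theorem kpt_ke (hC : NCmp) (lam : ℝ) (g : ℝ ≃o ℝ) (hg : EvAn g) :
    kpt hC lam g hg (ke lam) = mmk (fun x => Real.exp (lam * g x)) ((evAn_exp lam).comp hg) := by
  rw [kpt_apply]
  change cc hC g hg (mmk (fun x => Real.exp (lam * x)) (evAn_exp lam)) = _
  rw [cc_mmk]

theorem ns_deriv_ne (g : ℝ ≃o ℝ) (hg : EvAn g) : ¬ (deriv g =ᶠ[atTop] fun _ => 0) := by
  intro h
  obtain ⟨a, ha⟩ := eventually_atTop.1 (hg.and h)
  have hab : a < a + 1 := by linarith
  have hc : ContinuousOn g (Set.Icc a (a + 1)) := fun x hx =>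
    (ha x hx.1).1.continuousAt.continuousWithinAt
  have hd : DifferentiableOn ℝ g (Set.Ioo a (a + 1)) := fun x hx =>
    (ha x hx.1.le).1.differentiableAt.differentiableWithinAt
  obtain ⟨c, hc1, hc2⟩ := exists_deriv_eq_slope g hab hc hd
  rw [(ha c hc1.1.le).2] at hc2
  have h3 : g a < g (a + 1) := g.strictMono hab
  have h4 : (0 : ℝ) < (g (a + 1) - g a) / (a + 1 - a) := div_pos (by linarith) (by linarith)
  linarith

theorem P_nsys (hN : NDer) (hC : NCmp) (hK : NK) (hT : Trn) : NSys := by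
  intro lam hlam
  obtain ⟨D, hD, hconst⟩ := hN
  obtain ⟨⟨_, _⟩, hspan, DX, DE, d1, d2, d3, d4⟩ := hK lam hlam
  have hm0 : (0 : MG) = mmk (fun _ => 0) (evAn_const 0) := by
    rw [← algebraMap_MG, map_zero]
  let S : Sys (KF lam) MG :=
    { X := kx lam
      E := ke lam
      DX := DX
      DE := DE
      DX_X := d1
      DX_E := d2
      DE_X := d3
      DE_E := d4
      E_ne := by
        intro h
        have h1 : ee lam = 0 := congrArg Subtype.val h
        rw [ee, hm0, mmk_eq] at h1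
        obtain ⟨x, hx⟩ := h1.exists
        exact (Real.exp_pos _).ne' hx
      span := hspan
      lam := lam
      lam_pos := hlam
      sh := fun s => ksh hT hC lam s
      sh_X := by
        intro s
        apply Subtype.ext
        rw [coe_ksh]
        change cs hC s xx = _
        rw [cs_xx]
        simp [kx]
      sh_E := by
        intro s
        apply Subtype.ext
        rw [coe_ksh]
        change cs hC s (ee lam) = _
        rw [cs_ee]
        rfl
      D := D
      const := hconst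
      Pt := {y | ∃ g : ℝ ≃o ℝ, ∃ hg : g ∈ AnG, y = kpt hC lam g hg.1}
      pt_ne := by
        rintro _ ⟨g, hg, rfl⟩ h
        rw [kpt_kx, hD, hm0, mmk_eq] at h
        exact ns_deriv_ne g hg.1 h
      pt_exp := by
        rintro _ ⟨g, hg, rfl⟩
        rw [kpt_kx, kpt_ke, hD, hD, mmk_mul, algebraMap_MG, mmk_mul, mmk_eq]
        filter_upwards [hg.1] with x hx
        have h1 : HasDerivAt g (deriv g x) x := hx.differentiableAt.hasDerivAt
        have h2 : HasDerivAt (fun x => lam * g x) (lam * deriv g x) x := h1.const_mul lam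
        rw [h2.exp.deriv]
        ring
      pt_add := by
        rintro _ ⟨g, hg, rfl⟩ _ ⟨h, hh, rfl⟩ c e
        rw [kpt_kx, kpt_kx, mmk_add, algebraMap_MG, mmk_eq] at e
        have h1 : Tendsto (fun x => g x + h x) atTop atTop :=
          g.tendsto_atTop.atTop_add_atTop h.tendsto_atTop
        obtain ⟨x, hx1, hx2⟩ := ((h1.eventually_gt_atTop c).and e).exists
        have hx3 : g x + h x = c := hx2
        linarith
      pt_eq := by
        rintro _ ⟨g, hg, rfl⟩ _ ⟨h, hh, rfl⟩ e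
        rw [kpt_kx, kpt_kx, mmk_eq] at e
        have h1 : cc hC g hg.1 = cc hC h hh.1 := by
          refine ns_ext fun f hf => ?_
          rw [cc_mmk, cc_mmk, mmk_eq]
          filter_upwards [e] with x hx
          rw [hx]
        rw [kpt, kpt, h1]
      pt_real := by
        rintro _ ⟨g, hg, rfl⟩ _ ⟨h, hh, rfl⟩ c e
        rw [kpt_kx, kpt_kx, algebraMap_MG, mmk_add, mmk_eq] at e
        rw [kpt_ke, kpt_ke, algebraMap_MG, mmk_mul, mmk_eq]
        filter_upwards [e] with x hx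
        rw [hx, ← Real.exp_add]
        congr 1
        ring
      pt_sh := by
        rintro _ ⟨g, hg, rfl⟩ s
        refine ⟨OrderIso.addRight (s : ℝ) * g, mul_mem (shift_mem _) hg, ?_⟩
        refine AlgHom.ext fun a => ?_
        have h1 : (cc hC g hg.1).comp (cs hC s) =
            cc hC (OrderIso.addRight (s : ℝ) * g) (mul_mem (shift_mem (s : ℝ)) hg).1 := by
          refine ns_ext fun f hf => ?_
          rw [AlgHom.comp_apply, cs_mmk, cc_mmk, cc_mmk]
          rfl
        change cc hC g hg.1 ((ksh hT hC lam s a : KF lam) : MG) = _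
        rw [coe_ksh, ← AlgHom.comp_apply, h1]
        rfl }
  refine ⟨S, rfl, rfl, rfl, ?_, ?_⟩
  · intro s h f hf hf' e
    change cs hC s (h : MG) = _
    rw [e, cs_mmk]
  · intro g hg
    refine ⟨kpt hC lam g hg.1, ⟨g, hg, rfl⟩, ?_⟩
    intro h f hf hf' e
    rw [kpt_apply, e, cc_mmk]

end MP52exp
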