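import Pool.Agent.Lib.MP_52aaf2_al.EX.StmA

/-!
# MP_52aaf2_al, project EX: no zeros near `+∞` (helper80)
-/

open Filter Topology Asymptotics

namespace MP52exp

/-- comparison of two monomials in `x, e^{λx}` -/
theorem nz_term {lam : ℝ} (hl : 0 < lam) {a b a' b' : ℕ} (h : b < b' ∨ (b = b' ∧ a < a')) :
    (fun x : ℝ => x ^ a * Real.exp (lam * x) ^ b) =o[atTop]
      fun x : ℝ => x ^ a' * Real.exp (lam * x) ^ b' := by
  rcases h with h | ⟨rfl, h⟩
  · obtain ⟨k, rfl⟩ := Nat.exists_eq_add_of_lt h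
    have h1 : (fun x : ℝ => x ^ a) =o[atTop] fun x : ℝ => Real.exp (lam * x) ^ (k + 1) := by
      refine (isLittleO_pow_exp_pos_mul_atTop a hl).trans_isBigO ?_
      refine IsBigO.of_bound 1 ?_
      filter_upwards [eventually_ge_atTop (0 : ℝ)] with x hx
      have h2 : 1 ≤ Real.exp (lam * x) := Real.one_le_exp (by positivity)
      rw [Real.norm_of_nonneg (Real.exp_pos _).le, Real.norm_of_nonneg (by positivity), one_mul]
      calc Real.exp (lam * x) = Real.exp (lam * x) ^ 1 := (pow_one _).symm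
        _ ≤ Real.exp (lam * x) ^ (k + 1) := pow_le_pow_right₀ h2 (by omega)
    have h3 : (fun x : ℝ => x ^ a * Real.exp (lam * x) ^ b) =o[atTop]
        fun x : ℝ => Real.exp (lam * x) ^ (k + 1) * Real.exp (lam * x) ^ b :=
      h1.mul_isBigO (isBigO_refl _ _)
    refine h3.trans_isBigO ?_
    refine IsBigO.of_bound 1 ?_
    filter_upwards [eventually_ge_atTop (1 : ℝ)] with x hx
    have h4 : 1 ≤ x ^ a' := one_le_pow₀ hx
    rw [Real.norm_of_nonneg (by positivity), Real.norm_of_nonneg (by positivity), one_mul,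
      ← pow_add, show k + 1 + b = b + k + 1 by omega]
    have h5 : 0 ≤ Real.exp (lam * x) ^ (b + k + 1) := by positivity
    nlinarith
  · exact (isLittleO_pow_pow_atTop_of_lt h).mul_isBigO (isBigO_refl _ _)

theorem nz_aeval (lam x : ℝ) (Q : MvPolynomial (Fin 2) ℝ) :
    MvPolynomial.aeval ![x, Real.exp (lam * x)] Q =
      ∑ d ∈ Q.support, Q.coeff d * (x ^ d 0 * Real.exp (lam * x) ^ d 1) := by
  rw [MvPolynomial.aeval_def, MvPolynomial.eval₂_eq']
  refine Finset.sum_congr rfl fun d _ => ?_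
  rw [Fin.prod_univ_two]
  rfl

theorem nz_one {lam : ℝ} (hl : 0 < lam) (Q : MvPolynomial (Fin 2) ℝ) (hQ : Q ≠ 0) :
    ∀ᶠ x : ℝ in atTop, MvPolynomial.aeval ![x, Real.exp (lam * x)] Q ≠ 0 := by
  have hne : Q.support.Nonempty := by
    rw [Finset.nonempty_iff_ne_empty, Ne, MvPolynomial.support_eq_empty]
    exact hQ
  obtain ⟨m, hm, hmax⟩ := Finset.exists_max_image Q.support (fun d => toLex (d 1, d 0)) hne
  have hc : Q.coeff m ≠ 0 := MvPolynomial.mem_support_iff.1 hm
  have hlo : (fun x : ℝ => ∑ d ∈ Q.support.erase m,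
      Q.coeff d * (x ^ d 0 * Real.exp (lam * x) ^ d 1)) =o[atTop]
      fun x : ℝ => x ^ m 0 * Real.exp (lam * x) ^ m 1 := by
    refine IsLittleO.fun_sum fun d hd => ?_
    refine IsLittleO.const_mul_left (nz_term hl ?_) _
    obtain ⟨hdm, hds⟩ := Finset.mem_erase.1 hd
    have h1 := hmax d hds
    rw [Prod.Lex.toLex_le_toLex] at h1
    rcases h1 with h1 | ⟨h1, h2⟩
    · exact Or.inl h1
    · refine Or.inr ⟨h1, lt_of_le_of_ne h2 fun h3 => hdm ?_⟩
      ext i
      fin_cases i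
      · exact h3
      · exact h1
  have hb := hlo.bound (show 0 < |Q.coeff m| / 2 by positivity)
  filter_upwards [hb, eventually_gt_atTop (0 : ℝ)] with x hx hx0
  rw [nz_aeval, ← Finset.add_sum_erase _ _ hm]
  intro h
  have h1 : 0 < x ^ m 0 * Real.exp (lam * x) ^ m 1 := by positivity
  rw [Real.norm_eq_abs, Real.norm_eq_abs, abs_of_pos h1] at hx
  have h2 : ∑ d ∈ Q.support.erase m, Q.coeff d * (x ^ d 0 * Real.exp (lam * x) ^ d 1) =
      -(Q.coeff m * (x ^ m 0 * Real.exp (lam * x) ^ m 1)) := by linarith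
  rw [h2, abs_neg, abs_mul, abs_of_pos h1] at hx
  have h3 : 0 < |Q.coeff m| * (x ^ m 0 * Real.exp (lam * x) ^ m 1) := by positivity
  linarith

theorem nz_germ (lam : ℝ) (Q : MvPolynomial (Fin 2) ℝ) :
    ∃ hQ : EvAn (fun x => MvPolynomial.aeval ![x, Real.exp (lam * x)] Q),
      MvPolynomial.aeval ![hmk (fun x => x) evAn_id,
        hmk (fun x => Real.exp (lam * x)) (evAn_exp lam)] Q = hmk _ hQ := by
  induction Q using MvPolynomial.induction_on with
  | C a =>
    have h1 : (fun x => MvPolynomial.aeval ![x, Real.exp (lam * x)]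
        (MvPolynomial.C a : MvPolynomial (Fin 2) ℝ)) = fun _ => a := by
      funext x
      rw [MvPolynomial.aeval_C]
      rfl
    rw [h1]
    refine ⟨evAn_const a, ?_⟩
    rw [MvPolynomial.aeval_C]
    rfl
  | add p q hp hq =>
    obtain ⟨hp1, hp2⟩ := hp
    obtain ⟨hq1, hq2⟩ := hq
    have h1 : (fun x => MvPolynomial.aeval ![x, Real.exp (lam * x)] (p + q)) =
        fun x => MvPolynomial.aeval ![x, Real.exp (lam * x)] p +
          MvPolynomial.aeval ![x, Real.exp (lam * x)] q := by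
      funext x
      rw [map_add]
    rw [h1]
    refine ⟨hp1.add hq1, ?_⟩
    rw [map_add, hp2, hq2, hmk_add]
  | mul_X p i hp =>
    obtain ⟨hp1, hp2⟩ := hp
    have h1 : (fun x => MvPolynomial.aeval ![x, Real.exp (lam * x)] (p * MvPolynomial.X i)) =
        fun x => MvPolynomial.aeval ![x, Real.exp (lam * x)] p *
          (![x, Real.exp (lam * x)] : Fin 2 → ℝ) i := by
      funext x
      rw [map_mul, MvPolynomial.aeval_X]
    rw [h1]
    fin_cases i
    · refine ⟨hp1.mul evAn_id, ?_⟩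
      rw [map_mul, hp2, MvPolynomial.aeval_X]
      exact hmk_mul hp1 evAn_id
    · refine ⟨hp1.mul (evAn_exp lam), ?_⟩
      rw [map_mul, hp2, MvPolynomial.aeval_X]
      exact hmk_mul hp1 (evAn_exp lam)

theorem nz_two {lam : ℝ} (hl : 0 < lam) (f : ℝ → ℝ) (hf : EvAn f) (h : mmk f hf ∈ KF lam)
    (h0 : mmk f hf ≠ 0) : ∀ᶠ x in atTop, f x ≠ 0 := by
  have halg := mem_acl'.1 h
  obtain ⟨q, hq0, hq⟩ := halg.exists_nonzero_coeff_and_aeval_eq_zero
    (mem_nonZeroDivisors_of_ne_zero h0)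
  obtain ⟨v, hv⟩ : ∃ v : Fin 2 → HG, v = ![hmk (fun x => x) evAn_id,
        hmk (fun x => Real.exp (lam * x)) (evAn_exp lam)] := ⟨_, rfl⟩
  have hS : ({xx, ee lam} : Set MG) = Set.range fun i => algebraMap HG MG (v i) := by
    rw [hv]
    ext z
    constructor
    · rintro (rfl | rfl)
      · exact ⟨0, rfl⟩
      · exact ⟨1, rfl⟩
    · rintro ⟨i, rfl⟩
      fin_cases i
      · left; rfl
      · right; rfl
  have hP' : ∀ z : MG, z ∈ Algebra.adjoin ℝ ({xx, ee lam} : Set MG) →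
      ∃ P : MvPolynomial (Fin 2) ℝ, algebraMap HG MG (MvPolynomial.aeval v P) = z := by
    intro z hz
    rw [hS, Algebra.adjoin_range_eq_range_aeval] at hz
    obtain ⟨P, hP⟩ := hz
    refine ⟨P, ?_⟩
    rw [← MvPolynomial.aeval_algebraMap_apply]
    exact hP
  have hP : ∀ i, ∃ P : MvPolynomial (Fin 2) ℝ,
      algebraMap HG MG (MvPolynomial.aeval v P) = ((q.coeff i : Algebra.adjoin ℝ _) : MG) :=
    fun i => hP' _ (q.coeff i).2
  choose P hP using hP
  rw [Polynomial.aeval_eq_sum_range] at hq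
  have h2 : algebraMap HG MG (∑ i ∈ Finset.range (q.natDegree + 1),
      MvPolynomial.aeval v (P i) * hmk f hf ^ i) = algebraMap HG MG 0 := by
    rw [map_sum, map_zero, ← hq]
    refine Finset.sum_congr rfl fun i _ => ?_
    rw [map_mul, hP i, map_pow, Algebra.smul_def]
    rfl
  have h3 := IsFractionRing.injective HG MG h2
  rw [Finset.sum_range_succ'] at h3
  have h4 : MvPolynomial.aeval v (P 0) = hmk f hf * -(∑ i ∈ Finset.range q.natDegree,
      MvPolynomial.aeval v (P (i + 1)) * hmk f hf ^ i) := by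
    have h5 : ∑ i ∈ Finset.range q.natDegree, MvPolynomial.aeval v (P (i + 1)) *
        hmk f hf ^ (i + 1) = hmk f hf * ∑ i ∈ Finset.range q.natDegree,
        MvPolynomial.aeval v (P (i + 1)) * hmk f hf ^ i := by
      rw [Finset.mul_sum]
      refine Finset.sum_congr rfl fun i _ => ?_
      ring
    rw [h5, pow_zero, mul_one] at h3
    rw [mul_neg, eq_neg_iff_add_eq_zero, add_comm]
    exact h3
  obtain ⟨g, hg, hgeq⟩ := exists_hmk (-(∑ i ∈ Finset.range q.natDegree,
      MvPolynomial.aeval v (P (i + 1)) * hmk f hf ^ i))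
  obtain ⟨hQ1, hQ2⟩ := nz_germ lam (P 0)
  rw [hgeq, hv, hQ2, hmk_mul, hmk_eq] at h4
  have hP0 : P 0 ≠ 0 := by
    intro h5
    have h6 := hP 0
    rw [h5, map_zero, map_zero] at h6
    exact hq0 (Subtype.ext h6.symm)
  filter_upwards [h4, nz_one hl (P 0) hP0] with x hx1 hx2 hx3
  apply hx2
  rw [hx1, hx3, zero_mul]

/-- **(Nz)** -/
theorem P_nz : Nz := fun _ hl => ⟨fun Q hQ => nz_one hl Q hQ, fun f hf h h0 => nz_two hl f hf h h0⟩

end MP52exp
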