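import Pool.Agent.Lib.MP_52aaf2_al.EX.P_gr

/-!
# MP_52aaf2_al, project EX: intersections in a chain
-/

open Polynomial IntermediateField

namespace MP52exp

section

variable {K M : Type} [Field K] [Field M] [Algebra ℝ K] [Algebra ℝ M] {S : Sys K M}

theorem r1_union (y : ℕ → (K →ₐ[ℝ] M)) {i m r : ℕ} (h1 : i ≤ m) (h2 : m ≤ r) :
    gens S y i m ∪ gens S y m r = gens S y i r := by
  unfold gens
  ext x
  simp only [Set.mem_iUnion, Set.mem_Ico, Set.mem_union, exists_prop]
  constructor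
  · rintro (⟨l, ⟨h3, h4⟩, h5⟩ | ⟨l, ⟨h3, h4⟩, h5⟩)
    · exact ⟨l, ⟨h3, by omega⟩, h5⟩
    · exact ⟨l, ⟨by omega, h4⟩, h5⟩
  · rintro ⟨l, ⟨h3, h4⟩, h5⟩
    rcases lt_or_ge l m with h6 | h6
    · exact Or.inl ⟨l, ⟨h3, h6⟩, h5⟩
    · exact Or.inr ⟨l, ⟨h6, h4⟩, h5⟩

/-- the outgoing element is not algebraic -/
theorem r1_out (trn : Trn) {r : ℕ} {y : ℕ → (K →ₐ[ℝ] M)} {a b : ℕ → K}
    (hc : PreChain S r y a b) {j : ℕ} (hj : j < r) : y j (b j) ∉ acl ℝ (∅ : Set M) := by
  intro h
  have h1 : b j ∈ acl ℝ (∅ : Set K) := by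
    rw [trn ℝ K M (y j) ∅ (b j), Set.image_empty]
    exact h
  exact hc.ab2 j hj (acl_mono (Set.empty_subset _) h1)

end

theorem P_r1 (mat : Mat1) (gr : GR) (jac : Jac) (trn : Trn) : R1 := by
  intro K M _ _ _ _ S r y a b hc hq
  refine ⟨?_, ?_⟩
  · intro m h1 h2 x hx hx'
    have hA := gr K M S r y a b hc hq 0 m (by omega) (by omega)
    have hB := gr K M S r y a b hc hq m r h2 le_rfl
    have hAB := gr K M S r y a b hc hq 0 r (by omega) le_rfl
    refine mat ℝ M (gens S y 0 m) (gens S y m r) (m + 1) (r - m + 1) ?_ ?_ ?_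
      (y (m - 1) (b (m - 1))) ?_ ?_ ?_ x hx hx'
    · rw [hA, Nat.sub_zero]; push_cast; rfl
    · rw [hB]; push_cast; rfl
    · rw [r1_union y (Nat.zero_le m) h2.le, hAB, Nat.sub_zero]
      have : m + 1 + (r - m + 1) = r + 1 + 1 := by omega
      rw [this]; push_cast; exact le_rfl
    · exact gr_mem_gens trn S y (Nat.zero_le _) (by omega) _
    · have h3 := hc.link (m - 1) (by omega)
      have h4 : m - 1 + 1 = m := by omega
      rw [h4] at h3
      have h5 : y (m - 1) (b (m - 1)) ∈ acl ℝ ({y m (a m)} : Set M) := by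
        rw [h3]; exact subset_acl _ (Set.mem_singleton _)
      refine acl_le_of_subset ?_ h5
      intro z hz
      rw [Set.mem_singleton_iff.1 hz]
      exact gr_mem_gens trn S y le_rfl h2 _
    · exact r1_out trn hc (by omega)
  · intro hr hmem
    have hA := gr K M S r y a b hc hq 0 (r - 1) (by omega) (by omega)
    have hB := gr K M S r y a b hc hq 0 r (by omega) le_rfl
    have hsub : gens S y 0 r ⊆ acl ℝ (gens S y 0 (r - 1)) := by
      have e : gens S y 0 r = gens S y 0 (r - 1) ∪ gen S (y (r - 1)) := by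
        have := gr_gens_succ (S := S) y (i := 0) (j := r - 1) (Nat.zero_le _)
        rwa [show r - 1 + 1 = r by omega] at this
      rw [e]
      have ha : y (r - 1) (a (r - 1)) ∈ acl ℝ (gens S y 0 (r - 1)) := by
        have h1 := gr_link hc (j := r - 2) (by omega)
        rw [show r - 2 + 1 = r - 1 by omega] at h1
        refine acl_le_of_subset ?_ h1
        intro z hz
        rw [Set.mem_singleton_iff.1 hz]
        exact gr_mem_gens trn S y (Nat.zero_le _) (by omega) _
      have h2 : ({y (r - 1) (b (r - 1)), y (r - 1) (a (r - 1))} : Set M) ⊆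
          acl ℝ (gens S y 0 (r - 1)) := by
        rintro z (rfl | hz)
        · exact hmem
        · rw [Set.mem_singleton_iff.1 hz]; exact ha
      rintro x (hx | hx)
      · exact subset_acl _ hx
      · rcases hx with rfl | hx
        · exact acl_le_of_subset h2 (gr_gen_sub jac trn S (y (r - 1))
            (hc.ab1 (r - 1) (by omega)) (hc.ab2 (r - 1) (by omega)) _)
        · rw [Set.mem_singleton_iff.1 hx]
          exact acl_le_of_subset h2 (gr_gen_sub jac trn S (y (r - 1))
            (hc.ab1 (r - 1) (by omega)) (hc.ab2 (r - 1) (by omega)) _)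
    have h3 := rk_mono_acl hsub
    rw [hA, hB] at h3
    have h4 : ((r - 0 : ℕ) : ℕ∞) + 1 = ((r + 1 : ℕ) : ℕ∞) := by
      rw [Nat.sub_zero]; push_cast; rfl
    have h5 : ((r - 1 - 0 : ℕ) : ℕ∞) + 1 = ((r - 1 + 1 : ℕ) : ℕ∞) := by
      rw [Nat.sub_zero]; push_cast; rfl
    rw [h4, h5, Nat.cast_le] at h3
    omega

end MP52exp
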