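import Pool.Agent.Lib.MP_52aaf2_al.EX.StmG

/-!
# MP_52aaf2_al, project EX: piece (RF)
-/

open Polynomial IntermediateField

namespace MP52exp

theorem rf_repr {k K₀ : Type} [Field k] [Field K₀] [Algebra k K₀] (p : K₀)
    (hp : Transcendental k p) (a : K₀)
    (ha : ∃ f g : k[X], g ≠ 0 ∧ a = aeval p f / aeval p g) :
    ∃ f g : k[X], g ≠ 0 ∧ a * aeval p g = aeval p f ∧
      ∀ f' g' : k[X], g' ≠ 0 → a * aeval p g' = aeval p f' → g ∣ g' := by
  classical
  have hinj : Function.Injective (aeval p : k[X] →ₐ[k] K₀) :=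
    transcendental_iff_injective.1 hp
  have hex : ∃ n : ℕ, ∃ f g : k[X], g ≠ 0 ∧ a * aeval p g = aeval p f ∧ g.natDegree = n := by
    obtain ⟨f, g, hg, h⟩ := ha
    refine ⟨g.natDegree, f, g, hg, ?_, rfl⟩
    have hne : aeval p g ≠ 0 := fun h0 => hg (hinj (by rw [h0, map_zero]))
    rw [h, div_mul_cancel₀ _ hne]
  obtain ⟨f, g, hg, hfg, hn⟩ := Nat.find_spec hex
  refine ⟨f, g, hg, hfg, fun f' g' hg' h' => ?_⟩
  by_contra hnd
  have hr : g' % g ≠ 0 := fun h => hnd (EuclideanDomain.mod_eq_zero.1 h)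
  have hdeg : (g' % g).natDegree < g.natDegree :=
    Polynomial.natDegree_lt_natDegree hr (EuclideanDomain.mod_lt g' hg)
  refine Nat.find_min hex (m := (g' % g).natDegree) (by rw [← hn]; exact hdeg) ?_
  refine ⟨f' - f * (g' / g), g' % g, hr, ?_, rfl⟩
  have hm : g' % g = g' - g * (g' / g) := EuclideanDomain.mod_eq_sub_mul_div g' g
  rw [hm, map_sub, map_sub, map_mul, map_mul, mul_sub, h', ← mul_assoc, hfg]

theorem rf_dvd_same {k : Type} [Field k] {g h : k[X]} (hg : g ≠ 0) (hd : g ∣ h)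
    (hdeg : h.natDegree = g.natDegree) : ∃ c : k, h = C c * g := by
  obtain ⟨s, hs⟩ := hd
  by_cases hs0 : s = 0
  · exact ⟨0, by rw [hs, hs0]; simp⟩
  have h1 : s.natDegree = 0 := by
    have := Polynomial.natDegree_mul hg hs0
    rw [← hs, hdeg] at this
    omega
  obtain ⟨c, hc⟩ := Polynomial.natDegree_eq_zero.1 h1
  exact ⟨c, by rw [hs, ← hc, mul_comm]⟩

/-- A nonzero polynomial with `P(X + n) = u P(X)`, `n ≠ 0`, is a constant and `u = 1`. -/
theorem rf_per {k : Type} [Field k] [CharZero k] {n u : k} (hn : n ≠ 0) {P : k[X]} (hP : P ≠ 0)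
    (h : P.comp (X + C n) = C u * P) : u = 1 ∧ P = C (P.eval 0) := by
  have hX : (X + C n : k[X]).natDegree ≠ 0 := by
    rw [Polynomial.natDegree_X_add_C]; exact one_ne_zero
  have hu : u = 1 := by
    have h1 := congrArg Polynomial.leadingCoeff h
    rw [Polynomial.leadingCoeff_comp hX, Polynomial.leadingCoeff_X_add_C, one_pow, mul_one,
      Polynomial.leadingCoeff_mul, Polynomial.leadingCoeff_C] at h1
    have h2 : P.leadingCoeff ≠ 0 := Polynomial.leadingCoeff_ne_zero.2 hP
    exact (mul_right_cancel₀ h2 (by rw [one_mul]; exact h1)).symm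
  refine ⟨hu, ?_⟩
  rw [hu, C_1, one_mul] at h
  have hev : ∀ m : ℕ, P.eval ((m : k) * n) = P.eval 0 := by
    intro m
    induction m with
    | zero => simp
    | succ m ih =>
      have h1 := congrArg (Polynomial.eval ((m : k) * n)) h
      rw [Polynomial.eval_comp] at h1
      simp only [eval_add, eval_X, eval_C] at h1
      rw [← ih, ← h1]
      congr 1
      push_cast
      ring
  have hz : P - C (P.eval 0) = 0 := by
    apply Polynomial.eq_zero_of_infinite_isRoot
    have hsub : Set.range (fun m : ℕ => (m : k) * n) ⊆ {x | IsRoot (P - C (P.eval 0)) x} := by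
      rintro _ ⟨m, rfl⟩
      simp only [Set.mem_ofPred_eq, IsRoot.def, eval_sub, eval_C]
      rw [hev m, sub_self]
    refine Set.Infinite.mono hsub (Set.infinite_range_of_injective ?_)
    intro m m' hmm
    have := mul_right_cancel₀ hn hmm
    exact_mod_cast this
  exact sub_eq_zero.1 hz

theorem rf_one {k K₀ : Type} [Field k] [Field K₀] [Algebra k K₀] [CharZero k] (p : K₀)
    (hp : Transcendental k p)
    (hrep : ∀ a : K₀, ∃ f g : k[X], g ≠ 0 ∧ a = aeval p f / aeval p g)
    (τ : K₀ →ₐ[k] K₀) (n u : k) (hn : n ≠ 0) (hτ : τ p = p + algebraMap k K₀ n) (a : K₀)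
    (ha : τ a = algebraMap k K₀ u * a) : ∃ c : k, a = algebraMap k K₀ c := by
  have hinj : Function.Injective (aeval p : k[X] →ₐ[k] K₀) :=
    transcendental_iff_injective.1 hp
  by_cases ha0 : a = 0
  · exact ⟨0, by rw [ha0, map_zero]⟩
  have hu : u ≠ 0 := by
    rintro rfl
    rw [map_zero, zero_mul] at ha
    exact ha0 ((map_eq_zero τ).1 ha)
  have hτe : ∀ f : k[X], τ (aeval p f) = aeval p (f.comp (X + C n)) := by
    intro f
    rw [← Polynomial.aeval_algHom_apply, hτ, Polynomial.aeval_comp]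
    simp
  obtain ⟨f, g, hg, hfg, hmin⟩ := rf_repr p hp a (hrep a)
  have hX : (X + C n : k[X]).natDegree = 1 := Polynomial.natDegree_X_add_C n
  have hcompdeg : (g.comp (X + C n)).natDegree = g.natDegree := by
    rw [Polynomial.natDegree_comp, hX, mul_one]
  have hcomp0 : ∀ P : k[X], P ≠ 0 → P.comp (X + C n) ≠ 0 := by
    intro P hP h0
    apply hP
    apply hinj
    have := hτe P
    rw [h0, map_zero] at this
    rw [map_zero]
    exact (map_eq_zero τ).1 this
  have h1 : algebraMap k K₀ u * a * aeval p (g.comp (X + C n)) = aeval p (f.comp (X + C n)) := by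
    rw [← ha, ← hτe, ← hτe, ← map_mul, hfg]
  have h2 : a * aeval p (g.comp (X + C n)) = aeval p (C u⁻¹ * f.comp (X + C n)) := by
    rw [map_mul, aeval_C, ← h1, ← mul_assoc, ← mul_assoc, ← map_mul, inv_mul_cancel₀ hu,
      map_one, one_mul]
  obtain ⟨c, hc⟩ := rf_dvd_same hg (hmin _ _ (hcomp0 g hg) h2) hcompdeg
  obtain ⟨hc1, hgc⟩ := rf_per hn hg hc
  have hf0 : f ≠ 0 := by
    rintro rfl
    rw [map_zero] at hfg
    rcases mul_eq_zero.1 hfg with h | h
    · exact ha0 h
    · exact hg (hinj (by rw [h, map_zero]))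
  have h3 : f.comp (X + C n) = C u * f := by
    apply hinj
    rw [map_mul, aeval_C, ← h1, hc, hc1, map_mul, map_one, map_one, one_mul, mul_assoc, hfg]
  obtain ⟨-, hfc⟩ := rf_per hn hf0 h3
  refine ⟨f.eval 0 / g.eval 0, ?_⟩
  have hgne : aeval p g ≠ 0 := fun h0 => hg (hinj (by rw [h0, map_zero]))
  have h4 : a = aeval p f / aeval p g := by rw [← hfg, mul_div_cancel_right₀ _ hgne]
  rw [h4, map_div₀]
  conv_lhs => rw [hfc, hgc, aeval_C, aeval_C]

theorem rf_two {k K₀ : Type} [Field k] [Field K₀] [Algebra k K₀] (p : K₀)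
    (hp : Transcendental k p)
    (hrep : ∀ a : K₀, ∃ f g : k[X], g ≠ 0 ∧ a = aeval p f / aeval p g)
    (τ : K₀ →ₐ[k] K₀) (q : k) (hq : q ≠ 0) (hroot : ∀ m : ℕ, 1 ≤ m → q ^ m ≠ 1)
    (hτ : τ p = algebraMap k K₀ q * p) (a : K₀) (ha : τ a = a) :
    ∃ c : k, a = algebraMap k K₀ c := by
  have hinj : Function.Injective (aeval p : k[X] →ₐ[k] K₀) :=
    transcendental_iff_injective.1 hp
  have hτe : ∀ f : k[X], τ (aeval p f) = aeval p (f.comp (C q * X)) := by
    intro f
    rw [← Polynomial.aeval_algHom_apply, hτ, Polynomial.aeval_comp]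
    simp
  obtain ⟨f, g, hg, hfg, hmin⟩ := rf_repr p hp a (hrep a)
  have hcompdeg : (g.comp (C q * X)).natDegree = g.natDegree := by
    rw [Polynomial.natDegree_comp, Polynomial.natDegree_C_mul_X q hq, mul_one]
  have hcomp0 : ∀ P : k[X], P ≠ 0 → P.comp (C q * X) ≠ 0 := by
    intro P hP h0
    apply hP
    apply hinj
    have := hτe P
    rw [h0, map_zero] at this
    rw [map_zero]
    exact (map_eq_zero τ).1 this
  have h1 : a * aeval p (g.comp (C q * X)) = aeval p (f.comp (C q * X)) := by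
    conv_lhs => rw [← ha]
    rw [← hτe, ← hτe, ← map_mul, hfg]
  obtain ⟨c, hc⟩ := rf_dvd_same hg (hmin _ _ (hcomp0 g hg) h1) hcompdeg
  have hcf : f.comp (C q * X) = C c * f := by
    apply hinj
    rw [← h1, hc, map_mul, map_mul, aeval_C, ← hfg]
    ring
  have hco : ∀ P : k[X], P.comp (C q * X) = C c * P → ∀ i, P.coeff i * q ^ i = c * P.coeff i := by
    intro P hP i
    have := congrArg (fun Q => Polynomial.coeff Q i) hP
    simp only [Polynomial.comp_C_mul_X_coeff, Polynomial.coeff_C_mul] at this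
    exact this
  have hcd : c = q ^ g.natDegree := by
    have h := hco g hc g.natDegree
    have h2 : g.coeff g.natDegree ≠ 0 := Polynomial.leadingCoeff_ne_zero.2 hg
    rw [mul_comm] at h
    exact (mul_right_cancel₀ h2 h).symm
  have hpow : ∀ i j : ℕ, q ^ i = q ^ j → i = j := by
    have key : ∀ i j : ℕ, i < j → q ^ i ≠ q ^ j := by
      intro i j hij h
      have h2 : q ^ j = q ^ i * q ^ (j - i) := by rw [← pow_add]; congr 1; omega
      rw [h2] at h
      have h3 : q ^ (j - i) = 1 := by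
        have := mul_left_cancel₀ (pow_ne_zero i hq) (show q ^ i * 1 = q ^ i * q ^ (j - i) by
          rw [mul_one]; exact h)
        exact this.symm
      exact hroot (j - i) (by omega) h3
    intro i j h
    rcases lt_trichotomy i j with h1 | h1 | h1
    · exact absurd h (key i j h1)
    · exact h1
    · exact absurd h.symm (key j i h1)
  have hmon : ∀ P : k[X], P.comp (C q * X) = C c * P →
      P = C (P.coeff g.natDegree) * X ^ g.natDegree := by
    intro P hP
    ext i
    rw [Polynomial.coeff_C_mul, Polynomial.coeff_X_pow]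
    split_ifs with hi
    · rw [hi, mul_one]
    · rw [mul_zero]
      by_contra h0
      have h := hco P hP i
      rw [mul_comm, hcd] at h
      exact hi (hpow _ _ (mul_right_cancel₀ h0 h))
  have hgne : aeval p g ≠ 0 := fun h0 => hg (hinj (by rw [h0, map_zero]))
  have hp0 : p ≠ 0 := by
    rintro rfl
    exact hp isAlgebraic_zero
  refine ⟨f.coeff g.natDegree / g.coeff g.natDegree, ?_⟩
  have h4 : a = aeval p f / aeval p g := by rw [← hfg, mul_div_cancel_right₀ _ hgne]
  have hf' : aeval p f = algebraMap k K₀ (f.coeff g.natDegree) * p ^ g.natDegree := by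
    conv_lhs => rw [hmon f hcf]
    rw [map_mul, aeval_C, map_pow, aeval_X]
  have hg' : aeval p g = algebraMap k K₀ (g.coeff g.natDegree) * p ^ g.natDegree := by
    conv_lhs => rw [hmon g hc]
    rw [map_mul, aeval_C, map_pow, aeval_X]
  rw [h4, hf', hg', map_div₀, mul_div_mul_right _ _ (pow_ne_zero _ hp0)]

theorem P_rf : RF := by
  intro k K₀ _ _ _ _ p hp hrep τ
  exact ⟨fun n u hn hτ a ha => rf_one p hp hrep τ n u hn hτ a ha,
    fun q hq hroot hτ a ha => rf_two p hp hrep τ q hq hroot hτ a ha⟩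

end MP52exp
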