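import Pool.Agent.Lib.MP_52aaf2_al.EX.StmA

/-!
# MP_52aaf2_al, project EX: piece Wa, a criterion for free generators
-/

namespace MP52exp

/-- the value of a word -/
def wa_val {G : Type} [Group G] (a b : G) (L : List (Fin 2 × Bool)) : G :=
  (L.map fun x => cond x.2 (![a, b] x.1) (![a, b] x.1)⁻¹).prod

theorem wa_cons {G : Type} [Group G] (a b : G) (x : Fin 2 × Bool) (L : List (Fin 2 × Bool)) :
    wa_val a b (x :: L) = cond x.2 (![a, b] x.1) (![a, b] x.1)⁻¹ * wa_val a b L := by
  simp [wa_val]

/-- the state after a nonempty word with first letter `(i, s)` and value `v` -/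
def wa_st {G : Type} [Group G] (a : G) (sp sm : G → Prop) (i : Fin 2) (s : Bool) (v : G) : Prop :=
  (i = 0 → ∃ n : ℤ, (s = true → 0 < n) ∧ (s = false → n < 0) ∧
    (v = a ^ n ∨ ∃ g, (sp g ∨ sm g) ∧ v = a ^ n * g)) ∧
  (i = 1 → (s = true → sp v) ∧ (s = false → sm v))

theorem wa_main {G : Type} [Group G] (a b : G) (sp sm : G → Prop)
    (h2 : ∀ n : ℤ, sp (b * a ^ n)) (h3 : ∀ n : ℤ, sm (b⁻¹ * a ^ n))
    (h4 : ∀ g, sp g → ∀ n : ℤ, sp (b * a ^ n * g))
    (h5 : ∀ g, sp g → ∀ n : ℤ, n ≠ 0 → sm (b⁻¹ * a ^ n * g))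
    (h6 : ∀ g, sm g → ∀ n : ℤ, sm (b⁻¹ * a ^ n * g))
    (h7 : ∀ g, sm g → ∀ n : ℤ, n ≠ 0 → sp (b * a ^ n * g)) :
    ∀ (L : List (Fin 2 × Bool)) (i : Fin 2) (s : Bool), FreeGroup.IsReduced ((i, s) :: L) →
      wa_st a sp sm i s (wa_val a b ((i, s) :: L)) := by
  intro L
  induction L with
  | nil =>
    intro i s _
    rw [wa_cons]
    have hv : wa_val a b [] = 1 := by simp [wa_val]
    rw [hv, mul_one]
    refine ⟨fun hi => ?_, fun hi => ?_⟩
    · subst hi
      cases s
      · exact ⟨-1, by simp, by simp, Or.inl (by simp)⟩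
      · exact ⟨1, by simp, by simp, Or.inl (by simp)⟩
    · subst hi
      cases s
      · refine ⟨by simp, fun _ => ?_⟩
        have := h3 0
        simpa using this
      · refine ⟨fun _ => ?_, by simp⟩
        have := h2 0
        simpa using this
  | cons y M ih =>
    intro i s hr
    obtain ⟨j, t⟩ := y
    obtain ⟨hij, hM⟩ := FreeGroup.isReduced_cons_cons.1 hr
    obtain ⟨ih0, ih1⟩ := ih j t hM
    rw [wa_cons a b (i, s)]
    set v := wa_val a b ((j, t) :: M) with hv
    have hj : j = 0 ∨ j = 1 := by fin_cases j <;> simp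
    refine ⟨fun hi => ?_, fun hi => ?_⟩
    · subst hi
      rcases hj with hj | hj
      · obtain ⟨n, hn1, hn2, hn⟩ := ih0 hj
        have hst : s = t := hij hj.symm
        subst hst
        cases s
        · refine ⟨-1 + n, by simp, fun _ => by have := hn2 rfl; omega, ?_⟩
          have e : cond (0, false).2 (![a, b] ((0 : Fin 2), false).1)
              (![a, b] ((0 : Fin 2), false).1)⁻¹ = a ^ (-1 : ℤ) := by simp
          rcases hn with hn | ⟨g, hg, hn⟩
          · left; rw [hn, e, zpow_add]
          · right; exact ⟨g, hg, by rw [hn, e, zpow_add, mul_assoc]⟩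
        · refine ⟨1 + n, fun _ => by have := hn1 rfl; omega, by simp, ?_⟩
          have e : cond (0, true).2 (![a, b] ((0 : Fin 2), true).1)
              (![a, b] ((0 : Fin 2), true).1)⁻¹ = a ^ (1 : ℤ) := by simp
          rcases hn with hn | ⟨g, hg, hn⟩
          · left; rw [hn, e, zpow_add]
          · right; exact ⟨g, hg, by rw [hn, e, zpow_add, mul_assoc]⟩
      · obtain ⟨k1, k2⟩ := ih1 hj
        have hg : sp v ∨ sm v := by
          cases t
          · exact Or.inr (k2 rfl)
          · exact Or.inl (k1 rfl)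
        cases s
        · exact ⟨-1, by simp, by simp, Or.inr ⟨v, hg, by simp⟩⟩
        · exact ⟨1, by simp, by simp, Or.inr ⟨v, hg, by simp⟩⟩
    · subst hi
      rcases hj with hj | hj
      · obtain ⟨n, hn1, hn2, hn⟩ := ih0 hj
        have hn0 : n ≠ 0 := by
          cases t
          · have := hn2 rfl; omega
          · have := hn1 rfl; omega
        cases s
        · refine ⟨by simp, fun _ => ?_⟩
          have e : cond (1, false).2 (![a, b] ((1 : Fin 2), false).1)
              (![a, b] ((1 : Fin 2), false).1)⁻¹ = b⁻¹ := by simp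
          rw [e]
          rcases hn with hn | ⟨g, hg, hn⟩
          · rw [hn]; exact h3 n
          · rw [hn, ← mul_assoc]
            rcases hg with hg | hg
            · exact h5 g hg n hn0
            · exact h6 g hg n
        · refine ⟨fun _ => ?_, by simp⟩
          have e : cond (1, true).2 (![a, b] ((1 : Fin 2), true).1)
              (![a, b] ((1 : Fin 2), true).1)⁻¹ = b := by simp
          rw [e]
          rcases hn with hn | ⟨g, hg, hn⟩
          · rw [hn]; exact h2 n
          · rw [hn, ← mul_assoc]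
            rcases hg with hg | hg
            · exact h4 g hg n
            · exact h7 g hg n hn0
      · obtain ⟨k1, k2⟩ := ih1 hj
        have hst : s = t := hij hj.symm
        subst hst
        cases s
        · refine ⟨by simp, fun _ => ?_⟩
          have := h6 v (k2 rfl) 0
          simpa using this
        · refine ⟨fun _ => ?_, by simp⟩
          have := h4 v (k1 rfl) 0
          simpa using this

theorem P_wa : Wa := by
  intro G _ a b sp sm h1 h2 h3 h4 h5 h6 h7 h8
  rw [injective_iff_map_eq_one]
  intro w hw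
  have hred : FreeGroup.IsReduced w.toWord := FreeGroup.isReduced_toWord
  have hval : wa_val a b w.toWord = 1 := by
    rw [← hw]
    conv_rhs => rw [← FreeGroup.mk_toWord (x := w)]
    rw [FreeGroup.lift_mk]
    rfl
  cases hL : w.toWord with
  | nil => exact FreeGroup.toWord_eq_nil_iff.1 hL
  | cons x L =>
    exfalso
    obtain ⟨i, s⟩ := x
    rw [hL] at hred hval
    obtain ⟨k0, k1⟩ := wa_main a b sp sm h2 h3 h4 h5 h6 h7 L i s hred
    rw [hval] at k0 k1
    have hi : i = 0 ∨ i = 1 := by fin_cases i <;> simp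
    rcases hi with hi | hi
    · obtain ⟨n, hn1, hn2, hn⟩ := k0 hi
      have hn0 : n ≠ 0 := by
        cases s
        · have := hn2 rfl; omega
        · have := hn1 rfl; omega
      rcases hn with hn | ⟨g, hg, hn⟩
      · exact h1 n hn0 hn.symm
      · exact h8 g hg n hn.symm
    · obtain ⟨l1, l2⟩ := k1 hi
      cases s
      · exact h8 1 (Or.inr (l2 rfl)) 0 (by simp)
      · exact h8 1 (Or.inl (l1 rfl)) 0 (by simp)

end MP52exp
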