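import Pool.Agent.Lib.MP_52aaf2_al.EX.Ana
import Pool.Agent.Lib.MP_52aaf2_al.EX.StmG
import Pool.Agent.Lib.MP_52aaf2_al.EX.StmS

/-!
# MP_52aaf2_al, project EX: statements about germs, words and groups
-/

open Filter Topology

open MP52aaf2 (GermGroup germ alpha FreePair IsAlgGerm IsAlgFun)

namespace MP52exp

/-- **(NDer)** `d/dx` on `MG` and its constants.
Proof: `f ↦ f'` is a derivation of `HG` over `ℝ`; it extends to the field of fractions
(`MP52aaf2.exists_derivation_extension`, NormStep.lean: localizations are formally étale, see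
`MP52aaf2.exists_theta`). Constants: `a = f / g`, `D a = 0` gives `f' g = f g'` near `+∞`; on an
interval where `g ≠ 0`, `f = c g`, hence `f = c g` near `+∞` by `eventually_zero`. -/
def NDer : Prop := ∃ D : Derivation ℝ MG MG,
  (∀ (f : ℝ → ℝ) (hf : EvAn f), D (mmk f hf) = mmk (deriv f) hf.deriv) ∧
  ∀ a, D a = 0 → ∃ c : ℝ, algebraMap ℝ MG c = a

/-- **(NCmp)** Composition with an order isomorphism that is analytic near `+∞` is an embedding
of `MG` in itself.
Proof: `[f] ↦ [f ∘ g]` is an injective `ℝ`-algebra map of `HG` (if `f (g x) = 0` near `+∞` then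
`f = 0` near `+∞`, because `g` is onto and tends to `+∞`); extend to the fractions. -/
def NCmp : Prop := ∀ (g : ℝ ≃o ℝ) (hg : EvAn g), ∃ C : MG →ₐ[ℝ] MG,
  ∀ (f : ℝ → ℝ) (hf : EvAn f), C (mmk f hf) = mmk (fun x => f (g x)) (hf.comp hg)

/-- `x` as an element of `KF lam` -/
noncomputable def kx (lam : ℝ) : KF lam := ⟨xx, subset_acl _ (by simp)⟩

/-- `e^{λ x}` as an element of `KF lam` -/
noncomputable def ke (lam : ℝ) : KF lam := ⟨ee lam, subset_acl _ (by simp)⟩

/-- **(NK)** Independence of `x` and `e^{λx}`, and the derivations `∂/∂X`, `E ∂/∂E` of `KF lam`.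
Proof: with `D` from `NDer`, `D xx = 1`, `D (ee lam) = lam * ee lam`: so `ee lam ∉ acl {xx}` by
`E0`, `ee lam ∉ acl ∅` (`D` kills what is algebraic over `ℝ`), and `xx ∉ acl {ee lam}` by exchange.
By `Trn` for the inclusion of `KF lam` in `MG` the same is true in `KF lam`, and everything in
`KF lam` is in `acl {kx, ke}`. `Der1` in the field `KF lam` with `S = {ke}` gives `DX`, with
`S = {kx}` a derivation `δ` with `δ ke = 1`, `δ kx = 0`; `DE = ke • δ`. -/
def NK : Prop := ∀ lam : ℝ, 0 < lam →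
  (ee lam ∉ acl ℝ (∅ : Set MG) ∧ xx ∉ acl ℝ ({ee lam} : Set MG)) ∧
  (∀ h : KF lam, h ∈ acl ℝ ({kx lam, ke lam} : Set (KF lam))) ∧
  ∃ DX DE : Derivation ℝ (KF lam) (KF lam), DX (kx lam) = 1 ∧ DX (ke lam) = 0 ∧
    DE (kx lam) = 0 ∧ DE (ke lam) = ke lam

/-- the system given by the analytic germs -/
structure RealSys (lam : ℝ) (S : Sys (KF lam) MG) : Prop where
  X_eq : S.X = kx lam
  E_eq : S.E = ke lam
  lam_eq : S.lam = lam
  sh_eq : ∀ (s : ℤ) (h : KF lam) (f : ℝ → ℝ) (hf : EvAn f) (hf' : EvAn fun x => f (x + s)),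
    (h : MG) = mmk f hf → ((S.sh s h : KF lam) : MG) = mmk (fun x => f (x + s)) hf'
  pt : ∀ g ∈ AnG, ∃ y ∈ S.Pt, ∀ (h : KF lam) (f : ℝ → ℝ) (hf : EvAn f)
    (hf' : EvAn fun x => f (g x)), (h : MG) = mmk f hf → y h = mmk (fun x => f (g x)) hf'

/-- **(NSys)** The system exists.
Proof: let `C_g` be the embedding of `NCmp`; `C_g ∘ C_h = C_{h ∘ g}` (they agree on all `mmk f`,
hence on the fractions), and `C_g` depends only on the germ of `g`. `sh s` is the restriction of
`C_{x+s}` to `KF lam` (it maps `xx` to `xx + s` and `ee lam` to `e^{λ s} ee lam`, hence `KF lam` to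
itself), with inverse `sh (-s)`. `Pt` is the set of all `C_g` restricted to `KF lam`, `g ∈ AnG`.
`pt_ne`: `D (mmk g) = mmk (deriv g)` is not zero because `g` is not constant near `+∞`
(it is injective; an analytic function with derivative zero near `+∞` is constant there).
`pt_exp`: chain rule for `exp`. `pt_add`: `g + h → +∞`. `pt_eq`: equal germs give equal `C_g`.
`pt_real`: `e^{λ (g + c)} = e^{λ c} e^{λ g}`. `pt_sh`: `C_g ∘ C_{x+s} = C_{g + s}`. -/
def NSys : Prop := ∀ lam : ℝ, 0 < lam → ∃ S : Sys (KF lam) MG, RealSys lam S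

/-- **(Wa)** A criterion for free generators (`sp` = the last letter `b^{±1}` was `b`,
`sm` = it was `b⁻¹`).
Proof: a nontrivial reduced word in `a, b` is a nonzero power of `a`, or it has the form
`a^{n_0} b^{ε_1} a^{n_1} ⋯ b^{ε_N} a^{n_N}`, `N ≥ 1`, with `n_i ≠ 0` whenever
`ε_i ≠ ε_{i+1}`; induction from the right shows that `b^{ε_i} a^{n_i} ⋯ b^{ε_N} a^{n_N}` satisfies
`sp` if `ε_i = 1` and `sm` if `ε_i = -1`; so the word is not `1` by the last assumption. -/
def Wa : Prop := ∀ (G : Type) [Group G] (a b : G) (sp sm : G → Prop),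
  (∀ n : ℤ, n ≠ 0 → a ^ n ≠ 1) → (∀ n : ℤ, sp (b * a ^ n)) → (∀ n : ℤ, sm (b⁻¹ * a ^ n)) →
  (∀ g, sp g → ∀ n : ℤ, sp (b * a ^ n * g)) →
  (∀ g, sp g → ∀ n : ℤ, n ≠ 0 → sm (b⁻¹ * a ^ n * g)) →
  (∀ g, sm g → ∀ n : ℤ, sm (b⁻¹ * a ^ n * g)) →
  (∀ g, sm g → ∀ n : ℤ, n ≠ 0 → sp (b * a ^ n * g)) →
  (∀ g, (sp g ∨ sm g) → ∀ n : ℤ, a ^ n * g ≠ 1) →
  Function.Injective (FreeGroup.lift ![a, b])

/-- **(Wb)** From chains to freeness.
Proof: `Wa` for `a = alpha`, `b = germ β`, and: `sp g` (resp. `sm g`): there are a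
representative `f ∈ AnG` of `g`, an integer `n₀`, and a chain (`IsChain S P r y t n`, `r ≥ 1`) with
`t (r-1) ≠ m` (resp. `t (r-1) = m`), `mmk f = y (r-1) (out (t (r-1)))`,
`y 0 (inn (t 0)) = mmk (x + n₀)`, and, in the case `sm`, such that `y (r-1)` is the point of `f`
(`RealSys.pt`). Steps: from `sp` or `sm` with `b` after `a ^ n`: if the last type is not `m`, add
a new point of type `p`, the point of `f + n`; if it is `m` (then `n ≠ 0`) replace the last type
by `mp n`: its outgoing element is the point of `f` applied to `sh n P`, i.e. `β (f + n)`. With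
`b⁻¹` after `a ^ n`: add a new point of type `m`, the point of `β⁻¹ (f + n)`; its incoming element
is `β (β⁻¹ (f + n)) = f + n`. Last assumption: if `a ^ n * g = 1` then `f = x - n`, and
`y 0 (inn) = mmk (x + n₀)` is algebraic over `y (r-1) (out) = mmk f`, excluded by assumption. -/
def Wb : Prop := ∀ (lam : ℝ) (S : Sys (KF lam) MG), RealSys lam S → ∀ (β : ℝ ≃o ℝ)
  (hβ : β ∈ AnG) (P : KF lam), (P : MG) = mmk β hβ.1 →
  (∀ (r : ℕ) (y : ℕ → (KF lam →ₐ[ℝ] MG)) (t : ℕ → Ty) (n : ℕ → ℤ), IsChain S P r y t n → 1 ≤ r →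
    y 0 (inn S P (t 0)) ∉ acl ℝ ({y (r - 1) (out S P (t (r - 1)))} : Set MG)) →
  FreePair alpha (germ β)

/-- **(Dic)** The dictionary between polynomial relations and `acl`: (1) a relation over the
subfield `k` between `x, e^{λx}, f(x)`; (2) algebraic dependence gives a polynomial relation, and
conversely if the first function is not algebraic over `ℝ`, i.e. not constant.
Proof: `mmk` of `aeval ![f x, g x] Q` is `aeval ![mmk f, mmk g] Q`. (1) `x, e^{λx}` are
algebraically independent over `ℝ`, hence over `k` (`NK`), and a relation `Q ≠ 0` shows that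
`x, e^{λx}, f` are algebraically dependent over `k`. (2) similarly. -/
def Dic : Prop :=
  (∀ lam : ℝ, 0 < lam → ∀ (k : Subfield ℝ) (f : ℝ → ℝ) (hf : EvAn f)
    (Q : MvPolynomial (Fin 3) k), Q ≠ 0 →
    (∀ᶠ x in atTop, MvPolynomial.aeval ![x, Real.exp (lam * x), f x] Q = 0) →
    mmk f hf ∈ acl k ({xx, ee lam} : Set MG)) ∧
  (∀ (f g : ℝ → ℝ) (hf : EvAn f) (hg : EvAn g), mmk g hg ∈ acl ℝ ({mmk f hf} : Set MG) →
    ∃ Q : MvPolynomial (Fin 2) ℝ, Q ≠ 0 ∧ ∀ᶠ x in atTop, MvPolynomial.aeval ![f x, g x] Q = 0) ∧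
  (∀ (f g : ℝ → ℝ) (hf : EvAn f) (hg : EvAn g), mmk f hf ∉ acl ℝ (∅ : Set MG) →
    (∃ Q : MvPolynomial (Fin 2) ℝ, Q ≠ 0 ∧
      ∀ᶠ x in atTop, MvPolynomial.aeval ![f x, g x] Q = 0) →
    mmk g hg ∈ acl ℝ ({mmk f hf} : Set MG))

/-- **(Nz)** A nonzero polynomial in `x, e^{λx}` has no zeros near `+∞`; an analytic germ which is
algebraic over `ℝ(x, e^{λx})` and not zero has no zeros near `+∞`.
Proof: (1) as a polynomial in `e = e^{λx}` over `ℝ[x]` of degree `d` it is
`e^{λ d x} (r_d(x) + o(1/x^m))` for all `m`, and `|r_d(x)|` is bounded below near `+∞`. (2) If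
`mmk f ≠ 0` is algebraic over `ℝ(x, e)`, it satisfies an equation `∑ r_i(x, e) f^i = 0` with
`r_0 ≠ 0`; where `f(x) = 0` we get `r_0(x, e^{λx}) = 0`, impossible near `+∞` by (1). -/
def Nz : Prop := ∀ lam : ℝ, 0 < lam →
  (∀ Q : MvPolynomial (Fin 2) ℝ, Q ≠ 0 →
    ∀ᶠ x in atTop, MvPolynomial.aeval ![x, Real.exp (lam * x)] Q ≠ 0) ∧
  (∀ (f : ℝ → ℝ) (hf : EvAn f), mmk f hf ∈ KF lam → mmk f hf ≠ 0 → ∀ᶠ x in atTop, f x ≠ 0)

/-- **(An1)** A function, continuous near `+∞`, that satisfies a polynomial equation over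
`ℝ(x, e^{λx})` is real-analytic near `+∞`.
Proof: write `Q` as a polynomial in `Y` over the domain `ℝ[x, e]`; we may take it separable over the
fraction field, i.e. there are polynomials `A, B, R` with `A Q + B ∂Q/∂Y = R(x, e) ≠ 0`
(replace `Q` by the product of its distinct irreducible factors over `ℝ(x, e)`, with denominators
cleared: it still vanishes at `(x, e^{λx}, f x)` for large `x`, by `Nz` (1) for the factor `r(x, e)`
which appears). Then `∂Q/∂Y ≠ 0` at the points `(x, e^{λx}, f x)` with `x` large (`Nz` (1) for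
`R`), and the analytic implicit function theorem at such a point gives an analytic function whose
graph contains all the solutions near it; `f` is continuous, so it is equal to it nearby. -/
def An1 : Prop := ∀ lam : ℝ, 0 < lam → ∀ f : ℝ → ℝ, (∀ᶠ x in atTop, ContinuousAt f x) →
  (∃ Q : MvPolynomial (Fin 3) ℝ, Q ≠ 0 ∧
    ∀ᶠ x in atTop, MvPolynomial.aeval ![x, Real.exp (lam * x), f x] Q = 0) → EvAn f

/-- **(An2)** An order isomorphism satisfying a polynomial equation over `ℝ(x, e^{λx})` is, together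
with its inverse, real-analytic near `+∞`.
Proof: `β` is analytic by `An1`; `mmk β ∈ KF lam` (`Dic`), so `D (mmk β) = mmk (deriv β) ∈ KF lam`
(`Dst`, since `D xx = 1`, `D (ee lam) = lam * ee lam`), and it is not zero because `β` is
injective; so `deriv β x ≠ 0` near `+∞` by `Nz` (2), and the inverse is analytic at `β x`
(inverse function theorem; the inverse is continuous). -/
def An2 : Prop := ∀ lam : ℝ, 0 < lam → ∀ β : ℝ ≃o ℝ,
  (∃ Q : MvPolynomial (Fin 3) ℝ, Q ≠ 0 ∧
    ∀ᶠ x in atTop, MvPolynomial.aeval ![x, Real.exp (lam * x), β x] Q = 0) → β ∈ AnG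

/-- **(Ha)** The criterion in the HNN case: `c = b a b⁻¹`, `a, c` free generators of `A₀`; `sp`:
the last letter was `b`, `sm`: it was `b⁻¹`.
Proof: let `F` be the free group on `a', b'`, `c' = b' a' b'⁻¹`, `A₀'` the subgroup generated by
`a', c'`, `φ : F → G` the map `a' ↦ a, b' ↦ b`; `φ` is injective on `A₀'` and maps it onto `A₀`
(as `a, c` are free generators, the map from the free group on two letters to `A₀'` and to `A₀` is
bijective). Let `w ∈ F`, `φ w = 1`. Write `w = h_0 b'^{ε_1} h_1 ⋯ b'^{ε_N} h_N` with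
`h_i ∈ A₀'` and `N` minimal. Then there is no `i` with `ε_i = 1`, `ε_{i+1} = -1`,
`h_i = a'^m` (replace `b' a'^m b'⁻¹` by `c'^m`), nor with `ε_i = -1`, `ε_{i+1} = 1`, `h_i = c'^m`
(replace `b'⁻¹ c'^m b'` by `a'^m`). If `N = 0`, `w ∈ A₀'`, so `w = 1`. If `N ≥ 1`, induction from
the right shows that `φ` of `b'^{ε_i} h_i ⋯ b'^{ε_N} h_N` satisfies `sp` or `sm` according to
`ε_i`, and `φ w ≠ 1` by the last assumption, a contradiction. (Careful with the sides:
`sm g → h ∉ zpowers a → sp (b h g)`, because the word is `b h b⁻¹ ⋯`.) -/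
def Ha : Prop := ∀ (G : Type) [Group G] (a b : G) (sp sm : G → Prop),
  Function.Injective (FreeGroup.lift ![a, b * a * b⁻¹]) →
  (∀ h ∈ Subgroup.closure {a, b * a * b⁻¹}, sp (b * h) ∧ sm (b⁻¹ * h)) →
  (∀ g, sp g → ∀ h ∈ Subgroup.closure {a, b * a * b⁻¹}, sp (b * h * g)) →
  (∀ g, sp g → ∀ h ∈ Subgroup.closure {a, b * a * b⁻¹}, h ∉ Subgroup.zpowers (b * a * b⁻¹) →
    sm (b⁻¹ * h * g)) →
  (∀ g, sm g → ∀ h ∈ Subgroup.closure {a, b * a * b⁻¹}, sm (b⁻¹ * h * g)) →
  (∀ g, sm g → ∀ h ∈ Subgroup.closure {a, b * a * b⁻¹}, h ∉ Subgroup.zpowers a →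
    sp (b * h * g)) →
  (∀ g, (sp g ∨ sm g) → ∀ h ∈ Subgroup.closure {a, b * a * b⁻¹}, h * g ≠ 1) →
  Function.Injective (FreeGroup.lift ![a, b])

/-- **(Hc)** In a free group with free generators `a, c`: if `h a^v h⁻¹ = a^u`, `v ≠ 0`, then
`h` is a power of `a` (and the same for `c`); if `a, b` are free generators then so are
`a, b a b⁻¹`.
Proof: (1) counting the exponent of `a` gives `u = v`. If `h` is not a power of `a`, write
`h = a^i h' a^j` where the reduced word of `h'` starts and ends with `c^{±1}`; then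
`h' a^v h'⁻¹` is reduced as written, so it is not `a^v`. (2) a reduced word in `a, b a b⁻¹` maps to
a product that is reduced after the obvious cancellations `b⁻¹ b`. -/
def Hc : Prop := ∀ (G : Type) [Group G] (a c : G), Function.Injective (FreeGroup.lift ![a, c]) →
  (∀ h ∈ Subgroup.closure {a, c}, ∀ u v : ℤ, v ≠ 0 →
    (h * a ^ v * h⁻¹ = a ^ u → h ∈ Subgroup.zpowers a) ∧
    (h * c ^ v * h⁻¹ = c ^ u → h ∈ Subgroup.zpowers c)) ∧
  Function.Injective (FreeGroup.lift ![a, c * a * c⁻¹])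

/-- **(Hd)** If `β` is algebraic over `ℝ(e^{λx})` then `β ∘ (x + 1) ∘ β⁻¹` is an algebraic germ.
Proof: put `γ = β ∘ (x + 1) ∘ β⁻¹`, it is in `AnG` (`An2`). Let `E = e^{λx}`; `β(x)` and
`β(x + 1) = γ(β(x))` are algebraic over `ℝ(E)` (apply the shift to the equation of `β`,
`e^{λ(x+1)} = e^λ E`), so `γ(β)` is algebraic over `ℝ(β)` (exchange, `β` is not constant):
`Q(β(x), γ(β(x))) = 0` near `+∞` (`Dic`), and substituting `x = β⁻¹(u)` gives `Q(u, γ(u)) = 0`.
The same for the inverse. (`IsAlgFun` uses `Polynomial (Polynomial ℝ)` and `evalEval`.) -/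
def Hd : Prop := ∀ lam : ℝ, 0 < lam → ∀ β : ℝ ≃o ℝ,
  (∃ Q : MvPolynomial (Fin 2) ℝ, Q ≠ 0 ∧
    ∀ᶠ x in atTop, MvPolynomial.aeval ![Real.exp (lam * x), β x] Q = 0) →
  IsAlgGerm (germ β * alpha * (germ β)⁻¹)

/-- **(Hb)** If `β` is algebraic over `ℝ(e^{λx})` and `α, γ = β α β⁻¹` are free generators, then so
are `α, β`.
Proof: `Ha` for `a = alpha`, `b = germ β`. The elements `h` of `A₀ = ⟨α, γ⟩` are algebraic germs
(`Hd`, `MP52aaf2.AlgG`), represented by elements of `AnG`. Let `S` be the system (`NSys`),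
`P ∈ KF lam` the function `β`, `acl {P} = acl {S.E}`. `sp g`: there are a representative `f ∈ AnG`
of `g`, and points `y j` (from `RealSys.pt`) and signs `ε j`, `j < r`, `r ≥ 1`, satisfying the
assumptions of `ExpC`, with `ε (r-1) = true`, `mmk f = y (r-1) P`, and
`acl {y 0 (bif ε 0 then X else E)} = acl {xx}`; `sm g`: the same with `ε (r-1) = false` and
`mmk f = y (r-1) X`. The steps add one point: with `b` after `h`: the point of `h ∘ f`, `ε = true`;
with `b⁻¹` after `h`: the point of `β⁻¹ ∘ h ∘ f`, `ε = false` (so the incoming element `E` there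
is algebraically equivalent to `P` there, which is `h ∘ f`); `h` is algebraic, so `mmk (h ∘ f)` and
`mmk f` are algebraically equivalent. The independence of neighbours with different signs: from
`sm` with `b`, `h ∉ ⟨α⟩`: `y_{r-1} X = f`, `y_r X = h ∘ f`; a relation
`m₁ f + m₂ h(f) = c` with `(m₁, m₂) ≠ 0` gives `h(u) = q u + c'` near `+∞` with `q = u₀ / v₀ > 0`
rational, so `h α^{v₀} h⁻¹ = α^{u₀}`, and `h ∈ ⟨α⟩` by `Hc`, a contradiction. From `sp` with
`b⁻¹`, `h ∉ ⟨γ⟩`: `f = β(U)`, `h ∘ f = β(U')`, `U' = β⁻¹ h β (U)`; a relation between `U, U'`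
gives `β⁻¹ h β = q u + c'`, so `β⁻¹ h β α^{v₀} = α^{u₀} β⁻¹ h β`, i.e. `h γ^{v₀} h⁻¹ = γ^{u₀}`,
and `h ∈ ⟨γ⟩` by `Hc`. Last assumption: `h g = 1` means that `f` is the inverse of `h`, so `xx` is
algebraic over `mmk f`, i.e. the first incoming element is algebraic over the last outgoing one,
contradicting `ExpC` and `EndG` (with `a, b = X, E` or `E, X`, `Jac` (2)). -/
def Hb : Prop := ∀ lam : ℝ, 0 < lam → ∀ β : ℝ ≃o ℝ,
  (∃ Q : MvPolynomial (Fin 2) ℝ, Q ≠ 0 ∧
    ∀ᶠ x in atTop, MvPolynomial.aeval ![Real.exp (lam * x), β x] Q = 0) →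
  FreePair alpha (germ β * alpha * (germ β)⁻¹) → FreePair alpha (germ β)

end MP52exp
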