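import Pool.Agent.Lib.MP_52aaf2_al.EX.Asm
import Pool.Agent.Lib.MP_52aaf2_al.EX.StmA
import Pool.Agent.Lib.MP_52aaf2_al.EX.P_an1
import Pool.Agent.Lib.MP_52aaf2_al.EX.P_an2
import Pool.Agent.Lib.MP_52aaf2_al.EX.P_ax1
import Pool.Agent.Lib.MP_52aaf2_al.EX.P_ax2
import Pool.Agent.Lib.MP_52aaf2_al.EX.P_ax3
import Pool.Agent.Lib.MP_52aaf2_al.EX.P_ax4
import Pool.Agent.Lib.MP_52aaf2_al.EX.P_c3b
import Pool.Agent.Lib.MP_52aaf2_al.EX.P_ca
import Pool.Agent.Lib.MP_52aaf2_al.EX.P_casA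
import Pool.Agent.Lib.MP_52aaf2_al.EX.P_cr
import Pool.Agent.Lib.MP_52aaf2_al.EX.P_der1
import Pool.Agent.Lib.MP_52aaf2_al.EX.P_derC
import Pool.Agent.Lib.MP_52aaf2_al.EX.P_dic
import Pool.Agent.Lib.MP_52aaf2_al.EX.P_dst
import Pool.Agent.Lib.MP_52aaf2_al.EX.P_e0
import Pool.Agent.Lib.MP_52aaf2_al.EX.P_endm
import Pool.Agent.Lib.MP_52aaf2_al.EX.P_endmp
import Pool.Agent.Lib.MP_52aaf2_al.EX.P_expc
import Pool.Agent.Lib.MP_52aaf2_al.EX.P_gp
import Pool.Agent.Lib.MP_52aaf2_al.EX.P_gr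
import Pool.Agent.Lib.MP_52aaf2_al.EX.P_ha
import Pool.Agent.Lib.MP_52aaf2_al.EX.P_hb
import Pool.Agent.Lib.MP_52aaf2_al.EX.P_hc
import Pool.Agent.Lib.MP_52aaf2_al.EX.P_hd
import Pool.Agent.Lib.MP_52aaf2_al.EX.P_jac
import Pool.Agent.Lib.MP_52aaf2_al.EX.P_l0
import Pool.Agent.Lib.MP_52aaf2_al.EX.P_lem0
import Pool.Agent.Lib.MP_52aaf2_al.EX.P_lemA
import Pool.Agent.Lib.MP_52aaf2_al.EX.P_lemB
import Pool.Agent.Lib.MP_52aaf2_al.EX.P_lemD
import Pool.Agent.Lib.MP_52aaf2_al.EX.P_lemI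
import Pool.Agent.Lib.MP_52aaf2_al.EX.P_mat1
import Pool.Agent.Lib.MP_52aaf2_al.EX.P_mun
import Pool.Agent.Lib.MP_52aaf2_al.EX.P_ncmp
import Pool.Agent.Lib.MP_52aaf2_al.EX.P_nder
import Pool.Agent.Lib.MP_52aaf2_al.EX.P_nk
import Pool.Agent.Lib.MP_52aaf2_al.EX.P_nsys
import Pool.Agent.Lib.MP_52aaf2_al.EX.P_nz
import Pool.Agent.Lib.MP_52aaf2_al.EX.P_r1
import Pool.Agent.Lib.MP_52aaf2_al.EX.P_rf
import Pool.Agent.Lib.MP_52aaf2_al.EX.P_wa
import Pool.Agent.Lib.MP_52aaf2_al.EX.P_wb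

/-!
# MP_52aaf2_al, project EX: the theorem on germs algebraic over `k(x, e^{λx})`
-/

open Filter Topology

open MP52aaf2 (GermGroup germ alpha FreePair IsAlgGerm IsAlgFun)

namespace MP52exp

theorem s_ax : Ax := P_ax (P_ax1 P_dst) (P_ax2 (P_ax3 P_ax4))

theorem s_jac : Jac := P_jac P_dst

theorem s_lemI : LemI := P_lemI P_gp P_rf

theorem s_lemD : LemD := P_lemD P_gp P_rf

theorem s_lemD2 : LemD2 := P_lemD2 P_gp P_rf

theorem s_mun : MuN := P_mun P_e0 P_dst s_jac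

theorem s_lemL : LemL := P_lemL P_l0 P_dst s_jac

theorem s_shd : ShD := P_shd P_dst

theorem s_lem0 : Lem0 := P_lem0 s_lemI s_mun s_jac P_dst s_shd

theorem s_lemA : LemA := P_lemA P_der1 P_dst s_jac s_shd s_lemL

theorem s_gr : GR := P_gr s_ax s_jac P_trn

theorem s_r1 : R1 := P_r1 P_mat1 s_gr s_jac P_trn

theorem s_ca : CA := P_ca s_r1

theorem s_endg : EndG := P_endg s_r1 P_trn

theorem s_chp : ChP := P_chp s_jac P_trn

theorem s_casA : CasA := P_casA s_ca s_jac P_trn s_shd s_chp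

theorem s_lemB : LemB := P_lemB P_der1 P_dst P_trn P_cr s_lemI s_lemD s_lemD2 s_mun s_lemL s_jac

theorem s_axo : AxO := P_axo P_e0

theorem s_derC : DerC := P_derC P_der1 P_dst

theorem s_c3b : C3b := P_c3b s_derC P_der1 P_dst P_cr s_mun P_mat1 P_trn s_jac

theorem s_end : End := by
  intro K M _ _ _ _ S P hP y hy z hz t ht N m n h1 h2 h3 h4 h5 h6 δ h7 h8 h9 h10
  cases t with
  | p =>
    exact P_endp P_cr s_jac s_mun s_lemD s_lemL K M S P hP y hy z hz ht N m n h1 h2 h3 h4 h5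
      h6 δ h7 h8 h9 h10
  | m =>
    exact P_endm P_cr s_jac P_trn K M S P hP y hy z hz ht N m n h1 h2 h3 h4 h5 h6 δ h7 h8 h9 h10
  | mp s =>
    exact P_endmp P_cr s_jac s_mun s_lemI P_trn s_shd s K M S P hP y hy z hz ht N m n h1 h2 h3
      h4 h5 h6 δ h7 h8 h9 h10

theorem s_casB : CasB := casB s_lemB s_axo s_c3b s_end s_r1 s_chp P_trn s_jac

theorem s_mainC : MainC := mainC s_casA s_casB s_chp s_endg

theorem s_nk : NK := P_nk P_nder P_e0 P_trn P_der1 P_dst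

theorem s_nsys : NSys := P_nsys P_nder P_ncmp s_nk P_trn

theorem s_dic : Dic := P_dic s_nk

theorem s_an1 : An1 := P_an1 P_nz

theorem s_an2 : An2 := P_an2 s_an1 P_nz s_dic P_nder P_dst

theorem s_wb : Wb := P_wb P_wa

theorem s_expc : ExpC := P_expc s_ca s_jac P_trn

theorem s_hd : Hd := P_hd s_an2 s_dic s_nk

theorem s_hb : Hb := P_hb P_ha P_hc s_hd s_an2 s_dic s_nsys s_nk s_expc s_endg s_jac P_trn

/-- `acl k S ⊆ acl ℝ S` for a subfield `k` of `ℝ` -/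
theorem acl_sub_real {F : Type} [Field F] [Algebra ℝ F] (k : Subfield ℝ) (S : Set F) {x : F}
    (h : x ∈ acl k S) : x ∈ acl ℝ S := by
  rw [mem_acl] at h ⊢
  refine MP52aaf2.isAlgebraic_mono (K := IntermediateField.adjoin k S)
    (K' := IntermediateField.adjoin ℝ S) (fun a => ?_) h
  have h1 : IntermediateField.adjoin k S ≤
      (IntermediateField.adjoin ℝ S).restrictScalars k := by
    rw [IntermediateField.adjoin_le_iff]
    exact IntermediateField.subset_adjoin ℝ S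
  exact ⟨⟨a, h1 a.2⟩, rfl⟩

/-- **Part 1.** -/
theorem free_of_both {lam : ℝ} (hlam : 0 < lam) {k : Subfield ℝ}
    (hk : Transcendental k (Real.exp lam)) {β : ℝ ≃o ℝ}
    (hQ : ∃ Q : MvPolynomial (Fin 3) k, Q ≠ 0 ∧
      ∀ᶠ x in atTop, MvPolynomial.aeval ![x, Real.exp (lam * x), β x] Q = 0)
    (h1 : ¬ ∃ Q : MvPolynomial (Fin 2) ℝ, Q ≠ 0 ∧
      ∀ᶠ x in atTop, MvPolynomial.aeval ![x, β x] Q = 0)
    (h2 : ¬ ∃ Q : MvPolynomial (Fin 2) ℝ, Q ≠ 0 ∧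
      ∀ᶠ x in atTop, MvPolynomial.aeval ![Real.exp (lam * x), β x] Q = 0) :
    FreePair alpha (germ β) := by
  obtain ⟨S, hS⟩ := s_nsys lam hlam
  obtain ⟨Q, hQ0, hQv⟩ := hQ
  have hβ : β ∈ AnG := by
    refine s_an2 lam hlam β ⟨MvPolynomial.map (algebraMap k ℝ) Q, ?_, ?_⟩
    · intro h0
      apply hQ0
      apply MvPolynomial.map_injective (algebraMap k ℝ) (algebraMap k ℝ).injective
      rw [h0, map_zero]
    · filter_upwards [hQv] with x hx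
      rw [MvPolynomial.aeval_map_algebraMap]
      exact hx
  have hPk : mmk β hβ.1 ∈ acl k ({xx, ee lam} : Set MG) :=
    s_dic.1 lam hlam k β hβ.1 Q hQ0 hQv
  have hPR : mmk β hβ.1 ∈ KF lam := acl_sub_real k _ hPk
  obtain ⟨P, hP⟩ : ∃ P : KF lam, (P : MG) = mmk β hβ.1 := ⟨⟨_, hPR⟩, rfl⟩
  have hPK : P ∈ acl k ({S.X, S.E} : Set (KF lam)) := by
    rw [P_trn k (KF lam) MG ((KF lam).val.restrictScalars k) _ P]
    have e1 : ((KF lam).val.restrictScalars k) '' ({S.X, S.E} : Set (KF lam)) =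
        {xx, ee lam} := by
      rw [Set.image_pair, hS.X_eq, hS.E_eq]
      rfl
    rw [e1]
    change (P : MG) ∈ _
    rw [hP]
    exact hPk
  obtain ⟨-, hJ1, ⟨hJ2, hJ3, hJ4⟩, -⟩ := s_jac _ _ S
  have hX0 : S.X ∉ acl ℝ (∅ : Set (KF lam)) := fun h => hJ3 (acl_mono (by simp) h)
  have hDX : S.DX P ≠ 0 := by
    intro h0
    have h3 : P ∈ acl ℝ ({S.E} : Set (KF lam)) := by
      rw [hJ1 S.E P hJ2, h0, S.DX_E]
      ring
    rw [P_trn ℝ (KF lam) MG (KF lam).val _ P, Set.image_singleton, hS.E_eq] at h3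
    change (P : MG) ∈ acl ℝ ({ee lam} : Set MG) at h3
    rw [hP] at h3
    exact h2 (s_dic.2.1 _ _ _ _ h3)
  have hDE : S.DE P ≠ 0 := by
    intro h0
    have h3 : P ∈ acl ℝ ({S.X} : Set (KF lam)) := by
      rw [hJ1 S.X P hX0, h0, S.DE_X]
      ring
    rw [P_trn ℝ (KF lam) MG (KF lam).val _ P, Set.image_singleton, hS.X_eq] at h3
    change (P : MG) ∈ acl ℝ ({xx} : Set MG) at h3
    rw [hP] at h3
    exact h1 (s_dic.2.1 _ _ _ _ h3)
  have hG : Good S P := by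
    refine ⟨hDX, hDE, ?_⟩
    intro s hs κ
    by_cases hκ : κ = 0
    · rw [hκ]
      have := s_lem0 _ _ S P hDX hDE s hs
      simpa using this
    · exact s_lemA _ _ S k (by rw [hS.lam_eq]; exact hk) P hPK hDX hDE s hs κ hκ
  exact s_wb lam S hS β hβ P hP (s_mainC _ _ S P hG)

/-- **Part 2.** -/
theorem exp_case {lam : ℝ} (hlam : 0 < lam) {β : ℝ ≃o ℝ}
    (h2 : ∃ Q : MvPolynomial (Fin 2) ℝ, Q ≠ 0 ∧
      ∀ᶠ x in atTop, MvPolynomial.aeval ![Real.exp (lam * x), β x] Q = 0) :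
    IsAlgGerm (germ β * alpha * (germ β)⁻¹) ∧
      (FreePair alpha (germ β) ↔ FreePair alpha (germ β * alpha * (germ β)⁻¹)) :=
  ⟨s_hd lam hlam β h2, fun h => (P_hc GermGroup alpha (germ β) h).2, s_hb lam hlam β h2⟩

end MP52exp
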