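import Pool.Agent.Lib.MP_52aaf2_al.EX.StmS
import Pool.Agent.Lib.MP_52aaf2_al.EX.StmG

/-!
# MP_52aaf2_al, project EX: the chain of a word, and case A of the main induction
-/

namespace MP52exp

section aux

variable {K M : Type} [Field K] [Field M] [Algebra ℝ K] [Algebra ℝ M]

theorem casA_X_not (hJac : Jac) (S : Sys K M) : S.X ∉ acl ℝ (∅ : Set K) := fun h =>
  (hJac K M S).2.2.1.2.1 (acl_mono (Set.empty_subset _) h)

theorem casA_P_notX (hJac : Jac) (S : Sys K M) (P : K) (hE : S.DE P ≠ 0) :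
    P ∉ acl ℝ ({S.X} : Set K) := by
  intro h
  have h1 := ((hJac K M S).2.1 S.X P (casA_X_not hJac S)).1 h
  rw [S.DE_X, S.DX_X, mul_zero, mul_one] at h1
  exact hE h1.symm

theorem casA_P_not (hJac : Jac) (S : Sys K M) (P : K) (hE : S.DE P ≠ 0) :
    P ∉ acl ℝ (∅ : Set K) := fun h =>
  casA_P_notX hJac S P hE (acl_mono (Set.empty_subset _) h)

theorem casA_X_notP (hJac : Jac) (S : Sys K M) (P : K) (hE : S.DE P ≠ 0) :
    S.X ∉ acl ℝ ({P} : Set K) := by
  intro h
  have h1 := ((hJac K M S).2.1 P S.X (casA_P_not hJac S P hE)).1 h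
  rw [S.DE_X, S.DX_X, zero_mul, one_mul] at h1
  exact hE h1

theorem casA_X_notShP (hJac : Jac) (hShD : ShD) (S : Sys K M) (P : K) (hE : S.DE P ≠ 0)
    (s : ℤ) : S.X ∉ acl ℝ ({S.sh s P} : Set K) := by
  apply casA_X_notP hJac S
  rw [(hShD K M S s P).2]
  intro h
  apply hE
  exact (map_eq_zero_iff (S.sh s) (S.sh s).injective).1 h

theorem casA_mul_mem {F : Type} [Field F] [Algebra ℝ F] {m : ℤ} (hm : m ≠ 0) {x : F}
    {L : IntermediateField ℝ F} (h : (m : F) * x ∈ L) : x ∈ L := by
  have : CharZero F := charZero_of_injective_algebraMap (algebraMap ℝ F).injective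
  have hm' : (m : F) ≠ 0 := Int.cast_ne_zero.2 hm
  have h1 : ((m : F)⁻¹) * ((m : F) * x) ∈ L :=
    L.mul_mem (L.inv_mem (intCast_mem L m)) h
  rwa [inv_mul_cancel_left₀ hm'] at h1

end aux

theorem P_chp (hJac : Jac) (_hTrn : Trn) : ChP := by
  intro K M _ _ _ _ S P hG r y t n hC
  have hP := hG.hE
  refine ⟨hC.pt, ?_, ?_, ?_⟩
  · intro j hj
    show inn S P (t j) ∉ acl ℝ (∅ : Set K)
    cases h : t j with
    | p => exact casA_X_not hJac S
    | m => exact casA_P_not hJac S P hP
    | mp s => exact casA_P_not hJac S P hP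
  · intro j hj
    show out S P (t j) ∉ acl ℝ ({inn S P (t j)} : Set K)
    cases h : t j with
    | p => exact casA_P_notX hJac S P hP
    | m => exact casA_X_notP hJac S P hP
    | mp s =>
      have h1 := hG.hA s (hC.tne j hj s h) 0
      simpa [inn, out] using h1
  · intro j hj
    show acl ℝ ({y (j + 1) (inn S P (t (j + 1)))} : Set M) = acl ℝ ({y j (out S P (t j))} : Set M)
    have h1 := hC.link j hj
    apply acl_eq_of_subset
    · rintro x rfl
      rw [h1]
      exact add_mem (subset_acl _ rfl) (intCast_mem _ _)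
    · rintro x rfl
      have h2 : y j (out S P (t j)) = y (j + 1) (inn S P (t (j + 1))) - (n j : M) := by
        rw [h1]; ring
      rw [h2]
      exact sub_mem (subset_acl _ rfl) (intCast_mem _ _)

theorem P_casA (hCA : CA) (hJac : Jac) (hTrn : Trn) (hShD : ShD) (hChP : ChP) : CasA := by
  intro K M _ _ _ _ S P hG r y t n hC hQ hr htr m hm0 hmr hc
  obtain ⟨c, hc⟩ := hc
  have hP := hG.hE
  have hC' : IsChain S P r y t n :=
    ⟨fun j hj => hC.pt j (by omega), fun j hj => hC.link j (by omega),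
      fun j hj => hC.v1 j (by omega), fun j hj => hC.v2 j (by omega),
      fun j hj => hC.tne j (by omega)⟩
  have hPC := hChP K M S P hG r y t n hC'
  obtain ⟨q, rfl⟩ : ∃ q, r = q + 1 := ⟨r - 1, by omega⟩
  have hlast := hC.link q (by omega)
  have htr' : inn S P (t (q + 1)) = S.X := by rw [htr]; rfl
  rw [htr'] at hlast
  have hsum : ∑ l ∈ Finset.range (q + 1), (m l : M) * y l S.X ∈
      acl ℝ ({y (q + 1 - 1) ((fun j => out S P (t j)) (q + 1 - 1))} : Set M) := by
    show ∑ l ∈ Finset.range (q + 1), (m l : M) * y l S.X ∈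
      acl ℝ ({y q (out S P (t q))} : Set M)
    rw [Finset.sum_range_succ, hlast] at hc
    have h1 : ∑ l ∈ Finset.range (q + 1), (m l : M) * y l S.X = algebraMap ℝ M c -
        (m (q + 1) : M) * (y q (out S P (t q)) + (n q : M)) := by
      rw [← hc]; ring
    rw [h1]
    exact sub_mem (algebraMap_mem _ _) (mul_mem (intCast_mem _ _)
      (add_mem (subset_acl _ rfl) (intCast_mem _ _)))
  have hall := (hCA K M S (q + 1) y _ _ hPC hQ hr m).1 hsum
  have h1 := hall 1 le_rfl (by omega)
  have h1' : (m 0 : M) * y 0 S.X ∈ acl ℝ ({y 0 (out S P (t 0))} : Set M) := by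
    simpa using h1
  have h2 : y 0 S.X ∈ acl ℝ ({y 0 (out S P (t 0))} : Set M) := casA_mul_mem hm0 h1'
  have h3 : S.X ∈ acl ℝ ({out S P (t 0)} : Set K) := by
    rw [hTrn ℝ K M (y 0) {out S P (t 0)} S.X, Set.image_singleton]
    exact h2
  have ht0 : t 0 = .m := by
    cases h : t 0 with
    | p =>
      rw [h] at h3
      exact absurd h3 (casA_X_notP hJac S P hP)
    | m => rfl
    | mp s =>
      rw [h] at h3
      exact absurd h3 (casA_X_notShP hJac hShD S P hP s)
  have ht1 := hC.v1 0 (by omega) ht0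
  rcases Nat.eq_zero_or_pos q with rfl | hq
  · exact ht1 htr
  have hin : inn S P (t 1) = P := by
    cases h : t 1 with
    | p => exact absurd h ht1
    | m => rfl
    | mp s => rfl
  have hl0 := hC.link 0 (by omega)
  have hl0' : y 1 P = y 0 S.X + (n 0 : M) := by
    have e : out S P (t 0) = S.X := by rw [ht0]; rfl
    rw [e] at hl0
    have hl := hl0
    rw [show (0 + 1 : ℕ) = 1 from rfl, hin] at hl
    exact hl
  have h4 := hall 2 (by omega) (by omega)
  have h4' : (m 0 : M) * y 0 S.X + (m 1 : M) * y 1 S.X ∈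
      acl ℝ ({y 1 (out S P (t 1))} : Set M) := by
    simpa [Finset.sum_range_succ] using h4
  have h5 : y 1 ((m 0 : K) * P + (m 1 : K) * S.X) ∈ acl ℝ ({y 1 (out S P (t 1))} : Set M) := by
    have e : y 1 ((m 0 : K) * P + (m 1 : K) * S.X) =
        ((m 0 : M) * y 0 S.X + (m 1 : M) * y 1 S.X) + (m 0 : M) * (n 0 : M) := by
      rw [map_add, map_mul, map_mul, map_intCast, map_intCast, hl0']
      ring
    rw [e]
    exact add_mem h4' (mul_mem (intCast_mem _ _) (intCast_mem _ _))
  have h6 : (m 0 : K) * P + (m 1 : K) * S.X ∈ acl ℝ ({out S P (t 1)} : Set K) := by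
    rw [hTrn ℝ K M (y 1) {out S P (t 1)}, Set.image_singleton]
    exact h5
  cases h : t 1 with
  | p => exact ht1 h
  | m =>
    rw [h] at h6
    change (m 0 : K) * P + (m 1 : K) * S.X ∈ acl ℝ ({S.X} : Set K) at h6
    have h7 : (m 0 : K) * P ∈ acl ℝ ({S.X} : Set K) := by
      have e : (m 0 : K) * P = ((m 0 : K) * P + (m 1 : K) * S.X) - (m 1 : K) * S.X := by ring
      rw [e]
      exact sub_mem h6 (mul_mem (intCast_mem _ _) (subset_acl _ rfl))
    exact casA_P_notX hJac S P hP (casA_mul_mem hm0 h7)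
  | mp s =>
    rw [h] at h6
    change (m 0 : K) * P + (m 1 : K) * S.X ∈ acl ℝ ({S.sh s P} : Set K) at h6
    have : CharZero K := charZero_of_injective_algebraMap (algebraMap ℝ K).injective
    have hm0' : (m 0 : K) ≠ 0 := Int.cast_ne_zero.2 hm0
    obtain ⟨κ, hκ⟩ : ∃ κ : ℚ, κ = (m 1 : ℚ) / (m 0 : ℚ) := ⟨_, rfl⟩
    have hκ' : (κ : K) = (m 1 : K) / (m 0 : K) := by
      rw [hκ]
      push_cast
      rfl
    have h7 : (m 0 : K) * (P + (κ : K) * S.X) ∈ acl ℝ ({S.sh s P} : Set K) := by
      have e : (m 0 : K) * (P + (κ : K) * S.X) = (m 0 : K) * P + (m 1 : K) * S.X := by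
        rw [hκ']
        field_simp
      rw [e]
      exact h6
    have h8 := casA_mul_mem hm0 h7
    have h9 : P + (κ : K) * S.X ∉ acl ℝ (∅ : Set K) := by
      intro h10
      apply casA_P_notX hJac S P hP
      have h11 : P + (κ : K) * S.X ∈ acl ℝ ({S.X} : Set K) :=
        acl_mono (Set.empty_subset _) h10
      have e : P = (P + (κ : K) * S.X) - (κ : K) * S.X := by ring
      rw [e]
      refine sub_mem h11 (mul_mem ?_ (subset_acl _ rfl))
      rw [hκ']
      exact div_mem (intCast_mem _ _) (intCast_mem _ _)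
    have h12 : S.sh s P ∈ acl ℝ (insert (P + (κ : K) * S.X) (∅ : Set K)) := by
      apply acl_exchange _ h9
      simpa using h8
    rw [insert_empty_eq] at h12
    exact hG.hA s (hC.tne 1 (by omega) s h) κ h12

end MP52exp
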