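import Pool.Agent.Lib.MP_52aaf2_al.EX.StmG
import Pool.Agent.Lib.MP_52aaf2_al.EX.StmS

/-!
# MP_52aaf2_al, project EX: the rank of a chain
-/

open Polynomial IntermediateField

namespace MP52exp

section

variable {K M : Type} [Field K] [Field M] [Algebra ℝ K] [Algebra ℝ M] {S : Sys K M}

/-- two independent elements of `K` generate -/
theorem gr_all (jac : Jac) (S : Sys K M) {a b : K} (ha : a ∉ acl ℝ (∅ : Set K))
    (hb : b ∉ acl ℝ ({a} : Set K)) (h : K) : h ∈ acl ℝ ({b, a} : Set K) := by
  by_contra hh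
  have h1 := rk_insert_of_notMem hh
  rw [rk_pair ha hb] at h1
  have h2 := (jac K M S).2.2.2.1 (insert h {b, a})
  rw [h1] at h2
  exact absurd h2 (by norm_num)

theorem gr_gen_sub (jac : Jac) (trn : Trn) (S : Sys K M) (y : K →ₐ[ℝ] M) {a b : K}
    (ha : a ∉ acl ℝ (∅ : Set K)) (hb : b ∉ acl ℝ ({a} : Set K)) (h : K) :
    y h ∈ acl ℝ ({y b, y a} : Set M) := by
  have h1 := (trn ℝ K M y {b, a} h).1 (gr_all jac S ha hb h)
  rwa [Set.image_pair] at h1

theorem gr_mem_gen (trn : Trn) (S : Sys K M) (y : K →ₐ[ℝ] M) (h : K) :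
    y h ∈ acl ℝ (gen S y) := by
  have h1 := (trn ℝ K M y {S.X, S.E} h).1 (S.span h)
  rwa [Set.image_pair] at h1

theorem gr_mem_gens (trn : Trn) (S : Sys K M) (y : ℕ → (K →ₐ[ℝ] M)) {i j l : ℕ} (h1 : i ≤ l)
    (h2 : l < j) (h : K) : y l h ∈ acl ℝ (gens S y i j) := by
  refine acl_mono ?_ (gr_mem_gen trn S (y l) h)
  intro x hx
  exact Set.mem_biUnion (Set.mem_Ico.2 ⟨h1, h2⟩) hx

theorem gr_link {r : ℕ} {y : ℕ → (K →ₐ[ℝ] M)} {a b : ℕ → K} (hc : PreChain S r y a b) {j : ℕ}
    (hj : j + 1 < r) : y (j + 1) (a (j + 1)) ∈ acl ℝ ({y j (b j)} : Set M) := by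
  rw [← hc.link j hj]
  exact subset_acl _ (Set.mem_singleton _)

theorem gr_gens_succ (y : ℕ → (K →ₐ[ℝ] M)) {i j : ℕ} (h : i ≤ j) :
    gens S y i (j + 1) = gens S y i j ∪ gen S (y j) := by
  unfold gens
  ext x
  simp only [Set.mem_iUnion, Set.mem_Ico, Set.mem_union, exists_prop]
  constructor
  · rintro ⟨l, ⟨h1, h2⟩, h3⟩
    rcases Nat.lt_succ_iff_lt_or_eq.1 h2 with h4 | h4
    · exact Or.inl ⟨l, ⟨h1, h4⟩, h3⟩
    · subst h4; exact Or.inr h3
  · rintro (⟨l, ⟨h1, h2⟩, h3⟩ | h3)
    · exact ⟨l, ⟨h1, h2.trans (Nat.lt_succ_self j)⟩, h3⟩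
    · exact ⟨j, ⟨h, Nat.lt_succ_self j⟩, h3⟩

theorem gr_gens_self (y : ℕ → (K →ₐ[ℝ] M)) (i : ℕ) : gens S y i i = ∅ := by
  unfold gens
  simp

theorem gr_upper (jac : Jac) (trn : Trn) {r : ℕ} {y : ℕ → (K →ₐ[ℝ] M)} {a b : ℕ → K}
    (hc : PreChain S r y a b) (i : ℕ) : ∀ j, i < j → j ≤ r →
    rk ℝ (gens S y i j) ≤ ((j - i : ℕ) : ℕ∞) + 1 := by
  intro j hij
  induction j, hij using Nat.le_induction with
  | base =>
    intro _
    have e : gens S y i (i + 1) = gen S (y i) := by
      rw [gr_gens_succ y le_rfl, gr_gens_self, Set.empty_union]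
    rw [Nat.succ_eq_add_one, e]
    have h1 : rk ℝ (gen S (y i)) ≤ rk ℝ ({y i S.E} : Set M) + 1 := rk_insert_le _ _
    have h2 : rk ℝ ({y i S.E} : Set M) ≤ rk ℝ (∅ : Set M) + 1 := by
      have : ({y i S.E} : Set M) = insert (y i S.E) ∅ := by simp
      rw [this]
      exact rk_insert_le _ _
    rw [rk_empty, zero_add] at h2
    have h3 : i + 1 - i = 1 := by omega
    rw [h3, Nat.cast_one]
    exact h1.trans (by gcongr)
  | succ j hij ih =>
    intro hj
    have h0 := ih (by omega)
    have e : gens S y i (j + 1) = gens S y i j ∪ gen S (y j) := gr_gens_succ y (by omega)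
    have hsub : gens S y i (j + 1) ⊆ acl ℝ (insert (y j (b j)) (gens S y i j)) := by
      rw [e]
      have ha : y j (a j) ∈ acl ℝ (gens S y i j) := by
        obtain ⟨j', rfl⟩ : ∃ j', j = j' + 1 := ⟨j - 1, by omega⟩
        have h1 := gr_link hc (j := j') (by omega)
        exact acl_le_of_subset (by
          intro x hx
          rw [Set.mem_singleton_iff.1 hx]
          exact gr_mem_gens trn S y (by omega) (by omega) _) h1
      rintro x (hx | hx)
      · exact subset_acl _ (Set.mem_insert_of_mem _ hx)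
      · have h2 : ({y j (b j), y j (a j)} : Set M) ⊆ acl ℝ (insert (y j (b j)) (gens S y i j)) := by
          rintro z (rfl | hz)
          · exact subset_acl _ (Set.mem_insert _ _)
          · rw [Set.mem_singleton_iff.1 hz]
            exact acl_mono (Set.subset_insert _ _) ha
        rcases hx with rfl | hx
        · exact acl_le_of_subset h2
            (gr_gen_sub jac trn S (y j) (hc.ab1 j (by omega)) (hc.ab2 j (by omega)) _)
        · rw [Set.mem_singleton_iff.1 hx]
          exact acl_le_of_subset h2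
            (gr_gen_sub jac trn S (y j) (hc.ab1 j (by omega)) (hc.ab2 j (by omega)) _)
    have h1 := (rk_mono_acl hsub).trans (rk_insert_le _ _)
    have h3 : j + 1 - i = (j - i) + 1 := by omega
    rw [h3, Nat.cast_add, Nat.cast_one]
    exact h1.trans (by gcongr)

theorem gr_lower (ax : Ax) {r : ℕ} {y : ℕ → (K →ₐ[ℝ] M)} {a b : ℕ → K}
    (hc : PreChain S r y a b) (hq : QInd S r y) (i j : ℕ) (hij : i < j) (hj : j ≤ r) :
    ((j - i : ℕ) : ℕ∞) + 1 ≤ rk ℝ (gens S y i j) := by
  have hlam : algebraMap ℝ M S.lam ≠ 0 := by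
    rw [Ne, map_eq_zero]; exact S.lam_pos.ne'
  have h := ax ℝ M S.D S.const (j - i) (by omega)
    (fun l => algebraMap ℝ M S.lam * y (i + (l : ℕ)) S.X) (fun l => y (i + (l : ℕ)) S.E)
    (fun l => by
      rw [Ne, map_eq_zero]; exact S.E_ne)
    (fun l => by
      have hl : i + (l : ℕ) < r := by have := l.2; omega
      have e : S.D (algebraMap ℝ M S.lam * y (i + (l : ℕ)) S.X) =
          algebraMap ℝ M S.lam * S.D (y (i + (l : ℕ)) S.X) := by
        rw [← Algebra.smul_def, Derivation.map_smul, Algebra.smul_def]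
      rw [e, S.pt_exp _ (hc.pt _ hl)]
      ring)
    (by
      rintro m ⟨c, hm⟩
      let mm : ℕ → ℤ := fun k => if h : k < j - i then m ⟨k, h⟩ else 0
      let m' : ℕ → ℤ := fun k => if i ≤ k then mm (k - i) else 0
      have hmm : ∀ l : Fin (j - i), mm l = m l := by
        intro l
        show (if h : (l : ℕ) < j - i then m ⟨l, h⟩ else 0) = m l
        rw [dif_pos l.2]
      have hsum : ∑ k ∈ Finset.range r, (m' k : M) * y k S.X =
          ∑ l : Fin (j - i), (m l : M) * y (i + (l : ℕ)) S.X := by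
        have h1 : ∑ k ∈ Finset.range r, (m' k : M) * y k S.X =
            ∑ k ∈ Finset.Ico i j, (m' k : M) * y k S.X := by
          symm
          apply Finset.sum_subset
          · intro k hk
            rw [Finset.mem_Ico] at hk
            rw [Finset.mem_range]; omega
          · intro k _ hk
            rw [Finset.mem_Ico] at hk
            have : m' k = 0 := by
              show (if i ≤ k then mm (k - i) else 0) = 0
              split_ifs with h2
              · show (if h : k - i < j - i then m ⟨k - i, h⟩ else 0) = 0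
                rw [dif_neg (by omega)]
              · rfl
            rw [this]; simp
        rw [h1, Finset.sum_Ico_eq_sum_range,
          ← Fin.sum_univ_eq_sum_range (fun k => (m' (i + k) : M) * y (i + k) S.X)]
        apply Finset.sum_congr rfl
        intro l _
        have : m' (i + (l : ℕ)) = m l := by
          show (if i ≤ i + (l : ℕ) then mm (i + (l : ℕ) - i) else 0) = m l
          rw [if_pos (by omega), Nat.add_sub_cancel_left, hmm]
        rw [this]
      have hc0 : ∃ c' : ℝ, ∑ k ∈ Finset.range r, (m' k : M) * y k S.X = algebraMap ℝ M c' := by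
        refine ⟨c / S.lam, ?_⟩
        rw [hsum, map_div₀, eq_div_iff hlam, ← hm, Finset.sum_mul]
        apply Finset.sum_congr rfl
        intro l _
        ring
      have h3 := hq m' hc0
      funext l
      have h4 := h3 (i + (l : ℕ)) (by have := l.2; omega)
      have h5 : m' (i + (l : ℕ)) = m l := by
        show (if i ≤ i + (l : ℕ) then mm (i + (l : ℕ) - i) else 0) = m l
        rw [if_pos (by omega), Nat.add_sub_cancel_left, hmm]
      rw [h5] at h4
      exact h4)
  refine h.trans (rk_mono_acl ?_)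
  rintro x (⟨l, rfl⟩ | ⟨l, rfl⟩)
  · refine (acl ℝ (gens S y i j)).mul_mem ((acl ℝ (gens S y i j)).algebraMap_mem _) ?_
    apply subset_acl
    refine Set.mem_biUnion (Set.mem_Ico.2 ⟨Nat.le_add_right i l, by have := l.2; omega⟩) ?_
    exact Set.mem_insert _ _
  · apply subset_acl
    refine Set.mem_biUnion (Set.mem_Ico.2 ⟨Nat.le_add_right i l, by have := l.2; omega⟩) ?_
    exact Set.mem_insert_of_mem _ (Set.mem_singleton _)

end

theorem P_gr (ax : Ax) (jac : Jac) (trn : Trn) : GR := by
  intro K M _ _ _ _ S r y a b hc hq i j hij hj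
  exact le_antisymm (gr_upper jac trn hc i j hij hj) (gr_lower ax hc hq i j hij hj)

end MP52exp
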