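import Pool.Agent.Lib.MP_52aaf2_al.EX.StmG

/-!
# MP_52aaf2_al, project EX: piece LemI (helper37)
-/

open Polynomial IntermediateField

namespace MP52exp

/-- the automorphism of `S` induced by two embeddings with the same image of `S` -/
private theorem lemI_tau {k K M : Type} [Field k] [Field K] [Field M] [Algebra k K] [Algebra k M]
    (y z : K →ₐ[k] M) (S : IntermediateField k K) (h : S.map y = S.map z) :
    ∃ τ : S ≃ₐ[k] S, ∀ a : S, z a = y (τ a) := by
  refine ⟨(S.equivMap z).trans ((IntermediateField.equivOfEq h.symm).trans (S.equivMap y).symm),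
    fun a => ?_⟩
  obtain ⟨b, hb⟩ : ∃ b, b = ((S.equivMap z).trans
    ((IntermediateField.equivOfEq h.symm).trans (S.equivMap y).symm)) a := ⟨_, rfl⟩
  rw [← hb]
  have h1 : S.equivMap y b = (IntermediateField.equivOfEq h.symm) (S.equivMap z a) := by
    rw [hb, AlgEquiv.trans_apply, AlgEquiv.trans_apply]
    exact AlgEquiv.apply_symm_apply _ _
  have h2 := congrArg Subtype.val h1
  rw [coe_equivMap_apply] at h2
  rw [h2]
  rfl

section

variable {k K M : Type} [Field k] [Field K] [Field M] [Algebra k K] [Algebra k M]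

/-- the action on polynomials -/
private noncomputable def lemI_sg {L : Type} [Field L] (τ : L →+* L) (q : L) (G : L[X]) : L[X] :=
  (G.map τ).comp (C q * Polynomial.X)

private theorem lemI_sg_coeff {L : Type} [Field L] (τ : L →+* L) (q : L) (G : L[X]) (n : ℕ) :
    (lemI_sg τ q G).coeff n = τ (G.coeff n) * q ^ n := by
  rw [lemI_sg, Polynomial.comp_C_mul_X_coeff, Polynomial.coeff_map]

private theorem lemI_sg_aeval (y z : K →ₐ[k] M) (L : IntermediateField k K) (τ : L ≃ₐ[k] L)
    (hτ : ∀ a : L, z a = y (τ a)) (E : K) (κ : k) (hzE : z E = algebraMap k M κ * y E) (G : L[X]) :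
    z (aeval E G) = y (aeval E (lemI_sg (τ : L →+* L) (algebraMap k L κ) G)) := by
  induction G using Polynomial.induction_on' with
  | add p q hp hq =>
    have e : lemI_sg (τ : L →+* L) (algebraMap k L κ) (p + q) =
        lemI_sg (τ : L →+* L) (algebraMap k L κ) p + lemI_sg (τ : L →+* L) (algebraMap k L κ) q := by
      rw [lemI_sg, lemI_sg, lemI_sg, Polynomial.map_add, Polynomial.add_comp]
    rw [map_add, map_add, hp, hq, e, map_add, map_add]
  | monomial n b =>
    have e : lemI_sg (τ : L →+* L) (algebraMap k L κ) (monomial n b) =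
        monomial n (τ b * (algebraMap k L κ) ^ n) := by
      ext m
      rw [lemI_sg_coeff, Polynomial.coeff_monomial, Polynomial.coeff_monomial]
      by_cases hnm : n = m
      · subst hnm
        simp
      · simp [hnm]
    rw [e, Polynomial.aeval_monomial, Polynomial.aeval_monomial, map_mul, map_pow, hzE,
      map_mul, map_pow]
    have h1 : algebraMap L K b = (b : K) := rfl
    have h2 : algebraMap L K (τ b * (algebraMap k L κ) ^ n) = (τ b : K) * (algebraMap k K κ) ^ n := by
      rw [map_mul, map_pow]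
      rfl
    rw [h1, h2, hτ, map_mul, map_pow, AlgHom.commutes, mul_pow]
    ring

/-- the elements of `k(X, E)` on which the two embeddings agree are constants -/
private theorem lemI_const (h2 : RF) [CharZero k] (y z : K →ₐ[k] M) (X E : K) (c κ : k)
    (hX : Transcendental k X) (hE : Transcendental k⟮X⟯ E) (hc : c ≠ 0) (hκ0 : κ ≠ 0)
    (hκ : ∀ m : ℕ, 1 ≤ m → κ ^ m ≠ 1) (hzX : z X = y X + algebraMap k M c)
    (hzE : z E = algebraMap k M κ * y E) (a : K)
    (ha : a ∈ IntermediateField.adjoin k ({X, E} : Set K)) (hza : z a = y a) :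
    ∃ u : k, algebraMap k K u = a := by
  classical
  by_cases ha0 : a = 0
  · exact ⟨0, by rw [map_zero, ha0]⟩
  -- the automorphism of `k(X)`
  have hmap : (k⟮X⟯ : IntermediateField k K).map y = (k⟮X⟯).map z := by
    rw [IntermediateField.adjoin_map, IntermediateField.adjoin_map, Set.image_singleton,
      Set.image_singleton]
    apply le_antisymm
    · rw [IntermediateField.adjoin_le_iff, Set.singleton_subset_iff]
      have h1 : y X = z X - algebraMap k M c := by rw [hzX]; ring
      rw [h1]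
      exact sub_mem (IntermediateField.subset_adjoin k _ rfl) (IntermediateField.algebraMap_mem _ _)
    · rw [IntermediateField.adjoin_le_iff, Set.singleton_subset_iff, hzX]
      exact add_mem (IntermediateField.subset_adjoin k _ rfl) (IntermediateField.algebraMap_mem _ _)
  obtain ⟨τ, hτ⟩ := lemI_tau y z k⟮X⟯ hmap
  obtain ⟨pX, hpX⟩ : ∃ pX : k⟮X⟯, (pX : K) = X :=
    ⟨⟨X, IntermediateField.mem_adjoin_simple_self k X⟩, rfl⟩
  have hpt : Transcendental k pX := by
    intro h
    apply hX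
    have := h.algebraMap (A := K)
    rwa [show algebraMap k⟮X⟯ K pX = X from hpX] at this
  have hfrac : ∀ b : k⟮X⟯, ∃ f g : k[X], g ≠ 0 ∧ b = aeval pX f / aeval pX g := by
    intro b
    obtain ⟨r, s, hrs⟩ := (IntermediateField.mem_adjoin_simple_iff k (b : K)).1 b.2
    have hval : ∀ f : k[X], ((aeval pX f : k⟮X⟯) : K) = aeval X f := by
      intro f
      have h3 : ((aeval pX f : k⟮X⟯) : K) = algebraMap k⟮X⟯ K (aeval pX f) := rfl
      rw [h3, ← Polynomial.aeval_algebraMap_apply]
      rw [show algebraMap k⟮X⟯ K pX = X from hpX]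
    by_cases hs : s = 0
    · refine ⟨0, 1, one_ne_zero, ?_⟩
      apply Subtype.ext
      rw [hrs, hs]
      simp
    · refine ⟨r, s, hs, ?_⟩
      apply Subtype.ext
      rw [hrs]
      push_cast
      rw [hval, hval]
  have hτp : (τ : k⟮X⟯ →ₐ[k] k⟮X⟯) pX = pX + algebraMap k k⟮X⟯ c := by
    apply Subtype.ext
    apply (show Function.Injective y from (y : K →+* M).injective)
    have h3 := hτ pX
    rw [hpX, hzX] at h3
    have h4 : (((τ : k⟮X⟯ →ₐ[k] k⟮X⟯) pX : k⟮X⟯) : K) = ((τ pX : k⟮X⟯) : K) := rfl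
    rw [h4, ← h3]
    have h5 : ((pX + algebraMap k k⟮X⟯ c : k⟮X⟯) : K) = X + algebraMap k K c :=
      congrArg (fun b => b + algebraMap k K c) hpX
    rw [h5, map_add, AlgHom.commutes]
  have hRF := (h2 k k⟮X⟯ pX hpt hfrac (τ : k⟮X⟯ →ₐ[k] k⟮X⟯)).1 c
  -- a coefficient with `τ b * κ ^ i = κ ^ d * b`
  have key : ∀ (b : k⟮X⟯) (i d : ℕ), τ b * (algebraMap k k⟮X⟯ κ) ^ i = (algebraMap k k⟮X⟯ κ) ^ d * b →
      (∃ u : k, b = algebraMap k k⟮X⟯ u) ∧ (i ≠ d → b = 0) := by
    intro b i d hb
    have hκL : algebraMap k k⟮X⟯ κ ≠ 0 := by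
      intro h
      exact hκ0 ((map_eq_zero _).1 h)
    have h3 : ∃ u : k, b = algebraMap k k⟮X⟯ u := by
      refine hRF (κ ^ d / κ ^ i) hc hτp b ?_
      rw [map_div₀, map_pow, map_pow]
      have h4 : (τ : k⟮X⟯ →ₐ[k] k⟮X⟯) b = τ b := rfl
      rw [h4, div_mul_eq_mul_div, ← hb, mul_div_cancel_right₀ _ (pow_ne_zero _ hκL)]
    refine ⟨h3, fun hid => ?_⟩
    obtain ⟨u, rfl⟩ := h3
    rw [AlgEquiv.commutes, ← map_pow, ← map_pow, ← map_mul, ← map_mul] at hb
    have h4 : u * κ ^ i = κ ^ d * u := (algebraMap k k⟮X⟯).injective hb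
    by_cases hu : u = 0
    · rw [hu, map_zero]
    · exfalso
      have h5 : κ ^ i = κ ^ d := by
        have : u * κ ^ i = u * κ ^ d := by rw [h4]; ring
        exact mul_left_cancel₀ hu this
      rcases Nat.lt_or_gt_of_ne hid with hlt | hlt
      · apply hκ (d - i) (by omega)
        have h6 : κ ^ d = κ ^ i * κ ^ (d - i) := by rw [← pow_add]; congr 1; omega
        rw [h6] at h5
        exact (mul_left_cancel₀ (pow_ne_zero i hκ0) (by rw [mul_one]; exact h5)).symm
      · apply hκ (i - d) (by omega)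
        have h6 : κ ^ i = κ ^ d * κ ^ (i - d) := by rw [← pow_add]; congr 1; omega
        rw [h6] at h5
        exact mul_left_cancel₀ (pow_ne_zero d hκ0) (by rw [mul_one]; exact h5)
  -- denominators
  obtain ⟨F₀, G₀, hG₀, hFG⟩ : ∃ F G : (k⟮X⟯)[X], G ≠ 0 ∧ aeval E G * a = aeval E F := by
    have h3 : a ∈ IntermediateField.adjoin k⟮X⟯ ({E} : Set K) := by
      have h4 : a ∈ ((IntermediateField.adjoin k⟮X⟯ ({E} : Set K)).restrictScalars k) := by
        have h5 : (({X, E} : Set K)) = {X} ∪ {E} := Set.insert_eq X {E}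
        rw [IntermediateField.adjoin_adjoin_left, ← h5]
        exact ha
      exact h4
    obtain ⟨r, s, hrs⟩ := (IntermediateField.mem_adjoin_simple_iff k⟮X⟯ a).1 h3
    have hs : aeval E s ≠ 0 := by
      intro h
      apply ha0
      rw [hrs, h, div_zero]
    refine ⟨r, s, ?_, ?_⟩
    · rintro rfl
      exact hs (map_zero _)
    · rw [hrs, mul_div_cancel₀ _ hs]
  obtain ⟨σ, hσ⟩ : ∃ σ : (k⟮X⟯)[X] → (k⟮X⟯)[X],
      σ = lemI_sg ((τ : k⟮X⟯ ≃ₐ[k] k⟮X⟯) : k⟮X⟯ →+* k⟮X⟯) (algebraMap k k⟮X⟯ κ) := ⟨_, rfl⟩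
  have hσc : ∀ G n, (σ G).coeff n = τ (G.coeff n) * (algebraMap k k⟮X⟯ κ) ^ n := by
    intro G n
    rw [hσ, lemI_sg_coeff]
    rfl
  have hσa : ∀ G, z (aeval E G) = y (aeval E (σ G)) := by
    intro G
    rw [hσ]
    exact lemI_sg_aeval y z k⟮X⟯ τ hτ E κ hzE G
  have hστ : ∀ F G, aeval E G * a = aeval E F → aeval E (σ G) * a = aeval E (σ F) := by
    intro F G h
    apply (show Function.Injective y from (y : K →+* M).injective)
    rw [map_mul, ← hσa, ← hσa, ← hza, ← map_mul, h]
  have hP : ∃ n, ∃ F G : (k⟮X⟯)[X], G ≠ 0 ∧ G.natDegree = n ∧ aeval E G * a = aeval E F :=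
    ⟨_, F₀, G₀, hG₀, rfl, hFG⟩
  obtain ⟨d, hd⟩ : ∃ d, d = Nat.find hP := ⟨_, rfl⟩
  obtain ⟨F₁, G₁, hG₁, hdeg, hFG₁⟩ := Nat.find_spec hP
  rw [← hd] at hdeg
  have hmin : ∀ F G : (k⟮X⟯)[X], G ≠ 0 → aeval E G * a = aeval E F → d ≤ G.natDegree := by
    intro F G hG h
    rw [hd]
    exact Nat.find_min' hP ⟨F, G, hG, rfl, h⟩
  -- monic
  obtain ⟨l, hl⟩ : ∃ l, l = G₁.leadingCoeff := ⟨_, rfl⟩
  have hl0 : l ≠ 0 := by rw [hl]; exact Polynomial.leadingCoeff_ne_zero.2 hG₁
  obtain ⟨G, hG⟩ : ∃ G, G = C l⁻¹ * G₁ := ⟨_, rfl⟩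
  obtain ⟨F, hF⟩ : ∃ F, F = C l⁻¹ * F₁ := ⟨_, rfl⟩
  have hGd : G.natDegree = d := by
    rw [hG, Polynomial.natDegree_C_mul (inv_ne_zero hl0), hdeg]
  have hGm : G.coeff d = 1 := by
    rw [hG, Polynomial.coeff_C_mul, ← hdeg, Polynomial.coeff_natDegree, ← hl, inv_mul_cancel₀ hl0]
  have hFGn : aeval E G * a = aeval E F := by
    rw [hG, hF, map_mul, map_mul, mul_assoc, hFG₁]
  -- `σ G = κ ^ d G`
  obtain ⟨W, hW⟩ : ∃ W, W = σ G - C ((algebraMap k k⟮X⟯ κ) ^ d) * G := ⟨_, rfl⟩
  have hWc : ∀ n, W.coeff n = τ (G.coeff n) * (algebraMap k k⟮X⟯ κ) ^ n -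
      (algebraMap k k⟮X⟯ κ) ^ d * G.coeff n := by
    intro n
    rw [hW, Polynomial.coeff_sub, hσc, Polynomial.coeff_C_mul]
  have hW0 : W = 0 := by
    by_contra hne
    have h3 : d ≤ W.natDegree := by
      refine hmin (σ F - C ((algebraMap k k⟮X⟯ κ) ^ d) * F) W hne ?_
      rw [hW, map_sub, map_sub, sub_mul, hστ F G hFGn, map_mul, map_mul, mul_assoc, hFGn]
    have h4 : W.coeff W.natDegree = 0 := by
      rw [hWc]
      rcases eq_or_lt_of_le h3 with h5 | h5
      · rw [← h5, hGm, map_one]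
        ring
      · rw [Polynomial.coeff_eq_zero_of_natDegree_lt (by rw [hGd]; exact h5), map_zero]
        ring
    exact hne (Polynomial.leadingCoeff_eq_zero.1 h4)
  have hGc : ∀ i, i ≠ d → G.coeff i = 0 := by
    intro i hi
    refine (key (G.coeff i) i d ?_).2 hi
    have h3 := hWc i
    rw [hW0, Polynomial.coeff_zero] at h3
    exact (sub_eq_zero.1 h3.symm)
  have hGX : G = Polynomial.X ^ d := by
    refine Polynomial.ext fun i => ?_
    rw [Polynomial.coeff_X_pow]
    by_cases hi : i = d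
    · rw [if_pos hi, hi, hGm]
    · rw [if_neg hi, hGc i hi]
  -- `σ F = κ ^ d F`
  have hσG : σ G = C ((algebraMap k k⟮X⟯ κ) ^ d) * G := by
    have h3 := hW0
    rw [hW] at h3
    exact sub_eq_zero.1 h3
  have hσF : σ F = C ((algebraMap k k⟮X⟯ κ) ^ d) * F := by
    have h3 : aeval E (σ F) = aeval E (C ((algebraMap k k⟮X⟯ κ) ^ d) * F) := by
      rw [← hστ F G hFGn, hσG, map_mul, map_mul, mul_assoc, hFGn]
    by_contra hne
    apply hE
    refine ⟨σ F - C ((algebraMap k k⟮X⟯ κ) ^ d) * F, sub_ne_zero.2 hne, ?_⟩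
    rw [map_sub, h3, sub_self]
  have hFc : ∀ i, τ (F.coeff i) * (algebraMap k k⟮X⟯ κ) ^ i = (algebraMap k k⟮X⟯ κ) ^ d * F.coeff i := by
    intro i
    rw [← hσc, hσF, Polynomial.coeff_C_mul]
  obtain ⟨u, hu⟩ := (key (F.coeff d) d d (hFc d)).1
  have hFX : F = C (algebraMap k k⟮X⟯ u) * Polynomial.X ^ d := by
    refine Polynomial.ext fun i => ?_
    rw [Polynomial.coeff_C_mul, Polynomial.coeff_X_pow]
    by_cases hi : i = d
    · rw [if_pos hi, hi, mul_one, hu]
    · rw [if_neg hi, mul_zero]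
      exact (key (F.coeff i) i d (hFc i)).2 hi
  rw [hGX, hFX, map_mul, map_pow, Polynomial.aeval_X, Polynomial.aeval_C] at hFGn
  have hE0 : E ≠ 0 := by
    rintro rfl
    exact hE (isAlgebraic_zero)
  refine ⟨u, ?_⟩
  have h6 : algebraMap k⟮X⟯ K (algebraMap k k⟮X⟯ u) = algebraMap k K u := rfl
  rw [h6, mul_comm] at hFGn
  exact (mul_right_cancel₀ (pow_ne_zero d hE0) hFGn).symm

end

/-- piece LemI -/
theorem P_lemI (h1 : GP) (h2 : RF) : LemI := by
  intro k K M _ _ _ _ _ _ y z X E h c κ hE hX hh hc hκ0 hκ hzX hzE hzh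
  -- independence
  have hEX : E ∉ acl k ({X} : Set K) := by
    intro hmem
    have h3 : E ∈ acl k (insert X (∅ : Set K)) := by
      have : (insert X (∅ : Set K)) = {X} := by simp
      rw [this]
      exact hmem
    have h4 := acl_exchange h3 hE
    have h5 : (insert E (∅ : Set K)) = {E} := by simp
    rw [h5] at h4
    exact hX h4
  have hX0 : X ∉ acl k (∅ : Set K) := fun hmem => hX (acl_mono (Set.empty_subset _) hmem)
  have hXt : Transcendental k X := fun hmem => hX0 (mem_acl_empty.2 hmem)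
  have hEt : Transcendental k⟮X⟯ E := fun hmem => hEX (mem_acl_singleton.2 hmem)
  -- the automorphism of `k(X, E)`
  obtain ⟨S, hS⟩ : ∃ S, S = IntermediateField.adjoin k ({X, E} : Set K) := ⟨_, rfl⟩
  have hmap : S.map y = S.map z := by
    rw [hS, IntermediateField.adjoin_map, IntermediateField.adjoin_map, Set.image_pair,
      Set.image_pair]
    have hκM : algebraMap k M κ ≠ 0 := fun h3 => hκ0 ((map_eq_zero _).1 h3)
    apply le_antisymm
    · rw [IntermediateField.adjoin_le_iff]
      have m1 : z X ∈ IntermediateField.adjoin k ({z X, z E} : Set M) :=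
        IntermediateField.subset_adjoin k _ (by simp)
      have m2 : z E ∈ IntermediateField.adjoin k ({z X, z E} : Set M) :=
        IntermediateField.subset_adjoin k _ (by simp)
      rintro b (rfl | hb)
      · have h3 : y X = z X - algebraMap k M c := by rw [hzX]; ring
        rw [h3]
        exact sub_mem m1 (IntermediateField.algebraMap_mem _ _)
      · rw [Set.mem_singleton_iff] at hb
        rw [hb]
        have h3 : y E = (algebraMap k M κ)⁻¹ * z E := by
          rw [hzE, inv_mul_cancel_left₀ hκM]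
        rw [h3]
        exact mul_mem (inv_mem (IntermediateField.algebraMap_mem _ _)) m2
    · rw [IntermediateField.adjoin_le_iff]
      have m1 : y X ∈ IntermediateField.adjoin k ({y X, y E} : Set M) :=
        IntermediateField.subset_adjoin k _ (by simp)
      have m2 : y E ∈ IntermediateField.adjoin k ({y X, y E} : Set M) :=
        IntermediateField.subset_adjoin k _ (by simp)
      rintro b (rfl | hb)
      · rw [hzX]
        exact add_mem m1 (IntermediateField.algebraMap_mem _ _)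
      · rw [Set.mem_singleton_iff] at hb
        rw [hb, hzE]
        exact mul_mem (IntermediateField.algebraMap_mem _ _) m2
  obtain ⟨τ, hτ⟩ := lemI_tau y z S hmap
  have hhS : IsAlgebraic S h := by
    rw [hS]
    exact hh
  have hGP := h1 S K M (y : K →+* M) (z : K →+* M) (τ : S ≃+* S) (fun a => hτ a) h hhS 1
    one_ne_zero (by
      rw [map_one, one_mul]
      exact hzh)
  have hco : ∀ i, ∃ u : k, algebraMap k S u = (minpoly S h).coeff i := by
    intro i
    by_cases hi : i ≤ (minpoly S h).natDegree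
    · have h3 := hGP i hi
      rw [one_pow, one_mul] at h3
      have h4 : z ((minpoly S h).coeff i : K) = y ((minpoly S h).coeff i : K) := by
        rw [hτ]
        exact congrArg (fun b : S => y (b : K)) h3
      obtain ⟨u, hu⟩ := lemI_const h2 y z X E c κ hXt hEt hc hκ0 hκ hzX hzE
        ((minpoly S h).coeff i : K) (by rw [← hS]; exact ((minpoly S h).coeff i).2) h4
      exact ⟨u, Subtype.ext hu⟩
    · refine ⟨0, ?_⟩
      rw [map_zero, Polynomial.coeff_eq_zero_of_natDegree_lt (not_le.1 hi)]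
  have hlift : minpoly S h ∈ Polynomial.lifts (algebraMap k S) := by
    rw [Polynomial.lifts_iff_coeff_lifts]
    intro i
    exact hco i
  obtain ⟨P, hP⟩ := (Polynomial.mem_lifts _).1 hlift
  refine ⟨P, ?_, ?_⟩
  · rintro rfl
    rw [Polynomial.map_zero] at hP
    exact minpoly.ne_zero hhS.isIntegral hP.symm
  · rw [← Polynomial.aeval_map_algebraMap S h P, hP]
    exact minpoly.aeval S h

end MP52exp
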