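import Pool.Agent.Lib.MP_52aaf2_al.EX.StmA

/-!
# MP_52aaf2_al, project EX: from chains to freeness
-/

set_option autoImplicit false

open Filter Topology

open MP52aaf2 (GermGroup germ alpha FreePair germ_eq_iff germ_mul)

namespace MP52exp

private theorem wb_shift (n : ℤ) :
    (OrderIso.addRight (1 : ℝ)) ^ n = OrderIso.addRight (n : ℝ) := by
  induction n using Int.induction_on with
  | zero =>
    rw [zpow_zero]
    ext x
    change x = x + ((0 : ℤ) : ℝ)
    simp
  | succ i ih =>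
    rw [zpow_add_one, ih]
    ext x
    change (x + 1) + (((i : ℕ) : ℤ) : ℝ) = x + (((i : ℕ) : ℤ) + 1 : ℤ)
    push_cast
    ring
  | pred i ih =>
    rw [zpow_sub_one, ih]
    ext x
    change (x + -1) + ((-((i : ℕ) : ℤ) : ℤ) : ℝ) = x + ((-((i : ℕ) : ℤ) - 1 : ℤ) : ℝ)
    push_cast
    ring

private theorem wb_alpha (n : ℤ) : alpha ^ n = germ (OrderIso.addRight (n : ℝ)) := by
  rw [alpha, MP52aaf2.germ_zpow, wb_shift]

/-- the data carried by a group element -/
private structure WbD {lam : ℝ} (S : Sys (KF lam) MG) (P : KF lam) (g : GermGroup)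
    (c : Ty → Prop) (q : ℕ) (y : ℕ → (KF lam →ₐ[ℝ] MG)) (t : ℕ → Ty) (n : ℕ → ℤ) (n₀ : ℤ)
    (f : ℝ ≃o ℝ) (hf : f ∈ AnG) : Prop where
  ger : germ f = g
  ch : IsChain S P (q + 1) y t n
  typ : c (t q)
  las : mmk f hf.1 = y q (out S P (t q))
  fir : y 0 (inn S P (t 0)) =
    mmk (fun x => x + (n₀ : ℝ)) (evAn_id.add (evAn_const (n₀ : ℝ)))

private def WbSp {lam : ℝ} (S : Sys (KF lam) MG) (P : KF lam) (g : GermGroup) : Prop :=
  ∃ q y t n n₀ f, ∃ hf : f ∈ AnG, WbD S P g (fun τ => τ ≠ .m) q y t n n₀ f hf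

private def WbSm {lam : ℝ} (S : Sys (KF lam) MG) (P : KF lam) (g : GermGroup) : Prop :=
  ∃ q y t n n₀ f, ∃ hf : f ∈ AnG, WbD S P g (fun τ => τ = .m) q y t n n₀ f hf ∧
    ∀ (h : KF lam) (φ : ℝ → ℝ) (hφ : EvAn φ) (hφ' : EvAn fun x => φ (f x)),
      (h : MG) = mmk φ hφ → y q h = mmk (fun x => φ (f x)) hφ'

/-- adding a point at the end -/
private theorem wb_ext {lam : ℝ} (S : Sys (KF lam) MG) (P : KF lam) {q : ℕ}
    {y : ℕ → (KF lam →ₐ[ℝ] MG)} {t : ℕ → Ty} {n : ℕ → ℤ} (ch : IsChain S P (q + 1) y t n)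
    (z : KF lam →ₐ[ℝ] MG) (hz : z ∈ S.Pt) (τ : Ty) (ν : ℤ)
    (hl : z (inn S P τ) = y q (out S P (t q)) + (ν : MG))
    (h1 : t q = .m → τ ≠ .p) (h2 : t q ≠ .m → τ ≠ .p → ν ≠ 0) (h3 : ∀ s, τ = .mp s → s ≠ 0) :
    IsChain S P (q + 1 + 1) (Function.update y (q + 1) z) (Function.update t (q + 1) τ)
      (Function.update n q ν) := by
  have hy : ∀ j, j < q + 1 → Function.update y (q + 1) z j = y j := fun j hj =>
    Function.update_of_ne (by omega) _ _
  have ht : ∀ j, j < q + 1 → Function.update t (q + 1) τ j = t j := fun j hj =>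
    Function.update_of_ne (by omega) _ _
  have hn : ∀ j, j < q → Function.update n q ν j = n j := fun j hj =>
    Function.update_of_ne (by omega) _ _
  refine ⟨?_, ?_, ?_, ?_, ?_⟩
  · intro j hj
    rcases Nat.lt_or_ge j (q + 1) with h | h
    · rw [hy j h]; exact ch.pt j h
    · have : j = q + 1 := by omega
      subst this
      rw [Function.update_self]; exact hz
  · intro j hj
    rcases Nat.lt_or_ge (j + 1) (q + 1) with h | h
    · rw [hy j (by omega), hy _ h, ht _ h, ht j (by omega), hn j (by omega)]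
      exact ch.link j h
    · have : j = q := by omega
      subst this
      rw [Function.update_self, Function.update_self, Function.update_self, hy j (by omega),
        ht j (by omega)]
      exact hl
  · intro j hj
    rcases Nat.lt_or_ge (j + 1) (q + 1) with h | h
    · rw [ht _ h, ht j (by omega)]
      exact ch.v1 j h
    · have : j = q := by omega
      subst this
      rw [Function.update_self, ht j (by omega)]
      exact h1
  · intro j hj
    rcases Nat.lt_or_ge (j + 1) (q + 1) with h | h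
    · rw [ht _ h, ht j (by omega), hn j (by omega)]
      exact ch.v2 j h
    · have : j = q := by omega
      subst this
      rw [Function.update_self, Function.update_self, ht j (by omega)]
      exact h2
  · intro j hj
    rcases Nat.lt_or_ge j (q + 1) with h | h
    · rw [ht j h]; exact ch.tne j h
    · have : j = q + 1 := by omega
      subst this
      rw [Function.update_self]; exact h3

/-- changing the last type from `m` to `mp s` -/
private theorem wb_chg {lam : ℝ} (S : Sys (KF lam) MG) (P : KF lam) {q : ℕ}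
    {y : ℕ → (KF lam →ₐ[ℝ] MG)} {t : ℕ → Ty} {n : ℕ → ℤ} (ch : IsChain S P (q + 1) y t n)
    (htq : t q = .m) (s : ℤ) (hs : s ≠ 0) :
    IsChain S P (q + 1) y (Function.update t q (.mp s)) n := by
  have ht : ∀ j, j < q → Function.update t q (.mp s) j = t j := fun j hj =>
    Function.update_of_ne (by omega) _ _
  refine ⟨ch.pt, ?_, ?_, ?_, ?_⟩
  · intro j hj
    rw [ht j (by omega)]
    rcases Nat.lt_or_ge (j + 1) q with h | h
    · rw [ht _ h]; exact ch.link j hj
    · have : j + 1 = q := by omega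
      subst this
      rw [Function.update_self]
      have h4 := ch.link j hj
      rw [htq] at h4
      exact h4
  · intro j hj
    rw [ht j (by omega)]
    rcases Nat.lt_or_ge (j + 1) q with h | h
    · rw [ht _ h]; exact ch.v1 j hj
    · have : j + 1 = q := by omega
      subst this
      rw [Function.update_self]
      intro _ h5
      cases h5
  · intro j hj
    rw [ht j (by omega)]
    rcases Nat.lt_or_ge (j + 1) q with h | h
    · rw [ht _ h]; exact ch.v2 j hj
    · have : j + 1 = q := by omega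
      subst this
      rw [Function.update_self]
      intro h5 _
      refine ch.v2 j hj h5 ?_
      rw [htq]
      intro h6
      cases h6
  · intro j hj s' hs'
    rcases Nat.lt_or_ge j q with h | h
    · rw [ht j h] at hs'; exact ch.tne j hj s' hs'
    · have : j = q := by omega
      subst this
      rw [Function.update_self] at hs'
      injection hs' with h6
      rw [← h6]; exact hs

private theorem wb_mmk_add_int {f : ℝ → ℝ} (hf : EvAn f) (n : ℤ) :
    mmk f hf + (n : MG) = mmk (fun x => f x + (n : ℝ)) (hf.add (evAn_const _)) := by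
  have h1 : (n : MG) = mmk (fun _ => (n : ℝ)) (evAn_const _) := by
    rw [← algebraMap_MG, map_intCast]
  rw [h1, mmk_add]

theorem P_wb (hWa : Wa) : Wb := by
  intro lam S hS β hβ P hP hch
  -- elementary facts
  have hX : ((S.X : KF lam) : MG) = mmk (fun x => x) evAn_id := by rw [hS.X_eq]; rfl
  have hβs : β.symm ∈ AnG := AnG.inv_mem hβ
  have hev : ∀ {f : ℝ ≃o ℝ}, f ∈ AnG → EvAn (fun x => f x) := fun hf => hf.1
  -- the germ of `α ^ n g`
  have hag : ∀ (f : ℝ ≃o ℝ) (n : ℤ), alpha ^ n * germ f = germ (OrderIso.addRight (n : ℝ) * f) :=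
    fun f n => by rw [wb_alpha, germ_mul]
  -- new point of type `p`
  have hp : ∀ (g : ℝ ≃o ℝ) (hg : g ∈ AnG), ∃ z ∈ S.Pt, z S.X = mmk g hg.1 ∧
      z P = mmk (fun x => β (g x)) (EvAn.comp hβ.1 hg.1) := by
    intro g hg
    obtain ⟨z, hz, hz'⟩ := hS.pt g hg
    exact ⟨z, hz, hz' S.X _ evAn_id hg.1 hX, hz' P _ hβ.1 (EvAn.comp hβ.1 hg.1) hP⟩
  -- new point of type `m`
  have hm : ∀ (g : ℝ ≃o ℝ) (hg : g ∈ AnG) (hg' : β.symm * g ∈ AnG), ∃ z ∈ S.Pt,
      z S.X = mmk (β.symm * g : ℝ ≃o ℝ) hg'.1 ∧ z P = mmk g hg.1 ∧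
      ∀ (h : KF lam) (φ : ℝ → ℝ) (hφ : EvAn φ)
        (hφ' : EvAn fun x => φ ((β.symm * g : ℝ ≃o ℝ) x)),
        (h : MG) = mmk φ hφ → z h = mmk (fun x => φ ((β.symm * g : ℝ ≃o ℝ) x)) hφ' := by
    intro g hg hg'
    obtain ⟨z, hz, hz'⟩ := hS.pt _ hg'
    refine ⟨z, hz, hz' S.X _ evAn_id hg'.1 hX, ?_, hz'⟩
    rw [hz' P _ hβ.1 (EvAn.comp hβ.1 hg'.1) hP, mmk_eq]
    refine Eventually.of_forall fun x => ?_
    change β (β.symm (g x)) = g x
    rw [OrderIso.apply_symm_apply]
  have hfm : ∀ {f : ℝ ≃o ℝ} (n : ℤ), f ∈ AnG → OrderIso.addRight (n : ℝ) * f ∈ AnG :=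
    fun n hf => AnG.mul_mem (shift_mem _) hf
  refine hWa GermGroup alpha (germ β) (WbSp S P) (WbSm S P) ?_ ?_ ?_ ?_ ?_ ?_ ?_ ?_
  · -- powers of `α`
    intro n hn h
    rw [wb_alpha, ← MP52aaf2.germ_one, germ_eq_iff] at h
    obtain ⟨x, hx⟩ := h.exists
    have hx' : x + (n : ℝ) = x := hx
    have : (n : ℝ) = 0 := by linarith
    exact hn (by exact_mod_cast this)
  · -- `β α ^ n`
    intro n
    obtain ⟨z, hz, hz1, hz2⟩ := hp _ (shift_mem (n : ℝ))
    refine ⟨0, fun _ => z, fun _ => .p, fun _ => 0, n, β * OrderIso.addRight (n : ℝ),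
      AnG.mul_mem hβ (shift_mem _), ⟨?_, ⟨?_, ?_, ?_, ?_, ?_⟩, ?_, ?_, ?_⟩⟩
    · rw [wb_alpha, germ_mul]
    · exact fun _ _ => hz
    · intro j hj; omega
    · intro j hj; omega
    · intro j hj; omega
    · intro j _ s hs; cases hs
    · intro h; cases h
    · exact hz2.symm
    · exact hz1
  · -- `β⁻¹ α ^ n`
    intro n
    have hg' : β.symm * OrderIso.addRight (n : ℝ) ∈ AnG := AnG.mul_mem hβs (shift_mem _)
    obtain ⟨z, hz, hz1, hz2, hz3⟩ := hm _ (shift_mem (n : ℝ)) hg'
    refine ⟨0, fun _ => z, fun _ => .m, fun _ => 0, n, β.symm * OrderIso.addRight (n : ℝ),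
      hg', ⟨⟨?_, ⟨?_, ?_, ?_, ?_, ?_⟩, rfl, ?_, ?_⟩, ?_⟩⟩
    · rw [wb_alpha, MP52aaf2.germ_inv, germ_mul]; rfl
    · exact fun _ _ => hz
    · intro j hj; omega
    · intro j hj; omega
    · intro j hj; omega
    · intro j _ s hs; cases hs
    · exact hz1.symm
    · exact hz2
    · exact hz3
  · -- `sp`, then `β α ^ n`
    rintro g ⟨q, y, t, ν, n₀, f, hf, hd⟩ n
    obtain ⟨z, hz, hz1, hz2⟩ := hp _ (hfm n hf)
    refine ⟨q + 1, Function.update y (q + 1) z, Function.update t (q + 1) .p,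
      Function.update ν q n, n₀, β * (OrderIso.addRight (n : ℝ) * f),
      AnG.mul_mem hβ (hfm n hf), ⟨?_, wb_ext S P hd.ch z hz .p n ?_ ?_ ?_ ?_, ?_, ?_, ?_⟩⟩
    · rw [mul_assoc, ← hd.ger, hag, germ_mul]
    · rw [← hd.las, wb_mmk_add_int]
      exact hz1
    · intro h; exact absurd h hd.typ
    · intro _ h; exact absurd rfl h
    · intro s hs; cases hs
    · rw [Function.update_self]; intro h; cases h
    · rw [Function.update_self, Function.update_self]; exact hz2.symm
    · rw [Function.update_of_ne (by omega), Function.update_of_ne (by omega)]; exact hd.fir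
  · -- `sp`, then `β⁻¹ α ^ n`
    rintro g ⟨q, y, t, ν, n₀, f, hf, hd⟩ n hn
    have hg' : β.symm * (OrderIso.addRight (n : ℝ) * f) ∈ AnG := AnG.mul_mem hβs (hfm n hf)
    obtain ⟨z, hz, hz1, hz2, hz3⟩ := hm _ (hfm n hf) hg'
    refine ⟨q + 1, Function.update y (q + 1) z, Function.update t (q + 1) .m,
      Function.update ν q n, n₀, β.symm * (OrderIso.addRight (n : ℝ) * f), hg',
      ⟨⟨?_, wb_ext S P hd.ch z hz .m n ?_ ?_ ?_ ?_, ?_, ?_, ?_⟩, ?_⟩⟩
    · rw [mul_assoc, ← hd.ger, hag, MP52aaf2.germ_inv, germ_mul]; rfl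
    · rw [← hd.las, wb_mmk_add_int]
      exact hz2
    · intro _ h; cases h
    · intro _ _; exact hn
    · intro s hs; cases hs
    · rw [Function.update_self]
    · rw [Function.update_self, Function.update_self]; exact hz1.symm
    · rw [Function.update_of_ne (by omega), Function.update_of_ne (by omega)]; exact hd.fir
    · rw [Function.update_self]; exact hz3
  · -- `sm`, then `β⁻¹ α ^ n`
    rintro g ⟨q, y, t, ν, n₀, f, hf, hd, hd'⟩ n
    have hg' : β.symm * (OrderIso.addRight (n : ℝ) * f) ∈ AnG := AnG.mul_mem hβs (hfm n hf)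
    obtain ⟨z, hz, hz1, hz2, hz3⟩ := hm _ (hfm n hf) hg'
    refine ⟨q + 1, Function.update y (q + 1) z, Function.update t (q + 1) .m,
      Function.update ν q n, n₀, β.symm * (OrderIso.addRight (n : ℝ) * f), hg',
      ⟨⟨?_, wb_ext S P hd.ch z hz .m n ?_ ?_ ?_ ?_, ?_, ?_, ?_⟩, ?_⟩⟩
    · rw [mul_assoc, ← hd.ger, hag, MP52aaf2.germ_inv, germ_mul]; rfl
    · rw [← hd.las, wb_mmk_add_int]
      exact hz2
    · intro _ h; cases h
    · intro h; exact absurd hd.typ h
    · intro s hs; cases hs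
    · rw [Function.update_self]
    · rw [Function.update_self, Function.update_self]; exact hz1.symm
    · rw [Function.update_of_ne (by omega), Function.update_of_ne (by omega)]; exact hd.fir
    · rw [Function.update_self]; exact hz3
  · -- `sm`, then `β α ^ n`
    rintro g ⟨q, y, t, ν, n₀, f, hf, hd, hd'⟩ n hn
    have htq : t q = .m := hd.typ
    refine ⟨q, y, Function.update t q (.mp n), ν, n₀, β * (OrderIso.addRight (n : ℝ) * f),
      AnG.mul_mem hβ (hfm n hf), ⟨?_, wb_chg S P hd.ch htq n hn, ?_, ?_, ?_⟩⟩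
    · rw [mul_assoc, ← hd.ger, hag, germ_mul]
    · rw [Function.update_self]; intro h; cases h
    · rw [Function.update_self]
      have hbn : EvAn fun x => β (x + (n : ℝ)) := EvAn.comp hβ.1 (shift_mem (n : ℝ)).1
      have h1 := hS.sh_eq n P β hβ.1 hbn hP
      have h2 := hd' (S.sh n P) (fun x => β (x + (n : ℝ))) hbn
        ((hbn.comp (g := f) hf.1)) h1
      exact h2.symm
    · rcases Nat.eq_zero_or_pos q with h | h
      · subst h
        rw [Function.update_self]
        have h4 := hd.fir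
        rw [htq] at h4
        exact h4
      · rw [Function.update_of_ne (by omega)]; exact hd.fir
  · -- the end
    have key : ∀ (g : GermGroup) (c : Ty → Prop) (q : ℕ) (y : ℕ → (KF lam →ₐ[ℝ] MG))
        (t : ℕ → Ty) (ν : ℕ → ℤ) (n₀ : ℤ) (f : ℝ ≃o ℝ) (hf : f ∈ AnG),
        WbD S P g c q y t ν n₀ f hf → ∀ n : ℤ, alpha ^ n * g ≠ 1 := by
      intro g c q y t ν n₀ f hf hd n h
      rw [← hd.ger, hag, ← MP52aaf2.germ_one, germ_eq_iff] at h
      refine hch (q + 1) y t ν hd.ch (by omega) ?_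
      rw [Nat.add_sub_cancel, hd.fir, ← hd.las]
      have h1 : mmk (fun x => x + (n₀ : ℝ)) (evAn_id.add (evAn_const (n₀ : ℝ))) =
          mmk f hf.1 + ((n + n₀ : ℤ) : MG) := by
        rw [wb_mmk_add_int, mmk_eq]
        filter_upwards [h] with x hx
        have hx' : f x + (n : ℝ) = x := hx
        push_cast
        linarith
      rw [h1]
      refine add_mem (subset_acl _ (Set.mem_singleton _)) ?_
      exact intCast_mem _ _
    rintro g (⟨q, y, t, ν, n₀, f, hf, hd⟩ | ⟨q, y, t, ν, n₀, f, hf, hd, -⟩) n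
    · exact key g _ q y t ν n₀ f hf hd n
    · exact key g _ q y t ν n₀ f hf hd n

end MP52exp
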