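import Pool.Agent.Lib.MP_52aaf2_al.EX.Acl

/-!
# MP_52aaf2_al, project EX: the algebraic setting

`K` is the field of functions algebraic over `ℝ(X, E)`, `X = x`, `E = e^{λ x}`, with the
derivations `DX = ∂/∂X`, `DE = E ∂/∂E` and the shifts `x ↦ x + s`; `M` is a big field of functions
with the derivation `D = d/dx`, whose constants are the reals. A point `y ∈ Pt` is the embedding
`h ↦ h ∘ U` of `K` in `M`, for a function `U` (so `y X = U` and `y E = e^{λ U}`).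
-/

namespace MP52exp

/-- the algebraic setting (see the header) -/
structure Sys (K M : Type) [Field K] [Field M] [Algebra ℝ K] [Algebra ℝ M] where
  X : K
  E : K
  DX : Derivation ℝ K K
  DE : Derivation ℝ K K
  DX_X : DX X = 1
  DX_E : DX E = 0
  DE_X : DE X = 0
  DE_E : DE E = E
  E_ne : E ≠ 0
  span : ∀ h : K, h ∈ acl ℝ ({X, E} : Set K)
  lam : ℝ
  lam_pos : 0 < lam
  sh : ℤ → (K ≃ₐ[ℝ] K)
  sh_X : ∀ s, sh s X = X + (s : K)
  sh_E : ∀ s, sh s E = algebraMap ℝ K (Real.exp (lam * s)) * E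
  D : Derivation ℝ M M
  const : ∀ a, D a = 0 → ∃ c : ℝ, algebraMap ℝ M c = a
  Pt : Set (K →ₐ[ℝ] M)
  pt_ne : ∀ y ∈ Pt, D (y X) ≠ 0
  pt_exp : ∀ y ∈ Pt, D (y E) = algebraMap ℝ M lam * (y E * D (y X))
  pt_add : ∀ y ∈ Pt, ∀ z ∈ Pt, ∀ c : ℝ, y X + z X ≠ algebraMap ℝ M c
  pt_eq : ∀ y ∈ Pt, ∀ z ∈ Pt, y X = z X → y = z
  pt_real : ∀ y ∈ Pt, ∀ z ∈ Pt, ∀ c : ℝ, z X = y X + algebraMap ℝ M c →
    z E = algebraMap ℝ M (Real.exp (lam * c)) * y E
  pt_sh : ∀ y ∈ Pt, ∀ s : ℤ, y.comp (sh s).toAlgHom ∈ Pt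

section Chain

variable {K M : Type} [Field K] [Field M] [Algebra ℝ K] [Algebra ℝ M] (S : Sys K M)

/-- `y X` and `y E` -/
def gen (y : K →ₐ[ℝ] M) : Set M := {y S.X, y S.E}

/-- all `y_l X, y_l E` with `i ≤ l < j` -/
def gens (y : ℕ → (K →ₐ[ℝ] M)) (i j : ℕ) : Set M := ⋃ l ∈ Set.Ico i j, gen S (y l)

/-- A chain of `r` points `y 0, …, y (r - 1)`; the `j`-th one has an incoming element `a j` and an
outgoing element `b j`, and neighbours are linked by algebraic dependence. -/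
structure PreChain (r : ℕ) (y : ℕ → (K →ₐ[ℝ] M)) (a b : ℕ → K) : Prop where
  pt : ∀ j < r, y j ∈ S.Pt
  ab1 : ∀ j < r, a j ∉ acl ℝ (∅ : Set K)
  ab2 : ∀ j < r, b j ∉ acl ℝ ({a j} : Set K)
  link : ∀ j, j + 1 < r → acl ℝ ({y (j + 1) (a (j + 1))} : Set M) = acl ℝ ({y j (b j)} : Set M)

/-- `y 0 X, …, y (r - 1) X` are linearly independent over `ℚ` modulo constants. -/
def QInd (r : ℕ) (y : ℕ → (K →ₐ[ℝ] M)) : Prop :=
  ∀ m : ℕ → ℤ, (∃ c : ℝ, ∑ j ∈ Finset.range r, (m j : M) * y j S.X = algebraMap ℝ M c) →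
    ∀ j < r, m j = 0

/-- the types of points: `p` for a letter `β`, `m` for a letter `β⁻¹`, and `mp s` for
`β⁻¹`, a shift by `s`, `β`. -/
inductive Ty
  | p : Ty
  | m : Ty
  | mp : ℤ → Ty

/-- incoming element -/
def inn (P : K) : Ty → K
  | .p => S.X
  | .m => P
  | .mp _ => P

/-- outgoing element -/
def out (P : K) : Ty → K
  | .p => P
  | .m => S.X
  | .mp s => S.sh s P

/-- the chain of a reduced word in `x + 1` and `β` (`P` is the function `β`) -/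
structure IsChain (P : K) (r : ℕ) (y : ℕ → (K →ₐ[ℝ] M)) (t : ℕ → Ty) (n : ℕ → ℤ) : Prop where
  pt : ∀ j < r, y j ∈ S.Pt
  link : ∀ j, j + 1 < r → y (j + 1) (inn S P (t (j + 1))) = y j (out S P (t j)) + (n j : M)
  v1 : ∀ j, j + 1 < r → t j = .m → t (j + 1) ≠ .p
  v2 : ∀ j, j + 1 < r → t j ≠ .m → t (j + 1) ≠ .p → n j ≠ 0
  tne : ∀ j < r, ∀ s, t j = .mp s → s ≠ 0

/-- `P = β` depends on `X` and on `E`, and `β(x + s)` is not an algebraic function of
`β(x) + κ x`, for all integers `s ≠ 0` and all rational `κ`. -/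
structure Good (P : K) : Prop where
  hX : S.DX P ≠ 0
  hE : S.DE P ≠ 0
  hA : ∀ s : ℤ, s ≠ 0 → ∀ κ : ℚ, S.sh s P ∉ acl ℝ ({P + (κ : K) * S.X} : Set K)

/-- `μ = (∂P/∂X) / (E ∂P/∂E)` -/
noncomputable def mu (P : K) : K := S.DX P / S.DE P

/-- the Jacobian of `P, μ` -/
noncomputable def jac (P : K) : K := S.DX P * S.DE (mu S P) - S.DE P * S.DX (mu S P)

/-- `∂X/∂P` at constant `μ` -/
noncomputable def aa (P : K) : K := S.DE (mu S P) / jac S P

/-- `(∂E/∂P) / E` at constant `μ` -/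
noncomputable def bb (P : K) : K := - S.DX (mu S P) / jac S P

end Chain

end MP52exp
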